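import Pool.Agent.P.MP_e7a540_nt.B5.Iface

/-! Assembly of the steps. -/

set_option autoImplicit false

namespace Pool.Agent.P.MP_e7a540_nt.B5

open Pool.Agent.P.MP_8b7eba_nt.Mod Module Filter Topology Asymptotics CongruenceSubgroup

lemma fin_of_le (hFIN : S_FIN) {n : ℕ} {A : Submodule ℂ Fn} (h : A ≤ SS n) :
    FiniteDimensional ℂ A :=
  haveI := hFIN.1 n
  Submodule.finiteDimensional_of_le h

lemma telescope (hWU : S_WU) (hFIN : S_FIN) (hSTEP : S_STEP) (n : ℕ) :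
    ∀ j, j ≤ n → finrank ℂ (Vn (j + 2)) + finrank ℂ (Dp (n + 1)) ≤ finrank ℂ (Am (n + 2)) := by
  induction n with
  | zero =>
    intro j hj
    obtain rfl : j = 0 := by omega
    have h0 : Dp 1 = ⊥ := by
      refine (Submodule.eq_bot_iff _).2 fun ψ hψ => ?_
      obtain ⟨h1, h2⟩ := mem_Dp.1 hψ
      have := (hWU.1 1 ψ h1).2.2.1
      rw [h2] at this
      exact hFIN.2 ψ h1 (by linear_combination this / 2)
    have : FiniteDimensional ℂ (Am 2) := fin_of_le hFIN fun ψ h => (mem_Am.1 h).1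
    have := Submodule.finrank_mono (s := Vn 2) (t := Am 2) fun ψ h => (mem_Vn.1 h).1
    rw [zero_add, zero_add, h0, finrank_bot, add_zero]
    exact this
  | succ n ih =>
    intro j hj
    have h1 := hSTEP n
    have h2 := ih 0 (by omega)
    rcases Nat.lt_or_ge n j with h | h
    · obtain rfl : j = n + 1 := by omega
      change finrank ℂ (Vn (n + 3)) + finrank ℂ (Dp (n + 2)) ≤ finrank ℂ (Am (n + 3))
      omega
    · have := ih j h
      change finrank ℂ (Vn (j + 2)) + finrank ℂ (Dp (n + 2)) ≤ finrank ℂ (Am (n + 3))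
      omega

lemma lower (hEVL : S_EVL) (hDE : S_DE) (hDF : S_DF) (hRN : S_RN) (hA : S_FXA) (hB : S_FXB)
    (hC : S_FXC) (k : ℕ) : 5 * (5 ^ k) ^ 2 + 2 * 5 ^ k + 1 ≤ 4 * finrank ℂ (Dp (2 * (k + 1))) := by
  have h1 := hEVL (k + 1)
  have h2 := hDE (k + 1)
  have h3 := hDF (k + 1)
  have h4 := hRN (k + 1)
  have h5 := hA k
  obtain ⟨h6, h7⟩ := hB (k + 1)
  obtain ⟨h8, h9, h10, h11⟩ := hC k
  omega

lemma upper (hUB : S_UB) (hRANK : S_RANK) (hCNT : S_CNT) (k : ℕ) (hk : 1 ≤ k) :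
    4 * finrank ℂ (Am (2 * (k + 1) + 1)) ≤ 5 * (5 ^ k) ^ 2 + 2 * 5 ^ k + 1 := by
  have h1 := hUB (k + 1) (Idx (5 ^ (k + 1))) (fun t => fam ℤ (k + 1) t) (fun t => by
    refine mul_mem (mul_mem (pow_mem xo_mem _) (pow_mem yo_mem _)) ?_
    split_ifs
    · exact wo_mem
    · exact one_mem _) (hRANK (k + 1) (by omega))
  rw [Fintype.card_coe, pow_succ', hCNT] at h1
  nlinarith

lemma Vn_bot (hWU : S_WU) (hFIN : S_FIN) (hSTEP : S_STEP) (hEVL : S_EVL) (hDE : S_DE) (hDF : S_DF)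
    (hRN : S_RN) (hA : S_FXA) (hB : S_FXB) (hC : S_FXC) (hUB : S_UB) (hRANK : S_RANK)
    (hCNT : S_CNT) (j : ℕ) : Vn (j + 2) = ⊥ := by
  have h1 := telescope hWU hFIN hSTEP (2 * (j + 1) + 1) j (by omega)
  have h2 := lower hEVL hDE hDF hRN hA hB hC (j + 1)
  have h3 := upper hUB hRANK hCNT (j + 1) (by omega)
  have : FiniteDimensional ℂ (Vn (j + 2)) :=
    fin_of_le hFIN fun ψ h => (mem_Am.1 (mem_Vn.1 h).1).1
  rw [show 2 * (j + 1) + 1 + 1 = 2 * (j + 1 + 1) by ring,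
    show 2 * (j + 1) + 1 + 2 = 2 * (j + 1 + 1) + 1 by ring] at h1
  exact Submodule.finrank_eq_zero.1 (by omega)

theorem main_of (hFIN : S_FIN) (hV : ∀ j, Vn (j + 2) = ⊥) (hDEC : S_DEC) (hEICH : S_EICH)
    (hPSF : S_PSF) (hINJ : S_INJ) (hLV : S_LV) (hQX : S_QX) (hFE : S_FE)
    (n : ℕ) (f : CuspForm (Gamma0 (5 ^ n)) 2) (hf : f ≠ 0)
    (hT : ∀ l : ℕ, l = 2 ∨ l = 3 → ∃ c : ℂ, ∀ k,
      co f (l * k) + (if l ∣ k then l * co f (k / l) else 0) = c * co f k)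
    (hU : 2 ≤ n → ∀ k, co f (5 * k) = 0)
    (hW : ∀ s : ℂ, (5 ^ n : ℂ) ^ (s / 2) * ModularForm.Λ two_pos f s =
      (5 ^ n : ℂ) ^ ((2 - s) / 2) * ModularForm.Λ two_pos f (2 - s)) :
    ModularForm.L two_pos f 1 ≠ 0 := by
  intro hL
  obtain ⟨h1, h2, h3⟩ := hDEC _ f
  obtain ⟨E, Φ, hE⟩ := hEICH _ h1 h3
  rw [Nat.cast_pow, Nat.cast_ofNat] at h2
  obtain ⟨p1, p2, p3, p4, p5⟩ := hPSF n _ E Φ hE h2
  rw [hLV _ f E Φ hE hL, mul_zero] at p2
  have h0 : psf Φ = 0 := by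
    rcases Nat.lt_or_ge n 2 with hn | hn
    · exact hFIN.2 _ (SS_mono (by omega) p1) p2
    obtain ⟨j, rfl⟩ := Nat.exists_eq_add_of_le' hn
    have hK : psf Φ ∈ KK := by
      have : ∀ Z ∈ Submonoid.closure ({Tl 2, Tl 3} : Set (Module.End ℂ Fn)),
          ∃ c : ℂ, Z (psf Φ) = c • psf Φ := by
        intro Z hZ
        induction hZ using Submonoid.closure_induction with
        | mem Z hZ =>
          rcases hZ with rfl | rfl
          · obtain ⟨c, hc⟩ := hT 2 (.inl rfl)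
            exact ⟨c, p3 2 c (.inl rfl) ((hQX _ f).1 2 c two_pos hc)⟩
          · obtain ⟨c, hc⟩ := hT 3 (.inr rfl)
            exact ⟨c, p3 3 c (.inr rfl) ((hQX _ f).1 3 c three_pos hc)⟩
        | one => exact ⟨1, by simp⟩
        | mul Y Z _ _ hY hZ =>
          obtain ⟨a, ha⟩ := hY
          obtain ⟨b, hb⟩ := hZ
          exact ⟨b * a, by rw [Module.End.mul_apply, hb, map_smul, ha, smul_smul]⟩
      intro Z hZ
      obtain ⟨c, hc⟩ := this Z hZ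
      rw [hc, map_smul, p2, smul_zero]
    have hW' := hFE _ f (by simpa using hW)
    rw [Nat.cast_pow, Nat.cast_ofNat] at hW'
    have : psf Φ ∈ Vn (j + 2) :=
      mem_Vn.2 ⟨mem_Am.2 ⟨p1, hK, p5 hW'⟩, p4 ((hQX _ f).2 (hU hn))⟩
    rwa [hV, Submodule.mem_bot] at this
  refine hf (CuspForm.ext fun τ => ?_)
  have := hINJ _ _ E Φ (by positivity) hE h2 h0 τ τ.im_pos
  rwa [ft_coe] at this

end Pool.Agent.P.MP_e7a540_nt.B5
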