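import Pool.Agent.P.MP_8b7eba_nt.ModBasic

/-! Modular symbols as functions of two integer vectors, and the operators on them. -/

set_option autoImplicit false

namespace Pool.Agent.P.MP_e7a540_nt.B5

open Pool.Agent.P.MP_8b7eba_nt.Mod

/-- Integer vectors; `(a, c)` stands for the cusp `a / c`. -/
abbrev Vec := ℤ × ℤ

def ap (g : M2) (v : Vec) : Vec := (g.a * v.1 + g.b * v.2, g.c * v.1 + g.d * v.2)

@[simp] lemma ap_fst (g : M2) (v : Vec) : (ap g v).1 = g.a * v.1 + g.b * v.2 := rfl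
@[simp] lemma ap_snd (g : M2) (v : Vec) : (ap g v).2 = g.c * v.1 + g.d * v.2 := rfl

lemma ap_mul (g h : M2) (v : Vec) : ap (g * h) v = ap g (ap h v) := by
  ext <;> simp <;> ring
@[simp] lemma ap_one (v : Vec) : ap 1 v = v := by ext <;> simp
@[simp] lemma ap_zero (g : M2) : ap g 0 = 0 := by ext <;> simp
lemma ap_smul (g : M2) (k : ℤ) (v : Vec) : ap g (k • v) = k • ap g v := by
  ext <;> simp <;> ring
lemma ap_adj (g : M2) (v : Vec) : ap g.adj (ap g v) = g.det • v := by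
  ext <;> simp [M2.det] <;> ring
lemma ap_eq_zero {g : M2} (hg : g.det ≠ 0) {v : Vec} : ap g v = 0 ↔ v = 0 := by
  refine ⟨fun h => ?_, fun h => by simp [h]⟩
  have := ap_adj g v
  rw [h, ap_zero] at this
  exact (smul_eq_zero.1 this.symm).resolve_left hg

/-- The scalar matrix. -/
def sca (k : ℤ) : M2 := ⟨k, 0, 0, k⟩

lemma ap_sca (k : ℤ) (v : Vec) : ap (sca k) v = k • v := by ext <;> simp [sca]
lemma mul_adj' (g : M2) : g * g.adj = sca g.det := by ext <;> simp [sca, M2.det] <;> ring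
lemma adj_mul' (g : M2) : g.adj * g = sca g.det := by ext <;> simp [sca, M2.det] <;> ring
lemma sca_comm (k : ℤ) (g : M2) : sca k * g = g * sca k := by ext <;> simp [sca] <;> ring

abbrev Fn := Vec → Vec → ℂ

/-- Precomposition with a matrix. -/
def pre (g : M2) : Module.End ℂ Fn where
  toFun ψ := fun v w => ψ (ap g v) (ap g w)
  map_add' _ _ := rfl
  map_smul' _ _ := rfl

@[simp] lemma pre_apply (g : M2) (ψ : Fn) (v w : Vec) : pre g ψ v w = ψ (ap g v) (ap g w) := rfl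
lemma pre_pre (g h : M2) (ψ : Fn) : pre h (pre g ψ) = pre (g * h) ψ := by
  ext v w; simp [ap_mul]
@[simp] lemma pre_one (ψ : Fn) : pre 1 ψ = ψ := by ext v w; simp

/-- Modular symbols. -/
def Sym : Submodule ℂ Fn where
  carrier := {ψ | (∀ v, ψ v 0 = 0 ∧ ψ 0 v = 0) ∧
    (∀ k : ℤ, k ≠ 0 → ∀ v w, ψ (k • v) w = ψ v w ∧ ψ v (k • w) = ψ v w) ∧
    ∀ u v w, u ≠ 0 → v ≠ 0 → w ≠ 0 → ψ u v + ψ v w = ψ u w}
  add_mem' := by
    rintro ψ φ ⟨a1, a2, a3⟩ ⟨b1, b2, b3⟩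
    refine ⟨fun v => by simp [a1, b1], fun k hk v w => by
      simp only [Pi.add_apply, a2 k hk, b2 k hk, and_self],
      fun u v w hu hv hw => ?_⟩
    simp only [Pi.add_apply]
    linear_combination a3 u v w hu hv hw + b3 u v w hu hv hw
  zero_mem' := ⟨by simp, by simp, by simp⟩
  smul_mem' := by
    rintro c ψ ⟨a1, a2, a3⟩
    refine ⟨fun v => by simp [a1], fun k hk v w => by
      simp only [Pi.smul_apply, a2 k hk, and_self], fun u v w hu hv hw => ?_⟩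
    simp only [Pi.smul_apply, smul_eq_mul]
    linear_combination c * a3 u v w hu hv hw

lemma mem_Sym {ψ : Fn} : ψ ∈ Sym ↔ (∀ v, ψ v 0 = 0 ∧ ψ 0 v = 0) ∧
    (∀ k : ℤ, k ≠ 0 → ∀ v w, ψ (k • v) w = ψ v w ∧ ψ v (k • w) = ψ v w) ∧
    ∀ u v w, u ≠ 0 → v ≠ 0 → w ≠ 0 → ψ u v + ψ v w = ψ u w := Iff.rfl

section
variable {ψ : Fn} (h : ψ ∈ Sym)
include h
lemma Sym_zero_right (v : Vec) : ψ v 0 = 0 := (h.1 v).1
lemma Sym_zero_left (v : Vec) : ψ 0 v = 0 := (h.1 v).2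
lemma Sym_smul_left {k : ℤ} (hk : k ≠ 0) (v w : Vec) : ψ (k • v) w = ψ v w := (h.2.1 k hk v w).1
lemma Sym_smul_right {k : ℤ} (hk : k ≠ 0) (v w : Vec) : ψ v (k • w) = ψ v w := (h.2.1 k hk v w).2
lemma Sym_scale_left {k : ℤ} (hk : k ≠ 0) (a c : ℤ) (w : Vec) :
    ψ (k * a, k * c) w = ψ (a, c) w := Sym_smul_left h hk (a, c) w
lemma Sym_scale_right {k : ℤ} (hk : k ≠ 0) (v : Vec) (a c : ℤ) :
    ψ v (k * a, k * c) = ψ v (a, c) := Sym_smul_right h hk v (a, c)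
lemma Sym_neg_left (v w : Vec) : ψ (-v) w = ψ v w := by
  simpa using Sym_smul_left h (k := -1) (by simp) v w
lemma Sym_neg_right (v w : Vec) : ψ v (-w) = ψ v w := by
  simpa using Sym_smul_right h (k := -1) (by simp) v w
lemma Sym_add {u v w : Vec} (hu : u ≠ 0) (hv : v ≠ 0) (hw : w ≠ 0) : ψ u v + ψ v w = ψ u w :=
  h.2.2 u v w hu hv hw
lemma Sym_self (v : Vec) : ψ v v = 0 := by
  by_cases hv : v = 0
  · rw [hv, Sym_zero_left h]
  · simpa using Sym_add h hv hv hv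
lemma Sym_swap (v w : Vec) : ψ v w = -ψ w v := by
  by_cases hv : v = 0
  · simp [hv, Sym_zero_left h, Sym_zero_right h]
  by_cases hw : w = 0
  · simp [hw, Sym_zero_left h, Sym_zero_right h]
  linear_combination Sym_add h hv hw hv + Sym_self h v
lemma Sym_pre {g : M2} (hg : g.det ≠ 0) : pre g ψ ∈ Sym :=
  ⟨fun v => by simp [Sym_zero_left h, Sym_zero_right h],
    fun k hk v w => by
      simp only [pre_apply, ap_smul, Sym_smul_left h hk, Sym_smul_right h hk, and_self],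
    fun u v w hu hv hw => Sym_add h ((ap_eq_zero hg).not.2 hu) ((ap_eq_zero hg).not.2 hv)
      ((ap_eq_zero hg).not.2 hw)⟩
lemma pre_sca {k : ℤ} (hk : k ≠ 0) : pre (sca k) ψ = ψ := by
  ext v w; simp only [pre_apply, ap_sca, Sym_smul_left h hk, Sym_smul_right h hk]
lemma pre_sca_mul {k : ℤ} (hk : k ≠ 0) (g : M2) : pre (sca k * g) ψ = pre g ψ := by
  rw [← pre_pre, pre_sca h hk]
lemma pre_neg (g : M2) : pre (-g) ψ = pre g ψ := by
  rw [← pre_sca_mul h (k := -1) (by simp) g]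
  congr 2
  ext <;> simp [sca]
end

/-- `Γ₀(N)` together with the matrices of determinant `-1`. -/
def GG (N : ℤ) (g : M2) : Prop := (g.det = 1 ∨ g.det = -1) ∧ N ∣ g.c

instance (N : ℤ) (g : M2) : Decidable (GG N g) := inferInstanceAs (Decidable (_ ∧ _))

lemma GG.det_ne {N : ℤ} {g : M2} (h : GG N g) : g.det ≠ 0 := by
  rcases h.1 with h | h <;> omega
lemma GG.det_sq {N : ℤ} {g : M2} (h : GG N g) : g.det * g.det = 1 := by
  rcases h.1 with h | h <;> simp [h]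
lemma GG.mul {N : ℤ} {g h : M2} (hg : GG N g) (hh : GG N h) : GG N (g * h) :=
  ⟨by rcases hg.1 with a | a <;> rcases hh.1 with b | b <;> simp [M2.det_mul, a, b],
    dvd_add (hg.2.mul_right _) (hh.2.mul_left _)⟩
lemma GG.adj {N : ℤ} {g : M2} (hg : GG N g) : GG N g.adj := ⟨by simpa using hg.1, by simp [hg.2]⟩
lemma GG.neg {N : ℤ} {g : M2} (hg : GG N g) : GG N (-g) := ⟨by simpa using hg.1, by simp [hg.2]⟩
lemma GG.mono {N M : ℤ} {g : M2} (h : M ∣ N) (hg : GG N g) : GG M g := ⟨hg.1, h.trans hg.2⟩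
lemma GG_one (N : ℤ) : GG N 1 := ⟨.inl rfl, by simp⟩

/-- The reflection `z ↦ -z`. -/
def md : M2 := ⟨-1, 0, 0, 1⟩
def mu : M2 := ⟨1, 1, 0, 1⟩
def mv : M2 := ⟨1, 0, 5, 1⟩
def eta5 : M2 := ⟨3, -1, 5, -2⟩
/-- An element of order three in `PSL₂(ℤ)`. -/
def mt : M2 := ⟨0, 1, -1, 1⟩

lemma GG_md (N : ℤ) : GG N md := ⟨.inr rfl, by simp [md]⟩
lemma GG_mT (N k : ℤ) : GG N (mT k) := ⟨.inl (det_mT k), by simp [mT]⟩

/-- Symbols of level `5 ^ n`, even under the reflection. -/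
def SS (n : ℕ) : Submodule ℂ Fn where
  carrier := {ψ | ψ ∈ Sym ∧ ∀ g, GG (5 ^ n) g → pre g ψ = ψ}
  add_mem' a b := ⟨Sym.add_mem a.1 b.1, fun g hg => by rw [map_add, a.2 g hg, b.2 g hg]⟩
  zero_mem' := ⟨Sym.zero_mem, fun _ _ => map_zero _⟩
  smul_mem' c _ a := ⟨Sym.smul_mem c a.1, fun g hg => by rw [map_smul, a.2 g hg]⟩

lemma mem_SS {n : ℕ} {ψ : Fn} : ψ ∈ SS n ↔ ψ ∈ Sym ∧ ∀ g, GG (5 ^ n) g → pre g ψ = ψ := Iff.rfl

lemma SS_mono {n k : ℕ} (h : n ≤ k) : SS n ≤ SS k :=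
  fun _ a => ⟨a.1, fun g hg => a.2 g (hg.mono (pow_dvd_pow _ h))⟩

/-- The value on the path from `0` to `∞`. -/
def ev : Fn →ₗ[ℂ] ℂ where
  toFun ψ := ψ (0, 1) (1, 0)
  map_add' _ _ := rfl
  map_smul' _ _ := rfl

lemma ev_apply (ψ : Fn) : ev ψ = ψ (0, 1) (1, 0) := rfl

/-- The standard matrices of the Hecke operator `T_l`. -/
def dl (l : ℕ) (j : Fin (l + 1)) : M2 := if (j : ℕ) = l then ⟨l, 0, 0, 1⟩ else ⟨1, (j : ℕ), 0, l⟩

/-- All entries are divisible by `l`. -/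
def Dv (l : ℤ) (g : M2) : Prop := l ∣ g.a ∧ l ∣ g.b ∧ l ∣ g.c ∧ l ∣ g.d

instance (l : ℤ) (g : M2) : Decidable (Dv l g) := inferInstanceAs (Decidable (_ ∧ _))

noncomputable def Tl (l : ℕ) : Module.End ℂ Fn := ∑ j, pre (dl l j)
noncomputable def UU : Module.End ℂ Fn := ∑ b : Fin 5, pre ⟨1, (b : ℕ), 0, 5⟩
def VV : Module.End ℂ Fn := pre ⟨5, 0, 0, 1⟩
def mW (n : ℕ) : M2 := ⟨0, -1, 5 ^ n, 0⟩
def WW (n : ℕ) : Module.End ℂ Fn := pre (mW n)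

lemma Tl_apply (l : ℕ) (ψ : Fn) : Tl l ψ = ∑ j, pre (dl l j) ψ := by simp [Tl]
lemma UU_apply (ψ : Fn) : UU ψ = ∑ b : Fin 5, pre ⟨1, (b : ℕ), 0, 5⟩ ψ := by
  simp only [UU, LinearMap.sum_apply]

lemma det_dl (l : ℕ) (j : Fin (l + 1)) : (dl l j).det = l := by
  unfold dl; split_ifs <;> simp [M2.det]
lemma dl_c (l : ℕ) (j : Fin (l + 1)) : (dl l j).c = 0 := by
  unfold dl; split_ifs <;> rfl

/-- The functions on which `ev` vanishes after any word in `T₂`, `T₃`. -/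
def KK : Submodule ℂ Fn where
  carrier := {ψ | ∀ Z ∈ Submonoid.closure ({Tl 2, Tl 3} : Set (Module.End ℂ Fn)), ev (Z ψ) = 0}
  add_mem' a b Z hZ := by rw [map_add, map_add, a Z hZ, b Z hZ, add_zero]
  zero_mem' Z _ := by simp
  smul_mem' c _ a Z hZ := by rw [map_smul, map_smul, a Z hZ, smul_zero]

lemma mem_KK {ψ : Fn} : ψ ∈ KK ↔
    ∀ Z ∈ Submonoid.closure ({Tl 2, Tl 3} : Set (Module.End ℂ Fn)), ev (Z ψ) = 0 := Iff.rfl

lemma KK_ev {ψ : Fn} (h : ψ ∈ KK) : ev ψ = 0 := h 1 (one_mem _)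
lemma KK_T2 {ψ : Fn} (h : ψ ∈ KK) : Tl 2 ψ ∈ KK :=
  fun Z hZ => h (Z * Tl 2) (mul_mem hZ (Submonoid.subset_closure (by simp)))
lemma KK_T3 {ψ : Fn} (h : ψ ∈ KK) : Tl 3 ψ ∈ KK :=
  fun Z hZ => h (Z * Tl 3) (mul_mem hZ (Submonoid.subset_closure (by simp)))

noncomputable def Am (n : ℕ) : Submodule ℂ Fn := SS n ⊓ KK ⊓ LinearMap.ker (WW n + 1)
noncomputable def Dp (n : ℕ) : Submodule ℂ Fn := SS n ⊓ LinearMap.ker (WW n - 1)
noncomputable def Vn (n : ℕ) : Submodule ℂ Fn := Am n ⊓ LinearMap.ker UU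

lemma mem_Am {n : ℕ} {ψ : Fn} : ψ ∈ Am n ↔ ψ ∈ SS n ∧ ψ ∈ KK ∧ WW n ψ = -ψ := by
  simp [Am, and_assoc, add_eq_zero_iff_eq_neg]
lemma mem_Dp {n : ℕ} {ψ : Fn} : ψ ∈ Dp n ↔ ψ ∈ SS n ∧ WW n ψ = ψ := by
  simp [Dp, sub_eq_zero]
lemma mem_Vn {n : ℕ} {ψ : Fn} : ψ ∈ Vn n ↔ ψ ∈ Am n ∧ UU ψ = 0 := by simp [Vn]

end Pool.Agent.P.MP_e7a540_nt.B5
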