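import Pool.Agent.P.MP_e7a540_nt.B5.Base

/-! The Eichler integral of a cusp form of weight two and its symbol. -/

set_option autoImplicit false

namespace Pool.Agent.P.MP_e7a540_nt.B5

open Pool.Agent.P.MP_8b7eba_nt.Mod Filter Topology Complex Asymptotics
open scoped Real

/-- The weight two slash action. -/
noncomputable def sl (F : ℂ → ℂ) (g : M2) (z : ℂ) : ℂ := g.det * F (g.act z) / g.j z ^ 2

/-- A function on the upper half plane, as a function on `ℂ`. -/
noncomputable def ft (f : UpperHalfPlane → ℂ) : ℂ → ℂ := fun z => f (UpperHalfPlane.ofComplex z)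

lemma ft_coe (f : UpperHalfPlane → ℂ) (τ : UpperHalfPlane) : ft f τ = f τ := by simp [ft]
lemma ft_of_pos (f : UpperHalfPlane → ℂ) {z : ℂ} (hz : 0 < z.im) : ft f z = f ⟨z, hz⟩ := by
  rw [ft, UpperHalfPlane.ofComplex_apply_of_im_pos hz]

/-- `E` is the primitive of `F` which vanishes at `∞`, and `Φ` its limits at the cusps. -/
def Eich (F E : ℂ → ℂ) (Φ : Vec → ℂ) : Prop :=
  (∀ z : ℂ, 0 < z.im → HasDerivAt E (F z) z) ∧
  (∀ g : M2, 0 < g.det → Tendsto (fun z => E (g.act z)) atI (𝓝 (Φ (g.a, g.c)))) ∧ Φ (1, 0) = 0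

/-- Invariance under `Γ₀(N)`. -/
def Inv (N : ℤ) (F : ℂ → ℂ) : Prop :=
  ∀ g : M2, g.det = 1 → N ∣ g.c → ∀ z : ℂ, 0 < z.im → sl F g z = F z

noncomputable def ps0 (Φ : Vec → ℂ) : Fn := fun v w => if v = 0 ∨ w = 0 then 0 else Φ w - Φ v
noncomputable def psf (Φ : Vec → ℂ) : Fn := ps0 Φ + pre md (ps0 Φ)

/-- The Fourier coefficients. -/
noncomputable def co (f : UpperHalfPlane → ℂ) (k : ℕ) : ℂ := (UpperHalfPlane.qExpansion 1 f).coeff k

lemma sl_mul (F : ℂ → ℂ) {g h : M2} (hg : 0 < g.det) (hh : 0 < h.det) {z : ℂ} (hz : 0 < z.im) :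
    sl F (g * h) z = sl (sl F g) h z := by
  unfold sl
  rw [M2.act_mul hg.ne' hh hz, M2.j_mul g hh.ne' hz, M2.det_mul]
  have h1 := M2.j_ne hh.ne' hz
  have h2 := M2.j_ne hg.ne' (M2.im_act_pos hh hz)
  push_cast
  field_simp

lemma hasDerivAt_comp_act {F E : ℂ → ℂ} (h : ∀ z : ℂ, 0 < z.im → HasDerivAt E (F z) z) {g : M2}
    (hg : 0 < g.det) {z : ℂ} (hz : 0 < z.im) :
    HasDerivAt (fun z => E (g.act z)) (sl F g z) z := by
  refine ((h _ (M2.im_act_pos hg hz)).comp z (M2.hasDerivAt_act hg.ne' hz)).congr_deriv ?_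
  rw [sl]; ring

lemma const_of_deriv {G : ℂ → ℂ} (h : ∀ z, 0 < z.im → HasDerivAt G 0 z) :
    ∃ c, ∀ z, 0 < z.im → G z = c :=
  ⟨G I, fun z hz => isOpen_UH.is_const_of_deriv_eq_zero (convex_halfSpace_im_gt 0).isPreconnected
    (fun w hw => (h w hw).differentiableAt.differentiableWithinAt) (fun w hw => (h w hw).deriv) hz
    (show 0 < I.im by simp)⟩

theorem exists_lim {G : ℂ → ℂ} {t : ℝ} (ht : 0 < t) (hol : DifferentiableOn ℂ G UH)
    (h : deriv G =O[atI] ex t) : ∃ L, Tendsto G atI (𝓝 L) := by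
  obtain ⟨C, hC0, hC⟩ := h.exists_pos
  obtain ⟨s, hs, hs'⟩ := mem_comap.1 (hC.bound.and (ev_im 0))
  obtain ⟨Y, hY⟩ := mem_atTop_sets.1 hs
  set r := Real.exp (-2 * π * t) with hr
  have hneg : -2 * π * t < 0 := by have := mul_pos Real.pi_pos ht; linarith
  have hr1 : r < 1 := Real.exp_lt_one_iff.2 hneg
  have hr0 : 0 < r := Real.exp_pos _
  have mv : ∀ z : ℂ, Y ≤ z.im → ∀ u v : ℂ, z.im ≤ u.im → z.im ≤ v.im →
      ‖G u - G v‖ ≤ C * ex t z * ‖u - v‖ := fun z hz u v hu hv => by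
    refine (convex_halfSpace_im_ge z.im).norm_image_sub_le_of_norm_deriv_le (fun w hw => ?_)
      (fun w hw => ?_) hv hu
    · exact hol.differentiableAt (UH_mem_nhds (hs' (hY _ (hz.trans hw))).2)
    · refine (hs' (hY _ (hz.trans hw))).1.trans (mul_le_mul_of_nonneg_left ?_ hC0.le)
      rw [Real.norm_of_nonneg (ex_pos _ _).le]
      exact Real.exp_le_exp.2 (mul_le_mul_of_nonpos_left hw hneg.le)
  have hex : ∀ (z : ℂ) (n : ℕ), ex t (z + n * I) = ex t z * r ^ n := fun z n => by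
    simp only [ex, hr, ← Real.exp_nat_mul, ← Real.exp_add]
    congr 1
    simp
    ring
  have him : ∀ (z : ℂ) (n : ℕ), (z + n * I).im = z.im + n := fun z n => by simp
  have step : ∀ z : ℂ, Y ≤ z.im → ∀ n : ℕ,
      dist (G (z + n * I)) (G (z + (n + 1 : ℕ) * I)) ≤ C * ex t z * r ^ n := fun z hz n => by
    have := mv (z + n * I) (by rw [him]; linarith [n.cast_nonneg (α := ℝ)]) (z + n * I)
      (z + (n + 1 : ℕ) * I) le_rfl (by rw [him, him]; push_cast; linarith)
    rw [hex, show z + n * I - (z + (n + 1 : ℕ) * I) = -I by push_cast; ring] at this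
    rw [dist_eq_norm]
    simpa [mul_assoc] using this
  have hY0 : Y ≤ ((Y : ℂ) * I).im := by simp
  obtain ⟨L, hL⟩ := cauchySeq_tendsto_of_complete (cauchySeq_of_le_geometric r _ hr1 (step _ hY0))
  refine ⟨L, tendsto_iff_dist_tendsto_zero.2 (squeeze_zero' (.of_forall fun _ => dist_nonneg) ?_
    (by simpa using ((tendsto_ex ht).const_mul C).div_const (1 - r)))⟩
  filter_upwards [ev_im Y] with z hz
  have h1 : Tendsto (fun n : ℕ => G (z + n * I)) atTop (𝓝 L) := by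
    refine hL.congr_dist (squeeze_zero (fun _ => dist_nonneg) (fun n => ?_)
      (by simpa using (tendsto_pow_atTop_nhds_zero_of_lt_one hr0.le hr1).const_mul
            (C * ex t (Y * I) * ‖Y * I - z‖)))
    have := mv (Y * I + n * I) (by rw [him]; linarith [n.cast_nonneg (α := ℝ)]) (Y * I + n * I)
      (z + n * I) le_rfl (by rw [him, him]; simp [hz.le])
    rw [hex, add_sub_add_right_eq_sub] at this
    rw [dist_eq_norm]
    linarith
  simpa using dist_le_of_le_geometric_of_tendsto₀ r _ hr1 (step z hz.le) h1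

end Pool.Agent.P.MP_e7a540_nt.B5
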