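import Pool.Agent.P.MP_e7a540_nt.B5.BaseX

/-! The model of even level: involutions of trace zero modulo `5 ^ m`. -/

set_option autoImplicit false

namespace Pool.Agent.P.MP_e7a540_nt.B5

open Pool.Agent.P.MP_8b7eba_nt.Mod

/-- The triple `(a, b, c)` stands for the matrix `[[a, b], [c, -a]]`. -/
abbrev CC (m : ℕ) := {J : ZP m × ZP m × ZP m // J.1 ^ 2 + J.2.1 * J.2.2 = 1}

/-- `det g • adj g * J * g`. -/
def cjT {m : ℕ} (g : M2) (J : ZP m × ZP m × ZP m) : ZP m × ZP m × ZP m :=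
  ((g.det : ZP m) * (J.1 * (g.a * g.d + g.b * g.c) + J.2.1 * (g.c * g.d) - J.2.2 * (g.a * g.b)),
   (g.det : ZP m) * (2 * J.1 * (g.b * g.d) + J.2.1 * g.d ^ 2 - J.2.2 * g.b ^ 2),
   (g.det : ZP m) * (-2 * J.1 * (g.a * g.c) - J.2.1 * g.c ^ 2 + J.2.2 * g.a ^ 2))

lemma cjT_norm {m : ℕ} (g : M2) (J : ZP m × ZP m × ZP m) :
    (cjT g J).1 ^ 2 + (cjT g J).2.1 * (cjT g J).2.2 =
      ((g.det * g.det : ℤ) : ZP m) ^ 2 * (J.1 ^ 2 + J.2.1 * J.2.2) := by
  simp only [cjT, M2.det]; push_cast; ring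

lemma cjT_mul {m : ℕ} (g h : M2) (J : ZP m × ZP m × ZP m) : cjT (g * h) J = cjT h (cjT g J) := by
  simp only [cjT, M2.det_mul, M2.mul_a, M2.mul_b, M2.mul_c, M2.mul_d, Prod.mk.injEq]
  push_cast
  refine ⟨by ring, by ring, by ring⟩

/-- Conjugation by a matrix of determinant `±1`, a right action. -/
def cj {m : ℕ} (g : M2) (J : CC m) : CC m :=
  if h : g.det * g.det = 1 then ⟨cjT g J.1, by rw [cjT_norm, h, J.2]; simp⟩ else J

lemma cj_val {m : ℕ} {g : M2} (h : g.det * g.det = 1) (J : CC m) : (cj g J).1 = cjT g J.1 := by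
  rw [cj, dif_pos h]

def RR {m : ℕ} (J : CC m) : CC m := ⟨-J.1, by simpa using J.2⟩
def J0 (m : ℕ) : CC m := ⟨(1, 0, 0), by simp⟩
/-- The reflection which normalises `mt`. -/
def mr : M2 := ⟨0, 1, 1, 0⟩

@[simp] lemma RR_val {m : ℕ} (J : CC m) : (RR J).1 = -J.1 := rfl
@[simp] lemma RR_RR {m : ℕ} (J : CC m) : RR (RR J) = J := Subtype.ext (neg_neg _)

lemma det_sq_mul {g h : M2} (hg : g.det * g.det = 1) (hh : h.det * h.det = 1) :
    (g * h).det * (g * h).det = 1 := by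
  rw [M2.det_mul]; linear_combination h.det * h.det * hg + hh
lemma cj_mul {m : ℕ} {g h : M2} (hg : g.det * g.det = 1) (hh : h.det * h.det = 1) (J : CC m) :
    cj (g * h) J = cj h (cj g J) :=
  Subtype.ext (by rw [cj_val (det_sq_mul hg hh), cj_val hh, cj_val hg, cjT_mul])
@[simp] lemma cj_one {m : ℕ} (J : CC m) : cj 1 J = J :=
  Subtype.ext (by rw [cj_val (by decide)]; simp [cjT])
lemma cj_neg {m : ℕ} (g : M2) (J : CC m) : cj (-g) J = cj g J := by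
  by_cases h : g.det * g.det = 1
  · exact Subtype.ext (by rw [cj_val h, cj_val (by simpa using h)]; simp [cjT])
  · rw [cj, cj, dif_neg h, dif_neg (by simpa using h)]
lemma cj_RR {m : ℕ} (g : M2) (J : CC m) : cj g (RR J) = RR (cj g J) := by
  by_cases h : g.det * g.det = 1
  · refine Subtype.ext ?_
    rw [RR_val, cj_val h, cj_val h]
    simp only [cjT, RR_val, Prod.fst_neg, Prod.snd_neg, Prod.neg_mk, Prod.mk.injEq]
    refine ⟨by ring, by ring, by ring⟩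
  · rw [cj, cj, dif_neg h, dif_neg h]
lemma cj_md_val {m : ℕ} (J : CC m) : (cj md J).1 = (J.1.1, -J.1.2.1, -J.1.2.2) := by
  rw [cj_val (by decide)]; simp [cjT, md, M2.det]
lemma cj_mS_val {m : ℕ} (J : CC m) : (cj mS J).1 = (-J.1.1, -J.1.2.2, -J.1.2.1) := by
  rw [cj_val (by decide)]; simp [cjT, mS, M2.det]
lemma cj_mr_val {m : ℕ} (J : CC m) : (cj mr J).1 = (-J.1.1, J.1.2.2, J.1.2.1) := by
  rw [cj_val (by decide)]; simp [cjT, mr, M2.det]
lemma cj_mt_val {m : ℕ} (J : CC m) :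
    (cj mt J).1 = (-J.1.1 - J.1.2.1, 2 * J.1.1 + J.1.2.1 - J.1.2.2, -J.1.2.1) := by
  rw [cj_val (by decide)]; simp [cjT, mt, M2.det]; ring
lemma cj_mS_J0 (m : ℕ) : cj mS (J0 m) = RR (J0 m) := Subtype.ext (by rw [cj_mS_val]; simp [J0])
lemma cj_J0 {m : ℕ} {g : M2} (h : g.det * g.det = 1) (hb : (5 : ℤ) ^ m ∣ g.b)
    (hc : (5 : ℤ) ^ m ∣ g.c) : cj g (J0 m) = J0 m := by
  have b0 : (g.b : ZP m) = 0 := (ZMod.intCast_zmod_eq_zero_iff_dvd _ _).2 (by exact_mod_cast hb)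
  have c0 : (g.c : ZP m) = 0 := (ZMod.intCast_zmod_eq_zero_iff_dvd _ _).2 (by exact_mod_cast hc)
  have := congrArg (Int.cast : ℤ → ZP m) h
  refine Subtype.ext ?_
  rw [cj_val h]
  simp only [M2.det] at this
  push_cast at this
  simp only [b0, c0] at this
  simp [cjT, J0, b0, c0, M2.det]
  linear_combination this

/-- The functions which come from symbols of level `5 ^ (2 m)` with `W = 1`. -/
def YY (m : ℕ) : Submodule ℂ (CC m → ℂ) where
  carrier := {φ | (∀ J, φ (cj md J) = φ J) ∧ (∀ J, φ (cj mS J) = -φ J) ∧ (∀ J, φ (RR J) = φ J) ∧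
    ∀ J, φ J + φ (cj mt J) + φ (cj mt (cj mt J)) = 0}
  add_mem' a b := ⟨fun J => by simp [a.1, b.1], fun J => by simp [a.2.1, b.2.1, add_comm],
    fun J => by simp [a.2.2.1, b.2.2.1], fun J => by
      simp only [Pi.add_apply]; linear_combination a.2.2.2 J + b.2.2.2 J⟩
  zero_mem' := by simp
  smul_mem' c _ a := ⟨fun J => by simp [a.1], fun J => by simp [a.2.1],
    fun J => by simp [a.2.2.1], fun J => by
      simp only [Pi.smul_apply, smul_eq_mul]; linear_combination c * a.2.2.2 J⟩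

lemma mem_YY {m : ℕ} {φ : CC m → ℂ} : φ ∈ YY m ↔
    (∀ J, φ (cj md J) = φ J) ∧ (∀ J, φ (cj mS J) = -φ J) ∧ (∀ J, φ (RR J) = φ J) ∧
    ∀ J, φ J + φ (cj mt J) + φ (cj mt (cj mt J)) = 0 := Iff.rfl

def YE (m : ℕ) : Submodule ℂ (CC m → ℂ) where
  carrier := {φ | (∀ J, φ (cj md J) = φ J) ∧ (∀ J, φ (cj mS J) = -φ J) ∧ ∀ J, φ (RR J) = φ J}
  add_mem' a b := ⟨fun J => by simp [a.1, b.1], fun J => by simp [a.2.1, b.2.1, add_comm],
    fun J => by simp [a.2.2, b.2.2]⟩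
  zero_mem' := by simp
  smul_mem' c _ a := ⟨fun J => by simp [a.1], fun J => by simp [a.2.1], fun J => by simp [a.2.2]⟩

lemma mem_YE {m : ℕ} {φ : CC m → ℂ} : φ ∈ YE m ↔
    (∀ J, φ (cj md J) = φ J) ∧ (∀ J, φ (cj mS J) = -φ J) ∧ ∀ J, φ (RR J) = φ J := Iff.rfl

def YF (m : ℕ) : Submodule ℂ (CC m → ℂ) where
  carrier := {φ | (∀ J, φ (cj mt J) = φ J) ∧ (∀ J, φ (cj mr J) = -φ J) ∧ ∀ J, φ (RR J) = φ J}
  add_mem' a b := ⟨fun J => by simp [a.1, b.1], fun J => by simp [a.2.1, b.2.1, add_comm],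
    fun J => by simp [a.2.2, b.2.2]⟩
  zero_mem' := by simp
  smul_mem' c _ a := ⟨fun J => by simp [a.1], fun J => by simp [a.2.1], fun J => by simp [a.2.2]⟩

lemma mem_YF {m : ℕ} {φ : CC m → ℂ} : φ ∈ YF m ↔
    (∀ J, φ (cj mt J) = φ J) ∧ (∀ J, φ (cj mr J) = -φ J) ∧ ∀ J, φ (RR J) = φ J := Iff.rfl

/-- The number of fixed points. -/
noncomputable def Fx {α : Type*} (σ : α → α) : ℕ := Nat.card {x // σ x = x}

end Pool.Agent.P.MP_e7a540_nt.B5
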