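import Pool.Agent.P.MP_e7a540_nt.B5.BaseX

/-! The filtration of the measures modulo `5` by the powers of the augmentation ideal. -/

set_option autoImplicit false

namespace Pool.Agent.P.MP_e7a540_nt.B5

open Pool.Agent.P.MP_8b7eba_nt.Mod MvPolynomial

abbrev F5 := ZMod 5
instance fact5 : Fact (Nat.Prime 5) := ⟨by norm_num⟩
abbrev Nm (m : ℕ) := Me F5 m
abbrev En (m : ℕ) := Module.End F5 (Nm m)
abbrev PP := MvPolynomial (Fin 2) F5

noncomputable def ee (m : ℕ) : Nm m := .single (1, 0) 1 - 1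
noncomputable def ff (m : ℕ) : Nm m := .single (0, 1) 1 - 1
noncomputable def piq (m : ℕ) : PP →ₐ[F5] Nm m := aeval ![ee m, ff m]
/-- Polynomials of order at least `k`. -/
noncomputable def Ord (k : ℕ) : Ideal PP := idealOfVars (Fin 2) F5 ^ k
noncomputable def Fil (m k : ℕ) : Ideal (Nm m) := Ideal.span {ee m, ff m} ^ k

/-- Operators which raise the filtration by `k`. -/
def Rs (m k : ℕ) : Submodule F5 (En m) where
  carrier := {Z | ∀ j, ∀ μ ∈ Fil m j, Z μ ∈ Fil m (j + k)}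
  add_mem' a b j μ h := add_mem (a j μ h) (b j μ h)
  zero_mem' _ _ _ := zero_mem _
  smul_mem' c _ a j μ h := Submodule.smul_of_tower_mem _ c (a j μ h)

/-- Multiplication by an element. -/
noncomputable def mul (m : ℕ) (a : Nm m) : En m := LinearMap.mulLeft F5 a
noncomputable def EE (m : ℕ) : En m := rho F5 m mu - 1
noncomputable def FF (m : ℕ) : En m := rho F5 m mv - 1
noncomputable def HH (m : ℕ) : En m := rho F5 m ⟨1, 0, 0, 6⟩ - 1
noncomputable def Op (m : ℕ) : PP →ₗ[F5] En m :=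
  (basisMonomials (Fin 2) F5).constr F5 fun d => EE m ^ d 0 * FF m ^ d 1

/-- Operators of the form `Op q₀ + Op q₁ * H` up to eight steps. -/
def PB (m : ℕ) : Submodule F5 (En m) where
  carrier := {Z | ∃ q0 q1 : PP, Z - (Op m q0 + Op m q1 * HH m) ∈ Rs m 8}
  add_mem' := by
    rintro _ _ ⟨a, b, h⟩ ⟨c, d, k⟩
    refine ⟨a + c, b + d, ?_⟩
    convert add_mem h k using 1
    simp only [map_add, add_mul]; abel
  zero_mem' := ⟨0, 0, by simp⟩
  smul_mem' := by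
    rintro c _ ⟨a, b, h⟩
    refine ⟨c • a, c • b, ?_⟩
    convert Submodule.smul_mem _ c h using 1
    simp only [map_smul, smul_sub, smul_add, smul_mul_assoc]

/-- Even measures. -/
noncomputable def Np (m : ℕ) : Submodule F5 (Nm m) := LinearMap.ker (rho F5 m md - 1)
/-- The span of the matrices with `a = ± d` modulo `5`. -/
noncomputable def Ev (m : ℕ) : Submodule F5 (En m) :=
  Submodule.span F5 {Z | ∃ g, Iw g ∧ (5 : ℤ) ∣ g.a ^ 2 - g.d ^ 2 ∧ Z = rho F5 m g}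

noncomputable def ps : PP := X 0 * X 1
noncomputable def pz : PP := X 0 ^ 2 + X 1 ^ 2
noncomputable def qx : PP := 2 * ps
noncomputable def qy : PP := 2 * ps * pz ^ 2
noncomputable def qw : PP := -(ps * pz)
noncomputable def qh : PP := X 0 ^ 5 * X 1 - X 0 * X 1 ^ 5

/-- The exponent of `X 0 ^ a * X 1 ^ b`. -/
noncomputable def ex2 (a b : ℕ) : Fin 2 →₀ ℕ := Finsupp.single 0 a + Finsupp.single 1 b

/-- Binomial moments. -/
noncomputable def mom {m : ℕ} (μ : Nm m) (u v : ℕ) : F5 :=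
  ∑ p, μ.coeff p * (p.1.val.choose u : F5) * (p.2.val.choose v : F5)

/-- Reduction of the level. -/
def prX {m k : ℕ} (h : k ≤ m) : XX m →+ XX k :=
  AddMonoidHom.prodMap (ZMod.castHom (pow_dvd_pow 5 h) (ZP k)).toAddMonoidHom
    (ZMod.castHom (pow_dvd_pow 5 h) (ZP k)).toAddMonoidHom
noncomputable def pr {m k : ℕ} (h : k ≤ m) : Nm m →ₐ[F5] Nm k :=
  AddMonoidAlgebra.mapDomainAlgHom F5 F5 (prX h)

/-- The index set of the independent family. -/
def Idx (P : ℕ) : Finset (Bool × ℕ × ℕ) :=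
  (Finset.univ ×ˢ Finset.range P ×ˢ Finset.range P).filter
    fun t => t.2.1 + 5 * t.2.2 + (if t.1 then 3 else 0) < P
/-- The operators of the family. -/
noncomputable def fam (R : Type) [CommRing R] (m : ℕ) (t : Bool × ℕ × ℕ) : Module.End R (Me R m) :=
  xo R m ^ t.2.1 * yo R m ^ t.2.2 * (if t.1 then wo R m else 1)
/-- Their leading terms. -/
noncomputable def famq (t : Bool × ℕ × ℕ) : PP := qx ^ t.2.1 * qy ^ t.2.2 * (if t.1 then qw else 1)
def famd (t : Bool × ℕ × ℕ) : ℕ := 2 * t.2.1 + 6 * t.2.2 + (if t.1 then 4 else 0)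

variable {m : ℕ}

@[simp] lemma ex2_zero (a b : ℕ) : ex2 a b 0 = a := by simp [ex2]
@[simp] lemma ex2_one (a b : ℕ) : ex2 a b 1 = b := by simp [ex2]
lemma ex2_eta (d : Fin 2 →₀ ℕ) : ex2 (d 0) (d 1) = d := by
  ext i; fin_cases i <;> simp
lemma degree_fin2 (d : Fin 2 →₀ ℕ) : d.degree = d 0 + d 1 := by
  rw [Finsupp.degree_eq_sum]; simp
lemma monomial_ex2 (a b : ℕ) (c : F5) : monomial (ex2 a b) c = c • (X 0 ^ a * X 1 ^ b : PP) := by
  rw [X_pow_eq_monomial, X_pow_eq_monomial, monomial_mul, smul_monomial]; simp [ex2]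
@[simp] lemma piq_X0 : piq m (X 0) = ee m := by simp [piq]
@[simp] lemma piq_X1 : piq m (X 1) = ff m := by simp [piq]
lemma piq_monomial (d : Fin 2 →₀ ℕ) (c : F5) :
    piq m (monomial d c) = c • (ee m ^ d 0 * ff m ^ d 1) := by
  conv_lhs => rw [← ex2_eta d, monomial_ex2]
  simp
lemma Op_monomial (d : Fin 2 →₀ ℕ) (c : F5) :
    Op m (monomial d c) = c • (EE m ^ d 0 * FF m ^ d 1) := by
  have := (basisMonomials (Fin 2) F5).constr_basis F5 (fun d => EE m ^ d 0 * FF m ^ d 1) d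
  rw [coe_basisMonomials] at this
  rw [← this, ← map_smul, smul_monomial, smul_eq_mul, mul_one, Op]
lemma mem_Ord {k : ℕ} {q : PP} : q ∈ Ord k ↔ ∀ d : Fin 2 →₀ ℕ, d 0 + d 1 < k → q.coeff d = 0 := by
  simp only [Ord, mem_pow_idealOfVars_iff', degree_fin2]
lemma Ord_mul {j k : ℕ} {p q : PP} (hp : p ∈ Ord j) (hq : q ∈ Ord k) : p * q ∈ Ord (j + k) := by
  rw [Ord, pow_add]; exact Ideal.mul_mem_mul hp hq
lemma Ord_anti {j k : ℕ} (h : j ≤ k) : Ord k ≤ Ord j := Ideal.pow_le_pow_right h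
lemma Ord_zero (q : PP) : q ∈ Ord 0 := by simp [Ord]
lemma Ord_of_hom {k : ℕ} {q : PP} (h : q.IsHomogeneous k) : q ∈ Ord k :=
  mem_Ord.2 fun d hd => h.coeff_eq_zero (by rw [degree_fin2]; omega)

@[simp] lemma mul_apply (a μ : Nm m) : mul m a μ = a * μ := rfl
lemma mem_Rs {k : ℕ} {Z : En m} : Z ∈ Rs m k ↔ ∀ j, ∀ μ ∈ Fil m j, Z μ ∈ Fil m (j + k) := Iff.rfl
lemma mem_PB {Z : En m} :
    Z ∈ PB m ↔ ∃ q0 q1 : PP, Z - (Op m q0 + Op m q1 * HH m) ∈ Rs m 8 := Iff.rfl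
lemma mem_Np {μ : Nm m} : μ ∈ Np m ↔ rho F5 m md μ = μ := by simp [Np, sub_eq_zero]
lemma Fil_mul {j k : ℕ} {a b : Nm m} (ha : a ∈ Fil m j) (hb : b ∈ Fil m k) :
    a * b ∈ Fil m (j + k) := by
  rw [Fil, pow_add]; exact Ideal.mul_mem_mul ha hb
lemma Fil_anti {j k : ℕ} (h : j ≤ k) : Fil m k ≤ Fil m j := Ideal.pow_le_pow_right h
lemma Fil_zero (a : Nm m) : a ∈ Fil m 0 := by simp [Fil]
lemma Fil_pow {j : ℕ} {a : Nm m} (ha : a ∈ Fil m j) (k : ℕ) : a ^ k ∈ Fil m (j * k) := by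
  rw [Fil, pow_mul]; exact Ideal.pow_mem_pow ha k
lemma Fil_smul {j : ℕ} (c : F5) {a : Nm m} (ha : a ∈ Fil m j) : c • a ∈ Fil m j :=
  Submodule.smul_of_tower_mem _ c ha
lemma ee_mem : ee m ∈ Fil m 1 := by rw [Fil, pow_one]; exact Ideal.subset_span (by simp)
lemma ff_mem : ff m ∈ Fil m 1 := by rw [Fil, pow_one]; exact Ideal.subset_span (by simp)
lemma mono_mem (a b : ℕ) : ee m ^ a * ff m ^ b ∈ Fil m (a + b) := by
  simpa using Fil_mul (Fil_pow ee_mem a) (Fil_pow ff_mem b)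
lemma Fil_eq_map (k : ℕ) : Fil m k = (Ord k).map (piq m) := by
  rw [Fil, Ord, Ideal.map_pow, Ideal.map_span]
  congr 2
  ext a
  simp [Fin.exists_fin_two, eq_comm]
lemma piq_mem {k : ℕ} {q : PP} (h : q ∈ Ord k) : piq m q ∈ Fil m k :=
  Fil_eq_map (m := m) k ▸ Ideal.mem_map_of_mem _ h
lemma single_eq (a b : ℕ) : (.single ((a : ZP m), (b : ZP m)) 1 : Nm m) =
    (1 + ee m) ^ a * (1 + ff m) ^ b := by
  simp [ee, ff, AddMonoidAlgebra.single_pow, AddMonoidAlgebra.single_mul_single]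
lemma single_eq' (p : XX m) : (.single p 1 : Nm m) =
    (1 + ee m) ^ p.1.val * (1 + ff m) ^ p.2.val := by
  rw [← single_eq]; simp
lemma piq_surjective : Function.Surjective (piq m) := by
  intro μ
  induction μ using AddMonoidAlgebra.induction_linear with
  | zero => exact ⟨0, map_zero _⟩
  | add a b ha hb =>
    obtain ⟨p, rfl⟩ := ha
    obtain ⟨q, rfl⟩ := hb
    exact ⟨p + q, map_add _ _ _⟩
  | single p c =>
    refine ⟨c • ((1 + X 0) ^ p.1.val * (1 + X 1) ^ p.2.val), ?_⟩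
    simp only [map_smul, map_mul, map_pow, map_add, map_one, piq_X0, piq_X1, ← single_eq']
    simp
lemma mem_Fil_iff {k : ℕ} {μ : Nm m} : μ ∈ Fil m k ↔ ∃ q ∈ Ord k, piq m q = μ := by
  rw [Fil_eq_map, Ideal.mem_map_iff_of_surjective _ piq_surjective]
instance charN (m : ℕ) : CharP (Nm m) 5 := charP_of_injective_algebraMap' F5 5
lemma ee_pow : ee m ^ 5 ^ m = 0 := by
  rw [ee, sub_pow_char_pow, AddMonoidAlgebra.single_pow]
  simp [AddMonoidAlgebra.one_def, Prod.zero_eq_mk]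
lemma ff_pow : ff m ^ 5 ^ m = 0 := by
  rw [ff, sub_pow_char_pow, AddMonoidAlgebra.single_pow]
  simp [AddMonoidAlgebra.one_def, Prod.zero_eq_mk]

lemma Rs_mul {j k : ℕ} {Y Z : En m} (hY : Y ∈ Rs m j) (hZ : Z ∈ Rs m k) : Y * Z ∈ Rs m (j + k) :=
  fun i μ h => by
    have := hY _ _ (hZ i μ h)
    rwa [add_assoc, add_comm k j] at this
lemma Rs_anti {j k : ℕ} (h : j ≤ k) : Rs m k ≤ Rs m j :=
  fun _ hZ i μ hμ => Fil_anti (by omega) (hZ i μ hμ)
lemma Rs_one : (1 : En m) ∈ Rs m 0 := fun _ _ h => h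
lemma Rs_pow {j : ℕ} {Z : En m} (hZ : Z ∈ Rs m j) (k : ℕ) : Z ^ k ∈ Rs m (j * k) := by
  induction k with
  | zero => exact Rs_one
  | succ k ih => rw [pow_succ, mul_add, mul_one]; exact Rs_mul ih hZ
lemma Rs_mulop {k : ℕ} {a : Nm m} (h : a ∈ Fil m k) : mul m a ∈ Rs m k :=
  fun j _ hμ => add_comm k j ▸ Fil_mul h hμ
/-- It is enough to test on monomials. -/
lemma Rs_of_mono {k : ℕ} {Z : En m}
    (h : ∀ a b, Z (ee m ^ a * ff m ^ b) ∈ Fil m (a + b + k)) : Z ∈ Rs m k := by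
  intro j μ hμ
  obtain ⟨q, hq, rfl⟩ := mem_Fil_iff.1 hμ
  rw [q.as_sum, map_sum, map_sum]
  refine sum_mem fun d hd => ?_
  rw [piq_monomial, map_smul]
  refine Fil_smul _ (Fil_anti ?_ (h _ _))
  have : ¬ d 0 + d 1 < j := fun k => mem_support_iff.1 hd (mem_Ord.1 hq d k)
  omega
/-- The push forward by an additive map is multiplicative. -/
lemma push_mul (φ : XX m →+ XX m) (a b : Nm m) :
    push F5 m φ (a * b) = push F5 m φ a * push F5 m φ b :=
  map_mul (AddMonoidAlgebra.mapDomainAlgHom F5 F5 φ) a b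
lemma push_eq_algHom (φ : XX m →+ XX m) (a : Nm m) :
    push F5 m φ a = AddMonoidAlgebra.mapDomainAlgHom F5 F5 φ a := rfl
@[simp] lemma pr_single {k : ℕ} (h : k ≤ m) (p : XX m) (c : F5) :
    pr h (.single p c) = .single (prX h p) c := by simp [pr]

end Pool.Agent.P.MP_e7a540_nt.B5
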