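import Pool.Agent.P.MP_e7a540_nt.B5.Base

/-! The model of odd level: the set `XX m`, the right action on it, measures and operators. -/

set_option autoImplicit false

namespace Pool.Agent.P.MP_e7a540_nt.B5

open Pool.Agent.P.MP_8b7eba_nt.Mod

abbrev ZP (m : ℕ) := ZMod (5 ^ m)
abbrev XX (m : ℕ) := ZP m × ZP m

/-- Iwahori condition at `5`. -/
def Iw (g : M2) : Prop := (5 : ℤ) ∣ g.c ∧ ¬ (5 : ℤ) ∣ g.a ∧ ¬ (5 : ℤ) ∣ g.d

instance (g : M2) : Decidable (Iw g) := inferInstanceAs (Decidable (_ ∧ _))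

lemma prime5 : Prime (5 : ℤ) := Int.prime_iff_natAbs_prime.2 (by norm_num)

lemma Iw.mul {g h : M2} (hg : Iw g) (hh : Iw h) : Iw (g * h) := by
  refine ⟨dvd_add (hg.1.mul_right _) (hh.1.mul_left _), fun k => ?_, fun k => ?_⟩
  · exact (prime5.dvd_or_dvd ((dvd_add_left (hh.1.mul_left _)).1 k)).elim hg.2.1 hh.2.1
  · exact (prime5.dvd_or_dvd ((dvd_add_right (hg.1.mul_right _)).1 k)).elim hg.2.2 hh.2.2
lemma Iw.adj {g : M2} (hg : Iw g) : Iw g.adj := ⟨by simp [hg.1], hg.2.2, hg.2.1⟩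
lemma Iw_one : Iw 1 := by decide
lemma Iw.pow {g : M2} (hg : Iw g) (k : ℕ) : Iw (g ^ k) := by
  induction k with
  | zero => exact Iw_one
  | succ k ih => exact pow_succ g k ▸ ih.mul hg
lemma Iw_of_det {g : M2} (hc : (5 : ℤ) ∣ g.c) (hd : ¬ (5 : ℤ) ∣ g.det) : Iw g :=
  ⟨hc, fun k => hd (dvd_sub (k.mul_right _) (hc.mul_left _)),
    fun k => hd (dvd_sub (k.mul_left _) (hc.mul_left _))⟩
lemma Iw.not_dvd_det {g : M2} (hg : Iw g) : ¬ (5 : ℤ) ∣ g.det := fun k =>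
  (prime5.dvd_or_dvd ((dvd_sub_left (hg.1.mul_left _)).1 k)).elim hg.2.1 hg.2.2
lemma GG.iw {g : M2} (hg : GG 5 g) : Iw g :=
  Iw_of_det hg.2 (by rcases hg.1 with h | h <;> rw [h] <;> decide)
lemma Iw_sca {k : ℤ} (hk : ¬ (5 : ℤ) ∣ k) : Iw (sca k) := ⟨by simp [sca], hk, hk⟩

lemma five_nil (m : ℕ) : (5 : ZP m) ^ m = 0 := by
  exact_mod_cast ZMod.natCast_self (5 ^ m)

lemma isUnit_int (m : ℕ) {a : ℤ} (ha : ¬ (5 : ℤ) ∣ a) : IsUnit (a : ZP m) := by
  obtain ⟨u, v, h⟩ := (prime5.coprime_iff_not_dvd.2 ha).pow_left (m := m)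
  have := congrArg (Int.cast : ℤ → ZP m) h
  push_cast at this
  rw [five_nil, mul_zero, zero_add] at this
  exact IsUnit.of_mul_eq_one_right _ this

lemma isUnit_five_add (m : ℕ) (t : ZP m) {a : ZP m} (ha : IsUnit a) : IsUnit (5 * t + a) := by
  have : IsNilpotent (5 * t) := ⟨m, by rw [mul_pow, five_nil, zero_mul]⟩
  exact this.isUnit_add_right_of_commute ha (Commute.all _ _)

/-- The right action on `XX m`. -/
def ra (m : ℕ) (g : M2) (p : XX m) : XX m :=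
  (((g.d : ZP m) * p.1 + g.b) * ((g.c : ZP m) * p.1 + g.a)⁻¹,
    ((g.a : ZP m) * p.2 + (g.c / 5 : ℤ)) * (5 * (g.b : ZP m) * p.2 + g.d)⁻¹)

lemma Iw.c_eq {g : M2} (hg : Iw g) (m : ℕ) : (g.c : ZP m) = 5 * ((g.c / 5 : ℤ) : ZP m) := by
  have := congrArg (Int.cast : ℤ → ZP m) (Int.mul_ediv_cancel' hg.1)
  push_cast at this
  exact this.symm
lemma Iw.unit1 {g : M2} (hg : Iw g) {m : ℕ} (x : ZP m) : IsUnit ((g.c : ZP m) * x + g.a) := by
  rw [hg.c_eq, mul_assoc]; exact isUnit_five_add m _ (isUnit_int m hg.2.1)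
lemma Iw.unit2 {g : M2} (hg : Iw g) {m : ℕ} (y : ZP m) : IsUnit (5 * (g.b : ZP m) * y + g.d) := by
  rw [mul_assoc]; exact isUnit_five_add m _ (isUnit_int m hg.2.2)

lemma mul_inv_eq_iff {m : ℕ} {a b c : ZP m} (hb : IsUnit b) : a * b⁻¹ = c ↔ c * b = a := by
  constructor
  · rintro rfl
    rw [mul_assoc, ZMod.inv_mul_of_unit _ hb, mul_one]
  · rintro rfl
    rw [mul_assoc, ZMod.mul_inv_of_unit _ hb, mul_one]

/-- The action, without inverses. -/
lemma ra_eq_iff {m : ℕ} {g : M2} (hg : Iw g) {p q : XX m} : ra m g p = q ↔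
    q.1 * ((g.c : ZP m) * p.1 + g.a) = g.d * p.1 + g.b ∧
    q.2 * (5 * (g.b : ZP m) * p.2 + g.d) = g.a * p.2 + (g.c / 5 : ℤ) := by
  rw [Prod.ext_iff, ra, mul_inv_eq_iff (hg.unit1 _), mul_inv_eq_iff (hg.unit2 _)]

lemma c5_mul {g h : M2} (hg : Iw g) (hh : Iw h) :
    (g * h).c / 5 = g.c / 5 * h.a + g.d * (h.c / 5) := by
  obtain ⟨u, hu⟩ := hg.1
  obtain ⟨v, hv⟩ := hh.1
  rw [M2.mul_c, hu, hv, show 5 * u * h.a + g.d * (5 * v) = 5 * (u * h.a + g.d * v) by ring]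
  simp

lemma ra_mul {m : ℕ} {g h : M2} (hg : Iw g) (hh : Iw h) (p : XX m) :
    ra m (g * h) p = ra m h (ra m g p) := by
  obtain ⟨a1, a2⟩ := (ra_eq_iff hg (p := p)).1 rfl
  obtain ⟨b1, b2⟩ := (ra_eq_iff hh (p := ra m g p)).1 rfl
  rw [ra_eq_iff (hg.mul hh), c5_mul hg hh]
  generalize ra m h (ra m g p) = r at *
  generalize ra m g p = q at *
  simp only [M2.mul_a, M2.mul_b, M2.mul_c, M2.mul_d]
  push_cast
  rw [hg.c_eq, hh.c_eq] at *
  constructor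
  · linear_combination (5 * ((g.c / 5 : ℤ) : ZP m) * p.1 + g.a) * b1 -
      (r.1 * (5 * ((h.c / 5 : ℤ) : ZP m)) - h.d) * a1
  · linear_combination (5 * (g.b : ZP m) * p.2 + g.d) * b2 - (r.2 * (5 * (h.b : ZP m)) - h.a) * a2

lemma ra_sca {m : ℕ} {k : ℤ} (hk : ¬ (5 : ℤ) ∣ k) (p : XX m) : ra m (sca k) p = p := by
  rw [ra_eq_iff (Iw_sca hk)]; simp [sca, mul_comm]
@[simp] lemma ra_one {m : ℕ} (p : XX m) : ra m 1 p = p := ra_sca (k := 1) (by decide) p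
lemma ra_adj_ra {m : ℕ} {g : M2} (hg : Iw g) (p : XX m) : ra m g.adj (ra m g p) = p := by
  rw [← ra_mul hg hg.adj, mul_adj', ra_sca hg.not_dvd_det]
lemma ra_ra_adj {m : ℕ} {g : M2} (hg : Iw g) (p : XX m) : ra m g (ra m g.adj p) = p := by
  rw [← ra_mul hg.adj hg, adj_mul', ra_sca hg.not_dvd_det]
lemma ra_bijective {m : ℕ} {g : M2} (hg : Iw g) : Function.Bijective (ra m g) :=
  Function.bijective_iff_has_inverse.2 ⟨_, ra_adj_ra hg, ra_ra_adj hg⟩
lemma ra_pow {m : ℕ} {g : M2} (hg : Iw g) (k : ℕ) : ra m (g ^ k) = (ra m g)^[k] := by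
  induction k with
  | zero => ext1 p; simp
  | succ k ih => ext1 p; rw [pow_succ, ra_mul (hg.pow k) hg, ih, Function.iterate_succ_apply']
lemma ra_md {m : ℕ} (p : XX m) : ra m md p = -p := by
  rw [ra_eq_iff (by decide)]; simp [md]
lemma ra_zero_iff {m : ℕ} {g : M2} (hg : Iw g) :
    ra m g 0 = 0 ↔ (5 : ℤ) ^ m ∣ g.b ∧ (5 : ℤ) ^ (m + 1) ∣ g.c := by
  rw [ra_eq_iff hg]
  simp only [Prod.fst_zero, Prod.snd_zero, mul_zero, zero_add, zero_mul]
  rw [eq_comm, ZMod.intCast_zmod_eq_zero_iff_dvd, eq_comm, ZMod.intCast_zmod_eq_zero_iff_dvd]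
  push_cast
  obtain ⟨u, hu⟩ := hg.1
  rw [hu, pow_succ', mul_dvd_mul_iff_left (by norm_num : (5 : ℤ) ≠ 0)]
  simp

/-- A matrix of `Γ₀(5)` which moves `0` to `p`. -/
def sec (m : ℕ) (p : XX m) : M2 :=
  ⟨1 + 5 * ((p.1 * (1 - 5 * p.1 * p.2)⁻¹).val : ℤ) * (p.2.val : ℤ),
    ((p.1 * (1 - 5 * p.1 * p.2)⁻¹).val : ℤ), 5 * (p.2.val : ℤ), 1⟩

lemma det_sec (m : ℕ) (p : XX m) : (sec m p).det = 1 := by simp [sec, M2.det]; ring
lemma GG_sec (m : ℕ) (p : XX m) : GG 5 (sec m p) := ⟨.inl (det_sec m p), by simp [sec]⟩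
lemma ra_sec (m : ℕ) (p : XX m) : ra m (sec m p) 0 = p := by
  rw [ra_eq_iff (GG_sec m p).iw]
  have hu : IsUnit (1 - 5 * p.1 * p.2) := by
    convert isUnit_five_add m (-(p.1 * p.2)) isUnit_one using 1; ring
  have := ZMod.mul_inv_of_unit _ hu
  simp [sec]
  linear_combination (-p.1) * this
lemma sec_zero (m : ℕ) : sec m 0 = 1 := by ext <;> simp [sec]

def Dm (m : ℕ) : M2 := ⟨1, 0, 0, 5 ^ m⟩

/-- The value of a symbol on the path from `v` to `w`, as a function on `XX m`. -/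
def Ps (m : ℕ) (v w : Vec) : Fn →ₗ[ℂ] (XX m → ℂ) where
  toFun ψ := fun p => pre (Dm m * sec m p) ψ v w
  map_add' _ _ := rfl
  map_smul' _ _ := rfl

lemma Ps_apply (m : ℕ) (v w : Vec) (ψ : Fn) (p : XX m) :
    Ps m v w ψ p = pre (Dm m * sec m p) ψ v w := rfl

def ph0 (m : ℕ) : Fn →ₗ[ℂ] (XX m → ℂ) := Ps m (0, 1) (1, 0)

/-- Functions invariant under `-1` and under the swap. -/
def SymF (m : ℕ) : Submodule ℂ (XX m → ℂ) where
  carrier := {φ | (∀ p, φ (-p) = φ p) ∧ ∀ p, φ (Prod.swap p) = φ p}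
  add_mem' a b := ⟨fun p => by simp [a.1, b.1], fun p => by simp [a.2, b.2]⟩
  zero_mem' := ⟨fun _ => rfl, fun _ => rfl⟩
  smul_mem' _ _ a := ⟨fun p => by simp [a.1], fun p => by simp [a.2]⟩

lemma mem_SymF {m : ℕ} {φ : XX m → ℂ} :
    φ ∈ SymF m ↔ (∀ p, φ (-p) = φ p) ∧ ∀ p, φ (Prod.swap p) = φ p := Iff.rfl

/-! ### The Hecke operators as expressions in a family `ρ` of elements of a ring -/

section generic
variable {A : Type*} [Ring A] (ρ : M2 → A) (K : ℕ)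

def Sg : A := ∑ k ∈ Finset.range K, (-ρ eta5) ^ k
def lamg : A := (1 - ρ mu) * Sg ρ K
def t2g : A := (1 + ρ md) *
  (2 * (ρ ⟨1, 0, 0, 2⟩ + ρ ⟨2, 0, 0, 1⟩ + ρ ⟨2, -1, 0, 1⟩) - lamg ρ K * ρ ⟨2, -1, 0, 1⟩)
def qg : A := ρ ⟨3, -1, 0, 1⟩ + ρ md * ρ ⟨3, 1, 0, 1⟩
def t3g : A := (1 + ρ md) *
  (2 * (ρ ⟨1, 0, 0, 3⟩ + ρ ⟨3, 0, 0, 1⟩ + qg ρ) - lamg ρ K * ρ md * ρ mv * qg ρ)
def xg : A := t2g ρ K ^ 2 + 1
def yg : A := t2g ρ K * t3g ρ K - 2 - xg ρ K - xg ρ K ^ 2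
def wg : A := (t2g ρ K + 3) ^ 3

end generic

section rel
variable {R R' M M' : Type*} [CommRing R] [CommRing R'] [AddCommGroup M] [AddCommGroup M']
  [Module R M] [Module R' M']

/-- The pairs of operators intertwined by an additive map. -/
def Rel (R R' : Type*) [CommRing R] [CommRing R'] [Module R M] [Module R' M'] (r : M →+ M') :
    Subring (Module.End R M × Module.End R' M') where
  carrier := {Z | ∀ μ, r (Z.1 μ) = Z.2 (r μ)}
  mul_mem' a b μ := by simp [a _, b _]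
  one_mem' μ := rfl
  add_mem' a b μ := by simp [a _, b _]
  zero_mem' μ := by simp
  neg_mem' a μ := by simp [a _]

lemma mem_Rel {r : M →+ M'} {Z : Module.End R M} {Z' : Module.End R' M'} :
    (Z, Z') ∈ Rel R R' r ↔ ∀ μ, r (Z μ) = Z' (r μ) := Iff.rfl

variable {r : M →+ M'} {ρ : M2 → Module.End R M} {ρ' : M2 → Module.End R' M'} {K K' : ℕ}

lemma rel_Sg (h : (ρ eta5, ρ' eta5) ∈ Rel R R' r) (K : ℕ) : (Sg ρ K, Sg ρ' K) ∈ Rel R R' r := by
  have := sum_mem (t := Finset.range K) fun k _ => pow_mem (neg_mem h) k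
  convert this using 1
  ext1 <;> simp [Sg, Prod.fst_sum, Prod.snd_sum]

lemma rel_t (h : ∀ g, Iw g → (ρ g, ρ' g) ∈ Rel R R' r) (hS : (Sg ρ K, Sg ρ' K') ∈ Rel R R' r) :
    (t2g ρ K, t2g ρ' K') ∈ Rel R R' r ∧ (t3g ρ K, t3g ρ' K') ∈ Rel R R' r := by
  have h1 := one_mem (Rel R R' r)
  have h2 := ofNat_mem (Rel R R' r) 2
  have hl := mul_mem (sub_mem h1 (h mu (by decide))) hS
  have hd := h md (by decide)
  have hq := add_mem (h ⟨3, -1, 0, 1⟩ (by decide)) (mul_mem hd (h ⟨3, 1, 0, 1⟩ (by decide)))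
  have ha := h ⟨2, -1, 0, 1⟩ (by decide)
  exact ⟨mul_mem (add_mem h1 hd) (sub_mem (mul_mem h2 (add_mem (add_mem
      (h ⟨1, 0, 0, 2⟩ (by decide)) (h ⟨2, 0, 0, 1⟩ (by decide))) ha)) (mul_mem hl ha)),
    mul_mem (add_mem h1 hd) (sub_mem (mul_mem h2 (add_mem (add_mem
      (h ⟨1, 0, 0, 3⟩ (by decide)) (h ⟨3, 0, 0, 1⟩ (by decide))) hq))
      (mul_mem (mul_mem (mul_mem hl hd) (h mv (by decide))) hq))⟩

lemma rel_xyw (h : ∀ g, Iw g → (ρ g, ρ' g) ∈ Rel R R' r) (hS : (Sg ρ K, Sg ρ' K') ∈ Rel R R' r) :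
    (xg ρ K, xg ρ' K') ∈ Rel R R' r ∧ (yg ρ K, yg ρ' K') ∈ Rel R R' r ∧
      (wg ρ K, wg ρ' K') ∈ Rel R R' r := by
  obtain ⟨a, b⟩ := rel_t h hS
  have hx := add_mem (pow_mem a 2) (one_mem (Rel R R' r))
  exact ⟨hx, sub_mem (sub_mem (sub_mem (mul_mem a b) (ofNat_mem (Rel R R' r) 2)) hx) (pow_mem hx 2),
    pow_mem (add_mem a (ofNat_mem (Rel R R' r) 3)) 3⟩

end rel

/-! ### Measures -/

abbrev Me (R : Type) [CommRing R] (m : ℕ) := AddMonoidAlgebra R (XX m)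

section
variable (R : Type) [CommRing R] (m : ℕ)

noncomputable def push (φ : XX m → XX m) : Module.End R (Me R m) :=
  AddMonoidAlgebra.mapDomainLinearMap R R φ
noncomputable def rho (g : M2) : Module.End R (Me R m) := push R m (ra m g)
noncomputable def sw : Module.End R (Me R m) := push R m Prod.swap
noncomputable def symm : Module.End R (Me R m) := (1 + sw R m) * (1 + rho R m md)
noncomputable def tau2 : Module.End R (Me R m) := t2g (rho R m) (5 ^ m)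
noncomputable def tau3 : Module.End R (Me R m) := t3g (rho R m) (5 ^ m)
noncomputable def xo : Module.End R (Me R m) := xg (rho R m) (5 ^ m)
noncomputable def yo : Module.End R (Me R m) := yg (rho R m) (5 ^ m)
noncomputable def wo : Module.End R (Me R m) := wg (rho R m) (5 ^ m)
/-- The ring generated by the two Hecke operators. -/
noncomputable def HR : Subring (Module.End R (Me R m)) := Subring.closure {tau2 R m, tau3 R m}

variable {R m}

@[simp] lemma push_single (φ : XX m → XX m) (p : XX m) (c : R) :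
    push R m φ (.single p c) = .single (φ p) c := by simp [push]
lemma push_comp (φ φ' : XX m → XX m) : push R m (φ' ∘ φ) = push R m φ' * push R m φ := by
  simp [push, Module.End.mul_eq_comp]
lemma push_id : push R m id = 1 := by ext; simp [push]
lemma coeff_push {φ φ' : XX m → XX m} (h : ∀ p, φ' (φ p) = p) (h' : ∀ p, φ (φ' p) = p)
    (μ : Me R m) (p : XX m) : (push R m φ μ).coeff p = μ.coeff (φ' p) := by
  conv_lhs => rw [← h' p]
  exact Finsupp.mapDomain_apply (Function.LeftInverse.injective h) _ _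
@[simp] lemma rho_single (g : M2) (p : XX m) (c : R) :
    rho R m g (.single p c) = .single (ra m g p) c := push_single _ _ _
lemma rho_mul {g h : M2} (hg : Iw g) (hh : Iw h) : rho R m (g * h) = rho R m h * rho R m g := by
  rw [rho, rho, rho, ← push_comp]; congr 1; ext1 p; exact ra_mul hg hh p
lemma rho_sca {k : ℤ} (hk : ¬ (5 : ℤ) ∣ k) : rho R m (sca k) = 1 := by
  rw [rho, ← push_id]; congr 1; ext1 p; exact ra_sca hk p
lemma rho_one : rho R m 1 = 1 := rho_sca (k := 1) (by decide)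
lemma rho_pow {g : M2} (hg : Iw g) (k : ℕ) : rho R m (g ^ k) = rho R m g ^ k := by
  induction k with
  | zero => simpa using rho_one
  | succ k ih => rw [pow_succ, rho_mul (hg.pow k) hg, ih, pow_succ']
lemma coeff_rho {g : M2} (hg : Iw g) (μ : Me R m) (p : XX m) :
    (rho R m g μ).coeff p = μ.coeff (ra m g.adj p) := coeff_push (ra_adj_ra hg) (ra_ra_adj hg) μ p
lemma coeff_sw (μ : Me R m) (p : XX m) : (sw R m μ).coeff p = μ.coeff p.swap :=
  coeff_push Prod.swap_swap Prod.swap_swap μ p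
lemma tau2_mem : tau2 R m ∈ HR R m := Subring.subset_closure (by simp)
lemma tau3_mem : tau3 R m ∈ HR R m := Subring.subset_closure (by simp)
lemma xo_mem : xo R m ∈ HR R m := add_mem (pow_mem tau2_mem 2) (one_mem _)
lemma yo_mem : yo R m ∈ HR R m :=
  sub_mem (sub_mem (sub_mem (mul_mem tau2_mem tau3_mem) (ofNat_mem _ 2)) xo_mem) (pow_mem xo_mem 2)
lemma wo_mem : wo R m ∈ HR R m := pow_mem (add_mem tau2_mem (ofNat_mem _ 3)) 3
end

/-- The pairing of a function with an integral measure. -/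
noncomputable def pair {m : ℕ} (φ : XX m → ℂ) (ν : Me ℤ m) : ℂ := ∑ p, (ν.coeff p : ℂ) * φ p

/-- Reduction modulo `5`. -/
noncomputable def red (m : ℕ) : Me ℤ m →+* Me (ZMod 5) m :=
  AddMonoidAlgebra.mapRingHom (XX m) (Int.castRingHom (ZMod 5))

lemma coeff_red {m : ℕ} (ν : Me ℤ m) (p : XX m) : (red m ν).coeff p = (ν.coeff p : ZMod 5) := by
  simp [red]

end Pool.Agent.P.MP_e7a540_nt.B5
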