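import Pool.Agent.P.MP_e7a540_nt.B5.Iface

/-! Proofs of the steps MANIN, HK, TW, WU, KW, FIN, STEP, PT, PH, PW, ETA, PHI, PINJ. -/

set_option autoImplicit false

section

/-! Step MANIN. -/

namespace Pool.Agent.P.MP_e7a540_nt.B5

open Pool.Agent.P.MP_8b7eba_nt.Mod Module Filter Topology Asymptotics CongruenceSubgroup

theorem col_manin {v : Vec} (hv : v ≠ 0) :
    ∃ (g : M2) (k : ℤ), g.det = 1 ∧ k ≠ 0 ∧ v = (k * g.a, k * g.c) := by
  obtain ⟨a, c⟩ := v
  have h0 : 0 < Int.gcd a c := by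
    rw [Int.gcd_pos_iff]
    by_contra h
    push Not at h
    exact hv (by simp [h.1, h.2])
  obtain ⟨u, hu⟩ := Int.gcd_dvd_left a c
  obtain ⟨w, hw⟩ := Int.gcd_dvd_right a c
  have hb := Int.gcd_eq_gcd_ab a c
  have hA0 : (0 : ℤ) < (Int.gcd a c : ℕ) := by exact_mod_cast h0
  generalize ((Int.gcd a c : ℕ) : ℤ) = A at hu hw hb hA0
  generalize Int.gcdA a c = x at hb
  generalize Int.gcdB a c = y at hb
  have h1 : u * x + w * y = 1 := by
    apply mul_left_cancel₀ hA0.ne'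
    rw [hu, hw] at hb
    linear_combination -hb
  exact ⟨⟨u, -y, w, x⟩, A, by simp only [M2.det]; linarith, hA0.ne', by rw [hu, hw]⟩

theorem p_MANIN :
    S_MANIN := by
  intro ψ h h0
  have e0 : ((1, 0) : Vec) ≠ 0 := by simp
  have n1 : ∀ g : M2, g.det = 1 → ((g.a, g.c) : Vec) ≠ 0 ∧ ((g.b, g.d) : Vec) ≠ 0 := by
    intro g hg
    constructor <;> intro e <;> simp only [Prod.mk_eq_zero] at e <;>
      simp [M2.det, e.1, e.2] at hg
  have key : ∀ g : M2, g.det = 1 → ψ (1, 0) (g.a, g.c) = 0 := by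
    refine sl2_ind (Sym_self h _) (fun g hg hP => ?_) fun g _ => by simp [mT]
    have a1 : ψ (g.b, g.d) (g.a, g.c) = 0 := by simpa [ap] using h0 g hg
    have a2 := Sym_add h e0 (n1 g hg).2 (n1 g hg).1
    rw [a1, hP, add_zero] at a2
    simpa [mS] using a2
  have key2 : ∀ v : Vec, v ≠ 0 → ψ (1, 0) v = 0 := by
    intro v hv
    obtain ⟨g, k, hg, hk, rfl⟩ := col_manin hv
    rw [Sym_scale_right h hk, key g hg]
  funext v w
  change ψ v w = 0
  by_cases hv : v = 0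
  · rw [hv, Sym_zero_left h]
  by_cases hw : w = 0
  · rw [hw, Sym_zero_right h]
  have := Sym_add h e0 hv hw
  rwa [key2 v hv, key2 w hw, zero_add] at this

end Pool.Agent.P.MP_e7a540_nt.B5

end

section

/-! Step HK. -/

namespace Pool.Agent.P.MP_e7a540_nt.B5

open Pool.Agent.P.MP_8b7eba_nt.Mod Module Filter Topology Asymptotics CongruenceSubgroup

lemma solve_hk {l : ℕ} (hl : l.Prime) {x : ℤ} (hx : ¬ (l : ℤ) ∣ x) (y : ℤ) :
    ∃ s : ℕ, s < l ∧ (l : ℤ) ∣ y - s * x := by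
  have hp : Prime (l : ℤ) := Nat.prime_iff_prime_int.1 hl
  obtain ⟨u, v, e⟩ := hp.irreducible.coprime_iff_not_dvd.2 hx
  have h0 : (0 : ℤ) < l := by exact_mod_cast hl.pos
  have h1 := Int.emod_nonneg (y * v) h0.ne'
  have h2 := Int.emod_lt_of_pos (y * v) h0
  have h3 := Int.emod_add_mul_ediv (y * v) l
  refine ⟨(y * v % l).toNat, by omega, y * u + y * v / l * x, ?_⟩
  rw [Int.toNat_of_nonneg h1]
  linear_combination -y * e - x * h3

lemma fac_hk {l : ℕ} (hl : l.Prime) {g : M2} (hg : (l : ℤ) ∣ g.det) :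
    ∃ (s : Fin (l + 1)) (γ : M2), γ * dl l s = g := by
  have hp : Prime (l : ℤ) := Nat.prime_iff_prime_int.1 hl
  have key : ∀ s : ℕ, s < l → (l : ℤ) ∣ g.b - s * g.a → (l : ℤ) ∣ g.d - s * g.c →
      ∃ (s : Fin (l + 1)) (γ : M2), γ * dl l s = g := by
    rintro s hs ⟨p, e⟩ ⟨q, e'⟩
    refine ⟨⟨s, by omega⟩, ⟨g.a, p, g.c, q⟩, ?_⟩
    rw [dl, if_neg hs.ne]
    ext <;> simp
    · linear_combination -e
    · linear_combination -e'
  by_cases ha : (l : ℤ) ∣ g.a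
  · by_cases hc : (l : ℤ) ∣ g.c
    · obtain ⟨p, e⟩ := ha
      obtain ⟨q, e'⟩ := hc
      refine ⟨Fin.last l, ⟨p, g.b, q, g.d⟩, ?_⟩
      rw [dl, if_pos (Fin.val_last l)]
      ext <;> simp
      · linear_combination -e
      · linear_combination -e'
    · obtain ⟨s, hs, h⟩ := solve_hk hl hc g.d
      refine key s hs ((hp.dvd_or_dvd (a := g.c) ?_).resolve_left hc) h
      rw [show g.c * (g.b - s * g.a) = g.a * (g.d - s * g.c) - g.det by unfold M2.det; ring]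
      exact (h.mul_left _).sub hg
  · obtain ⟨s, hs, h⟩ := solve_hk hl ha g.b
    refine key s hs h ((hp.dvd_or_dvd (a := g.a) ?_).resolve_left ha)
    rw [show g.a * (g.d - s * g.c) = g.c * (g.b - s * g.a) + g.det by unfold M2.det; ring]
    exact (h.mul_left _).add hg

theorem p_HK :
    S_HK := by
  intro l n hl h5 ψ hψ κ hd hc hi
  have h0 : (l : ℤ) ≠ 0 := by exact_mod_cast hl.ne_zero
  choose s γ e using fun j => fac_hk hl (g := κ j) (by rcases hd j with h | h <;> simp [h])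
  have hG : ∀ j, GG (5 ^ n) (γ j) := fun j => by
    constructor
    · have := congrArg M2.det (e j)
      rw [M2.det_mul, det_dl] at this
      refine (hd j).imp (fun h => ?_) fun h => ?_
      · exact mul_right_cancel₀ h0 (by rw [this, h, one_mul])
      · exact mul_right_cancel₀ h0 (by rw [this, h, neg_one_mul])
    · have h1 := hc j
      rw [← e j, M2.mul_c, dl_c, mul_zero, add_zero, dl] at h1
      split_ifs at h1
      · refine IsCoprime.dvd_of_dvd_mul_right (IsCoprime.pow_left ?_) h1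
        exact Nat.isCoprime_iff_coprime.2
          ((Nat.coprime_primes (by norm_num : Nat.Prime 5) hl).2 h5.symm)
      · simpa using h1
  have hs : Function.Injective s := fun i j h => by
    by_contra hne
    apply hi i j hne
    have : κ i * (κ j).adj = sca l * (γ i * (γ j).adj) := by
      rw [← e i, ← e j, h, M2.adj_mul, mul_assoc, ← mul_assoc (dl l (s j)), mul_adj', det_dl,
        ← mul_assoc, ← sca_comm, mul_assoc]
    rw [this]
    refine ⟨?_, ?_, ?_, ?_⟩ <;> simp [sca]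
  rw [Tl_apply]
  refine Fintype.sum_bijective s (Finite.injective_iff_bijective.1 hs) _ _ fun j => ?_
  rw [← e j, ← pre_pre, hψ.2 _ (hG j)]

end Pool.Agent.P.MP_e7a540_nt.B5

end

section

/-! Step TW. -/

namespace Pool.Agent.P.MP_e7a540_nt.B5

open Pool.Agent.P.MP_8b7eba_nt.Mod Module Filter Topology Asymptotics CongruenceSubgroup

lemma base_tw (l : ℕ) (hl : l = 2 ∨ l = 3) :
    ∀ i j : Fin (l + 1), i ≠ j → ¬ Dv l (dl l i * (dl l j).adj) := by
  rcases hl with rfl | rfl <;> decide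

lemma cop_tw (l n : ℕ) (hl : l = 2 ∨ l = 3) : IsCoprime (l : ℤ) (5 ^ n) := by
  apply IsCoprime.pow_right
  rcases hl with rfl | rfl
  · exact ⟨-2, 1, by norm_num⟩
  · exact ⟨2, -1, by norm_num⟩

theorem p_TW (hHK : S_HK) :
    S_TW := by
  intro l n hl ψ hψ
  have hp : l.Prime := by rcases hl with rfl | rfl <;> norm_num
  have h5 : l ≠ 5 := by rcases hl with rfl | rfl <;> norm_num
  have hl0 : (l : ℤ) ≠ 0 := by exact_mod_cast hp.ne_zero
  refine ⟨⟨?_, fun g hg => ?_⟩, ?_⟩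
  · rw [Tl_apply]
    exact Submodule.sum_mem _ fun j _ => Sym_pre hψ.1 (by rw [det_dl]; exact hl0)
  · have key := hHK l n hp h5 ψ hψ (fun j => dl l j * g) (fun j => ?_) (fun j => ?_)
      (fun i j hij hD => ?_)
    · rw [Tl_apply, map_sum, ← Tl_apply, ← key]
      simp only [pre_pre]
    · rw [M2.det_mul, det_dl]
      rcases hg.1 with h | h <;> simp [h]
    · rw [M2.mul_c, dl_c, zero_mul, zero_add]
      exact hg.2.mul_left _
    · apply base_tw l hl i j hij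
      have e : dl l i * g * (dl l j * g).adj = sca g.det * (dl l i * (dl l j).adj) := by
        rw [M2.adj_mul, mul_assoc, ← mul_assoc g, mul_adj', ← mul_assoc, ← sca_comm, mul_assoc]
      rw [e] at hD
      generalize dl l i * (dl l j).adj = M at hD ⊢
      rcases hg.1 with h | h <;> simpa [h, Dv, sca] using hD
  · have key := hHK l n hp h5 ψ hψ
      (fun j => ⟨(dl l j).d, 0, -(5 ^ n * (dl l j).b), (dl l j).a⟩) (fun j => ?_) (fun j => ?_)
      (fun i j hij hD => ?_)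
    · rw [← key, Tl_apply, map_sum]
      refine Finset.sum_congr rfl fun j _ => ?_
      simp only [WW, pre_pre]
      congr 2
      ext <;> simp [mW, dl_c] <;> ring
    · left
      have := det_dl l j
      simp only [M2.det, dl_c] at this ⊢
      linear_combination this
    · simp
    · apply base_tw l hl i j hij
      obtain ⟨h1, -, h3, h4⟩ := hD
      simp only [M2.mul_a, M2.mul_c, M2.mul_d, M2.adj_a, M2.adj_b, M2.adj_c, M2.adj_d] at h1 h3 h4
      refine ⟨?_, ?_, ?_, ?_⟩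
      · simpa [dl_c] using h4
      · apply (cop_tw l n hl).dvd_of_dvd_mul_left
        rw [← dvd_neg]
        have e : -(5 ^ n * (dl l i * (dl l j).adj).b) =
            -(5 ^ n * (dl l i).b) * (dl l j).a + (dl l i).a * -(-(5 ^ n * (dl l j).b)) := by
          simp only [M2.mul_b, M2.adj_b, M2.adj_d]
          ring
        rw [e]
        exact h3
      · simp [dl_c]
      · simpa [dl_c] using h1

end Pool.Agent.P.MP_e7a540_nt.B5

end

section

/-! Step WU. -/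

namespace Pool.Agent.P.MP_e7a540_nt.B5

open Pool.Agent.P.MP_8b7eba_nt.Mod Module Filter Topology Asymptotics CongruenceSubgroup

lemma det_mW_wu (n : ℕ) : (mW n).det ≠ 0 := by simp [mW, M2.det]

lemma ex_s_wu {a b c d e : ℤ} (hd : a * d - b * (5 * c) = e) (he : e * e = 1) (k : ℤ) :
    ∃ s : Fin 5, ∃ B : ℤ, b + k * d - ((s : ℕ) : ℤ) * (a + k * (5 * c)) = 5 * B := by
  have h0 := Int.emod_nonneg (e * d * (b + k * d)) (show (5 : ℤ) ≠ 0 by norm_num)
  have h1 := Int.emod_lt_of_pos (e * d * (b + k * d)) (show (0 : ℤ) < 5 by norm_num)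
  have h2 := Int.mul_ediv_add_emod (e * d * (b + k * d)) 5
  generalize e * d * (b + k * d) / 5 = q at h2
  generalize e * d * (b + k * d) % 5 = r at h0 h1 h2
  refine ⟨⟨r.toNat, by omega⟩, -(e * b * c * (b + k * d)) + q * a - r * k * c, ?_⟩
  have : (((⟨r.toNat, by omega⟩ : Fin 5) : ℕ) : ℤ) = r := Int.toNat_of_nonneg h0
  rw [this]
  linear_combination (-a) * h2 - e * (b + k * d) * hd - (b + k * d) * he

theorem p_WU :
    S_WU := by
  refine ⟨fun n ψ hψ => ⟨⟨Sym_pre hψ.1 (det_mW_wu n), fun g hg => ?_⟩, ?_, ?_, ?_⟩,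
    fun n ψ => ?_, fun n ψ hψ => ⟨?_, fun g hg => ?_⟩⟩
  · obtain ⟨c, hc⟩ := hg.2
    have e : mW n * g = (⟨g.d, -c, -(5 ^ n * g.b), g.a⟩ : M2) * mW n := by
      ext <;> simp [mW, hc] <;> ring
    have hg' : GG (5 ^ n) (⟨g.d, -c, -(5 ^ n * g.b), g.a⟩ : M2) := by
      refine ⟨?_, by simp⟩
      have : (⟨g.d, -c, -(5 ^ n * g.b), g.a⟩ : M2).det = g.det := by
        simp only [M2.det, hc]; ring
      rw [this]; exact hg.1
    rw [WW, pre_pre, e, ← pre_pre, hψ.2 _ hg']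
  · have e : mW n * mW n = sca (-5 ^ n) := by ext <;> simp [mW, sca]
    rw [WW, pre_pre, e, pre_sca hψ.1 (by simp)]
  · rw [ev_apply, ev_apply, WW, pre_apply, Sym_swap hψ.1]
    have e1 : ap (mW n) (0, 1) = (-1 * 1, -1 * 0) := by ext <;> simp [mW]
    have e2 : ap (mW n) (1, 0) = (5 ^ n * 0, 5 ^ n * 1) := by ext <;> simp [mW]
    rw [e1, e2, Sym_scale_left hψ.1 (by simp), Sym_scale_right hψ.1 (by simp)]
  · rw [UU_apply]
    have : ∀ b : Fin 5, pre ⟨1, (b : ℕ), 0, 5⟩ (VV ψ) = ψ := by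
      intro b
      have e : (⟨5, 0, 0, 1⟩ : M2) * ⟨1, (b : ℕ), 0, 5⟩ = sca 5 * mT (b : ℕ) := by
        ext <;> simp [sca, mT]
      rw [VV, pre_pre, e, pre_sca_mul hψ.1 (by norm_num), hψ.2 _ (GG_mT _ _)]
    rw [Finset.sum_congr rfl fun b _ => this b, Finset.sum_const, Finset.card_univ,
      Fintype.card_fin, ← Nat.cast_smul_eq_nsmul ℂ]
    norm_num
  · have e : mW n * ⟨5, 0, 0, 1⟩ = mW (n + 1) := by ext <;> simp [mW, pow_succ]
    rw [VV, WW, WW, pre_pre, e]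
  · rw [UU_apply]
    exact Sym.sum_mem fun b _ => Sym_pre hψ.1 (by simp [M2.det])
  · obtain ⟨c, hc⟩ := hg.2
    have hc5 : g.c = 5 * (5 ^ n * c) := by rw [hc]; ring
    have hd : g.a * g.d - g.b * (5 * (5 ^ n * c)) = g.det := by rw [M2.det, hc5]
    choose s B hB using fun k : Fin 5 => ex_s_wu hd hg.det_sq ((k : ℕ) : ℤ)
    have hinj : Function.Injective s := by
      intro k k' hk
      have h1 := hB k
      have h2 := hB k'
      rw [← hk] at h2
      have h3 : ((k : ℕ) : ℤ) - (k' : ℕ) = 5 * (g.det * g.a * (B k - B k') +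
          (((k : ℕ) : ℤ) - (k' : ℕ)) * g.det * (5 ^ n * c) * (g.a * (s k : ℕ) - g.b)) := by
        linear_combination g.det * g.a * (h1 - h2) - (((k : ℕ) : ℤ) - (k' : ℕ)) * g.det * hd -
          (((k : ℕ) : ℤ) - (k' : ℕ)) * hg.det_sq
      have l1 := k.2
      have l2 := k'.2
      exact Fin.ext (by omega)
    rw [UU_apply, map_sum]
    refine Eq.trans (Finset.sum_congr rfl fun k _ => ?_)
      (Equiv.sum_comp (Equiv.ofBijective s hinj.bijective_of_finite) _)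
    have e : (⟨1, (k : ℕ), 0, 5⟩ : M2) * g =
        (⟨g.a + (k : ℕ) * g.c, B k, 5 * g.c, g.d - (s k : ℕ) * g.c⟩ : M2) *
          ⟨1, (s k : ℕ), 0, 5⟩ := by
      have := hB k
      rw [← hc5] at this
      ext <;> simp only [M2.mul_a, M2.mul_b, M2.mul_c, M2.mul_d]
      · ring
      · linear_combination this
      · ring
      · ring
    have hg' : GG (5 ^ (n + 2))
        (⟨g.a + (k : ℕ) * g.c, B k, 5 * g.c, g.d - (s k : ℕ) * g.c⟩ : M2) := by
      refine ⟨?_, c, by rw [hc]; ring⟩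
      have : (⟨g.a + (k : ℕ) * g.c, B k, 5 * g.c, g.d - (s k : ℕ) * g.c⟩ : M2).det = g.det := by
        have := hB k
        rw [← hc5] at this
        simp only [M2.det]
        linear_combination g.c * this
      rw [this]; exact hg.1
    rw [pre_pre, e, ← pre_pre, hψ.2 _ hg']
    rfl

end Pool.Agent.P.MP_e7a540_nt.B5

end

section

/-! Step KW. -/

namespace Pool.Agent.P.MP_e7a540_nt.B5

open Pool.Agent.P.MP_8b7eba_nt.Mod Module Filter Topology Asymptotics CongruenceSubgroup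

theorem word_kw (hTW : S_TW) (n : ℕ) (Z : Module.End ℂ Fn)
    (hZ : Z ∈ Submonoid.closure ({Tl 2, Tl 3} : Set (Module.End ℂ Fn))) :
    ∀ ψ ∈ SS n, Z ψ ∈ SS n ∧ WW n (Z ψ) = Z (WW n ψ) := by
  induction hZ using Submonoid.closure_induction with
  | mem x hx =>
    intro ψ hψ
    rcases hx with rfl | hx
    · exact hTW 2 n (Or.inl rfl) ψ hψ
    · rw [Set.mem_singleton_iff] at hx
      subst hx
      exact hTW 3 n (Or.inr rfl) ψ hψ
  | one =>
    intro ψ hψ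
    exact ⟨hψ, rfl⟩
  | mul x y _ _ hx hy =>
    intro ψ hψ
    obtain ⟨a1, a2⟩ := hy ψ hψ
    obtain ⟨b1, b2⟩ := hx (y ψ) a1
    refine ⟨b1, ?_⟩
    show WW n (x (y ψ)) = x (y (WW n ψ))
    rw [b2, a2]

theorem p_KW (hTW : S_TW) (hWU : S_WU) :
    S_KW := by
  intro n
  refine ⟨fun ψ hψ hK => ?_, fun ψ hψ => ?_⟩
  · rw [mem_KK]
    intro Z hZ
    obtain ⟨a1, a2⟩ := word_kw hTW n Z hZ ψ hψ
    rw [← a2, (hWU.1 n _ a1).2.2.1, mem_KK.1 hK Z hZ, neg_zero]
  · rw [mem_Dp] at hψ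
    rw [mem_KK]
    intro Z hZ
    obtain ⟨a1, a2⟩ := word_kw hTW n Z hZ ψ hψ.1
    have h := (hWU.1 n _ a1).2.2.1
    rw [a2, hψ.2] at h
    linear_combination h / 2

end Pool.Agent.P.MP_e7a540_nt.B5

end

section

/-! Step FIN. -/

namespace Pool.Agent.P.MP_e7a540_nt.B5

open Pool.Agent.P.MP_8b7eba_nt.Mod Module Filter Topology Asymptotics CongruenceSubgroup

theorem p_FIN (hPINJ : S_PINJ) (hPW : S_PW) :
    S_FIN := by
  refine ⟨fun n => FiniteDimensional.of_injective ((ph0 n).domRestrict (SS n))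
    ((injective_iff_map_eq_zero _).2 fun ψ h =>
      Subtype.ext (hPINJ n _ (SS_mono (by omega) ψ.2) h)), fun ψ h e => hPINJ 0 ψ h ?_⟩
  funext p
  have : Subsingleton (XX 0) := inferInstanceAs (Subsingleton (ZMod 1 × ZMod 1))
  rw [Subsingleton.elim p 0, (hPW 0 ψ h).2.2, e]
  rfl

end Pool.Agent.P.MP_e7a540_nt.B5

end

section

/-! Step STEP. -/

namespace Pool.Agent.P.MP_e7a540_nt.B5

open Pool.Agent.P.MP_8b7eba_nt.Mod Module Filter Topology Asymptotics CongruenceSubgroup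

theorem rn_step (f : Module.End ℂ Fn) (B : Submodule ℂ Fn) [FiniteDimensional ℂ B] :
    finrank ℂ (B.map f) + finrank ℂ ↥(B ⊓ LinearMap.ker f) = finrank ℂ B := by
  have h := LinearMap.finrank_range_add_finrank_ker (f.domRestrict B)
  rw [LinearMap.range_domRestrict, LinearMap.ker_domRestrict,
    ← Submodule.finrank_map_subtype_eq, Submodule.map_comap_subtype] at h
  exact h

theorem abs_step (A B D : Submodule ℂ Fn) [FiniteDimensional ℂ A] [FiniteDimensional ℂ B]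
    [FiniteDimensional ℂ D] (L U W : Module.End ℂ Fn) (h1 : ∀ x ∈ A, L x ∈ B)
    (h2 : ∀ x ∈ A, U (L x) = 0 → W x ∈ D) (h3 : ∀ x ∈ A, W x = 0 → x = 0) :
    finrank ℂ ↥(B ⊓ LinearMap.ker U) + finrank ℂ A ≤ finrank ℂ B + finrank ℂ D := by
  have a1 := rn_step U B
  have a2 := rn_step (U * L) A
  have a3 := rn_step W (A ⊓ LinearMap.ker (U * L))
  have a4 : finrank ℂ (A.map (U * L)) ≤ finrank ℂ (B.map U) := by
    refine Submodule.finrank_mono ?_
    rintro _ ⟨x, hx, rfl⟩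
    exact ⟨L x, h1 x hx, rfl⟩
  have a5 : finrank ℂ ((A ⊓ LinearMap.ker (U * L)).map W) ≤ finrank ℂ D := by
    refine Submodule.finrank_mono ?_
    rintro _ ⟨x, hx, rfl⟩
    exact h2 x hx.1 hx.2
  have a6 : A ⊓ LinearMap.ker (U * L) ⊓ LinearMap.ker W = ⊥ :=
    (Submodule.eq_bot_iff _).2 fun x hx => h3 x hx.1.1 hx.2
  rw [a6, finrank_bot] at a3
  omega

theorem p_STEP (hWU : S_WU) (hKW : S_KW) (hFIN : S_FIN) :
    S_STEP := by
  intro n
  have f1 := hFIN.1 (n + 1)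
  have f2 := hFIN.1 (n + 2)
  have f3 := hFIN.1 (n + 3)
  have g1 : FiniteDimensional ℂ ↥(SS (n + 2) ⊓ KK) := Submodule.finiteDimensional_of_le inf_le_left
  have g2 : FiniteDimensional ℂ (Am (n + 3)) :=
    Submodule.finiteDimensional_of_le (S₂ := SS (n + 3)) fun x hx => (mem_Am.1 hx).1
  have g3 : FiniteDimensional ℂ (Dp (n + 1)) :=
    Submodule.finiteDimensional_of_le (S₂ := SS (n + 1)) fun x hx => (mem_Dp.1 hx).1
  have g4 : FiniteDimensional ℂ (Am (n + 2)) :=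
    Submodule.finiteDimensional_of_le (S₂ := SS (n + 2)) fun x hx => (mem_Am.1 hx).1
  have g5 : FiniteDimensional ℂ (Dp (n + 2)) :=
    Submodule.finiteDimensional_of_le (S₂ := SS (n + 2)) fun x hx => (mem_Dp.1 hx).1
  have five : (5 : ℂ) ≠ 0 := by norm_num
  have key := abs_step (SS (n + 2) ⊓ KK) (Am (n + 3)) (Dp (n + 1)) (1 - WW (n + 3)) UU
    (WW (n + 2)) (by
      rintro x ⟨hx, hk⟩
      have hx3 : x ∈ SS (n + 3) := SS_mono (by omega) hx
      obtain ⟨b1, b2, -, -⟩ := hWU.1 _ x hx3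
      have e : (1 - WW (n + 3)) x = x - WW (n + 3) x := rfl
      rw [e]
      refine mem_Am.2 ⟨sub_mem hx3 b1, sub_mem hk ((hKW _).1 x hx3 hk), ?_⟩
      rw [map_sub, b2, neg_sub]) (by
      rintro x ⟨hx, -⟩ h0
      have e : (1 - WW (n + 3)) x = x - WW (n + 3) x := rfl
      obtain ⟨b1, b2, -, -⟩ := hWU.1 _ x hx
      rw [e, map_sub, sub_eq_zero, hWU.2.1 (n + 2) x, (hWU.1 _ _ b1).2.2.2] at h0
      have c1 : WW (n + 2) x ∈ SS (n + 1) := by
        have := hWU.2.2 n x hx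
        rw [h0] at this
        exact (Submodule.smul_mem_iff _ five).1 this
      refine mem_Dp.2 ⟨c1, ?_⟩
      have c2 := (hWU.1 _ _ (hWU.1 _ _ c1).1).2.2.2
      rw [← hWU.2.1 (n + 1), b2, h0] at c2
      exact (smul_right_injective Fn five c2).symm) (by
      rintro x ⟨hx, -⟩ h0
      rw [← (hWU.1 _ x hx).2.1, h0, map_zero])
  have d1 : Am (n + 2) ⊓ Dp (n + 2) = ⊥ := by
    refine (Submodule.eq_bot_iff _).2 fun x hx => ?_
    have b1 := (mem_Am.1 hx.1).2.2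
    rw [(mem_Dp.1 hx.2).2] at b1
    have : (2 : ℂ) • x = 0 := by rw [two_smul]; exact add_eq_zero_iff_eq_neg.2 b1
    exact (smul_eq_zero.1 this).resolve_left (by norm_num)
  have d2 := Submodule.finrank_sup_add_finrank_inf_eq (Am (n + 2)) (Dp (n + 2))
  rw [d1, finrank_bot] at d2
  have d3 : finrank ℂ ↥(Am (n + 2) ⊔ Dp (n + 2)) ≤ finrank ℂ ↥(SS (n + 2) ⊓ KK) :=
    Submodule.finrank_mono (sup_le (fun x hx => ⟨(mem_Am.1 hx).1, (mem_Am.1 hx).2.1⟩)
      fun x hx => ⟨(mem_Dp.1 hx).1, (hKW _).2 x hx⟩)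
  have d4 : Vn (n + 3) = Am (n + 3) ⊓ LinearMap.ker UU := rfl
  rw [d4]
  omega

end Pool.Agent.P.MP_e7a540_nt.B5

end

section

/-! Step PT. -/

namespace Pool.Agent.P.MP_e7a540_nt.B5

open Pool.Agent.P.MP_8b7eba_nt.Mod Module Filter Topology Asymptotics CongruenceSubgroup

lemma one_pt {m : ℕ} {ψ : Fn} (hψ : ψ ∈ SS (2 * m + 1)) {g : M2} (hg : GG 5 g) :
    pre (Dm m * g) ψ = pre (Dm m * sec m (ra m g 0)) ψ := by
  have hs := GG_sec m (ra m g 0)
  have hh := hg.mul hs.adj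
  have h0 : ra m (g * (sec m (ra m g 0)).adj) 0 = 0 := by
    rw [ra_mul hg.iw hs.iw.adj]
    have := ra_adj_ra (m := m) hs.iw 0
    rwa [ra_sec] at this
  have e : g * (sec m (ra m g 0)).adj * sec m (ra m g 0) = g := by
    rw [mul_assoc, M2.adj_mul_self (det_sec _ _), mul_one]
  generalize sec m (ra m g 0) = s at *
  generalize g * s.adj = h at *
  obtain ⟨⟨u, hu⟩, ⟨v, hv⟩⟩ := (ra_zero_iff hh.iw).1 h0
  have hk : GG (5 ^ (2 * m + 1)) ⟨h.a, u, 5 ^ m * h.c, h.d⟩ := by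
    refine ⟨?_, ⟨v, ?_⟩⟩
    · have : (M2.mk h.a u (5 ^ m * h.c) h.d).det = h.det := by
        simp only [M2.det, hu]; ring
      rw [this]; exact hh.1
    · simp only [hv]; ring
  have e2 : M2.mk h.a u (5 ^ m * h.c) h.d * Dm m = Dm m * h := by
    ext <;> simp [Dm, hu] <;> ring
  rw [← e, ← mul_assoc, ← e2, mul_assoc, ← pre_pre, (mem_SS.1 hψ).2 _ hk]

theorem p_PT :
    S_PT := by
  intro m ψ hψ g hg
  refine ⟨one_pt hψ hg, fun v w p => ?_⟩
  have h := one_pt hψ ((GG_sec m p).mul hg)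
  rw [ra_mul (GG_sec m p).iw hg.iw, ra_sec] at h
  rw [Ps_apply, Ps_apply, ← h, ← mul_assoc, ← pre_pre (Dm m * sec m p) g]
  rfl

end Pool.Agent.P.MP_e7a540_nt.B5

end

section

/-! Step PH. -/

namespace Pool.Agent.P.MP_e7a540_nt.B5

open Pool.Agent.P.MP_8b7eba_nt.Mod Module Filter Topology Asymptotics CongruenceSubgroup

lemma dv_mul_ph {l : ℤ} {g : M2} (h : Dv l g) (x y : M2) : Dv l (x * g * y) := by
  obtain ⟨⟨a, ha⟩, ⟨b, hb⟩, ⟨c, hc⟩, ⟨d, hd⟩⟩ := h
  refine ⟨⟨(x * ⟨a, b, c, d⟩ * y).a, ?_⟩, ⟨(x * ⟨a, b, c, d⟩ * y).b, ?_⟩,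
    ⟨(x * ⟨a, b, c, d⟩ * y).c, ?_⟩, ⟨(x * ⟨a, b, c, d⟩ * y).d, ?_⟩⟩ <;>
  simp only [M2.mul_a, M2.mul_b, M2.mul_c, M2.mul_d, ha, hb, hc, hd] <;> ring

lemma dv_conj_ph {l : ℤ} {m : ℕ} (hl : IsCoprime l (5 ^ m)) {h h' : M2} {b b' : ℤ}
    (hb : h.b = 5 ^ m * b) (hb' : h'.b = 5 ^ m * b')
    (H : Dv l ((⟨h.a, b, 5 ^ m * h.c, h.d⟩ : M2) * (⟨h'.a, b', 5 ^ m * h'.c, h'.d⟩ : M2).adj)) :
    Dv l (h * h'.adj) := by
  obtain ⟨h1, h2, h3, h4⟩ := H
  simp only [M2.mul_a, M2.mul_b, M2.mul_c, M2.mul_d, M2.adj_a, M2.adj_b, M2.adj_c, M2.adj_d]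
    at h1 h2 h3 h4
  refine ⟨?_, ?_, ?_, ?_⟩ <;>
    simp only [M2.mul_a, M2.mul_b, M2.mul_c, M2.mul_d, M2.adj_a, M2.adj_b, M2.adj_c, M2.adj_d,
      hb, hb']
  · rwa [show h.a * h'.d + 5 ^ m * b * -h'.c = h.a * h'.d + b * -(5 ^ m * h'.c) by ring]
  · rw [show h.a * -(5 ^ m * b') + 5 ^ m * b * h'.a = 5 ^ m * (h.a * -b' + b * h'.a) by ring]
    exact h2.mul_left _
  · refine hl.dvd_of_dvd_mul_left ?_
    rwa [show 5 ^ m * (h.c * h'.d + h.d * -h'.c) = 5 ^ m * h.c * h'.d + h.d * -(5 ^ m * h'.c) by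
      ring]
  · rwa [show h.c * -(5 ^ m * b') + h.d * h'.a = 5 ^ m * h.c * -b' + h.d * h'.a by ring]

theorem p_PH (hHK : S_HK) :
    S_PH := by
  intro m l hl hl5 ψ hψ δ hd hc hne v w p
  have h5 : ¬ (5 : ℤ) ∣ l := fun h => hl5
    ((Nat.prime_dvd_prime_iff_eq (by norm_num) hl).1 (by exact_mod_cast h)).symm
  have hco : IsCoprime (l : ℤ) (5 ^ m) := (prime5.coprime_iff_not_dvd.2 h5).symm.pow_right
  have hδ : ∀ j, Iw (δ j) := fun j => Iw_of_det (hc j) (by rw [hd]; exact h5)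
  have hg := (GG_sec m p).iw
  set g := sec m p with hgd
  have hg1 : g.det = 1 := det_sec m p
  let G : Fin (l + 1) → M2 := fun j => sec m (ra m (δ j).adj p)
  have hG : ∀ j, Iw (G j) := fun j => (GG_sec m _).iw
  have hG1 : ∀ j, (G j).det = 1 := fun j => det_sec m _
  let h : Fin (l + 1) → M2 := fun j => G j * δ j * g.adj
  have hh : ∀ j, Iw (h j) := fun j => ((hG j).mul (hδ j)).mul hg.adj
  have h0 : ∀ j, ra m (h j) 0 = 0 := fun j => by
    have e1 : ra m (G j) 0 = ra m (δ j).adj p := ra_sec m _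
    have e2 : ra m g 0 = p := ra_sec m p
    show ra m (G j * δ j * g.adj) 0 = 0
    rw [ra_mul ((hG j).mul (hδ j)) hg.adj, ra_mul (hG j) (hδ j), e1, ra_ra_adj (hδ j), ← e2,
      ra_adj_ra hg]
  have h1 := fun j => (ra_zero_iff (hh j)).1 (h0 j)
  choose b hb using fun j => (h1 j).1
  let κ : Fin (l + 1) → M2 := fun j => ⟨(h j).a, b j, 5 ^ m * (h j).c, (h j).d⟩
  have hκ : ∀ j, κ j * Dm m = Dm m * h j := fun j => by
    ext <;> simp [κ, Dm, hb, mul_comm]
  have hdet : ∀ j, (κ j).det = l := fun j => by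
    have e : (h j).det = l := by
      show (G j * δ j * g.adj).det = l
      rw [M2.det_mul, M2.det_mul, M2.det_adj, hG1, hg1, hd, one_mul, mul_one]
    rw [← e]
    simp only [M2.det, κ, hb]
    ring
  have key := hHK l (2 * m + 1) hl hl5 ψ hψ κ (fun j => .inl (hdet j)) (fun j => by
    rw [show 2 * m + 1 = m + (m + 1) by ring, pow_add]
    exact mul_dvd_mul_left _ (h1 j).2) fun i j hij H => hne i j hij (by
      have e := dv_mul_ph (dv_conj_ph hco (hb i) (hb j) H) (G i).adj (G j)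
      have e2 : (G i).adj * (h i * (h j).adj) * G j = δ i * (δ j).adj := by
        show (G i).adj * (G i * δ i * g.adj * (G j * δ j * g.adj).adj) * G j = _
        rw [M2.adj_mul, M2.adj_mul, M2.adj_adj]
        calc _ = ((G i).adj * G i) * δ i * (g.adj * g) * (δ j).adj * ((G j).adj * G j) := by
              simp only [mul_assoc]
          _ = _ := by
              rw [M2.adj_mul_self (hG1 i), M2.adj_mul_self (hG1 j), M2.adj_mul_self hg1]
              simp only [one_mul, mul_one]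
      rwa [e2] at e)
  rw [← key, map_sum, Finset.sum_apply]
  refine Finset.sum_congr rfl fun j _ => ?_
  have e : κ j * (Dm m * g) = Dm m * G j * δ j := by
    rw [← mul_assoc, hκ]
    show Dm m * (G j * δ j * g.adj) * g = _
    simp only [mul_assoc, M2.adj_mul_self hg1, mul_one]
  rw [Ps_apply, Ps_apply, pre_pre, ← hgd, e, pre_apply, pre_apply, ap_mul, ap_mul (Dm m * G j)]

end Pool.Agent.P.MP_e7a540_nt.B5

end

section

/-! Step PW. -/

namespace Pool.Agent.P.MP_e7a540_nt.B5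

open Pool.Agent.P.MP_8b7eba_nt.Mod Module Filter Topology Asymptotics CongruenceSubgroup

lemma sym_pw (m : ℕ) {ψ : Fn} (h : ψ ∈ Sym) (p : XX m) : pre (Dm m * sec m p) ψ ∈ Sym :=
  Sym_pre h (by rw [M2.det_mul, det_sec]; simp [Dm, M2.det])

theorem p_PW (hPT : S_PT) :
    S_PW := by
  intro m ψ hψ
  have h5 : (5 : ℤ) ^ m ≠ 0 := by positivity
  have h1 : ∀ p, ph0 m ψ (-p) = ph0 m ψ p := fun p => by
    rw [ph0, ← ra_md, ← (hPT m ψ hψ md (GG_md 5)).2, Ps_apply, Ps_apply,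
      show ap md (0, 1) = (0, 1) from rfl, show ap md (1, 0) = -(1, 0) from rfl,
      Sym_neg_right (sym_pw m hψ.1 p)]
  refine ⟨h1, fun p => ?_, ?_⟩
  · obtain ⟨a1, -⟩ := (ra_eq_iff (GG_sec m p).iw).1 (ra_sec m p)
    let g : M2 := ⟨1, -(p.2.val : ℤ), 5 * -(sec m p).b, (sec m p).a⟩
    have hg : GG 5 g := ⟨.inl (by simp [g, sec, M2.det]; ring), Dvd.intro _ rfl⟩
    have e1 : ra m g 0 = -p.swap := by
      rw [ra_eq_iff hg.iw]
      simp only [g, Int.mul_ediv_cancel_left _ (by norm_num : (5 : ℤ) ≠ 0)]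
      simpa using a1
    have e2 : mW (2 * m + 1) * (Dm m * sec m p) = sca (5 ^ m) * (Dm m * g * ⟨0, -1, 5, 0⟩) := by
      ext <;> simp [g, mW, Dm, sca, sec] <;> ring
    rw [← h1 p.swap, ph0, Ps_apply, Ps_apply, WW, pre_pre, e2, pre_sca_mul hψ.1 h5, ← pre_pre,
      (hPT m ψ hψ g hg).1, e1, pre_apply,
      show ap ⟨0, -1, 5, 0⟩ (0, 1) = -(1, 0) from rfl,
      show ap ⟨0, -1, 5, 0⟩ (1, 0) = (5 : ℤ) • (0, 1) from rfl,
      Sym_neg_left (sym_pw m hψ.1 _), Sym_smul_right (sym_pw m hψ.1 _) (by norm_num),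
      Sym_swap (sym_pw m hψ.1 _)]
  · rw [ph0, Ps_apply, sec_zero, mul_one, pre_apply, ev_apply,
      show ap (Dm m) (0, 1) = (5 : ℤ) ^ m • (0, 1) by ext <;> simp [Dm],
      show ap (Dm m) (1, 0) = (1, 0) by ext <;> simp [Dm], Sym_smul_left hψ.1 h5]

end Pool.Agent.P.MP_e7a540_nt.B5

end

section

/-! Step ETA. -/

namespace Pool.Agent.P.MP_e7a540_nt.B5

open Pool.Agent.P.MP_8b7eba_nt.Mod Module Filter Topology Asymptotics CongruenceSubgroup

lemma pow_eta (k : ℕ) : ∃ c n : ℤ, 5 ^ k ∣ n ∧ eta5 ^ 5 ^ k = ⟨c + 3 * n, -n, 5 * n, c - 2 * n⟩ := by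
  induction k with
  | zero => exact ⟨0, 1, by simp, by simp [eta5]⟩
  | succ k ih =>
    obtain ⟨c, n, h, e⟩ := ih
    refine ⟨c ^ 5 + 10 * c ^ 3 * n ^ 2 + 10 * c ^ 2 * n ^ 3 + 10 * c * n ^ 4 + 3 * n ^ 5,
      n * 5 * (c ^ 4 + 2 * c ^ 3 * n + 4 * c ^ 2 * n ^ 2 + 3 * c * n ^ 3 + n ^ 4),
      (pow_succ (5 : ℤ) k ▸ mul_dvd_mul_right h 5).mul_right _, ?_⟩
    rw [pow_succ 5 k, pow_mul, e]
    ext <;> simp [pow_succ] <;> ring

theorem p_ETA :
    S_ETA := by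
  intro m p
  obtain ⟨c, n, h, e⟩ := pow_eta m
  have h0 : (n : ZP m) = 0 := (ZMod.intCast_zmod_eq_zero_iff_dvd _ _).2 (by exact_mod_cast h)
  rw [ra_eq_iff (Iw.pow (by decide) _), e]
  simp [h0, mul_comm]

end Pool.Agent.P.MP_e7a540_nt.B5

end

section

/-! Step PHI. -/

namespace Pool.Agent.P.MP_e7a540_nt.B5

open Pool.Agent.P.MP_8b7eba_nt.Mod Module Filter Topology Asymptotics CongruenceSubgroup

lemma tel_phi (a : ℕ → ℂ) (N : ℕ) :
    ∑ k ∈ Finset.range N, (-1) ^ k * (a k + a (k + 1)) = a 0 - (-1) ^ N * a N := by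
  induction N with
  | zero => simp
  | succ N ih => rw [Finset.sum_range_succ, ih]; ring

theorem p_PHI (hPT : S_PT) (hETA : S_ETA) :
    S_PHI := by
  intro m ψ hψ
  have hs : ∀ p, pre (Dm m * sec m p) ψ ∈ Sym := fun p => Sym_pre hψ.1 (by
    rw [M2.det_mul, det_sec]; simp [Dm, M2.det])
  have h1 : ∀ p, Ps m (0, 1) (1, 1) ψ p = ph0 m ψ p - ph0 m ψ (ra m mu p) := fun p => by
    rw [ph0, ← (hPT m ψ hψ mu (by decide)).2 (0, 1) (1, 0) p, eq_sub_iff_add_eq]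
    exact Sym_add (hs p) (by decide) (by decide) (by decide)
  have h2 : ∀ p, Ps m (0, 1) (1, 1) ψ p =
      Ps m (0, 1) (1, 2) ψ p + Ps m (0, 1) (1, 2) ψ (ra m eta5 p) := fun p => by
    rw [← (hPT m ψ hψ eta5 (by decide)).2 (0, 1) (1, 2) p, Ps_apply, Ps_apply, Ps_apply,
      show ap eta5 (0, 1) = -(1, 2) by decide, Sym_neg_left (hs p)]
    exact (Sym_add (hs p) (by decide) (by decide) (by decide)).symm
  refine fun p => ⟨h1 p, ?_⟩
  have e : Iw eta5 := by decide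
  have a := tel_phi (fun k => Ps m (0, 1) (1, 2) ψ (ra m (eta5 ^ k) p)) (5 ^ m)
  rw [hETA, pow_zero, ra_one, Odd.neg_one_pow (Odd.pow (by decide))] at a
  simp only [← h1, h2, ← ra_mul (e.pow _) e, ← pow_succ, a]
  ring

end Pool.Agent.P.MP_e7a540_nt.B5

end

section

/-! Step PINJ. -/

namespace Pool.Agent.P.MP_e7a540_nt.B5

open Pool.Agent.P.MP_8b7eba_nt.Mod Module Filter Topology Asymptotics CongruenceSubgroup

lemma zero_pinj (hMANIN : S_MANIN) {φ : Fn} (hφ : φ ∈ Sym)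
    (h : ∀ g, GG 5 g → ∀ k : ℤ, k = 0 ∨ k = 1 ∨ k = 2 → pre g φ (0, 1) (1, k) = 0) : φ = 0 := by
  have h1 : ∀ g, GG 5 g → ∀ k : ℤ, -2 ≤ k → k ≤ 2 → pre g φ (-1, k) (0, 1) = 0 := by
    intro g hg k a b
    have hs := Sym_pre hφ hg.det_ne
    rw [Sym_swap hs, neg_eq_zero]
    rcases le_total 0 k with c | c
    · have := h _ (hg.mul (GG_md 5)) k (by omega)
      rw [← pre_pre, pre_apply] at this
      simpa [ap, md] using this
    · rw [← Sym_neg_right hs]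
      simpa using h g hg (-k) (by omega)
  refine hMANIN φ hφ fun g hg => ?_
  by_cases hc : (5 : ℤ) ∣ g.c
  · exact h g ⟨.inl hg, hc⟩ 0 (.inl rfl)
  obtain ⟨k, a, b, hk⟩ : ∃ k : ℤ, -2 ≤ k ∧ k ≤ 2 ∧ (5 : ℤ) ∣ g.c * k - g.d := by
    have : (5 : ℤ) ∣ g.c * (-2) - g.d ∨ (5 : ℤ) ∣ g.c * (-1) - g.d ∨ (5 : ℤ) ∣ g.c * 0 - g.d ∨
        (5 : ℤ) ∣ g.c * 1 - g.d ∨ (5 : ℤ) ∣ g.c * 2 - g.d := by
      have a : g.c % 5 = 1 ∨ g.c % 5 = 2 ∨ g.c % 5 = 3 ∨ g.c % 5 = 4 := by omega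
      have b : g.d % 5 = 0 ∨ g.d % 5 = 1 ∨ g.d % 5 = 2 ∨ g.d % 5 = 3 ∨ g.d % 5 = 4 := by omega
      rcases a with a | a | a | a <;> rcases b with b | b | b | b | b <;> omega
    rcases this with e | e | e | e | e <;> exact ⟨_, by omega, by omega, e⟩
  have := h1 (g * ⟨k, 1, -1, 0⟩) ⟨.inl (by rw [M2.det_mul, hg]; simp [M2.det]),
    by simpa [sub_eq_add_neg] using hk⟩ k a b
  rw [← pre_pre, pre_apply] at this
  simpa [ap] using this

theorem p_PINJ (hMANIN : S_MANIN) (hPT : S_PT) (hPHI : S_PHI) :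
    S_PINJ := by
  intro m ψ hψ h0
  have hd : (Dm m).det ≠ 0 := by simp [Dm, M2.det]
  have h1 : pre (Dm m) ψ = 0 := by
    refine zero_pinj hMANIN (Sym_pre hψ.1 hd) fun g hg k hk => ?_
    rw [pre_pre, (hPT m ψ hψ g hg).1, ← Ps_apply]
    have a := hPHI m ψ hψ (ra m g 0)
    simp only [h0, Pi.zero_apply, sub_self, mul_zero, Finset.sum_const_zero, mul_eq_zero,
      OfNat.ofNat_ne_zero, false_or] at a
    rcases hk with rfl | rfl | rfl
    · exact congrFun h0 _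
    · exact a.1
    · exact a.2
  rw [← pre_sca hψ.1 hd, ← mul_adj', ← pre_pre, h1, map_zero]

end Pool.Agent.P.MP_e7a540_nt.B5

end
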