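import Pool.Agent.P.MP_e7a540_nt.B5.Iface

/-! Proofs of the steps TAU, KILL, DSYM, INDZ, UB, CNT, RED, RANK, POL, FIND. -/

set_option autoImplicit false

section

/-! Step TAU. -/

namespace Pool.Agent.P.MP_e7a540_nt.B5

open Pool.Agent.P.MP_8b7eba_nt.Mod Module Filter Topology Asymptotics CongruenceSubgroup

/-- The pairing as an additive map. -/
noncomputable def pr_tau {m : ℕ} (φ : XX m → ℂ) : Me ℤ m →+ ℂ where
  toFun := pair φ
  map_zero' := by simp [pair]
  map_add' a b := by simp [pair, add_mul, Finset.sum_add_distrib]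

lemma single_tau {m : ℕ} (φ : XX m → ℂ) (p : XX m) (c : ℤ) :
    pr_tau φ (.single p c) = c * φ p := by
  change pair φ _ = _
  rw [pair, Finset.sum_eq_single p (fun q _ hq => by simp [Finsupp.single_eq_of_ne hq]) (by simp)]
  simp

lemma ext_tau {m : ℕ} {f g : Me ℤ m →+ ℂ} (h : ∀ p c, f (.single p c) = g (.single p c))
    (ν : Me ℤ m) : f ν = g ν := by
  induction ν using AddMonoidAlgebra.induction_linear with
  | zero => simp
  | add a b ha hb => rw [map_add, map_add, ha, hb]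
  | single p c => exact h p c

lemma pow_tau {m : ℕ} (φ : XX m → ℂ) (k : ℕ) (p : XX m) (c : ℤ) :
    pr_tau φ (((1 - rho ℤ m mu) * (-rho ℤ m eta5) ^ k) (.single p c)) =
      c * ((-1) ^ k * (φ (ra m (eta5 ^ k) p) - φ (ra m mu (ra m (eta5 ^ k) p)))) := by
  rw [neg_pow (rho ℤ m eta5), ← rho_pow (by decide)]
  rcases Nat.even_or_odd k with h | h
  · rw [h.neg_one_pow, h.neg_one_pow]
    simp [single_tau, mul_sub]
  · rw [h.neg_one_pow, h.neg_one_pow]
    simp [single_tau]
    ring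

lemma sym_tau {m : ℕ} {ψ : Fn} (h : ψ ∈ Sym) (p : XX m) : pre (Dm m * sec m p) ψ ∈ Sym :=
  Sym_pre h (by rw [M2.det_mul, det_sec]; simp [Dm, M2.det])

theorem p_TAU (hPT : S_PT) (hPH : S_PH) (hPW : S_PW) (hPHI : S_PHI) :
    S_TAU := by
  intro m ψ hψ ν
  have hs := fun p : XX m => sym_tau hψ.1 p
  have lam : ∀ p c, pr_tau (ph0 m ψ) (lamg (rho ℤ m) (5 ^ m) (.single p c)) =
      c * (2 * Ps m (0, 1) (1, 2) ψ p) := fun p c => by
    rw [(hPHI m ψ hψ p).2, lamg, Sg, Finset.mul_sum, Finset.mul_sum, LinearMap.sum_apply, map_sum]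
    exact Finset.sum_congr rfl fun k _ => pow_tau _ k p c
  have ev2 : ∀ μ, pr_tau (ph0 m ψ) (rho ℤ m md μ) = pr_tau (ph0 m ψ) μ :=
    ext_tau (f := (pr_tau (ph0 m ψ)).comp (rho ℤ m md).toAddMonoidHom) fun p c => by
      simp [single_tau, ra_md, (hPW m ψ hψ).1]
  have e0 : ∀ p, ph0 m ψ p = Ps m (0, 1) (1, 0) ψ p := fun _ => rfl
  have sl : ∀ (k : ℤ) (p : XX m), k ≠ 0 → Ps m (0, k) (1, 0) ψ p = ph0 m ψ p := fun k p hk => by
    have := Sym_scale_left (hs p) hk 0 1 (1, 0)
    rw [mul_zero, mul_one] at this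
    exact this
  have sr : ∀ (k : ℤ) (v : Vec) (p : XX m), k ≠ 0 →
      Ps m v (k, 0) ψ p = Ps m v (1, 0) ψ p := fun k v p hk => by
    have := Sym_scale_right (hs p) hk v 1 0
    rw [mul_zero, mul_one] at this
    exact this
  have ad : ∀ (k : ℤ) (p : XX m),
      Ps m (1, k) (1, 0) ψ p = ph0 m ψ p - Ps m (0, 1) (1, k) ψ p := fun k p =>
    eq_sub_of_add_eq' (Sym_add (hs p) (by simp) (by simp) (by simp))
  have t3 : ∀ q, Ps m (0, 1) (1, 3) ψ q = Ps m (0, 1) (1, 2) ψ (ra m md (ra m mv q)) := fun q => by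
    rw [← ra_mul (by decide) (by decide), ← (hPT m ψ hψ (mv * md) (by decide)).2]
    exact (Sym_neg_right (hs q) (0, 1) (1, 3)).symm
  have t4 : ∀ q, Ps m (-1, 3) (1, 0) ψ q = Ps m (1, 3) (1, 0) ψ (ra m md q) := fun q => by
    rw [← (hPT m ψ hψ md (by decide)).2]
    exact (Sym_neg_right (hs q) (-1, 3) (1, 0)).symm
  constructor
  · refine ext_tau (f := (pr_tau (ph0 m ψ)).comp (tau2 ℤ m).toAddMonoidHom)
      (g := (AddMonoidHom.mulLeft 4).comp (pr_tau (ph0 m (Tl 2 ψ)))) (fun p c => ?_) ν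
    have a : ph0 m (Tl 2 ψ) p = Ps m (0, 1) (2, 0) ψ (ra m ⟨1, 0, 0, 2⟩ p) +
        Ps m (0, 2) (1, 0) ψ (ra m ⟨2, 0, 0, 1⟩ p) + Ps m (1, 2) (1, 0) ψ (ra m ⟨2, -1, 0, 1⟩ p) :=
      (hPH m 2 Nat.prime_two (by norm_num) ψ hψ ![⟨2, 0, 0, 1⟩, ⟨1, 0, 0, 2⟩, ⟨1, 1, 0, 2⟩]
        (by decide) (by decide) (by decide) (0, 1) (1, 0) p).trans (Fin.sum_univ_three _)
    rw [sr 2 _ _ (by norm_num), sl 2 _ (by norm_num), ad, ← e0] at a
    simp only [AddMonoidHom.comp_apply, LinearMap.toAddMonoidHom_coe, AddMonoidHom.coe_mulLeft,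
      tau2, t2g, two_mul, Module.End.mul_apply, LinearMap.add_apply, LinearMap.sub_apply,
      Module.End.one_apply, map_add (pr_tau _), map_sub (pr_tau _), ev2, rho_single, lam,
      single_tau, a]
    ring
  · refine ext_tau (f := (pr_tau (ph0 m ψ)).comp (tau3 ℤ m).toAddMonoidHom)
      (g := (AddMonoidHom.mulLeft 4).comp (pr_tau (ph0 m (Tl 3 ψ)))) (fun p c => ?_) ν
    have a : ph0 m (Tl 3 ψ) p = Ps m (0, 1) (3, 0) ψ (ra m ⟨1, 0, 0, 3⟩ p) +
        Ps m (0, 3) (1, 0) ψ (ra m ⟨3, 0, 0, 1⟩ p) + Ps m (1, 3) (1, 0) ψ (ra m ⟨3, -1, 0, 1⟩ p) +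
        Ps m (-1, 3) (1, 0) ψ (ra m ⟨3, 1, 0, 1⟩ p) := by
      have b := hPH m 3 Nat.prime_three (by norm_num) ψ hψ
        ![⟨3, 0, 0, 1⟩, ⟨1, 0, 0, 3⟩, ⟨1, 1, 0, 3⟩, ⟨1, -1, 0, 3⟩]
        (by decide) (by decide) (by decide) (0, 1) (1, 0) p
      rw [Fin.sum_univ_four] at b
      simpa [ap, M2.adj, ph0] using b
    rw [sr 3 _ _ (by norm_num), sl 3 _ (by norm_num), t4, ad, ad, t3, t3, ← e0] at a
    change pr_tau (ph0 m ψ) (tau3 ℤ m (.single p c)) = 4 * pr_tau (ph0 m (Tl 3 ψ)) (.single p c)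
    rw [single_tau, a, tau3, t3g, Module.End.mul_apply, LinearMap.add_apply, map_add, ev2,
      Module.End.one_apply, LinearMap.sub_apply, map_sub, qg, two_mul]
    simp only [Module.End.mul_apply, LinearMap.add_apply, rho_single]
    rw [map_add (rho ℤ m mv), rho_single, rho_single, map_add (rho ℤ m md), rho_single, rho_single,
      map_add (lamg _ _)]
    simp only [map_add (pr_tau _), lam, single_tau]
    ring

end Pool.Agent.P.MP_e7a540_nt.B5

end

section

/-! Step KILL. -/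

namespace Pool.Agent.P.MP_e7a540_nt.B5

open Pool.Agent.P.MP_8b7eba_nt.Mod Module Filter Topology Asymptotics CongruenceSubgroup

lemma add_kill {m : ℕ} (φ : XX m → ℂ) (μ ν : Me ℤ m) :
    pair φ (μ + ν) = pair φ μ + pair φ ν := by
  simp [pair, add_mul, Finset.sum_add_distrib]

lemma neg_kill {m : ℕ} (φ : XX m → ℂ) (μ : Me ℤ m) : pair φ (-μ) = -pair φ μ := by
  simp [pair]

lemma one_kill {m : ℕ} (φ : XX m → ℂ) : pair φ 1 = φ 0 := by
  rw [pair, Finset.sum_eq_single 0]
  · simp [AddMonoidAlgebra.one_def]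
  · intro p _ hp
    simp [AddMonoidAlgebra.one_def, hp]
  · simp

theorem p_KILL (hTAU : S_TAU) (hTW : S_TW) (hPW : S_PW) :
    S_KILL := by
  intro m ψ hψ hK Z hZ
  have key : ∀ ν : Me ℤ m, (∀ ψ ∈ SS (2 * m + 1), ψ ∈ KK → pair (ph0 m ψ) ν = 0) →
      ∀ ψ ∈ SS (2 * m + 1), ψ ∈ KK → pair (ph0 m ψ) (Z ν) = 0 := by
    induction hZ using Subring.closure_induction with
    | mem Z hZ =>
      intro ν h ψ hψ hK
      rcases hZ with rfl | rfl
      · rw [(hTAU m ψ hψ ν).1, h _ (hTW 2 _ (.inl rfl) ψ hψ).1 (KK_T2 hK), mul_zero]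
      · rw [(hTAU m ψ hψ ν).2, h _ (hTW 3 _ (.inr rfl) ψ hψ).1 (KK_T3 hK), mul_zero]
    | zero => intro ν _ ψ _ _; simp [pair]
    | one => exact fun ν h => h
    | add Z Z' _ _ a b =>
      intro ν h ψ hψ hK
      rw [LinearMap.add_apply, add_kill, a ν h ψ hψ hK, b ν h ψ hψ hK, add_zero]
    | neg Z _ a =>
      intro ν h ψ hψ hK
      rw [LinearMap.neg_apply, neg_kill, a ν h ψ hψ hK, neg_zero]
    | mul Z Z' _ _ a b => exact fun ν h => a _ (b ν h)
  refine key 1 (fun ψ hψ hK => ?_) ψ hψ hK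
  rw [one_kill, (hPW m ψ hψ).2.2, KK_ev hK]

end Pool.Agent.P.MP_e7a540_nt.B5

end

section

/-! Step DSYM. -/

namespace Pool.Agent.P.MP_e7a540_nt.B5

open Pool.Agent.P.MP_8b7eba_nt.Mod Module Filter Topology Asymptotics CongruenceSubgroup

lemma pm_dsym {N h : ℕ} (hN : N = 2 * h + 1) (x : ZMod N) :
    ∃ i : Fin (h + 1), x = ((i : ℕ) : ZMod N) ∨ x = -((i : ℕ) : ZMod N) := by
  have : NeZero N := ⟨by omega⟩
  have hx : x.val < N := ZMod.val_lt x
  by_cases h1 : x.val ≤ h
  · exact ⟨⟨x.val, by omega⟩, .inl (ZMod.natCast_zmod_val x).symm⟩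
  · refine ⟨⟨N - x.val, by omega⟩, .inr ?_⟩
    rw [Nat.cast_sub hx.le, ZMod.natCast_self, ZMod.natCast_zmod_val, zero_sub, neg_neg]

theorem p_DSYM :
    S_DSYM := by
  intro m
  obtain ⟨h, hh⟩ : Odd (5 ^ m) := Odd.pow (by decide)
  let L : SymF m →ₗ[ℂ] (Fin (h + 1) × Fin (h + 1) → ℂ) :=
    (LinearMap.funLeft ℂ ℂ fun q : Fin (h + 1) × Fin (h + 1) =>
      ((((q.1 : ℕ) : ZP m) + ((q.2 : ℕ) : ZP m), ((q.1 : ℕ) : ZP m) - ((q.2 : ℕ) : ZP m)) :
        XX m)).comp (SymF m).subtype
  have hL : Function.Injective L := by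
    rw [injective_iff_map_eq_zero]
    rintro ⟨φ, h1, h2⟩ h0
    have e1 : ∀ s t : ZP m, φ (s + -t, s - -t) = φ (s + t, s - t) := fun s t => by
      rw [← h2 (s + t, s - t), Prod.swap_prod_mk, sub_neg_eq_add, sub_eq_add_neg]
    have e2 : ∀ s t : ZP m, φ (-s + t, -s - t) = φ (s + t, s - t) := fun s t => by
      rw [← e1 s t, ← h1 (s + -t, s - -t)]
      congr 1
      ext
      · simp only [Prod.fst_neg]; ring
      · simp only [Prod.snd_neg]; ring
    have e0 : ∀ i j : Fin (h + 1),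
        φ (((i : ℕ) : ZP m) + ((j : ℕ) : ZP m), ((i : ℕ) : ZP m) - ((j : ℕ) : ZP m)) = 0 :=
      fun i j => congrFun h0 (i, j)
    have e3 : ∀ s t : ZP m, φ (s + t, s - t) = 0 := fun s t => by
      obtain ⟨i, rfl | rfl⟩ := pm_dsym hh s <;> obtain ⟨j, rfl | rfl⟩ := pm_dsym hh t
      · exact e0 i j
      · rw [e1]; exact e0 i j
      · rw [e2]; exact e0 i j
      · rw [e2, e1]; exact e0 i j
    obtain ⟨u, hu⟩ := (isUnit_int m (a := 2) (by decide)).exists_right_inv
    push_cast at hu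
    refine Subtype.ext (funext fun p => ?_)
    have := e3 (u * (p.1 + p.2)) (u * (p.1 - p.2))
    rw [show u * (p.1 + p.2) + u * (p.1 - p.2) = p.1 by linear_combination p.1 * hu,
      show u * (p.1 + p.2) - u * (p.1 - p.2) = p.2 by linear_combination p.2 * hu] at this
    exact this
  have h3 := LinearMap.finrank_le_finrank_of_injective hL
  rw [Module.finrank_fintype_fun_eq_card, Fintype.card_prod, Fintype.card_fin] at h3
  rw [hh]
  nlinarith

end Pool.Agent.P.MP_e7a540_nt.B5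

end

section

/-! Step INDZ. -/

namespace Pool.Agent.P.MP_e7a540_nt.B5

open Pool.Agent.P.MP_8b7eba_nt.Mod Module Filter Topology Asymptotics CongruenceSubgroup

theorem p_INDZ :
    S_INDZ := by
  classical
  intro ι X _ _ ν h
  have : Fact (Nat.Prime 5) := ⟨by norm_num⟩
  obtain ⟨g, hg⟩ := LinearMap.exists_leftInverse_of_injective
    (Fintype.linearCombination F5 fun i x => (ν i x : F5))
    (LinearMap.ker_eq_bot.2 (linearIndependent_iff_injective_fintypeLinearCombination.1 h))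
  choose B hB using fun x j => ZMod.intCast_surjective (n := 5) (g (Pi.single x 1) j)
  let A : Matrix ι X ℤ := Matrix.of ν
  let B' : Matrix X ι ℤ := Matrix.of B
  have h1 : (Int.castRingHom F5).mapMatrix (A * B') = 1 := by
    ext i j
    have e1 := congrFun (LinearMap.congr_fun hg (Pi.single i 1)) j
    have e2 : (Fintype.linearCombination F5 fun i x => (ν i x : F5)) (Pi.single i 1) =
        ∑ x, (ν i x : F5) • Pi.single x (1 : F5) := by
      rw [Fintype.linearCombination_apply_single, one_smul]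
      ext x
      simp [Pi.single_apply]
    rw [LinearMap.comp_apply, e2, map_sum] at e1
    simp only [map_smul, Finset.sum_apply, Pi.smul_apply, smul_eq_mul, ← hB,
      LinearMap.id_apply] at e1
    simp [A, B', Matrix.mul_apply, e1, Pi.single_apply, Matrix.one_apply, eq_comm]
  have h2 : (A * B').det ≠ 0 := fun e => by
    have := (Int.castRingHom F5).map_det (A * B')
    rw [h1, e] at this
    simp at this
  have h3 : ((Int.castRingHom ℂ).mapMatrix (A * B')).det ≠ 0 := by
    rw [← RingHom.map_det]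
    simpa using h2
  rw [Fintype.linearIndependent_iff]
  intro c hc
  have h4 : Matrix.vecMul c ((Int.castRingHom ℂ).mapMatrix (A * B')) = 0 := by
    ext j
    have : ∀ x, ∑ i, c i * (ν i x : ℂ) = 0 := fun x => by simpa using congrFun hc x
    simp only [Matrix.vecMul, dotProduct, RingHom.mapMatrix_apply, Matrix.map_apply,
      Matrix.mul_apply, A, B', Matrix.of_apply, eq_intCast, Int.cast_sum, Int.cast_mul,
      Finset.mul_sum, Pi.zero_apply]
    rw [Finset.sum_comm]
    simp only [← mul_assoc, ← Finset.sum_mul, this, zero_mul, Finset.sum_const_zero]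
  exact fun i => congrFun (Matrix.eq_zero_of_vecMul_eq_zero h3 h4) i

end Pool.Agent.P.MP_e7a540_nt.B5

end

section

/-! Step UB. -/

namespace Pool.Agent.P.MP_e7a540_nt.B5

open Pool.Agent.P.MP_8b7eba_nt.Mod Module Filter Topology Asymptotics CongruenceSubgroup

lemma md_adj_ub {m : ℕ} (p : XX m) : ra m md.adj p = -p := by
  have := ra_adj_ra (g := md) (by decide) (-p)
  rwa [ra_md, neg_neg] at this

lemma coeff_symm_ub {m : ℕ} (ν : Me ℤ m) (p : XX m) : (symm ℤ m ν).coeff p =
    ν.coeff p + ν.coeff (-p) + ν.coeff p.swap + ν.coeff (-p.swap) := by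
  have e : symm ℤ m ν = ν + rho ℤ m md ν + sw ℤ m ν + sw ℤ m (rho ℤ m md ν) := by
    simp only [symm, Module.End.mul_apply, LinearMap.add_apply, Module.End.one_apply, map_add]
    abel
  have hd : Iw md := by decide
  rw [e]
  simp only [AddMonoidAlgebra.coeff_add, Finsupp.add_apply, coeff_sw, coeff_rho hd, md_adj_ub]

lemma pair_symm_ub {m : ℕ} {φ : XX m → ℂ} (hφ : φ ∈ SymF m) (ν : Me ℤ m) :
    ∑ p, ((symm ℤ m ν).coeff p : ℂ) * φ p = 4 * pair φ ν := by
  have h1 : ∑ p, (ν.coeff (-p) : ℂ) * φ p = pair φ ν :=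
    Fintype.sum_equiv (Equiv.neg _) _ _ fun p => by simp [hφ.1]
  have h2 : ∑ p : XX m, (ν.coeff p.swap : ℂ) * φ p = pair φ ν :=
    Fintype.sum_equiv (Equiv.prodComm _ _) _ _ fun p => by
      rw [Equiv.prodComm_apply, hφ.2]
  have h3 : ∑ p : XX m, (ν.coeff (-p.swap) : ℂ) * φ p = pair φ ν :=
    Fintype.sum_equiv ((Equiv.prodComm _ _).trans (Equiv.neg _)) _ _ fun p => by
      rw [Equiv.trans_apply, Equiv.prodComm_apply, Equiv.neg_apply, hφ.1, hφ.2]
  simp only [coeff_symm_ub, Int.cast_add, add_mul, Finset.sum_add_distrib, h1, h2, h3]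
  rw [pair]
  ring

lemma dim_ub {V : Type} [AddCommGroup V] [Module ℂ V] [FiniteDimensional ℂ V]
    {S Y N : Submodule ℂ V} (h1 : Y ≤ S) (h2 : N ≤ S) (h : Disjoint Y N) :
    finrank ℂ Y + finrank ℂ N ≤ finrank ℂ S := by
  rw [← Submodule.finrank_sup_add_finrank_inf_eq, h.eq_bot, finrank_bot, add_zero]
  exact Submodule.finrank_mono (sup_le h1 h2)

theorem p_UB (hKILL : S_KILL) (hPW : S_PW) (hPINJ : S_PINJ) (hDSYM : S_DSYM) (hINDZ : S_INDZ) :
    S_UB := by
  intro m ι _ Z hZ hind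
  let n : ι → XX m → ℂ := fun i p => ((symm ℤ m (Z i 1)).coeff p : ℂ)
  have hn : LinearIndependent ℂ n := by
    refine hINDZ ι (XX m) (fun i p => (symm ℤ m (Z i 1)).coeff p) ?_
    rw [Fintype.linearIndependent_iff] at hind ⊢
    refine fun g hg => hind g (AddMonoidAlgebra.coeff_injective (Finsupp.ext fun p => ?_))
    have := congrFun hg p
    simpa [AddMonoidAlgebra.coeff_sum, coeff_red] using this
  let L := (ph0 m).domRestrict (Am (2 * m + 1))
  have hL : Function.Injective L := by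
    rw [injective_iff_map_eq_zero]
    exact fun ψ h => Subtype.ext (hPINJ m ψ (mem_Am.1 ψ.2).1 h)
  have hY : LinearMap.range L ≤ SymF m := by
    rintro _ ⟨ψ, rfl⟩
    obtain ⟨a1, -, a3⟩ := mem_Am.1 ψ.2
    obtain ⟨b1, b2, -⟩ := hPW m ψ a1
    refine ⟨b1, fun p => ?_⟩
    have := b2 p
    rw [a3, map_neg, Pi.neg_apply, neg_inj] at this
    exact this.symm
  have hN : Submodule.span ℂ (Set.range n) ≤ SymF m := by
    rw [Submodule.span_le]
    rintro _ ⟨i, rfl⟩
    refine ⟨fun p => ?_, fun p => ?_⟩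
    · simp only [n, coeff_symm_ub, neg_neg, Prod.swap_neg]
      push_cast
      ring
    · simp only [n, coeff_symm_ub, Prod.swap_swap]
      push_cast
      ring
  have hD : Disjoint (LinearMap.range L) (Submodule.span ℂ (Set.range n)) := by
    rw [Submodule.disjoint_def]
    intro φ h1 h2
    have o : ∀ i, ∑ p, n i p * φ p = 0 := fun i => by
      rw [pair_symm_ub (hY h1)]
      obtain ⟨ψ, rfl⟩ := h1
      obtain ⟨a1, a2, -⟩ := mem_Am.1 ψ.2
      exact mul_eq_zero_of_right _ (hKILL m ψ a1 a2 (Z i) (hZ i))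
    obtain ⟨c, hc⟩ := (Submodule.mem_span_range_iff_exists_fun ℂ).1 h2
    have e : ∀ p, star (φ p) = ∑ i, star (c i) * n i p := fun p => by
      rw [← hc]
      simp [n]
    have s : dotProduct (star φ) φ = 0 := by
      simp only [dotProduct, Pi.star_apply, e, Finset.sum_mul]
      rw [Finset.sum_comm]
      refine Finset.sum_eq_zero fun i _ => ?_
      simp only [mul_assoc]
      rw [← Finset.mul_sum, o, mul_zero]
    open scoped ComplexOrder in exact dotProduct_star_self_eq_zero.1 s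
  have h := dim_ub hY hN hD
  rw [LinearMap.finrank_range_of_inj hL, finrank_span_eq_card hn] at h
  have := hDSYM m
  omega

end Pool.Agent.P.MP_e7a540_nt.B5

end

section

/-! Step CNT. -/

namespace Pool.Agent.P.MP_e7a540_nt.B5

open Pool.Agent.P.MP_8b7eba_nt.Mod Module Filter Topology Asymptotics CongruenceSubgroup

theorem row_cnt (P c : ℕ) :
    ∑ i ∈ Finset.range P, (if i + c < P then 1 else 0) = P - c := by
  rw [← Finset.card_filter, ← Finset.card_range (P - c)]
  congr 1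
  ext i
  simp only [Finset.mem_filter, Finset.mem_range]
  omega

theorem sum_cnt (Q : ℕ) : ∑ j ∈ Finset.range Q, (10 * j + 7) = 5 * Q ^ 2 + 2 * Q := by
  induction Q with
  | zero => simp
  | succ Q ih => rw [Finset.sum_range_succ, ih]; ring

theorem p_CNT :
    S_CNT := by
  intro Q
  have h : ∀ e : ℕ, ∑ t ∈ Finset.range (5 * Q) ×ˢ Finset.range (5 * Q),
      (if t.1 + 5 * t.2 + e < 5 * Q then 1 else 0) =
      ∑ j ∈ Finset.range Q, (5 * Q - (5 * (Q - 1 - j) + e)) := fun e => by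
    rw [Finset.sum_product_right, Finset.sum_range_reflect (fun j => 5 * Q - (5 * j + e)) Q]
    simp only [add_assoc, row_cnt]
    refine (Finset.sum_subset (Finset.range_mono (by omega)) fun j _ hj => ?_).symm
    rw [Finset.mem_range] at hj
    omega
  rw [Idx, Finset.card_filter, Finset.sum_product, Fintype.sum_bool]
  simp only [if_true, Bool.false_eq_true, if_false]
  rw [h, h, ← Finset.sum_add_distrib, ← sum_cnt]
  refine Finset.sum_congr rfl fun j hj => ?_
  rw [Finset.mem_range] at hj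
  omega

end Pool.Agent.P.MP_e7a540_nt.B5

end

section

/-! Step RED. -/

namespace Pool.Agent.P.MP_e7a540_nt.B5

open Pool.Agent.P.MP_8b7eba_nt.Mod Module Filter Topology Asymptotics CongruenceSubgroup

section
variable {R R' M M' : Type*} [CommRing R] [CommRing R'] [AddCommGroup M] [AddCommGroup M']
  [Module R M] [Module R' M'] {r : M →+ M'} {A B : Module.End R M} {A' B' : Module.End R' M'}

lemma mul_red (h : (A, A') ∈ Rel R R' r) (k : (B, B') ∈ Rel R R' r) :
    (A * B, A' * B') ∈ Rel R R' r := mul_mem h k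
lemma add_red (h : (A, A') ∈ Rel R R' r) (k : (B, B') ∈ Rel R R' r) :
    (A + B, A' + B') ∈ Rel R R' r := add_mem h k
lemma pow_red (h : (A, A') ∈ Rel R R' r) (k : ℕ) : (A ^ k, A' ^ k) ∈ Rel R R' r := pow_mem h k
lemma one_red : ((1 : Module.End R M), (1 : Module.End R' M')) ∈ Rel R R' r := one_mem _

end

lemma single_red (m : ℕ) (p : XX m) (c : ℤ) :
    red m (.single p c) = .single p (c : F5) := by
  simp [red]

lemma push_red (m : ℕ) (φ : XX m → XX m) :
    (push ℤ m φ, push F5 m φ) ∈ Rel ℤ F5 (red m).toAddMonoidHom := by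
  rw [mem_Rel]
  intro μ
  change red m (push ℤ m φ μ) = push F5 m φ (red m μ)
  induction μ using AddMonoidAlgebra.induction_linear with
  | zero => simp only [map_zero]
  | add a b ha hb => simp only [map_add, ha, hb]
  | single p c => rw [push_single, single_red, single_red, push_single]

lemma fam_red (m : ℕ) (t : Bool × ℕ × ℕ) :
    (fam ℤ m t, fam F5 m t) ∈ Rel ℤ F5 (red m).toAddMonoidHom := by
  have h : ∀ g, (rho ℤ m g, rho F5 m g) ∈ Rel ℤ F5 (red m).toAddMonoidHom :=
    fun g => push_red m (ra m g)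
  obtain ⟨hx, hy, hw⟩ := rel_xyw (ρ := rho ℤ m) (ρ' := rho F5 m) (K := 5 ^ m) (K' := 5 ^ m)
    (fun g _ => h g) (rel_Sg (h eta5) (5 ^ m))
  obtain ⟨b, i, j⟩ := t
  have h1 := mul_red (pow_red hx i) (pow_red hy j)
  unfold fam xo yo wo
  cases b with
  | false =>
    rw [if_neg (by simp), if_neg (by simp)]
    exact mul_red h1 one_red
  | true =>
    rw [if_pos rfl, if_pos rfl]
    exact mul_red h1 hw

lemma symm_red (m : ℕ) : (symm ℤ m, symm F5 m) ∈ Rel ℤ F5 (red m).toAddMonoidHom := by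
  unfold symm sw rho
  exact mul_red (add_red one_red (push_red m Prod.swap)) (add_red one_red (push_red m (ra m md)))

theorem p_RED :
    S_RED := by
  intro m t
  have h1 : red m (symm ℤ m (fam ℤ m t 1)) = symm F5 m (red m (fam ℤ m t 1)) :=
    mem_Rel.1 (symm_red m) _
  have h2 : red m (fam ℤ m t 1) = fam F5 m t (red m 1) := mem_Rel.1 (fam_red m t) _
  rw [h1, h2, map_one]

end Pool.Agent.P.MP_e7a540_nt.B5

end

section

/-! Step RANK. -/

namespace Pool.Agent.P.MP_e7a540_nt.B5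

open Pool.Agent.P.MP_8b7eba_nt.Mod Module Filter Topology Asymptotics CongruenceSubgroup

theorem smul_rank {ι : Type} (v : ι → PP) (h : LinearIndependent F5 v) (s : Finset ι) :
    LinearIndependent F5 fun i : s => (4 : F5) • v i :=
  (h.comp ((↑) : s → ι) Subtype.val_injective).units_smul fun _ => Units.mk0 (4 : F5) (by decide)

theorem p_RANK (hFAM : S_FAM) (hFIND : S_FIND) (hPOL : S_POL) (hRED : S_RED) :
    S_RANK := by
  intro m hm
  simp only [hRED m]
  refine hFIND m (Idx (5 ^ m)) _ (fun t => (4 : F5) • famq t) (fun t => famd t) (fun t => ?_)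
    (fun t d hd => ?_) (fun t => hFAM m hm t) ?_
  · exact (MvPolynomial.homogeneousSubmodule (Fin 2) F5 (famd t)).smul_mem 4 (hPOL.1 t)
  · have h := (Finset.mem_filter.1 t.2).2
    have k := hPOL.2.1 t d (MvPolynomial.support_smul hd)
    exact ⟨(k 0).trans_lt h, (k 1).trans_lt h⟩
  · exact smul_rank famq hPOL.2.2 _

end Pool.Agent.P.MP_e7a540_nt.B5

end

section

/-! Step POL. -/

namespace Pool.Agent.P.MP_e7a540_nt.B5

open Pool.Agent.P.MP_8b7eba_nt.Mod Module Filter Topology Asymptotics CongruenceSubgroup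

open MvPolynomial in
lemma li_of_degree_pol {ι : Type} (mo : MonomialOrder (Fin 2)) (v : ι → PP) (h0 : ∀ i, v i ≠ 0)
    (hinj : Function.Injective fun i => mo.degree (v i)) : LinearIndependent F5 v := by
  classical
  rw [linearIndependent_iff']
  intro s g hs
  by_contra hc
  push Not at hc
  have hne : (s.filter fun i => g i ≠ 0).Nonempty := by
    obtain ⟨i, hi, hg⟩ := hc
    exact ⟨i, Finset.mem_filter.mpr ⟨hi, hg⟩⟩
  obtain ⟨i, hi, hmax⟩ := Finset.exists_max_image _ (fun i => mo.toSyn (mo.degree (v i))) hne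
  obtain ⟨his, hgi⟩ := Finset.mem_filter.mp hi
  have h1 := congrArg (coeff (mo.degree (v i))) hs
  rw [coeff_sum, Finset.sum_eq_single i] at h1
  · rw [coeff_smul, coeff_zero, smul_eq_mul] at h1
    rcases mul_eq_zero.mp h1 with h | h
    · exact hgi h
    · exact h0 i (mo.coeff_degree_eq_zero_iff.mp h)
  · intro j hj hji
    by_cases hg : g j = 0
    · simp [hg]
    · have h2 := hmax j (Finset.mem_filter.mpr ⟨hj, hg⟩)
      have h3 : mo.toSyn (mo.degree (v j)) ≠ mo.toSyn (mo.degree (v i)) := fun h =>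
        hji (hinj (mo.toSyn.injective h))
      rw [coeff_smul, mo.coeff_eq_zero_of_lt (lt_of_le_of_ne h2 h3), smul_zero]
  · intro h
    exact absurd his h

open MvPolynomial in
lemma famq_eq_pol (t : Bool × ℕ × ℕ) : famq t =
    C (2 ^ (t.2.1 + t.2.2) * (if t.1 then -1 else 1) : F5) *
      (ps ^ (t.2.1 + t.2.2 + if t.1 then 1 else 0) * pz ^ (2 * t.2.2 + if t.1 then 1 else 0)) := by
  obtain ⟨b, i, j⟩ := t
  have h2 : (C (2 : F5) : PP) = 2 := map_ofNat _ 2
  cases b <;> simp [famq, qx, qy, qw, h2] <;> ring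

lemma unit_pol (t : Bool × ℕ × ℕ) :
    (2 ^ (t.2.1 + t.2.2) * (if t.1 then -1 else 1) : F5) ≠ 0 := by
  refine mul_ne_zero (pow_ne_zero _ (by decide)) ?_
  split_ifs
  · decide
  · decide

open MvPolynomial in
lemma ps_hom_pol : ps.IsHomogeneous 2 :=
  (isHomogeneous_X F5 (0 : Fin 2)).mul (isHomogeneous_X F5 (1 : Fin 2))

open MvPolynomial in
lemma pz_hom_pol : pz.IsHomogeneous 2 :=
  (isHomogeneous_X_pow (R := F5) (0 : Fin 2) 2).add (isHomogeneous_X_pow (R := F5) (1 : Fin 2) 2)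

open MvPolynomial in
lemma ps_deg_pol (i : Fin 2) : degreeOf i ps ≤ 1 := by
  refine le_trans (degreeOf_mul_le _ _ _) ?_
  rw [degreeOf_X, degreeOf_X]
  fin_cases i <;> simp

open MvPolynomial in
lemma pz_deg_pol (i : Fin 2) : degreeOf i pz ≤ 2 :=
  le_trans (degreeOf_le_totalDegree _ _) pz_hom_pol.totalDegree_le

open MvPolynomial in
lemma ps_lex_pol : MonomialOrder.lex.degree ps = ex2 1 1 := by
  rw [ps, MonomialOrder.degree_mul (X_ne_zero _) (X_ne_zero _), MonomialOrder.degree_X,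
    MonomialOrder.degree_X]
  rfl

open MvPolynomial in
lemma pz_lex_pol : MonomialOrder.lex.degree pz = ex2 2 0 := by
  have h : ∀ i : Fin 2, MonomialOrder.lex.degree (X i ^ 2 : PP) = Finsupp.single i 2 := by
    intro i
    rw [MonomialOrder.degree_pow, MonomialOrder.degree_X]
    simp
  rw [pz, MonomialOrder.degree_add_of_lt, h]
  · simp [ex2]
  · rw [h, h, MonomialOrder.lex_lt_iff]
    exact ⟨0, fun j hj => absurd hj (by simp), by simp⟩

theorem p_POL :
    S_POL := by
  have hps : ps ≠ 0 := MonomialOrder.lex.ne_zero_of_degree_ne_zero (by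
    rw [ps_lex_pol]
    intro h
    simpa using congrArg (fun d => d 0) h)
  have hpz : pz ≠ 0 := MonomialOrder.lex.ne_zero_of_degree_ne_zero (by
    rw [pz_lex_pol]
    intro h
    simpa using congrArg (fun d => d 0) h)
  refine ⟨fun t => ?_, fun t d hd i => ?_, ?_⟩
  · rw [famq_eq_pol]
    have h := ((ps_hom_pol.pow (t.2.1 + t.2.2 + if t.1 then 1 else 0)).mul
      (pz_hom_pol.pow (2 * t.2.2 + if t.1 then 1 else 0))).C_mul
      (2 ^ (t.2.1 + t.2.2) * (if t.1 then -1 else 1) : F5)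
    convert h using 1
    unfold famd
    split_ifs <;> ring
  · refine le_trans (MvPolynomial.monomial_le_degreeOf i hd) ?_
    rw [famq_eq_pol]
    refine le_trans (MvPolynomial.degreeOf_C_mul_le _ _ _) ?_
    refine le_trans (MvPolynomial.degreeOf_mul_le _ _ _) ?_
    have h1 := le_trans (MvPolynomial.degreeOf_pow_le i ps (t.2.1 + t.2.2 + if t.1 then 1 else 0))
      (Nat.mul_le_mul_left _ (ps_deg_pol i))
    have h2 := le_trans (MvPolynomial.degreeOf_pow_le i pz (2 * t.2.2 + if t.1 then 1 else 0))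
      (Nat.mul_le_mul_left _ (pz_deg_pol i))
    refine le_trans (Nat.add_le_add h1 h2) ?_
    split_ifs <;> omega
  · refine li_of_degree_pol MonomialOrder.lex famq (fun t => ?_) ?_
    · rw [famq_eq_pol]
      exact mul_ne_zero (MvPolynomial.C_ne_zero.mpr (unit_pol t))
        (mul_ne_zero (pow_ne_zero _ hps) (pow_ne_zero _ hpz))
    · have hd : ∀ t : Bool × ℕ × ℕ, MonomialOrder.lex.degree (famq t) =
          (t.2.1 + t.2.2 + if t.1 then 1 else 0) • ex2 1 1 +
            (2 * t.2.2 + if t.1 then 1 else 0) • ex2 2 0 := by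
        intro t
        rw [famq_eq_pol, MonomialOrder.degree_mul (MvPolynomial.C_ne_zero.mpr (unit_pol t))
          (mul_ne_zero (pow_ne_zero _ hps) (pow_ne_zero _ hpz)), MonomialOrder.degree_C,
          MonomialOrder.degree_mul (pow_ne_zero _ hps) (pow_ne_zero _ hpz),
          MonomialOrder.degree_pow, MonomialOrder.degree_pow, ps_lex_pol, pz_lex_pol, zero_add]
      rintro ⟨b, i, j⟩ ⟨b', i', j'⟩ h
      simp only [hd] at h
      have h0 := congrArg (fun d => d 0) h
      have h1 := congrArg (fun d => d 1) h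
      simp only [Finsupp.add_apply, Finsupp.smul_apply, ex2_zero, ex2_one, smul_eq_mul] at h0 h1
      cases b <;> cases b' <;> simp at h0 h1 ⊢ <;> omega

end Pool.Agent.P.MP_e7a540_nt.B5

end

section

/-! Step FIND. -/

namespace Pool.Agent.P.MP_e7a540_nt.B5

open Pool.Agent.P.MP_8b7eba_nt.Mod Module Filter Topology Asymptotics CongruenceSubgroup

theorem p_FIND (hIND : S_IND) :
    S_FIND := by
  intro m ι ν q D hq hs hν hli
  rw [linearIndependent_iff'] at hli ⊢
  intro s c hc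
  have key : ∀ k, ∀ i ∈ s, D i = k → c i = 0 := fun k => by
    induction k using Nat.strong_induction_on with
    | _ k ih =>
      have h1 : piq m (∑ i ∈ s.filter fun i => D i = k, c i • q i) ∈ Fil m (k + 1) := by
        rw [← sub_zero (piq m _), ← hc, map_sum, Finset.sum_filter, ← Finset.sum_sub_distrib]
        refine sum_mem fun i hi => ?_
        rcases lt_trichotomy (D i) k with h | h | h
        · rw [if_neg h.ne, ih _ h i hi rfl, zero_smul, sub_zero]
          exact zero_mem _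
        · rw [if_pos h, map_smul, ← smul_sub, ← neg_sub]
          exact Fil_smul _ (neg_mem (h ▸ hν i))
        · rw [if_neg h.ne', zero_sub, ← sub_add_cancel (ν i) (piq m (q i))]
          exact neg_mem (Fil_smul _ (add_mem (Fil_anti (by omega) (hν i))
            (Fil_anti h (piq_mem (Ord_of_hom (hq i))))))
      have h2 : ∑ i ∈ s.filter fun i => D i = k, c i • q i = 0 := by
        ext d
        by_contra h
        have h3 := h
        rw [MvPolynomial.coeff_sum] at h3
        obtain ⟨i, hi, h4⟩ := Finset.exists_ne_zero_of_sum_ne_zero h3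
        have h5 : (q i).coeff d ≠ 0 := fun e => h4 (by rw [MvPolynomial.coeff_smul, e, smul_zero])
        have h6 := hs i d (MvPolynomial.mem_support_iff.2 h5)
        have h7 : d.degree = D i := by
          by_contra e
          exact h5 ((hq i).coeff_eq_zero e)
        rw [degree_fin2, (Finset.mem_filter.1 hi).2] at h7
        exact h (hIND m (k + 1) _ h1 d h6.1 h6.2 (by omega))
      exact fun i hi e => hli _ c h2 i (Finset.mem_filter.2 ⟨hi, e⟩)
  exact fun i hi => key _ i hi rfl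

end Pool.Agent.P.MP_e7a540_nt.B5

end
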