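import Pool.Agent.P.MP_e7a540_nt.B5.Iface

/-! Proofs of the steps IND, SC, HEF, JC, SG, IO, OP, PBW, PBP, EV. -/

set_option autoImplicit false

section

/-! Step IND. -/

namespace Pool.Agent.P.MP_e7a540_nt.B5

open Pool.Agent.P.MP_8b7eba_nt.Mod Module Filter Topology Asymptotics CongruenceSubgroup

theorem exp_ind (m : ℕ) (r : PP) : piq m r = ∑ t : Fin (5 ^ m) × Fin (5 ^ m),
    r.coeff (ex2 t.1 t.2) • (ee m ^ (t.1 : ℕ) * ff m ^ (t.2 : ℕ)) := by
  classical
  induction r using MvPolynomial.induction_on' with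
  | monomial d c =>
    rw [piq_monomial]
    by_cases h : d 0 < 5 ^ m ∧ d 1 < 5 ^ m
    · rw [Finset.sum_eq_single (⟨d 0, h.1⟩, ⟨d 1, h.2⟩)]
      · simp [ex2_eta]
      · intro t _ ht
        rw [MvPolynomial.coeff_monomial, if_neg, zero_smul]
        rintro rfl
        exact ht (by simp)
      · simp
    · have h0 : ee m ^ d 0 * ff m ^ d 1 = 0 := by
        rcases not_and_or.1 h with k | k
        · rw [pow_eq_zero_of_le (not_lt.1 k) ee_pow, zero_mul]
        · rw [pow_eq_zero_of_le (not_lt.1 k) ff_pow, mul_zero]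
      rw [h0, smul_zero]
      refine (Finset.sum_eq_zero fun t _ => ?_).symm
      rw [MvPolynomial.coeff_monomial, if_neg, zero_smul]
      rintro rfl
      exact h (by simp)
  | add p q hp hq =>
    simp only [map_add, hp, hq, MvPolynomial.coeff_add, add_smul, Finset.sum_add_distrib]

theorem lin_ind (m : ℕ) : LinearIndependent F5 fun t : Fin (5 ^ m) × Fin (5 ^ m) =>
    (ee m ^ (t.1 : ℕ) * ff m ^ (t.2 : ℕ) : Nm m) := by
  refine linearIndependent_of_top_le_span_of_card_eq_finrank (fun μ _ => ?_) ?_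
  · obtain ⟨r, rfl⟩ := piq_surjective μ
    rw [exp_ind]
    exact Submodule.sum_mem _ fun t _ => Submodule.smul_mem _ _ (Submodule.subset_span ⟨t, rfl⟩)
  · rw [finrank_eq_card_basis (AddMonoidAlgebra.basis (XX m) F5)]
    simp [ZMod.card]

theorem p_IND :
    S_IND := by
  intro m k q hq d h0 h1 hd
  obtain ⟨q', hq', e⟩ := mem_Fil_iff.1 hq
  have h2 : piq m (q - q') = 0 := by rw [map_sub, e, sub_self]
  rw [exp_ind] at h2
  have h3 := Fintype.linearIndependent_iff.1 (lin_ind m) _ h2 (⟨d 0, h0⟩, ⟨d 1, h1⟩)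
  simp only [ex2_eta, MvPolynomial.coeff_sub] at h3
  rwa [mem_Ord.1 hq' d hd, sub_zero] at h3

end Pool.Agent.P.MP_e7a540_nt.B5

end

section

/-! Step SC. -/

namespace Pool.Agent.P.MP_e7a540_nt.B5

open Pool.Agent.P.MP_8b7eba_nt.Mod Module Filter Topology Asymptotics CongruenceSubgroup

lemma mul_sc {m k : ℕ} (σ : Nm m →ₐ[F5] Nm m) {i j : ℕ} {x y : Nm m}
    (hx : x ∈ Fil m i ∧ σ x - x ∈ Fil m (i + k)) (hy : y ∈ Fil m j ∧ σ y - y ∈ Fil m (j + k)) :
    x * y ∈ Fil m (i + j) ∧ σ (x * y) - x * y ∈ Fil m (i + j + k) := by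
  refine ⟨Fil_mul hx.1 hy.1, ?_⟩
  have h1 : σ y ∈ Fil m j := by
    have := add_mem hy.1 (Fil_anti (Nat.le_add_right j k) hy.2)
    rwa [add_sub_cancel] at this
  have h2 : σ (x * y) - x * y = (σ x - x) * σ y + x * (σ y - y) := by rw [map_mul]; ring
  rw [h2]
  exact add_mem (Fil_anti (by omega) (Fil_mul hx.2 h1)) (Fil_anti (by omega) (Fil_mul hx.1 hy.2))

lemma pow_sc {m k : ℕ} (σ : Nm m →ₐ[F5] Nm m) {x : Nm m}
    (hx : x ∈ Fil m 1 ∧ σ x - x ∈ Fil m (1 + k)) (a : ℕ) :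
    x ^ a ∈ Fil m a ∧ σ (x ^ a) - x ^ a ∈ Fil m (a + k) := by
  induction a with
  | zero => exact ⟨Fil_zero _, by rw [pow_zero, map_one, sub_self]; exact zero_mem _⟩
  | succ a ih => rw [pow_succ]; exact mul_sc σ ih hx

lemma one_add_sc {m : ℕ} {x : Nm m} (hx : x ∈ Fil m 1) (r n : ℕ) :
    (1 + x) ^ (5 ^ r * n) - 1 ∈ Fil m (5 ^ r) := by
  have h1 : x ^ 5 ^ r ∈ Fil m (5 ^ r) := by simpa using Fil_pow hx (5 ^ r)
  have h2 := sub_dvd_pow_sub_pow (1 + x ^ 5 ^ r) 1 n
  rw [add_sub_cancel_left, one_pow] at h2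
  rw [pow_mul, add_pow_char_pow, one_pow]
  exact Ideal.mem_of_dvd _ h2 h1

theorem p_SC :
    S_SC := by
  intro m r s s'
  let φ : XX m →+ XX m := AddMonoidHom.prodMap (AddMonoidHom.mulLeft (1 + 5 ^ r * s))
    (AddMonoidHom.mulLeft (1 + 5 ^ r * s'))
  let σ := AddMonoidAlgebra.mapDomainAlgHom F5 F5 φ
  have hσ : ∀ a, push F5 m (fun p => ((1 + 5 ^ r * s) * p.1, (1 + 5 ^ r * s') * p.2)) a = σ a :=
    fun a => push_eq_algHom φ a
  have hk : 1 + (5 ^ r - 1) = 5 ^ r := by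
    have : 0 < 5 ^ r := by positivity
    omega
  have he : σ (ee m) - ee m ∈ Fil m (1 + (5 ^ r - 1)) := by
    have h1 := single_eq (m := m) (5 ^ r * s.val) 0
    have h2 : σ (ee m) - ee m = .single (1, 0) 1 * ((1 + ee m) ^ (5 ^ r * s.val) - 1) := by
      rw [pow_zero, mul_one] at h1
      rw [← h1, ee, map_sub, map_one, ← hσ, push_single, mul_sub, mul_one,
        AddMonoidAlgebra.single_mul_single]
      simp
    rw [hk, h2]
    exact Ideal.mul_mem_left _ _ (one_add_sc ee_mem r _)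
  have hf : σ (ff m) - ff m ∈ Fil m (1 + (5 ^ r - 1)) := by
    have h1 := single_eq (m := m) 0 (5 ^ r * s'.val)
    have h2 : σ (ff m) - ff m = .single (0, 1) 1 * ((1 + ff m) ^ (5 ^ r * s'.val) - 1) := by
      rw [pow_zero, one_mul] at h1
      rw [← h1, ff, map_sub, map_one, ← hσ, push_single, mul_sub, mul_one,
        AddMonoidAlgebra.single_mul_single]
      simp
    rw [hk, h2]
    exact Ideal.mul_mem_left _ _ (one_add_sc ff_mem r _)
  refine Rs_of_mono fun a b => ?_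
  rw [LinearMap.sub_apply, hσ, Module.End.one_apply]
  exact (mul_sc σ (pow_sc σ ⟨ee_mem, he⟩ a) (pow_sc σ ⟨ff_mem, hf⟩ b)).2

end Pool.Agent.P.MP_e7a540_nt.B5

end

section

/-! Step HEF. -/

namespace Pool.Agent.P.MP_e7a540_nt.B5

open Pool.Agent.P.MP_8b7eba_nt.Mod Module Filter Topology Asymptotics CongruenceSubgroup

lemma six_hef {m : ℕ} (a : Nm m) : (1 + a) ^ 6 = 1 + a + a ^ 5 + a ^ 6 := by
  rw [pow_succ, add_pow_char]
  ring

theorem p_HEF (hSC : S_SC) :
    S_HEF := by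
  intro m
  obtain ⟨v, hv⟩ : ∃ v : ZP m, 6 * v = 1 := by
    have := (isUnit_int m (a := 6) (by decide)).exists_right_inv
    exact_mod_cast this
  obtain ⟨φ, hφ⟩ : ∃ φ : XX m →+ XX m, ∀ p, φ p = (6 * p.1, v * p.2) :=
    ⟨AddMonoidHom.prodMap (AddMonoidHom.mulLeft 6) (AddMonoidHom.mulLeft v), fun _ => rfl⟩
  have e1 : ra m ⟨1, 0, 0, 6⟩ = φ := by
    funext p
    rw [ra_eq_iff (by decide), hφ]
    constructor
    · simp
    · simp only [Int.cast_zero, Int.cast_one, Int.cast_ofNat, Int.zero_ediv]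
      linear_combination p.2 * hv
  have e2 : HH m = push F5 m φ - 1 := by rw [HH, rho, e1]
  have h1 : HH m ∈ Rs m 4 := by
    have := hSC m 1 1 (-v)
    have e : (fun p : XX m => ((1 + 5 ^ 1 * 1) * p.1, (1 + 5 ^ 1 * -v) * p.2)) = φ := by
      funext p
      rw [hφ]
      refine Prod.ext ?_ ?_
      · norm_num
      · simp only
        linear_combination (-p.2) * hv
    rw [e] at this
    rw [e2]
    exact this
  have p1 : push F5 m φ 1 = 1 := by rw [push_eq_algHom, map_one]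
  have se : push F5 m φ (ee m) = ee m + ee m ^ 5 + ee m ^ 6 := by
    have := single_eq (m := m) 6 0
    rw [six_hef, pow_zero, mul_one] at this
    conv_lhs => rw [ee, map_sub, p1, push_single, hφ]
    simp only [mul_one, mul_zero]
    push_cast at this
    rw [this]
    ring
  obtain ⟨g, hg⟩ : ∃ g, push F5 m φ (ff m) = g := ⟨_, rfl⟩
  have sg : g + g ^ 5 + g ^ 6 = ff m := by
    have a : 1 + g = .single (0, v) 1 := by
      rw [← hg, ff, map_sub, p1, push_single, hφ]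
      simp
    have b : (1 + g) ^ 6 = 1 + ff m := by
      rw [a, AddMonoidAlgebra.single_pow, ff]
      simp [hv]
    rw [six_hef] at b
    linear_combination b
  have d5 : g - ff m ∈ Fil m 5 := by
    have := h1 1 _ ff_mem
    rwa [e2, LinearMap.sub_apply, hg] at this
  have g1 : g ∈ Fil m 1 := by
    simpa using add_mem (Fil_anti (by norm_num) d5) ff_mem
  refine ⟨h1, by rw [e2, LinearMap.sub_apply, p1]; exact sub_self _, ?_⟩
  have e : HH m (ee m * ff m) - piq m qh =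
      ee m * (-(g - ff m) ^ 5 - g ^ 6) + ee m ^ 5 * (g - ff m) + ee m ^ 6 * g := by
    rw [e2, LinearMap.sub_apply, push_mul, se, hg, sub_pow_char, qh]
    simp only [map_sub, map_mul, map_pow, piq_X0, piq_X1, Module.End.one_apply]
    linear_combination (ee m) * sg
  rw [e]
  refine add_mem (add_mem (Fil_mul (j := 1) (k := 6) ee_mem (sub_mem (neg_mem ?_) (Fil_pow g1 6)))
    ?_) (Fil_mul (j := 6) (k := 1) (Fil_pow ee_mem 6) g1)
  · exact Fil_anti (by norm_num) (Fil_pow d5 5)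
  · exact Fil_anti (by norm_num) (Fil_mul (Fil_pow ee_mem 5) d5)

end Pool.Agent.P.MP_e7a540_nt.B5

end

section

/-! Step JC. -/

namespace Pool.Agent.P.MP_e7a540_nt.B5

open Pool.Agent.P.MP_8b7eba_nt.Mod Module Filter Topology Asymptotics CongruenceSubgroup

/-- The operator of the step. -/
noncomputable def J_jc (m : ℕ) (c : ZP m) : En m :=
  push F5 m fun p => (p.1, p.2 * (1 + 5 * c * p.2)⁻¹)

lemma unit_jc {m : ℕ} (c y : ZP m) : IsUnit (1 + 5 * c * y) := by
  rw [add_comm, mul_assoc]; exact isUnit_five_add m _ isUnit_one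

lemma tr_jc {m : ℕ} (q : XX m) (μ : Nm m) : .single q 1 * μ = push F5 m (q + ·) μ := by
  induction μ using AddMonoidAlgebra.induction_linear with
  | zero => simp
  | add a b ha hb => rw [mul_add, map_add, ha, hb]
  | single p c => simp [AddMonoidAlgebra.single_mul_single]

lemma pp_jc {m : ℕ} (φ φ' : XX m → XX m) (μ : Nm m) :
    push F5 m φ' (push F5 m φ μ) = push F5 m (fun p => φ' (φ p)) μ :=
  (LinearMap.congr_fun (push_comp φ φ') μ).symm

lemma ee_jc {m : ℕ} (c : ZP m) (a : ℕ) (μ : Nm m) :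
    J_jc m c (ee m ^ a * μ) = ee m ^ a * J_jc m c μ := by
  induction a with
  | zero => simp
  | succ a ih =>
    rw [pow_succ', mul_assoc, mul_assoc, ← ih, ee, sub_mul, sub_mul, one_mul, one_mul, map_sub,
      tr_jc, tr_jc, J_jc, pp_jc, pp_jc]
    simp [Prod.add_def]

lemma add_jc {m : ℕ} (a c : ZP m) (μ : Nm m) : J_jc m a (J_jc m c μ) = J_jc m (a + c) μ := by
  rw [J_jc, J_jc, J_jc, pp_jc]
  congr 2
  ext p
  · rfl
  have h1 := ZMod.mul_inv_of_unit _ (unit_jc c p.2)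
  have h2 := ZMod.mul_inv_of_unit _ (unit_jc (a + c) p.2)
  refine (mul_inv_eq_iff (unit_jc _ _)).2 ?_
  linear_combination (p.2 * (1 + 5 * c * p.2)⁻¹) * h2 - (p.2 * (1 + 5 * (a + c) * p.2)⁻¹) * h1

lemma T_jc {m : ℕ} {c k : ZP m} (hk : k * (1 + 5 * c) = 1) (μ : Nm m) :
    J_jc m c (.single (0, 1) 1 * μ) =
      .single (0, k) 1 * push F5 m (fun p => (p.1, k ^ 2 * p.2)) (J_jc m (c * k) μ) := by
  rw [tr_jc, tr_jc, J_jc, J_jc, pp_jc, pp_jc, pp_jc]
  congr 2
  ext p
  · rfl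
  have h1 := ZMod.mul_inv_of_unit _ (unit_jc (c * k) p.2)
  refine (mul_inv_eq_iff (unit_jc _ _)).2 ?_
  simp only [Prod.snd_add]
  linear_combination (p.2 * k * (1 + 5 * c)) * h1 +
    (1 + k * p.2 * (1 + 5 * (c * k) * p.2)⁻¹ + p.2) * hk - (5 * c * k * p.2) * h1

theorem p_JC (hSC : S_SC) :
    S_JC := by
  intro m t
  change ∀ c, J_jc m (5 ^ t * c) - 1 ∈ Rs m (t + 2)
  induction h : m - t generalizing t with
  | zero =>
    intro c
    have : (5 : ZP m) ^ t = 0 := pow_eq_zero_of_le (by omega) (five_nil m)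
    rw [J_jc, this, show (fun p : XX m => (p.1, p.2 * (1 + 5 * (0 * c) * p.2)⁻¹)) = id from
      funext fun p => by simp, push_id, sub_self]
    exact zero_mem _
  | succ n ih =>
    have ih := ih (t + 1) (by omega)
    have key : ∀ b c, J_jc m (5 ^ t * c) (ff m ^ b) - ff m ^ b ∈ Fil m (b + (t + 2)) := by
      intro b
      induction b with
      | zero =>
        intro c
        rw [pow_zero, AddMonoidAlgebra.one_def, J_jc, push_single]
        simp [Prod.zero_eq_mk]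
      | succ b ib =>
        intro c
        obtain ⟨k, hk⟩ := (unit_jc (5 ^ t * c) 1).exists_left_inv
        rw [mul_one] at hk
        have e1 : k = 1 + 5 ^ (t + 1) * -(c * k) := by linear_combination hk
        have e2 : k ^ 2 = 1 + 5 ^ (t + 1) * -(c * k * (k + 1)) := by
          linear_combination (k + 1) * hk
        have e3 : 5 ^ t * c * k = 5 ^ (t + 1) * -(5 ^ t * c ^ 2 * k) + 5 ^ t * c := by
          linear_combination (5 ^ t * c) * hk
        have e4 : t + 3 ≤ 5 ^ (t + 1) - 1 := by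
          have := Nat.lt_pow_self (n := t) (show 1 < 5 by norm_num)
          omega
        have f0 : ff m ^ b ∈ Fil m b := by simpa using Fil_pow ff_mem b
        have f1 : ∀ c, J_jc m (5 ^ t * c) (ff m ^ b) ∈ Fil m b := fun c => by
          simpa using add_mem (Fil_anti (by omega) (ib c)) f0
        have a1 := Rs_anti e4 (hSC m (t + 1) 0 (-(c * k * (k + 1)))) _ _ (f1 (c * k))
        have a2 := Fil_mul (Rs_anti e4 (hSC m (t + 1) 0 (-(c * k))) 0 (.single (0, 1) 1)
          (Fil_zero _)) (f1 (c * k))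
        have a3 := Fil_mul ff_mem (ib (c * k))
        have a4 := ih (-(5 ^ t * c ^ 2 * k)) _ _ (f1 c)
        rw [← e2] at a1
        rw [← e1] at a2
        simp only [LinearMap.sub_apply, Module.End.one_apply, mul_zero, add_zero, one_mul,
          push_single, mul_one, add_jc, ← e3, ← mul_assoc] at a1 a2 a3 a4
        have := add_mem (add_mem (add_mem (Ideal.mul_mem_left _ (.single (0, k) 1)
          (Fil_anti (j := b + 1 + (t + 2)) (by omega) a1)) (Fil_anti (by omega) a2))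
          (Fil_anti (by omega) a3)) (Fil_anti (by omega) a4)
        convert this using 1
        rw [pow_succ', ff, sub_mul, map_sub, T_jc hk, one_mul]
        ring
    intro c
    refine Rs_of_mono fun a b => ?_
    rw [LinearMap.sub_apply, ee_jc, Module.End.one_apply, ← mul_sub, add_assoc]
    exact Fil_mul (by simpa using Fil_pow ee_mem a) (key b c)

end Pool.Agent.P.MP_e7a540_nt.B5

end

section

/-! Step SG. -/

namespace Pool.Agent.P.MP_e7a540_nt.B5

open Pool.Agent.P.MP_8b7eba_nt.Mod Module Filter Topology Asymptotics CongruenceSubgroup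

noncomputable def io_sg (m : ℕ) : Nm m →ₐ[F5] Nm m :=
  AddMonoidAlgebra.mapDomainAlgHom F5 F5 (-AddMonoidHom.id (XX m))

noncomputable def swp_sg (m : ℕ) : Nm m →ₐ[F5] Nm m :=
  AddMonoidAlgebra.mapDomainAlgHom F5 F5 (AddEquiv.prodComm : XX m ≃+ XX m).toAddMonoidHom

lemma rho_md_sg (m : ℕ) (μ : Nm m) : rho F5 m md μ = io_sg m μ := by
  have : ra m md = (-AddMonoidHom.id (XX m) : XX m →+ XX m) := funext fun p => ra_md p
  rw [rho, this, push_eq_algHom, io_sg]

lemma sw_eq_sg (m : ℕ) (μ : Nm m) : sw F5 m μ = swp_sg m μ :=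
  push_eq_algHom (AddEquiv.prodComm : XX m ≃+ XX m).toAddMonoidHom μ

/-- The sign rule in degree `k`. -/
def Q_sg (m k : ℕ) (x : Nm m) : Prop := x ∈ Fil m k ∧ io_sg m x - (-1) ^ k * x ∈ Fil m (k + 1)

lemma io_mem_sg {m k : ℕ} {x : Nm m} (h : Q_sg m k x) : io_sg m x ∈ Fil m k := by
  have := add_mem (Fil_anti (Nat.le_succ k) h.2) (Ideal.mul_mem_left _ ((-1) ^ k) h.1)
  rwa [sub_add_cancel] at this

lemma mul_sg {m j k : ℕ} {x y : Nm m} (hx : Q_sg m j x) (hy : Q_sg m k y) :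
    Q_sg m (j + k) (x * y) := by
  refine ⟨Fil_mul hx.1 hy.1, ?_⟩
  have h1 := Fil_mul hx.2 (io_mem_sg hy)
  have h2 := Ideal.mul_mem_left _ ((-1) ^ j) (Fil_mul hx.1 hy.2)
  rw [show j + 1 + k = j + k + 1 by omega] at h1
  have e : io_sg m (x * y) - (-1) ^ (j + k) * (x * y) =
      (io_sg m x - (-1) ^ j * x) * io_sg m y + (-1) ^ j * (x * (io_sg m y - (-1) ^ k * y)) := by
    rw [map_mul]; ring
  rw [e]
  exact add_mem h1 h2

lemma pow_sg {m : ℕ} {x : Nm m} (hx : Q_sg m 1 x) (a : ℕ) : Q_sg m a (x ^ a) := by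
  induction a with
  | zero => exact ⟨Fil_zero _, by simp⟩
  | succ a ih => rw [pow_succ]; exact mul_sg ih hx

lemma gen_sg {m : ℕ} (p : XX m) (h : (.single p 1 - 1 : Nm m) ∈ Fil m 1) :
    Q_sg m 1 (.single p 1 - 1) := by
  refine ⟨h, ?_⟩
  have h1 : io_sg m (.single p 1) * .single p 1 = 1 := by
    simp [io_sg, AddMonoidAlgebra.single_mul_single, AddMonoidAlgebra.one_def]
  have e : io_sg m (.single p 1 - 1) - (-1) ^ 1 * (.single p 1 - 1) =
      io_sg m (.single p 1) * ((.single p 1 - 1) * (.single p 1 - 1)) := by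
    rw [map_sub, map_one]
    linear_combination (2 - .single p 1 : Nm m) * h1
  rw [e]
  exact Ideal.mul_mem_left _ _ (Fil_mul h h)

lemma mono_sg (m a b : ℕ) : Q_sg m (a + b) (ee m ^ a * ff m ^ b) :=
  mul_sg (pow_sg (gen_sg _ ee_mem) a) (pow_sg (gen_sg _ ff_mem) b)

lemma swp_ee_sg (m : ℕ) : swp_sg m (ee m) = ff m := by
  rw [ee, ff, map_sub, map_one]; simp [swp_sg]

lemma swp_ff_sg (m : ℕ) : swp_sg m (ff m) = ee m := by
  rw [ee, ff, map_sub, map_one]; simp [swp_sg]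

theorem p_SG :
    S_SG := by
  intro m
  refine ⟨fun k μ hμ => ?_, Rs_of_mono fun a b => ?_, fun q => ?_⟩
  · obtain ⟨q, hq, rfl⟩ := mem_Fil_iff.1 hμ
    rw [rho_md_sg, q.as_sum, map_sum, map_sum, Finset.mul_sum, ← Finset.sum_sub_distrib]
    refine sum_mem fun d hd => ?_
    rw [piq_monomial, map_smul, mul_smul_comm, ← smul_sub]
    refine Fil_smul _ ?_
    have h1 : ¬ d 0 + d 1 < k := fun h => MvPolynomial.mem_support_iff.1 hd (mem_Ord.1 hq d h)
    have h2 := mono_sg m (d 0) (d 1)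
    rcases (not_lt.1 h1).eq_or_lt with h | h
    · rw [h]; exact h2.2
    · exact sub_mem (Fil_anti h (io_mem_sg h2)) (Ideal.mul_mem_left _ _ (Fil_anti h h2.1))
  · rw [sw_eq_sg, map_mul, map_pow, map_pow, swp_ee_sg, swp_ff_sg, mul_comm, add_zero, add_comm]
    exact mono_mem b a
  · rw [sw_eq_sg]
    have : (swp_sg m).comp (piq m) = (piq m).comp (MvPolynomial.rename (Equiv.swap 0 1)) := by
      refine MvPolynomial.algHom_ext fun i => ?_
      fin_cases i <;> simp [swp_ee_sg, swp_ff_sg]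
    exact AlgHom.congr_fun this q

end Pool.Agent.P.MP_e7a540_nt.B5

end

section

/-! Step IO. -/

namespace Pool.Agent.P.MP_e7a540_nt.B5

open Pool.Agent.P.MP_8b7eba_nt.Mod Module Filter Topology Asymptotics CongruenceSubgroup

lemma shift_io (m : ℕ) (q : XX m) : mul m (.single q 1) = push F5 m fun p => q + p := by
  refine LinearMap.ext fun μ => ?_
  induction μ using AddMonoidAlgebra.induction_linear with
  | zero => rw [map_zero, map_zero]
  | add a b ha hb => rw [map_add, map_add, ha, hb]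
  | single p c => rw [mul_apply, push_single, AddMonoidAlgebra.single_mul_single, one_mul]

lemma mul_io (m : ℕ) (q : XX m) : mul m (.single q 1 - 1) = push F5 m (fun p => q + p) - 1 := by
  rw [← shift_io]
  refine LinearMap.ext fun μ => ?_
  simp [sub_mul]

theorem p_IO (hJC : S_JC) (hSG : S_SG) :
    S_IO := by
  intro m
  have hs := (hSG m).2.1
  have s2 : sw F5 m * sw F5 m = 1 := by
    rw [sw, ← push_comp, Prod.swap_swap_eq, push_id]
  have e1 : rho F5 m mu = push F5 m (fun p => (1, 0) + p) *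
      push F5 m fun p => (p.1, p.2 * (1 + 5 * (5 ^ 0 * 1) * p.2)⁻¹) := by
    rw [rho, ← push_comp]
    refine congrArg _ (funext fun p => ?_)
    simp [ra, mu, add_comm]
  have a1 : EE m - mul m (ee m) ∈ Rs m 2 := by
    have := Rs_mul (Rs_mulop (Fil_zero (m := m) (.single (1, 0) 1))) (hJC m 0 1)
    rw [shift_io, mul_sub, ← e1, mul_one] at this
    rwa [EE, ee, mul_io, sub_sub_sub_cancel_right]
  have e2 : rho F5 m mv = sw F5 m * rho F5 m mu * sw F5 m := by
    rw [rho, rho, sw, ← push_comp, ← push_comp]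
    refine congrArg _ (funext fun p => ?_)
    simp [ra, mu, mv]
  have e3 : push F5 m (fun p => (0, 1) + p) =
      sw F5 m * push F5 m (fun p => (1, 0) + p) * sw F5 m := by
    rw [sw, ← push_comp, ← push_comp]
    refine congrArg _ (funext fun p => ?_)
    simp
  refine ⟨a1, ?_⟩
  have := Rs_mul (Rs_mul hs a1) hs
  rw [EE, ee, mul_io, sub_sub_sub_cancel_right, mul_sub, sub_mul, ← e2, ← e3] at this
  rwa [FF, ff, mul_io, sub_sub_sub_cancel_right]

end Pool.Agent.P.MP_e7a540_nt.B5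

end

section

/-! Step OP. -/

namespace Pool.Agent.P.MP_e7a540_nt.B5

open Pool.Agent.P.MP_8b7eba_nt.Mod Module Filter Topology Asymptotics CongruenceSubgroup

theorem mem_op {m j : ℕ} {Y : En m} {a : Nm m} (ha : a ∈ Fil m j)
    (h : Y - mul m a ∈ Rs m (j + 1)) : Y ∈ Rs m j := by
  have := add_mem (Rs_anti (Nat.le_succ j) h) (Rs_mulop ha)
  rwa [sub_add_cancel] at this

theorem prod_op {m j k : ℕ} {Y Z : En m} {a b : Nm m} (ha : a ∈ Fil m j) (hb : b ∈ Fil m k)
    (hY : Y - mul m a ∈ Rs m (j + 1)) (hZ : Z - mul m b ∈ Rs m (k + 1)) :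
    Y * Z - mul m (a * b) ∈ Rs m (j + k + 1) := by
  have e : Y * Z - mul m (a * b) = (Y - mul m a) * Z + mul m a * (Z - mul m b) := by
    have : mul m (a * b) = mul m a * mul m b :=
      LinearMap.ext fun μ => by simp [mul_assoc]
    rw [this, sub_mul, mul_sub]
    abel
  rw [e]
  exact add_mem (Rs_anti (by omega) (Rs_mul hY (mem_op hb hZ)))
    (Rs_anti (by omega) (Rs_mul (Rs_mulop ha) hZ))

theorem pow_op {m : ℕ} {Y : En m} {a : Nm m} (ha : a ∈ Fil m 1) (hY : Y - mul m a ∈ Rs m 2)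
    (k : ℕ) : Y ^ k - mul m (a ^ k) ∈ Rs m (k + 1) := by
  induction k with
  | zero =>
    have : mul m (a ^ 0) = Y ^ 0 := LinearMap.ext fun μ => by simp
    rw [this, sub_self]
    exact zero_mem _
  | succ k ih =>
    rw [pow_succ, pow_succ]
    exact prod_op (by simpa using Fil_pow ha k) ha ih hY

theorem p_OP (hIO : S_IO) :
    S_OP := by
  intro m j q hq
  have h2 : Op m q - mul m (piq m q) ∈ Rs m (j + 1) := by
    have hl : ∀ (s : Finset (Fin 2 →₀ ℕ)) (g : (Fin 2 →₀ ℕ) → Nm m),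
        mul m (∑ d ∈ s, g d) = ∑ d ∈ s, mul m (g d) := fun s g =>
      LinearMap.ext fun μ => by simp [Finset.sum_mul]
    rw [q.as_sum, map_sum, map_sum, hl, ← Finset.sum_sub_distrib]
    refine sum_mem fun d hd => ?_
    have hs : ∀ (c : F5) (a : Nm m), mul m (c • a) = c • mul m a := fun c a =>
      LinearMap.ext fun μ => by simp
    have hsub : ∀ (c : F5) (Y Z : En m), c • Y - c • Z = c • (Y - Z) := fun c Y Z =>
      LinearMap.ext fun μ => by simp [smul_sub]
    rw [Op_monomial, piq_monomial, hs, hsub]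
    have : ¬ d 0 + d 1 < j := fun k => MvPolynomial.mem_support_iff.1 hd (mem_Ord.1 hq d k)
    exact Submodule.smul_mem _ _ (Rs_anti (by omega)
      (prod_op (by simpa using Fil_pow ee_mem (d 0)) (by simpa using Fil_pow ff_mem (d 1))
        (pow_op ee_mem (hIO m).1 (d 0)) (pow_op ff_mem (hIO m).2 (d 1))))
  exact ⟨mem_op (piq_mem hq) h2, h2⟩

end Pool.Agent.P.MP_e7a540_nt.B5

end

section

/-! Step PBW. -/

namespace Pool.Agent.P.MP_e7a540_nt.B5

open Pool.Agent.P.MP_8b7eba_nt.Mod Module Filter Topology Asymptotics CongruenceSubgroup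

lemma mu_pow_pbw (n : ℕ) : mu ^ n = ⟨1, n, 0, 1⟩ := by
  induction n with
  | zero => rfl
  | succ n ih => rw [pow_succ, ih]; ext <;> simp [mu]; ring

lemma mv_pow_pbw (n : ℕ) : mv ^ n = ⟨1, 0, 5 * n, 1⟩ := by
  induction n with
  | zero => rfl
  | succ n ih => rw [pow_succ, ih]; ext <;> simp [mv]; ring

/-- Scaling. -/
def sc_pbw {m : ℕ} (k k' : ZP m) (p : XX m) : XX m := (k * p.1, k' * p.2)

lemma alg_pbw {R : Type*} [CommRing R] {a b c d a' D' D k x y r1 r2 q1 q2 : R}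
    (h1 : a * a' = 1) (h2 : D * D' = 1) (hn : a * d - 5 * b * c = D) (hk : k = D * a' ^ 2)
    (u1 : r1 * (5 * (a * c * D') * (k * x) + 1) = k * x)
    (u2 : r2 = a ^ 2 * D' * y + a * c * D') (v1 : q1 = r1 + b * a')
    (v2 : q2 * (5 * (b * a') * r2 + 1) = r2) :
    q1 * (5 * c * x + a) = d * x + b ∧ q2 * (5 * b * y + d) = a * y + c := by
  have e1 : a * (a * c * D') * k = c := by
    rw [hk]
    linear_combination (c * D * D' * (a * a' + 1)) * h1 + c * h2
  have e3 : b * a' * a = b := by linear_combination b * h1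
  have e6 : 5 * (b * a') * c + D * a' = d := by
    linear_combination d * h1 - a' * hn
  have e2 : a * k + 5 * c * (b * a') = d := by
    rw [hk]
    linear_combination D * a' * h1 + e6
  have e4 : D * a' * (a ^ 2 * D') = a := by
    linear_combination (D * D' * a) * h1 + a * h2
  have e5 : D * a' * (a * c * D') = c := by
    linear_combination (D * D' * c) * h1 + c * h2
  have s1 : D * a' * r2 = a * y + c := by
    linear_combination D * a' * u2 + y * e4 + e5
  generalize a * c * D' = be at *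
  generalize D * a' = n at *
  generalize b * a' = al at *
  constructor
  · linear_combination (5 * c * x + a) * v1 + a * u1 - 5 * x * r1 * e1 + x * e2 + e3
  · linear_combination n * v2 + (1 - 5 * al * q2) * s1 - 5 * y * q2 * e3 - q2 * e6

lemma dec_pbw {m : ℕ} {g : M2} (hg : Iw g) (h5 : (5 : ℤ) ∣ g.a - g.d) :
    ∃ (al be : ℕ) (t k' : ZP m), (1 + 5 * t) * k' = 1 ∧
      ra m g = ra m (mu ^ al) ∘ (ra m (mv ^ be) ∘ sc_pbw (1 + 5 * t) k') := by
  have : NeZero (5 ^ m) := ⟨by positivity⟩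
  obtain ⟨a', h1⟩ := (isUnit_int m hg.2.1).exists_right_inv
  obtain ⟨D', h2⟩ := (isUnit_int m hg.not_dvd_det).exists_right_inv
  obtain ⟨e, he⟩ := h5
  have hd : (g.d : ZP m) = g.a - 5 * e := by
    have := congrArg (Int.cast : ℤ → ZP m) he
    push_cast at this
    linear_combination -this
  have hc := hg.c_eq m
  have hD : (g.a : ZP m) * g.d - 5 * g.b * ((g.c / 5 : ℤ) : ZP m) = ((g.det : ℤ) : ZP m) := by
    simp only [M2.det]
    push_cast
    rw [hc]
    ring
  obtain ⟨t, ht⟩ : ∃ t : ZP m, 1 + 5 * t = ((g.det : ℤ) : ZP m) * a' ^ 2 :=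
    ⟨-(((g.a : ZP m) * e + (g.b : ZP m) * ((g.c / 5 : ℤ) : ZP m)) * a' ^ 2), by
      rw [← hD, hd]
      linear_combination -((g.a : ZP m) * a' + 1) * h1⟩
  obtain ⟨al, hal⟩ : ∃ n : ℕ, (n : ZP m) = (g.b : ZP m) * a' := ⟨_, ZMod.natCast_zmod_val _⟩
  obtain ⟨be, hbe⟩ : ∃ n : ℕ, (n : ZP m) = (g.a : ZP m) * ((g.c / 5 : ℤ) : ZP m) * D' :=
    ⟨_, ZMod.natCast_zmod_val _⟩
  have hU : Iw (mu ^ al) := Iw.pow (by decide) _
  have hV : Iw (mv ^ be) := Iw.pow (by decide) _
  refine ⟨al, be, t, (g.a : ZP m) ^ 2 * D', ?_, ?_⟩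
  · rw [ht]
    linear_combination h2 + ((g.det : ℤ) : ZP m) * D' * ((g.a : ZP m) * a' + 1) * h1
  · funext p
    rw [ra_eq_iff hg]
    simp only [Function.comp]
    obtain ⟨r1, r2⟩ := (ra_eq_iff hV (p := sc_pbw (1 + 5 * t) ((g.a : ZP m) ^ 2 * D') p)).1 rfl
    generalize ra m (mv ^ be) _ = r at *
    obtain ⟨q1, q2⟩ := (ra_eq_iff hU (p := r)).1 rfl
    generalize ra m (mu ^ al) _ = q at *
    rw [mv_pow_pbw] at r1 r2
    rw [mu_pow_pbw] at q1 q2
    simp only [sc_pbw, ne_eq, OfNat.ofNat_ne_zero, not_false_eq_true,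
      mul_div_cancel_left₀, EuclideanDomain.zero_div] at r1 r2 q1 q2
    push_cast at r1 r2 q1 q2
    rw [hbe] at r1 r2
    rw [hal] at q1 q2
    rw [hc]
    exact alg_pbw h1 h2 hD ht (r1 := r.1) (r2 := r.2) (by linear_combination r1)
      (by linear_combination r2) (by linear_combination q1) (by linear_combination q2)

lemma six_pbw (m j : ℕ) : ∃ w : ZP m, (6 : ZP m) ^ j = 1 + 5 * j + 25 * w := by
  induction j with
  | zero => exact ⟨0, by simp⟩
  | succ j ih =>
    obtain ⟨w, hw⟩ := ih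
    refine ⟨j + 6 * w, ?_⟩
    rw [pow_succ, hw]
    push_cast
    ring

lemma push_sc_pbw {m : ℕ} (k k' l l' : ZP m) :
    push F5 m (sc_pbw (k * l) (k' * l')) = push F5 m (sc_pbw k k') * push F5 m (sc_pbw l l') := by
  rw [← push_comp]
  congr 1
  funext p
  simp [sc_pbw, mul_assoc]

lemma pow_pbw {m : ℕ} {H : En m} (hH : H ∈ Rs m 4) (j : ℕ) :
    (1 + H) ^ j - (1 + (j : F5) • H) ∈ Rs m 8 := by
  induction j with
  | zero => simp
  | succ j ih =>
    have h1 : (1 + H) ∈ Rs m 0 := add_mem Rs_one (Rs_anti (by norm_num) hH)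
    have h8 : H * H ∈ Rs m 8 := Rs_mul hH hH
    have h9 : ((1 + H) ^ j - (1 + (j : F5) • H)) * (1 + H) ∈ Rs m 8 := Rs_mul ih h1
    have h2 := add_mem h9 (Submodule.smul_mem _ (j : F5) h8)
    convert h2 using 1
    simp only [pow_succ, Nat.cast_succ, add_smul, one_smul, sub_mul, add_mul, mul_add, one_mul,
      mul_one, smul_mul_assoc]
    abel

lemma scal_pbw (hSC : S_SC) (hHEF : S_HEF) {m : ℕ} {t k' : ZP m} (h : (1 + 5 * t) * k' = 1) :
    ∃ j : F5, push F5 m (sc_pbw (1 + 5 * t) k') - (1 + j • HH m) ∈ Rs m 8 := by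
  have : NeZero (5 ^ m) := ⟨by positivity⟩
  obtain ⟨i, hi⟩ := (isUnit_int m (a := 6) (by decide)).exists_right_inv
  push_cast at hi
  have h6 : push F5 m (sc_pbw 6 i) = 1 + HH m := by
    rw [HH, add_sub_cancel, rho]
    congr 1
    funext p
    symm
    rw [ra_eq_iff (by decide)]
    simp only [sc_pbw]
    constructor
    · simp
    · simp only [Int.cast_zero, mul_zero, zero_mul, zero_add, Int.cast_ofNat, Int.cast_one,
        EuclideanDomain.zero_div, add_zero]
      linear_combination p.2 * hi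
  have hp : ∀ j : ℕ, push F5 m (sc_pbw (6 ^ j) (i ^ j)) = (1 + HH m) ^ j := by
    intro j
    induction j with
    | zero =>
      rw [pow_zero, pow_zero, pow_zero, ← push_id]
      congr 1
      funext p
      simp [sc_pbw]
    | succ j ih => rw [pow_succ, pow_succ, push_sc_pbw, ih, h6, pow_succ]
  obtain ⟨w, hw⟩ := six_pbw m t.val
  rw [ZMod.natCast_zmod_val] at hw
  have hj : (6 : ZP m) ^ t.val * i ^ t.val = 1 := by rw [← mul_pow, hi, one_pow]
  have e1 : 1 + 5 * t = 6 ^ t.val * (1 + 5 ^ 2 * (-(w * i ^ t.val))) := by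
    linear_combination -hw + 25 * w * hj
  have e2 : k' = i ^ t.val * (1 + 5 ^ 2 * (w * k')) := by
    linear_combination (i ^ t.val * k') * hw - k' * hj + i ^ t.val * h
  have h2 : push F5 m (sc_pbw (1 + 5 ^ 2 * (-(w * i ^ t.val))) (1 + 5 ^ 2 * (w * k'))) - 1
      ∈ Rs m 8 := Rs_anti (by norm_num) (hSC m 2 _ _)
  have hH := (hHEF m).1
  have h0 : (1 + HH m) ^ t.val ∈ Rs m 0 := by
    simpa using Rs_pow (add_mem Rs_one (Rs_anti (Nat.zero_le _) hH)) t.val
  refine ⟨(t.val : F5), ?_⟩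
  have h4 : _ ∈ Rs m 8 := Rs_anti (by norm_num) (Rs_mul h0 h2)
  have h3 := add_mem h4 (pow_pbw hH t.val)
  rw [show sc_pbw (1 + 5 * t) k' = sc_pbw (6 ^ t.val * (1 + 5 ^ 2 * (-(w * i ^ t.val))))
    (i ^ t.val * (1 + 5 ^ 2 * (w * k'))) by rw [← e1, ← e2], push_sc_pbw, hp]
  convert h3 using 1
  rw [mul_sub, mul_one]
  abel

lemma binom_pbw {A : Type*} [Ring A] (x y : A) (al be : ℕ) :
    (1 + x) ^ al * (1 + y) ^ be = ∑ a ∈ Finset.range (al + 1), ∑ b ∈ Finset.range (be + 1),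
      (al.choose a * be.choose b) • (x ^ a * y ^ b) := by
  rw [add_comm 1 x, add_comm 1 y, (Commute.one_right x).add_pow, (Commute.one_right y).add_pow,
    Finset.sum_mul_sum]
  refine Finset.sum_congr rfl fun a _ => Finset.sum_congr rfl fun b _ => ?_
  simp only [one_pow, mul_one]
  rw [← nsmul_eq_mul', ← nsmul_eq_mul', smul_mul_smul_comm]

lemma Op_pbw (m al be : ℕ) :
    Op m ((1 + MvPolynomial.X 0) ^ al * (1 + MvPolynomial.X 1) ^ be) =
      (1 + EE m) ^ al * (1 + FF m) ^ be := by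
  have hm : ∀ a b : ℕ, Op m (MvPolynomial.X 0 ^ a * MvPolynomial.X 1 ^ b) = EE m ^ a * FF m ^ b := by
    intro a b
    have := Op_monomial (m := m) (ex2 a b) 1
    rwa [monomial_ex2, one_smul, one_smul, ex2_zero, ex2_one] at this
  rw [binom_pbw, binom_pbw (EE m), map_sum]
  refine Finset.sum_congr rfl fun a _ => ?_
  rw [map_sum]
  refine Finset.sum_congr rfl fun b _ => ?_
  rw [map_nsmul, hm]

theorem p_PBW (hSC : S_SC) (hHEF : S_HEF) (hOP : S_OP) :
    S_PBW := by
  intro m g hg h5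
  obtain ⟨al, be, t, k', h, e⟩ := dec_pbw (m := m) hg h5
  obtain ⟨j, hj⟩ := scal_pbw hSC hHEF h
  have hr : rho F5 m g = Op m ((1 + MvPolynomial.X 0) ^ al * (1 + MvPolynomial.X 1) ^ be) *
      push F5 m (sc_pbw (1 + 5 * t) k') := by
    rw [rho, e, push_comp, push_comp, Op_pbw, EE, FF, add_sub_cancel, add_sub_cancel,
      ← rho_pow (by decide), ← rho_pow (by decide), mul_assoc]
    rfl
  generalize ((1 + MvPolynomial.X 0) ^ al * (1 + MvPolynomial.X 1) ^ be : PP) = q at hr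
  refine ⟨q, j • q, ?_⟩
  have : _ ∈ Rs m 8 := Rs_anti (by norm_num) (Rs_mul (hOP m 0 q (Ord_zero q)).1 hj)
  convert this using 1
  rw [hr, map_smul, mul_sub, mul_add, mul_one, smul_mul_assoc, mul_smul_comm]

end Pool.Agent.P.MP_e7a540_nt.B5

end

section

/-! Step PBP. -/

namespace Pool.Agent.P.MP_e7a540_nt.B5

open Pool.Agent.P.MP_8b7eba_nt.Mod Module Filter Topology Asymptotics CongruenceSubgroup

theorem p_PBP (hPBW : S_PBW) :
    S_PBP := by
  intro m Z hZ
  induction hZ using Submodule.span_induction with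
  | mem Z h =>
    obtain ⟨g, hg, h, rfl⟩ := h
    rw [sq_sub_sq] at h
    rcases prime5.dvd_or_dvd h with h | h
    · have hd : Iw md := by decide
      refine ⟨rho F5 m (md * g), hPBW m _ (hd.mul hg) ?_, fun μ hμ => ?_⟩
      · rw [show (md * g).a - (md * g).d = -(g.a + g.d) by simp [md]; ring]
        exact h.neg_right
      · have e : g = md * (md * g) := by ext <;> simp [md]
        conv_lhs => rw [e, rho_mul hd (hd.mul hg), Module.End.mul_apply, mem_Np.1 hμ]
    · exact ⟨_, hPBW m g hg h, fun _ _ => rfl⟩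
  | zero => exact ⟨0, zero_mem _, fun _ _ => rfl⟩
  | add _ _ _ _ a b =>
    obtain ⟨Y, h1, h2⟩ := a
    obtain ⟨Y', h3, h4⟩ := b
    exact ⟨Y + Y', add_mem h1 h3, fun μ hμ => by simp [h2 μ hμ, h4 μ hμ]⟩
  | smul c _ _ a =>
    obtain ⟨Y, h1, h2⟩ := a
    exact ⟨c • Y, Submodule.smul_mem _ c h1, fun μ hμ => by simp [h2 μ hμ]⟩

end Pool.Agent.P.MP_e7a540_nt.B5

end

section

/-! Step EV. -/

namespace Pool.Agent.P.MP_e7a540_nt.B5

open Pool.Agent.P.MP_8b7eba_nt.Mod Module Filter Topology Asymptotics CongruenceSubgroup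

/-- The span of the matrices with `a ^ 2 = s * d ^ 2` modulo `5`. -/
noncomputable def Sp_ev (m : ℕ) (s : ℤ) : Submodule F5 (En m) :=
  Submodule.span F5 {Z | ∃ g, Iw g ∧ (5 : ℤ) ∣ g.a ^ 2 - s * g.d ^ 2 ∧ Z = rho F5 m g}

lemma one_ev (m : ℕ) : Sp_ev m 1 = Ev m := by simp only [Sp_ev, Ev, one_mul]

lemma rho_ev {m : ℕ} (s : ℤ) (g : M2) (h : Iw g ∧ (5 : ℤ) ∣ g.a ^ 2 - s * g.d ^ 2) :
    rho F5 m g ∈ Sp_ev m s := Submodule.subset_span ⟨g, h.1, h.2, rfl⟩

lemma mul_ev {m : ℕ} {s t r : ℤ} {Y Z : En m} (hY : Y ∈ Sp_ev m s) (hZ : Z ∈ Sp_ev m t)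
    (e : r = s * t) : Y * Z ∈ Sp_ev m r := by
  induction hY using Submodule.span_induction with
  | zero => rw [zero_mul]; exact zero_mem _
  | add a b _ _ ha hb => rw [add_mul]; exact add_mem ha hb
  | smul c a _ ha => rw [smul_mul_assoc]; exact Submodule.smul_mem _ c ha
  | mem a ha =>
    obtain ⟨g, g1, ⟨u, g2⟩, rfl⟩ := ha
    induction hZ using Submodule.span_induction with
    | zero => rw [mul_zero]; exact zero_mem _
    | add a b _ _ ha hb => rw [mul_add]; exact add_mem ha hb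
    | smul c a _ ha => rw [mul_smul_comm]; exact Submodule.smul_mem _ c ha
    | mem b hb =>
      obtain ⟨h, h1, ⟨v, h2⟩, rfl⟩ := hb
      rw [← rho_mul h1 g1]
      refine rho_ev _ _ ⟨h1.mul g1, ?_⟩
      obtain ⟨c, hc⟩ := g1.1
      obtain ⟨c', hc'⟩ := h1.1
      rw [M2.mul_a, M2.mul_d, hc, hc', e]
      exact ⟨v * g.a ^ 2 + t * h.d ^ 2 * u + h.b * c * (2 * h.a * g.a + 5 * h.b * c) -
        s * t * (c' * g.b) * (2 * h.d * g.d + 5 * c' * g.b), by
          linear_combination g.a ^ 2 * h2 + t * h.d ^ 2 * g2⟩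

lemma unit_ev (m : ℕ) : (1 : En m) ∈ Sp_ev m 1 := rho_one (R := F5) (m := m) ▸ rho_ev 1 1 (by decide)

lemma pow_ev {m : ℕ} {Z : En m} (h : Z ∈ Sp_ev m 1) (k : ℕ) : Z ^ k ∈ Sp_ev m 1 := by
  induction k with
  | zero => exact unit_ev m
  | succ k ih => rw [pow_succ]; exact mul_ev ih h rfl

lemma two_ev (m : ℕ) : (2 : En m) ∈ Sp_ev m 1 := by
  rw [← one_add_one_eq_two]
  exact add_mem (unit_ev m) (unit_ev m)

lemma tau_ev (m : ℕ) : tau2 F5 m ∈ Sp_ev m (-1) ∧ tau3 F5 m ∈ Sp_ev m (-1) := by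
  have h1 := unit_ev m
  have h2 := two_ev m
  have hS : Sg (rho F5 m) (5 ^ m) ∈ Sp_ev m 1 :=
    sum_mem fun k _ => pow_ev (neg_mem (rho_ev 1 eta5 (by decide))) k
  have hl : lamg (rho F5 m) (5 ^ m) ∈ Sp_ev m 1 :=
    mul_ev (sub_mem h1 (rho_ev 1 mu (by decide))) hS rfl
  have hd := rho_ev (m := m) 1 md (by decide)
  have hq : qg (rho F5 m) ∈ Sp_ev m (-1) := add_mem (rho_ev _ _ (by decide))
    (mul_ev hd (rho_ev (-1) _ (by decide)) rfl)
  have ha := rho_ev (m := m) (-1) ⟨2, -1, 0, 1⟩ (by decide)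
  exact ⟨mul_ev (t := -1) (add_mem h1 hd) (sub_mem (mul_ev (t := -1) h2 (add_mem (add_mem
      (rho_ev _ _ (by decide)) (rho_ev _ _ (by decide))) ha) rfl) (mul_ev hl ha rfl)) rfl,
    mul_ev (t := -1) (add_mem h1 hd) (sub_mem (mul_ev (t := -1) h2 (add_mem (add_mem
      (rho_ev _ _ (by decide)) (rho_ev _ _ (by decide))) hq) rfl)
      (mul_ev (s := 1) (mul_ev (s := 1) (mul_ev hl hd rfl) (rho_ev 1 mv (by decide)) rfl) hq rfl))
      rfl⟩

lemma np_ev (m : ℕ) (Y : En m) (μ : Nm m) : ((1 + rho F5 m md) * Y) μ ∈ Np m := by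
  have e : rho F5 m md * (1 + rho F5 m md) = 1 + rho F5 m md := by
    rw [mul_add, mul_one, ← rho_mul (by decide) (by decide), show md * md = 1 by decide, rho_one,
      add_comm]
  rw [mem_Np, ← Module.End.mul_apply, ← mul_assoc, e]

theorem p_EV :
    S_EV := by
  intro m
  obtain ⟨a, b⟩ := tau_ev m
  have hx : xo F5 m ∈ Sp_ev m 1 :=
    add_mem (by rw [pow_two]; exact mul_ev a a rfl) (unit_ev m)
  refine ⟨one_ev m ▸ hx, one_ev m ▸ sub_mem (sub_mem (sub_mem (mul_ev a b rfl) (two_ev m)) hx)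
    (pow_ev hx 2), ?_, fun Z hZ => ?_⟩
  · rw [mem_Np, AddMonoidAlgebra.one_def, rho_single, ra_md, neg_zero]
  · induction hZ using Subring.closure_induction with
    | mem Z h =>
      rcases h with rfl | rfl
      exacts [fun μ _ => np_ev m _ μ, fun μ _ => np_ev m _ μ]
    | zero => exact fun _ _ => zero_mem _
    | one => exact fun _ h => h
    | add Y Z _ _ hY hZ => exact fun μ h => add_mem (hY μ h) (hZ μ h)
    | neg Y _ hY => exact fun μ h => neg_mem (hY μ h)
    | mul Y Z _ _ hY hZ => exact fun μ h => hY _ (hZ μ h)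

end Pool.Agent.P.MP_e7a540_nt.B5

end
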