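import Pool.Agent.P.MP_e7a540_nt.B5.Iface

/-! Proofs of the steps MOM, PROJ, LIFT, SYM, SYX, SYY, FAM, NUM. -/

set_option autoImplicit false

section

/-! Step MOM. -/

namespace Pool.Agent.P.MP_e7a540_nt.B5

open Pool.Agent.P.MP_8b7eba_nt.Mod Module Filter Topology Asymptotics CongruenceSubgroup

open MvPolynomial Finset in
lemma coeff_mom (x y u v : ℕ) : ((1 + X 0) ^ x * (1 + X 1) ^ y : PP).coeff (ex2 u v) =
    (x.choose u : F5) * (y.choose v : F5) := by
  have e : ((1 + X 0) ^ x * (1 + X 1) ^ y : PP) = ∑ i ∈ range (x + 1), ∑ j ∈ range (y + 1),
      monomial (ex2 i j) ((x.choose i : F5) * (y.choose j : F5)) := by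
    rw [add_comm 1, add_comm 1, add_pow, add_pow, sum_mul_sum]
    refine sum_congr rfl fun i _ => sum_congr rfl fun j _ => ?_
    rw [monomial_ex2, smul_eq_C_mul, map_mul, map_natCast, map_natCast]
    ring
  have e2 : ∀ i j, ex2 i j = ex2 u v ↔ j = v ∧ i = u := fun i j =>
    ⟨fun h => ⟨by simpa using congrArg (· 1) h, by simpa using congrArg (· 0) h⟩,
      fun h => by rw [h.1, h.2]⟩
  simp only [e, coeff_sum, coeff_monomial, e2, ite_and, sum_ite_eq', mem_range]
  split_ifs with h1
  · rw [sum_ite_eq']
    split_ifs with h2
    · rfl
    · rw [Nat.choose_eq_zero_of_lt (not_lt.1 (h2 <| mem_range.2 ·)), Nat.cast_zero, zero_mul]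
  · rw [Nat.choose_eq_zero_of_lt (show y < v by omega), Nat.cast_zero, mul_zero, sum_const_zero]

open MvPolynomial in
theorem p_MOM :
    S_MOM := by
  intro m k μ q h
  have e : piq m (∑ p : XX m, μ.coeff p • ((1 + X 0) ^ p.1.val * (1 + X 1) ^ p.2.val)) = μ := by
    simp only [map_sum, map_smul, map_mul, map_pow, map_add, map_one, piq_X0, piq_X1, ← single_eq']
    ext p
    simp
  rw [← e, ← map_sub]
  refine piq_mem (mem_Ord.2 fun d hd => ?_)
  rw [← ex2_eta d, coeff_sub, ← h _ _ hd, sub_eq_zero, mom, coeff_sum]
  exact Finset.sum_congr rfl fun p _ => by rw [coeff_smul, coeff_mom, smul_eq_mul, mul_assoc]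

end Pool.Agent.P.MP_e7a540_nt.B5

end

section

/-! Step PROJ. -/

namespace Pool.Agent.P.MP_e7a540_nt.B5

open Pool.Agent.P.MP_8b7eba_nt.Mod Module Filter Topology Asymptotics CongruenceSubgroup

lemma sum_proj {A : Type*} [Ring A] {a : A} (h : a ^ 25 = -1) (t : ℕ) :
    ∑ k ∈ Finset.range (25 + 50 * t), a ^ k = ∑ k ∈ Finset.range 25, a ^ k := by
  have e : ∀ K, ∑ k ∈ Finset.range (25 + K), a ^ k =
      ∑ k ∈ Finset.range 25, a ^ k - ∑ k ∈ Finset.range K, a ^ k := fun K => by
    rw [Finset.sum_range_add, sub_eq_add_neg, ← Finset.sum_neg_distrib]
    simp only [pow_add, h, neg_one_mul]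
  induction t with
  | zero => rfl
  | succ t ih =>
    rw [show 25 + 50 * (t + 1) = 25 + (25 + (25 + 50 * t)) by ring, e, e, ih, sub_self, sub_zero]

lemma Sg_proj {A : Type*} [Ring A] {ρ : M2 → A} (h : ρ eta5 ^ 25 = 1) (t : ℕ) :
    Sg ρ (25 + 50 * t) = Sg ρ (5 ^ 2) :=
  sum_proj (by rw [Odd.neg_pow (by decide), h]) t

lemma pow_proj {m : ℕ} (h : 2 ≤ m) : ∃ t, 5 ^ m = 25 + 50 * t := by
  induction m, h using Nat.le_induction with
  | base => exact ⟨0, rfl⟩
  | succ m _ ih => obtain ⟨t, e⟩ := ih; exact ⟨2 + 5 * t, by rw [pow_succ, e]; ring⟩

lemma ra_proj {m k : ℕ} (h : k ≤ m) {g : M2} (hg : Iw g) (p : XX m) :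
    prX h (ra m g p) = ra k g (prX h p) := by
  obtain ⟨a, b⟩ := (ra_eq_iff hg (p := p)).1 rfl
  have a' := congrArg (ZMod.castHom (pow_dvd_pow 5 h) (ZP k)) a
  have b' := congrArg (ZMod.castHom (pow_dvd_pow 5 h) (ZP k)) b
  simp only [map_mul, map_add, map_intCast, map_ofNat] at a' b'
  exact ((ra_eq_iff hg).2 ⟨a', b'⟩).symm

lemma xyw_proj {m k : ℕ} (h : k ≤ m) (h3 : Sg (rho F5 k) (5 ^ m) = Sg (rho F5 k) (5 ^ k))
    (μ : Nm m) : pr h (xo F5 m μ) = xo F5 k (pr h μ) ∧ pr h (yo F5 m μ) = yo F5 k (pr h μ) ∧
      pr h (wo F5 m μ) = wo F5 k (pr h μ) := by
  have h1 : ∀ g, Iw g → (rho F5 m g, rho F5 k g) ∈ Rel F5 F5 (pr h : Nm m →+ Nm k) := by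
    intro g hg ν
    induction ν using AddMonoidAlgebra.induction_linear with
    | zero => simp
    | add a b ha hb => simp only [map_add, ha, hb]
    | single p c => simp [ra_proj h hg]
  obtain ⟨a, b, c⟩ := rel_xyw (K := 5 ^ m) (K' := 5 ^ k) h1 fun ν =>
    (rel_Sg (h1 eta5 (by decide)) (5 ^ m) ν).trans (DFunLike.congr_fun h3 _)
  exact ⟨a μ, b μ, c μ⟩

theorem p_PROJ (hETA : S_ETA) :
    S_PROJ := by
  intro m h
  refine ⟨fun q => ?_, xyw_proj h ?_⟩
  · have : (pr h).comp (piq m) = piq 2 := by
      refine MvPolynomial.algHom_ext fun i => ?_
      fin_cases i <;> simp [ee, ff, prX, ZMod.cast_one (R := ZP 2) (pow_dvd_pow 5 h)]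
    exact DFunLike.congr_fun this q
  have h2 : rho F5 2 eta5 ^ 25 = 1 := by
    rw [← rho_pow (by decide), rho, ← push_id]
    exact congrArg _ (funext (hETA 2))
  obtain ⟨t, e⟩ := pow_proj h
  rw [e]
  exact Sg_proj h2 t

end Pool.Agent.P.MP_e7a540_nt.B5

end

section

/-! Step LIFT. -/

namespace Pool.Agent.P.MP_e7a540_nt.B5

open Pool.Agent.P.MP_8b7eba_nt.Mod Module Filter Topology Asymptotics CongruenceSubgroup

theorem up_lift (hPROJ : S_PROJ) (hIND : S_IND) {m k : ℕ} (h : 2 ≤ m) (hk : k ≤ 25) {μ : Nm m}
    (hμ : pr h μ ∈ Fil 2 k) : μ ∈ Fil m k := by
  obtain ⟨q, rfl⟩ := piq_surjective μ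
  rw [(hPROJ m h).1] at hμ
  exact piq_mem (mem_Ord.2 fun d hd => hIND 2 k q hμ d (by omega) (by omega) hd)

theorem ex2_inj_lift (a b u v : ℕ) : ex2 a b = ex2 u v ↔ (u, v) = (a, b) := by
  constructor
  · intro h
    have h0 := congrArg (fun d => d 0) h
    have h1 := congrArg (fun d => d 1) h
    simp only [ex2_zero, ex2_one] at h0 h1
    rw [h0, h1]
  · intro h
    rw [Prod.mk.injEq] at h
    rw [h.1, h.2]

theorem cm_lift (a b u v : ℕ) (c : F5) :
    MvPolynomial.coeff (ex2 u v) (MvPolynomial.monomial (ex2 a b) c : PP) =
      if (u, v) = (a, b) then c else 0 := by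
  rw [MvPolynomial.coeff_monomial]
  simp only [ex2_inj_lift]

theorem qx_lift : qx = MvPolynomial.monomial (ex2 1 1) 2 := by
  rw [monomial_ex2, qx, ps, MvPolynomial.smul_eq_C_mul, map_ofNat]
  ring

theorem qy_lift : qy = MvPolynomial.monomial (ex2 3 3) 4 + MvPolynomial.monomial (ex2 1 5) 2 +
    MvPolynomial.monomial (ex2 5 1) 2 := by
  simp only [monomial_ex2, qy, ps, pz, MvPolynomial.smul_eq_C_mul, map_ofNat]
  ring

theorem qw_lift :
    qw = MvPolynomial.monomial (ex2 1 3) (-1) + MvPolynomial.monomial (ex2 3 1) (-1) := by
  simp only [monomial_ex2, qw, ps, pz, neg_smul, one_smul]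
  ring

theorem p_LIFT (hMOM : S_MOM) (hNUM : S_NUM) (hPROJ : S_PROJ) (hIND : S_IND) :
    S_LIFT := by
  intro m h
  obtain ⟨n1, n2, n3, n4⟩ := hNUM
  obtain ⟨p1, p2⟩ := hPROJ m h
  refine ⟨up_lift hPROJ hIND h (by norm_num) ?_, up_lift hPROJ hIND h (by norm_num) ?_,
    up_lift hPROJ hIND h (by norm_num) ?_, up_lift hPROJ hIND h (by norm_num) ?_⟩
  · rw [map_sub, p1, (p2 1).1, map_one]
    refine hMOM 2 3 _ _ fun u v huv => ?_
    rw [n1 u v huv, qx_lift, cm_lift]
  · rw [map_sub, p1, (p2 1).2.1, map_one]
    refine hMOM 2 7 _ _ fun u v huv => ?_
    rw [n2 u v huv, qy_lift, MvPolynomial.coeff_add, MvPolynomial.coeff_add, cm_lift, cm_lift,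
      cm_lift]
    simp only [Prod.mk.injEq]
    split_ifs <;> first | omega | simp
  · rw [map_sub, p1, (p2 1).2.2, map_one]
    refine hMOM 2 5 _ _ fun u v huv => ?_
    rw [n3 u v huv, qw_lift, MvPolynomial.coeff_add, cm_lift, cm_lift]
    simp only [Prod.mk.injEq]
    split_ifs <;> first | omega | decide
  · rw [map_sub, (p2 _).2.1, (p2 _).1, (p2 _).1, (p2 _).2.1, map_one, n4, sub_self]
    exact zero_mem _

end Pool.Agent.P.MP_e7a540_nt.B5

end

section

/-! Step SYM. -/

namespace Pool.Agent.P.MP_e7a540_nt.B5

open Pool.Agent.P.MP_8b7eba_nt.Mod Module Filter Topology Asymptotics CongruenceSubgroup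

lemma ord_sym (hIND : S_IND) {m j : ℕ} (hm : 2 ≤ m) (hj : j ≤ 8) {p : PP}
    (h : piq m p ∈ Fil m j) : p ∈ Ord j := by
  have h5 : 5 ^ 2 ≤ 5 ^ m := Nat.pow_le_pow_right (by norm_num) hm
  exact mem_Ord.2 fun d hd => hIND m j p h d (by omega) (by omega) hd

lemma op_sym (hOP : S_OP) {m j : ℕ} {p : PP} (h : p ∈ Ord j) :
    Op m p 1 - piq m p ∈ Fil m (j + 1) := by
  have := (hOP m j p h).2 0 1 (Fil_zero _)
  simpa using this

theorem p_SYM (hOP : S_OP) (hIND : S_IND) (hHEF : S_HEF) :
    S_SYM := by
  intro m k hm hk q0 q1 q Z hZ hq h1
  have a1 : Z 1 - Op m q0 1 ∈ Fil m (k + 1) := by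
    have := hZ 0 1 (Fil_zero _)
    simp only [LinearMap.sub_apply, LinearMap.add_apply, Module.End.mul_apply, (hHEF m).2.1,
      map_zero, add_zero, zero_add] at this
    exact Fil_anti (by omega) this
  have a2 : Op m q0 1 - piq m q ∈ Fil m (k + 1) := by
    have := sub_mem h1 a1
    rwa [sub_sub_sub_cancel_left] at this
  have a3 : ∀ j, j ≤ k → q0 ∈ Ord j := by
    intro j
    induction j with
    | zero => exact fun _ => Ord_zero _
    | succ j ih =>
      intro hj
      refine ord_sym hIND hm (by omega) ?_
      have b1 := op_sym hOP (m := m) (ih (by omega))
      have b2 : Op m q0 1 - piq m q ∈ Fil m (j + 1) := Fil_anti (by omega) a2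
      have b3 : piq m q ∈ Fil m (j + 1) := Fil_anti hj (piq_mem hq)
      have := add_mem (sub_mem b2 b1) b3
      rwa [sub_sub_sub_cancel_left, sub_add_cancel] at this
  refine ord_sym hIND hm (by omega) ?_
  have := sub_mem a2 (op_sym hOP (m := m) (a3 k le_rfl))
  rwa [sub_sub_sub_cancel_left, ← map_sub] at this

end Pool.Agent.P.MP_e7a540_nt.B5

end

section

/-! Step SYX. -/

namespace Pool.Agent.P.MP_e7a540_nt.B5

open Pool.Agent.P.MP_8b7eba_nt.Mod Module Filter Topology Asymptotics CongruenceSubgroup

theorem qx_ord_syx : qx ∈ Ord 2 := by
  have h : (2 : PP) * (MvPolynomial.X 0 * MvPolynomial.X 1) ∈ Ord (0 + (1 + 1)) :=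
    Ord_mul (Ord_zero _) (Ord_mul (Ord_of_hom (MvPolynomial.isHomogeneous_X _ _))
      (Ord_of_hom (MvPolynomial.isHomogeneous_X _ _)))
  exact h

theorem p_SYX (hSYM : S_SYM) (hPBP : S_PBP) (hEV : S_EV) (hLIFT : S_LIFT) (hOP : S_OP) (hHEF : S_HEF) :
    S_SYX := by
  intro m hm k μ hμ hN
  obtain ⟨hx, -, h1, -⟩ := hEV m
  obtain ⟨Y, hY, e⟩ := hPBP m _ hx
  obtain ⟨q0, q1, hR⟩ := mem_PB.1 hY
  have h3 : q0 - qx ∈ Ord 3 :=
    hSYM m 2 hm (by norm_num) q0 q1 qx Y hR qx_ord_syx (e 1 h1 ▸ (hLIFT m hm).1)
  have h2 : q0 ∈ Ord 2 := by
    have := add_mem (Ord_anti (by norm_num : 2 ≤ 3) h3) qx_ord_syx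
    rwa [sub_add_cancel] at this
  have a1 := Fil_anti (by omega : k + 3 ≤ k + 8) (hR k μ hμ)
  have a2 : (Op m q0 - mul m (piq m q0)) μ ∈ Fil m (k + 3) := (hOP m 2 q0 h2).2 k μ hμ
  have a3 : piq m (q0 - qx) * μ ∈ Fil m (k + 3) := add_comm 3 k ▸ Fil_mul (piq_mem h3) hμ
  have a4 : (Op m q1 * HH m) μ ∈ Fil m (k + 3) := Fil_anti (by omega : k + 3 ≤ k + (0 + 4))
    (Rs_mul (hOP m 0 q1 (Ord_zero _)).1 (hHEF m).1 k μ hμ)
  have e2 : xo F5 m μ - piq m qx * μ = (Y - (Op m q0 + Op m q1 * HH m)) μ +
      (Op m q0 - mul m (piq m q0)) μ + piq m (q0 - qx) * μ + (Op m q1 * HH m) μ := by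
    rw [e μ hN, map_sub]
    simp only [LinearMap.sub_apply, LinearMap.add_apply, mul_apply]
    ring
  rw [e2]
  exact add_mem (add_mem (add_mem a1 a2) a3) a4

end Pool.Agent.P.MP_e7a540_nt.B5

end

section

/-! Step SYY. -/

namespace Pool.Agent.P.MP_e7a540_nt.B5

open Pool.Agent.P.MP_8b7eba_nt.Mod Module Filter Topology Asymptotics CongruenceSubgroup

open MvPolynomial in
lemma hom_syy : qx.IsHomogeneous 2 ∧ qy.IsHomogeneous 6 ∧ (2 * qh).IsHomogeneous 6 := by
  have c : (2 : PP).IsHomogeneous 0 := isHomogeneous_C (Fin 2) (2 : F5)
  have x : ∀ i : Fin 2, (X i : PP).IsHomogeneous 1 := isHomogeneous_X F5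
  have a : ps.IsHomogeneous 2 := (x 0).mul (x 1)
  have b : pz.IsHomogeneous 2 := ((x 0).pow 2).add ((x 1).pow 2)
  exact ⟨c.mul a, (c.mul a).mul (b.pow 2),
    c.mul ((((x 0).pow 5).mul (x 1)).sub ((x 0).mul ((x 1).pow 5)))⟩

open MvPolynomial in
lemma ne_syy : (2 * qh : PP) ≠ 0 := by
  have e : (2 * qh : PP) = monomial (ex2 5 1) 2 - monomial (ex2 1 5) 2 := by
    rw [monomial_ex2, monomial_ex2, qh, smul_eq_C_mul, smul_eq_C_mul, pow_one, pow_one, mul_sub]
    rfl
  intro h
  have := congrArg (coeff (ex2 5 1)) (e.symm.trans h)
  have n : ex2 1 5 ≠ ex2 5 1 := fun k => by simpa using congrArg (fun d => d 0) k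
  rw [coeff_sub, coeff_monomial, coeff_monomial, if_pos rfl, if_neg n, coeff_zero] at this
  exact absurd this (by decide)

open MvPolynomial in
lemma step_syy {j : ℕ} {q : PP} (h : q ∈ Ord j) (k : q * (2 * qh) ∈ Ord (j + 7)) :
    q ∈ Ord (j + 1) := by
  have a : q - homogeneousComponent j q ∈ Ord (j + 1) := mem_Ord.2 fun d hd => by
    rw [coeff_sub, coeff_homogeneousComponent, degree_fin2]
    split_ifs with e
    · exact sub_self _
    · rw [mem_Ord.1 h d (by omega), sub_zero]
  have b : homogeneousComponent j q * (2 * qh) ∈ Ord (j + 7) := by
    have := sub_mem k (Ord_anti (by omega) (Ord_mul a (Ord_of_hom hom_syy.2.2)))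
    rwa [← sub_mul, sub_sub_cancel] at this
  have c : homogeneousComponent j q * (2 * qh) = 0 := by
    ext d
    by_cases e : d 0 + d 1 < j + 7
    · exact mem_Ord.1 b d e
    · exact ((homogeneousComponent_isHomogeneous j q).mul hom_syy.2.2).coeff_eq_zero
        (by rw [degree_fin2]; omega)
  rwa [(mul_eq_zero.1 c).resolve_right ne_syy, sub_zero] at a

theorem p_SYY (hSYM : S_SYM) (hSYX : S_SYX) (hPBP : S_PBP) (hEV : S_EV) (hLIFT : S_LIFT) (hOP : S_OP) (hHEF : S_HEF) (hIND : S_IND) :
    S_SYY := by
  intro m hm k μ hμ hN
  obtain ⟨-, e2, e3, e4⟩ := hEV m
  obtain ⟨Y, ⟨q0, q1, hY⟩, hy⟩ := hPBP m _ e2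
  obtain ⟨l1, l2, -, l4⟩ := hLIFT m hm
  obtain ⟨f1, -, f3⟩ := hHEF m
  have ox := Ord_of_hom hom_syy.1
  have oy := Ord_of_hom hom_syy.2.1
  have oh := Ord_of_hom hom_syy.2.2
  have s0 := hSYM m 6 hm (by omega) q0 q1 qy Y hY oy (hy 1 e3 ▸ l2)
  have o0 : q0 ∈ Ord 6 := by simpa using add_mem (Ord_anti (by omega) s0) oy
  have x2 : xo F5 m 1 ∈ Fil m 2 := by
    simpa using add_mem (Fil_anti (by omega) l1) (piq_mem (m := m) ox)
  have y6 : yo F5 m 1 ∈ Fil m 6 := by
    simpa using add_mem (Fil_anti (by omega) l2) (piq_mem (m := m) oy)
  have xN := e4 _ xo_mem 1 e3
  have yN := e4 _ yo_mem 1 e3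
  have sx := hSYX m hm 6 _ y6 yN
  have ey := hy _ xN
  generalize xo F5 m (yo F5 m 1) = z at l4 sx
  generalize yo F5 m 1 = y1 at l2 sx
  generalize xo F5 m 1 = x1 at l1 l4 x2 ey
  have A : Op m q1 (HH m x1) ∈ Fil m 9 := by
    have := sub_mem (sub_mem (sub_mem (sub_mem (add_mem (add_mem l4 sx)
      (Fil_mul (piq_mem ox) l2)) (Fil_anti (by omega) (hY 2 x1 x2))) ((hOP m 6 q0 o0).2 2 x1 x2))
      (Fil_mul (piq_mem s0) x2)) (Fil_mul (piq_mem oy) l1)
    convert this using 1
    simp only [ey, LinearMap.sub_apply, LinearMap.add_apply, Module.End.mul_apply, mul_apply,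
      map_sub]
    ring
  have B : HH m x1 - piq m (2 * qh) ∈ Fil m 7 := by
    have := add_mem (f1 3 _ l1) (add_mem f3 f3)
    convert this using 1
    simp only [qx, ps, two_mul, map_sub, map_add, map_mul, piq_X0, piq_X1]
    ring
  have h6 : HH m x1 ∈ Fil m 6 := f1 2 _ x2
  have p : 5 ^ 2 ≤ 5 ^ m := Nat.pow_le_pow_right (by omega) hm
  have C : ∀ j ≤ 2, q1 ∈ Ord j → q1 ∈ Ord (j + 1) := fun j hj h => step_syy h <|
    mem_Ord.2 fun d hd => hIND m (j + 7) _ (by
      have := sub_mem (sub_mem (Fil_anti (show j + 7 ≤ 9 by omega) A)
        (Fil_anti (by omega) ((hOP m j q1 h).2 6 _ h6))) (Fil_mul (piq_mem h) B)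
      convert this using 1
      simp only [LinearMap.sub_apply, mul_apply, map_mul (piq m) q1]
      ring) d (by omega) (by omega) hd
  have o1 := C 2 le_rfl (C 1 (by omega) (C 0 (by omega) (Ord_zero _)))
  have := add_mem (add_mem (add_mem (Fil_anti (show k + 7 ≤ k + 8 by omega) (hY k μ hμ))
    ((hOP m 6 q0 o0).2 k μ hμ)) (Fil_anti (by omega) (Fil_mul (piq_mem s0) hμ)))
    (Rs_mul (hOP m 3 q1 o1).1 f1 k μ hμ)
  convert this using 1
  simp only [hy μ hN, LinearMap.sub_apply, LinearMap.add_apply, mul_apply, map_sub]
  ring

end Pool.Agent.P.MP_e7a540_nt.B5

end

section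

/-! Step FAM. -/

namespace Pool.Agent.P.MP_e7a540_nt.B5

open Pool.Agent.P.MP_8b7eba_nt.Mod Module Filter Topology Asymptotics CongruenceSubgroup

/-- An even measure with its leading term. -/
def Good_fam (m : ℕ) (ν : Nm m) (q : PP) (k : ℕ) : Prop :=
  ν ∈ Np m ∧ q ∈ Ord k ∧ ν - piq m q ∈ Fil m (k + 1)

theorem step_fam (hEV : S_EV) {m d : ℕ} {Z : En m} {qz : PP} (hZ : Z ∈ HR F5 m) (hq : qz ∈ Ord d)
    (h : ∀ k, ∀ μ ∈ Fil m k, μ ∈ Np m → Z μ - piq m qz * μ ∈ Fil m (k + (d + 1)))
    {ν : Nm m} {q : PP} {k : ℕ} (g : Good_fam m ν q k) : Good_fam m (Z ν) (qz * q) (d + k) := by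
  obtain ⟨h1, h2, h3⟩ := g
  have hν : ν ∈ Fil m k := by
    have := add_mem (Fil_anti (Nat.le_succ k) h3) (piq_mem (m := m) h2)
    rwa [sub_add_cancel] at this
  refine ⟨(hEV m).2.2.2 Z hZ ν h1, Ord_mul hq h2, ?_⟩
  have a := h k ν hν h1
  have b := Fil_mul (piq_mem (m := m) hq) h3
  rw [show k + (d + 1) = d + k + 1 by omega] at a
  rw [← add_assoc] at b
  have := add_mem a b
  rw [map_mul]
  convert this using 1
  ring

theorem pow_fam (hEV : S_EV) {m d : ℕ} {Z : En m} {qz : PP} (hZ : Z ∈ HR F5 m) (hq : qz ∈ Ord d)
    (h : ∀ k, ∀ μ ∈ Fil m k, μ ∈ Np m → Z μ - piq m qz * μ ∈ Fil m (k + (d + 1)))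
    {ν : Nm m} {q : PP} {k : ℕ} (g : Good_fam m ν q k) (i : ℕ) :
    Good_fam m ((Z ^ i) ν) (qz ^ i * q) (d * i + k) := by
  induction i with
  | zero => simpa using g
  | succ i ih =>
    have := step_fam hEV hZ hq h ih
    rw [pow_succ', pow_succ', mul_assoc, show d * (i + 1) + k = d + (d * i + k) by ring]
    exact this

theorem swap_fam (t : Bool × ℕ × ℕ) : MvPolynomial.rename (Equiv.swap 0 1) (famq t) = famq t := by
  have hs : MvPolynomial.rename (Equiv.swap (0 : Fin 2) 1) ps = ps := by
    simp [ps, mul_comm]
  have hz : MvPolynomial.rename (Equiv.swap (0 : Fin 2) 1) pz = pz := by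
    simp [pz, add_comm]
  have h2 : MvPolynomial.rename (Equiv.swap (0 : Fin 2) 1) (2 : PP) = 2 := map_ofNat _ 2
  obtain ⟨b, i, j⟩ := t
  cases b <;> simp [famq, qx, qy, qw, hs, hz, h2]

theorem p_FAM (hSYX : S_SYX) (hSYY : S_SYY) (hLIFT : S_LIFT) (hEV : S_EV) (hSG : S_SG) (hPOL : S_POL) :
    S_FAM := by
  intro m hm t
  have ox : qx ∈ Ord 2 := by simpa [famq, famd] using Ord_of_hom (hPOL.1 (false, 1, 0))
  have oy : qy ∈ Ord 6 := by simpa [famq, famd] using Ord_of_hom (hPOL.1 (false, 0, 1))
  have ow : qw ∈ Ord 4 := by simpa [famq, famd] using Ord_of_hom (hPOL.1 (true, 0, 0))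
  have g0 : Good_fam m ((if t.1 then wo F5 m else 1 : En m) 1) (if t.1 then qw else 1)
      (if t.1 then 4 else 0) := by
    cases t.1
    · exact ⟨(hEV m).2.2.1, Ord_zero _, by simp⟩
    · exact ⟨(hEV m).2.2.2 _ wo_mem _ (hEV m).2.2.1, ow, (hLIFT m hm).2.2.1⟩
  have g1 := pow_fam hEV xo_mem ox (hSYX m hm) (pow_fam hEV yo_mem oy (hSYY m hm) g0 t.2.2) t.2.1
  have g : Good_fam m (fam F5 m t 1) (famq t) (famd t) := by
    rw [fam, famq, famd, mul_assoc, mul_assoc, add_assoc]
    exact g1
  obtain ⟨h1, -, h3⟩ := g
  obtain ⟨-, s1, s2⟩ := hSG m
  have e1 := mem_Np.1 h1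
  have e2 : sw F5 m (piq m (famq t)) = piq m (famq t) := by rw [s2, swap_fam]
  have a := s1 _ _ h3
  rw [map_sub, e2] at a
  have := add_mem (add_mem h3 h3) (add_mem a a)
  have e4 : piq m ((4 : F5) • famq t) = 4 * piq m (famq t) := by
    rw [map_smul, Algebra.smul_def, map_ofNat]
  rw [e4]
  convert this using 1
  simp only [symm, Module.End.mul_apply, LinearMap.add_apply, Module.End.one_apply, e1, map_add]
  ring

end Pool.Agent.P.MP_e7a540_nt.B5

end

section

/-! Step NUM: the computation at level `25`. -/

namespace Pool.Agent.P.MP_e7a540_nt.B5

open Pool.Agent.P.MP_8b7eba_nt.Mod Module Filter Topology Asymptotics CongruenceSubgroup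

/-- The operators on functions. -/
noncomputable def rp_num (g : M2) : Module.End F5 (XX 2 → F5) :=
  LinearMap.funLeft F5 F5 (ra 2 g.adj)

lemma rp_apply_num (g : M2) (φ : XX 2 → F5) (p : XX 2) : rp_num g φ p = φ (ra 2 g.adj p) := rfl

noncomputable def cf_num : Nm 2 →+ (XX 2 → F5) where
  toFun μ := fun p => μ.coeff p
  map_zero' := by ext; simp
  map_add' a b := by ext; simp

lemma rel_num (g : M2) (hg : Iw g) : (rho F5 2 g, rp_num g) ∈ Rel F5 F5 cf_num :=
  fun μ => funext fun p => coeff_rho hg μ p

def tb_num (T x : ℕ) : ℕ := (T >>> (5 * x)) % 32
def gt_num (M x y : ℕ) : ℕ := (M >>> (3 * (25 * x + y))) % 8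
def dec_num (M : ℕ) : XX 2 → F5 := fun p => (gt_num M p.1.val p.2.val : F5)
def all_num (f : ℕ → ℕ → Bool) : Bool :=
  (List.range 25).all fun x => (List.range 25).all fun y => f x y

lemma all_spec_num {f : ℕ → ℕ → Bool} (h : all_num f = true) (p : XX 2) :
    f p.1.val p.2.val = true := by
  simp only [all_num, List.all_eq_true, List.mem_range] at h
  exact h _ (ZMod.val_lt _) _ (ZMod.val_lt _)

/-- The tables `X`, `Y` describe the action of `g`. -/
def Tab_num (g : M2) (X Y : ℕ) : Prop :=
  ∀ p : XX 2, (ra 2 g p).1.val = tb_num X p.1.val ∧ (ra 2 g p).2.val = tb_num Y p.2.val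

lemma tab_num (g : M2) (X Y : ℕ) (hg : Iw g)
    (h : ∀ x : ZMod 25, tb_num X x.val < 25 ∧ tb_num Y x.val < 25 ∧
      (tb_num X x.val : ZMod 25) * (g.c * x + g.a) = g.d * x + g.b ∧
      (tb_num Y x.val : ZMod 25) * (5 * g.b * x + g.d) = g.a * x + (g.c / 5 : ℤ)) :
    Tab_num g X Y := fun p => by
  have : ra 2 g p = ((tb_num X p.1.val : ZP 2), (tb_num Y p.2.val : ZP 2)) :=
    (ra_eq_iff hg).2 ⟨(h p.1).2.2.1, (h p.2).2.2.2⟩
  rw [this]
  exact ⟨ZMod.val_cast_of_lt (h p.1).1, ZMod.val_cast_of_lt (h p.2).2.1⟩

def xu_num : ℕ := 31514183825144144899313569262671561752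
def yu_num : ℕ := 6086736877570038613324981074132719808
def xv_num : ℕ := 6086736877570038613324981074132719808
def yv_num : ℕ := 31514183825144144899313569262671561752
def xd_num : ℕ := 1416367812366028984238812101693103872
def yd_num : ℕ := 1416367812366028984238812101693103872
def xe_num : ℕ := 21903348536221386463509660636242655340
def ye_num : ℕ := 16836188923356731946012141928324316456
def xa1_num : ℕ := 16962882313440500533776758191394588064
def ya1_num : ℕ := 31469922331007706523308919406605832256
def xa2_num : ℕ := 31469922331007706523308919406605832256
def ya2_num : ℕ := 16962882313440500533776758191394588064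
def xa3_num : ℕ := 32842028649237297072967231014949852257
def ya3_num : ℕ := 23394027951907669063597804854839662144
def xb1_num : ℕ := 11329895632936357739431843481516025376
def yb1_num : ℕ := 30053554518672875594984796958576908384
def xb2_num : ℕ := 30053554518672875594984796958576908384
def yb2_num : ℕ := 11329895632936357739431843481516025376
def xb3_num : ℕ := 31425660836902466173466118694301408385
def yb3_num : ℕ := 17762055391853485736106731905539019456
def xb4_num : ℕ := 28681448200443285016503447735061714008
def yb4_num : ℕ := 4865283028271131602770767372608551296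

lemma tu_num : Tab_num mu.adj xu_num yu_num := tab_num _ _ _ (by decide) (by decide +kernel)
lemma tv_num : Tab_num mv.adj xv_num yv_num := tab_num _ _ _ (by decide) (by decide +kernel)
lemma td_num : Tab_num md.adj xd_num yd_num := tab_num _ _ _ (by decide) (by decide +kernel)
lemma te_num : Tab_num eta5.adj xe_num ye_num := tab_num _ _ _ (by decide) (by decide +kernel)
lemma ta1_num : Tab_num (M2.mk 1 0 0 2).adj xa1_num ya1_num :=
  tab_num _ _ _ (by decide) (by decide +kernel)
lemma ta2_num : Tab_num (M2.mk 2 0 0 1).adj xa2_num ya2_num :=
  tab_num _ _ _ (by decide) (by decide +kernel)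
lemma ta3_num : Tab_num (M2.mk 2 (-1) 0 1).adj xa3_num ya3_num :=
  tab_num _ _ _ (by decide) (by decide +kernel)
lemma tb1_num : Tab_num (M2.mk 1 0 0 3).adj xb1_num yb1_num :=
  tab_num _ _ _ (by decide) (by decide +kernel)
lemma tb2_num : Tab_num (M2.mk 3 0 0 1).adj xb2_num yb2_num :=
  tab_num _ _ _ (by decide) (by decide +kernel)
lemma tb3_num : Tab_num (M2.mk 3 (-1) 0 1).adj xb3_num yb3_num :=
  tab_num _ _ _ (by decide) (by decide +kernel)
lemma tb4_num : Tab_num (M2.mk 3 1 0 1).adj xb4_num yb4_num :=
  tab_num _ _ _ (by decide) (by decide +kernel)

/-- A function on `XX 2` given by a function of two natural numbers. -/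
def fn_num (f : ℕ → ℕ → ℕ) : XX 2 → F5 := fun p => (f p.1.val p.2.val : F5)
def pl_num (X Y : ℕ) (f : ℕ → ℕ → ℕ) : ℕ → ℕ → ℕ := fun x y => f (tb_num X x) (tb_num Y y)

lemma rp_fn_num {g : M2} {X Y : ℕ} (h : Tab_num g.adj X Y) (f : ℕ → ℕ → ℕ) :
    rp_num g (fn_num f) = fn_num (pl_num X Y f) := by
  ext p
  simp only [rp_apply_num, fn_num, pl_num, (h p).1, (h p).2]

lemma fn_add_num (f g : ℕ → ℕ → ℕ) : fn_num f + fn_num g = fn_num fun x y => f x y + g x y := by
  ext p; simp [fn_num]
lemma fn_nsmul_num (c : ℕ) (f : ℕ → ℕ → ℕ) : c • fn_num f = fn_num fun x y => c * f x y := by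
  ext p; simp [fn_num]
lemma fn_sub_num (f g : ℕ → ℕ → ℕ) :
    fn_num f - fn_num g = fn_num fun x y => f x y + 4 * g x y := by
  ext p
  simp only [fn_num, Pi.sub_apply]
  push_cast
  rw [show (4 : F5) = -1 by decide]
  ring
lemma fn_ext_num {f g : ℕ → ℕ → ℕ} (h : all_num (fun x y => f x y % 5 == g x y % 5) = true) :
    fn_num f = fn_num g := by
  ext p
  exact (ZMod.natCast_eq_natCast_iff' _ _ 5).2 (by simpa using all_spec_num h p)

lemma eta_num : rp_num eta5 ^ 25 = 1 := by
  have h : ∀ k, rp_num eta5 ^ k = LinearMap.funLeft F5 F5 (ra 2 eta5.adj)^[k] := by
    intro k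
    induction k with
    | zero => rfl
    | succ k ih => rw [pow_succ, ih, Function.iterate_succ']; rfl
  rw [h, ← ra_pow (by decide)]
  ext φ p
  have : ra 2 (eta5.adj ^ 25) p = p := by
    rw [show eta5.adj ^ 25 = ⟨-103682, 75025, -375125, 271443⟩ by decide +kernel,
      ra_eq_iff (by decide)]
    exact (by decide +kernel : ∀ x y : ZMod 25,
      x * (((-375125 : ℤ) : ZMod 25) * x + (-103682 : ℤ)) = (271443 : ℤ) * x + (75025 : ℤ) ∧
      y * (5 * ((75025 : ℤ) : ZMod 25) * y + (271443 : ℤ)) =
        (-103682 : ℤ) * y + (-375125 / 5 : ℤ)) p.1 p.2
  simp [LinearMap.funLeft, this]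

lemma Sg_gen_num {A : Type*} [Ring A] (ρ : M2 → A) (K : ℕ) (hK : Odd K) (h : ρ eta5 ^ K = 1) :
    Sg ρ K * (1 + ρ eta5) = 2 := by
  have := geom_sum_mul_neg (-ρ eta5) K
  rwa [sub_neg_eq_add, hK.neg_pow, h, sub_neg_eq_add, one_add_one_eq_two] at this

attribute [local irreducible] Sg

lemma Sg_num (μ s : XX 2 → F5) (h : s + rp_num eta5 s = 2 • μ) : Sg rp_num 25 μ = s := by
  have h2 := LinearMap.congr_fun (Sg_gen_num rp_num 25 (by decide) eta_num) s
  rw [Module.End.mul_apply, LinearMap.add_apply, Module.End.one_apply, h, map_nsmul] at h2
  ext p
  have h3 := congrFun h2 p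
  simp only [Pi.smul_apply, nsmul_eq_mul, Module.End.ofNat_apply, Nat.cast_ofNat] at h3
  exact mul_left_cancel₀ (by decide) h3

def b2_num (M S : ℕ) : ℕ → ℕ → ℕ := fun x y =>
  2 * (pl_num xa1_num ya1_num (gt_num M) x y + pl_num xa2_num ya2_num (gt_num M) x y +
    pl_num xa3_num ya3_num (gt_num M) x y) +
  4 * (gt_num S x y + 4 * pl_num xu_num yu_num (gt_num S) x y)

lemma step2_num (M S M' : ℕ)
    (h : (all_num (fun x y => (gt_num S x y + pl_num xe_num ye_num (gt_num S) x y) % 5 ==
        (2 * pl_num xa3_num ya3_num (gt_num M) x y) % 5) &&
      all_num (fun x y => (b2_num M S x y + pl_num xd_num yd_num (b2_num M S) x y) % 5 ==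
        gt_num M' x y % 5)) = true) : t2g rp_num 25 (dec_num M) = dec_num M' := by
  rw [Bool.and_eq_true] at h
  have hs : Sg rp_num 25 (fn_num (pl_num xa3_num ya3_num (gt_num M))) = fn_num (gt_num S) := by
    refine Sg_num _ _ ?_
    rw [rp_fn_num te_num, fn_add_num, fn_nsmul_num]
    exact fn_ext_num h.1
  change t2g rp_num 25 (fn_num (gt_num M)) = fn_num (gt_num M')
  simp only [t2g, lamg, Module.End.mul_apply, LinearMap.add_apply, LinearMap.sub_apply,
    Module.End.one_apply, Module.End.ofNat_apply, rp_fn_num ta1_num, rp_fn_num ta2_num,
    rp_fn_num ta3_num, hs, rp_fn_num tu_num, fn_add_num, fn_sub_num, fn_nsmul_num,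
    rp_fn_num td_num]
  exact fn_ext_num h.2

def q3_num (M : ℕ) : ℕ → ℕ → ℕ := fun x y =>
  pl_num xb3_num yb3_num (gt_num M) x y +
    pl_num xd_num yd_num (pl_num xb4_num yb4_num (gt_num M)) x y

def b3_num (M S : ℕ) : ℕ → ℕ → ℕ := fun x y =>
  2 * (pl_num xb1_num yb1_num (gt_num M) x y + pl_num xb2_num yb2_num (gt_num M) x y +
    q3_num M x y) + 4 * (gt_num S x y + 4 * pl_num xu_num yu_num (gt_num S) x y)

lemma step3_num (M S M' : ℕ)
    (h : (all_num (fun x y => (gt_num S x y + pl_num xe_num ye_num (gt_num S) x y) % 5 ==
        (2 * pl_num xd_num yd_num (pl_num xv_num yv_num (q3_num M)) x y) % 5) &&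
      all_num (fun x y => (b3_num M S x y + pl_num xd_num yd_num (b3_num M S) x y) % 5 ==
        gt_num M' x y % 5)) = true) : t3g rp_num 25 (dec_num M) = dec_num M' := by
  rw [Bool.and_eq_true] at h
  have hq : qg rp_num (fn_num (gt_num M)) = fn_num (q3_num M) := by
    simp only [qg, Module.End.mul_apply, LinearMap.add_apply, rp_fn_num tb3_num,
      rp_fn_num tb4_num, rp_fn_num td_num, fn_add_num]
    rfl
  have hs : Sg rp_num 25 (fn_num (pl_num xd_num yd_num (pl_num xv_num yv_num (q3_num M)))) =
      fn_num (gt_num S) := by
    refine Sg_num _ _ ?_
    rw [rp_fn_num te_num, fn_add_num, fn_nsmul_num]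
    exact fn_ext_num h.1
  change t3g rp_num 25 (fn_num (gt_num M)) = fn_num (gt_num M')
  simp only [t3g, lamg, Module.End.mul_apply, LinearMap.add_apply, LinearMap.sub_apply,
    Module.End.one_apply, Module.End.ofNat_apply, rp_fn_num tb1_num, rp_fn_num tb2_num, hq,
    rp_fn_num tv_num, hs, rp_fn_num tu_num, fn_add_num, fn_sub_num, fn_nsmul_num,
    rp_fn_num td_num]
  exact fn_ext_num h.2

lemma lin_num (a b c d A B C D M : ℕ)
    (h : all_num (fun x y => (a * gt_num A x y + b * gt_num B x y + c * gt_num C x y +
      d * gt_num D x y) % 5 == gt_num M x y % 5) = true) :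
    a • dec_num A + b • dec_num B + c • dec_num C + d • dec_num D = dec_num M := by
  change a • fn_num (gt_num A) + b • fn_num (gt_num B) + c • fn_num (gt_num C) +
    d • fn_num (gt_num D) = fn_num (gt_num M)
  simp only [fn_add_num, fn_nsmul_num]
  exact fn_ext_num h

def va0_num : ℕ := 1
def va1_num : ℕ := 3596991088052596832046201224400172736337456333659675387424865927201653702625908928715982486837713960592144294374266665002545242480222792469180255082708970077759918976129625152302467217946633198184231513961300416321329542640135985220811569857942744709418081056575689370719552761505233065292756416626874406186628596727495758009506396826337086252789204281183237494517417598133330921736750641298841253695447289389897575876427833605476799214228496342704316324443545336588493662992133482884772365033801927977572230719943731764632955687823530594242819784707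
def vsa1_num : ℕ := 1198704376915095279388495685146626694585183262744031587226620157985254962607030742471095959571242817935192217665728864379449717948972965384280185644622137110959103448218598849133592356237251830736333130615096964792347403152994987406151709266965596945187911514146193123631823179600880896256491408270870190593855421465747732048297249452103815795335560961167259945994818749766857117713316805325457666568151668915590511420305909228816571009767202870340050844117973288201661746819793617359677108190393630662641477498653964762275602766161993898310116573184
def va2_num : ℕ := 1349621146300556217925230503972548521927782668506842289868798149626008558480764552424444296224217322187697059591052394599992683196541754436474211376916762958811640347777890518439763848965348324537794523972528007933712698133735211613147246454285915778622571743695998432570528282742512553662606841953060536280552952019995103244454097817983779252200671256166110628415939515830143427458786520976417433030433282745478984769713513611186951407341535355923614870279951201135972838881663231979001801164616887775364366448384453178585645893237949947838954270115470270215225344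
def vsa2_num : ℕ := 1349621146300555036780289994010511566365404585343154005094111242347871692295011506434509113316447823524407564844769180158578184212481034190492570023500311931737069922206591846640123026116914012829096477995302872749469416501348036508449079147138066290955536800112570174312891746480659656311304110381446580543133886932528037900863957926535577614608302153102988995500080199980737667249393813211740311468661022795027651878556331209419634758729953449860825748448944145402940568743941603655882343268174910002025318020927258082164042877387588705170449508360267163437891649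
def va3_num : ℕ := 675469728737997008019071824474533343878785578114021845773444752466913803307966565807599032932446313989788695664192361081352577188147894158717158490432560083071452440006322459186489096597363780262657187854456924482653298386712687852994395808842542373909316252188379230574168780747758378176167577553793286949240773048150816616950627325567811079351983650981465913803332695887160516622810802013737367288254650503128153108513928486076602155469278713955694282556450831420807787635257695720132406801750537280976883838502745611051999160955732444614061061488634081334528003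
def vsa3_num : ℕ := 676128562550959899405954809620463500663962918927328660102042423292794932599727290054501856222488615824054400927499797018061929248905954431199161985256351491770833858549608350548581485738831006314690211473154246803487361814657198975846249642738055596982387833129855620007874224897537023896965805070339988888732332170505432253161527009679239735388888411481321345741399882831412902723426155465240473115958588930575506718141882360312933233930021544537882535487928015258461096386557581526364441255195585614046746062003730184176269482235684550099012451699140931405742275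
def vx_num : ℕ := 1349621146300556217925230503972548521927782668506842289868798149626008558480764552424444296224217322187697059591052394599992683196541754436474211376916762958811640347777890518439763848965348324537794523972528007933712698133735211613147246454285915778622571743695998432570528282742512553662606841953060536280552952019995103244454097817983779252200671256166110628415939515830143427458786520976417433030433282745478984769713513611186951407341535355923614870279951201135972838881663231979001801164616887775364366448384453178585645893237949947838954270115470270215225345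
def vw_num : ℕ := 1012875015313137261497408801333087076429269291556319751134451386706199373086395234231638175087854952972064520905061598460945528553744043779697457615577761618691137082145648569901864269506466789101744301847444524569279741441660652324489699498515486185846457845774522698264480705697222424206201954595940059432214417400538145640210335856557921349447236462212309803264483152459105770106952880563790811088051729388311612780430090519154499354895282249108305512865611006739898152996722919676172102835227762523708606900727871254170355130924434663334739457993302769872144385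
def vb1_num : ℕ := 957662907283123345132913526192302584879033951191922379120355889421324179563694999749074745152028391916742480701256752338534744162154630151826649294335790866459209433398127689037349028080159361392875747639795712865847689545622768387076890615844379853674804671674098445047003367499517632416197674321672725290206788254831728370587174805390587048973762194826895548378202339003291709979324178951160542271362402426491243760042490953085202796638649522625944657150294531264135075257463603573951351524771121749037039505376342618260642895764086818548810381371899907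
def vsb1_num : ℕ := 9819786255688460528742238970230507731870466322621398551481324800718228066487969103186673457032547620728580018461324072597986060344592243226026765900212704575807954224055649806533972809591116801899166823448091776580289428364038427753862092386542457199415581090903604205053683470450986491654377530812181550961433161947271278623502985600573400262829968972955929616279829949394141537646414197419513726230772491439863361857625576295127422513742766959481428035485321210716722899376010509735100504738166401518276882730566263054793404007230167101462099838107648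
def vb2_num : ℕ := 1276882678846016968650054399660699032756633927286487654406370371350284559516067353896389656787754412370613891652344821818168786138669319917451518339771613764545381108322111401546689481473653463043664787536910242809057682632612231713383222816893510191354847056277975107451002122093078724793326293769596313813180794995612903897571435711911296756866383828419547564571911209033783116175333280112785962292013635421753030379811250490268238445485109870385784648581864499040505696395244056542457141681176464445575798014522676466758414476232619984687215016180453380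
def vsb2_num : ℕ := 1296215382012620100119679815006213785481407776568890532273336263096293491719526702762161193799427186648614502592134626091219399056005654750617273773817655768743117284323018335026270737730284852274882358323266874635205364637245941408890242045677826291368239082379321107210041838232253321361221032315274918963391099711264044182996758767431576834665623543414745746012418416313673450318754268076284196689339033853395783978971155248705271138837639829372354192996707167575607006547573641969002093744419756597898281738804778377863275024815551216802340600912318464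
def vc1_num : ℕ := 675469728738000605010159877071032681511089829014772846786971344041137151378913989918491132206594578157171443844071709822498361416365544687909591497151540174667914247237373271761605855624232495118350923509981658576247740062369476293546473178432778276713291936462321312959171893658247555398098645081401733722427921962723933743406105032197154276929982316442304298636322600760054350694964544382155046902698851342233668114311538501992080885457159799786710758091457022290312576302539789429048292434395832700786716838326490035969390615129614928966155360214041210959693825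
def vsc1_num : ℕ := 676128562550961098110331724715742887890470438972744679313359149516518400530831048522651973189966748969492981323696439453793461284209985689124143433666856746751630960116639131717522262512354926148768952181425264466733952062112372071241032195005913545686150963570286960936455064506867025653694882026092231983413075620738759683856104869697121105932924866000173173501082571869417027633353461109770305511734250176862010289161384132764734372721152004873208984196318635144499557820271073203404725697489488606685300623219058834853376001685996647936178276232489417984180419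
def vc2_num : ℕ := 23065297174107609273296607685375032877104967338029308440995561160021944231990605207424295520051159211014031998540928817301341755861374883342675898696862444387877872826551658572947480156376213259707004701592087126148368894884372155156756654559420466304318161387409553547393430666895819207666314772331378359554659547948661966938975293283421586060891372302701876703634375529225372804566217784590555670532765171920673257387622856518228486908408263985474887530814510337104042915710407009929145581310565028213021423056707713137843103030725139115746794380092500793627713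
def vsc2_num : ℕ := 16474867508552908004470788807079863237370716811753980864699935345687510700544220372181568265858754057045771981465449728307413459663980826451659209995714049364652114627723585904839908256503515793223261408027045573159791304911041364776973079126687242569893966038497985198113573821110676191081383006889696018165763517690177883969210876584702787277319503635140812204115994197344780502690628203195680649238050006194369034167002416421987933427356346142299460249141115370624589791801127992025756289596563268987637435196357611535185845348038335597236249168720607012462787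
def vxx_num : ℕ := 1372686443474657832213380357329759241613206919132982590401635255293330102337883229028094039684460470822864998888298588709087204495145674405729404498935013739888173405074636928033131322880376171148296880626231971294697958319672537256069680586086428214228852897052821263376838927892808849196099926516457858222624925192604010938173006873364476613837945787568447765377985687244178575408394630507713127239003465728577550756193601917601887123070425533058602347610835384528379438942466258642481572105221455054785668655646290290723000833918215721815505304699934406636475458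
def vy_num : ℕ := 681400843205336312482125646222380357982126900930791750041115994230164893335132132649972042595184057334603861480183804747088214120469284975907475987928827905662346270092568017548874361587678492088430465145691464809647146896635383237654713379101792954457754423692721648980907405836710673953753629116741008995046490136883391195283335179611579239704924491836971652634707279260469133059367093972386655819132627822947931914843001593614158324569193192401828755156049099857561187358914844356682897046606599211438777364171913327240671782478207600775919899769440681834841860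
def vd1_num : ℕ := 674810576627323933950068407815306495943576436584735853654211570878140392674410216484411916158876681298926929740636166035965782214438633967710296828570974651765255296322281755368329292332874763340281184060590612096636778434860359493367817206696442620864602505744711450698947400772716858626489253334141137279488186967793463261756638152938201683558788194197490159612444481704220817009588279012682396075231134440318775302940529099701594715345253750751412631379437460026880809021298614027427219638875421715644329073405073473734349553685185885503910354172764435067449603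
def vsd1_num : ℕ := 63306619272548791827918622526965264453841845350124123817198833755899468874826429121188393074600489432321885165536053826965746513805476885280337532923085711509146689439154384545241133089244116284699224225662580879040753328187336379226989003220577308369087812670622793771637554772042653170177697744671543703425476704181096918821555317403534958025769401491677705508298570356607356430785628307556724089579365258513212296612304105514190121857933346929888816693802770441797562815235747166882615846209720247992736605421547830307529373846214518189056684414793378309865569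
def vd2_num : ℕ := 2348159930495866385049587564627977004693267871941448289858387168301991647275323759266675106364401762194042916976123697930829144159042613556949633054396452743572602567186124752741067437284601825984548706827205223276695439041726527476522872109155141057789151295921357597903455416212497007793131755284573770784295210073700630293847332422091267280627817356178356214256118984684970656751013527054814085188506993583029552294169984391244186342264672827575092881670004291323952420783301941713755556387268548122754292028412609675603172935562349812958184405778415939007627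
def vsd2_num : ℕ := 338095174961330099986999693792282432986229130441856937598290237207729864266942019616621614514754049842239604072950681197159271333648140673572708138222967284485693342140318182711902592400458484954828117901143271025117107248236281015238932880230852473834735249918611662980838265012960945899376200429471765686426432391906060547956547657032309420665951908836004877490180489286038606275116365177333275421426901539259753078060025751102553994740089875053575288808942051899657614726838751260919226441783409206418691957506143474436410405012521362725286240451115310998663428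
def ve1_num : ℕ := 1362236489326123406824996393633139034617693298144839676137016840448358636538146335799590243928794266339195006548629327450022493926332557268493583617981417209775647757911934420242354268631710754554712861375755738290808019940148930013975951773048971234990537743138221961161075149519465848300987047135141772317710347082006359049079494508932877570885958192718140496070234421941714509271732981276007637473368923889064923565199085254212558946088976332699902595835883051846460354696565357457994214282161372855509658661480895415646099928031088340095066300124324917731009697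
def vse1_num : ℕ := 1372212636445832951994524804070597108867347931633362074478986148360351590696142917751608161106635255898670115663411184609786890284547590542515981730789392668946235530017350409476226770447820964085907083836377061943269754022607815159599773009392690956498938623476226254253196352293317193344915606524266671131910231514827336575374353726101032483997631520774222202260496611008146639425963108332021573495578532114112620001709029619709373446846089544101332835931798968580517277372434262674321866712057637749806946247871899196193336546882693178744691684295881135244285440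
def ve2_num : ℕ := 845772242251891906099478956864611335888077492518009844347314428701734988087366332907180550404892708576281435266164215344960544981857308413719059278781386950805140391214791210392799835352613194723822020693345593242830027450582373469248658237320248632980102420095373838291798568675119466718510779147352379658300955944043772710578451893809730681986115396091854752716541300508898968312339575778254677747540888710139982973690258287293642227210236259188782691871335159196107699067001879773543796458313856570060788769626575341624639735674146719020101562543494868509503697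
def vse2_num : ℕ := 1034749809386561041644277428221719915080666743528930080445189966051590240887292615441050816871476275042131590193206636541315606556878882103771071991745741523399064790935328366459622118487271109913963254665409703356656294372459131486481731627595668107678176475124547469080238727846990367791445524660629393984117877769672262322661312859682202553877846582225361445184341457263475465814964909181337837844047728390934822258642502107090532516085671768282621116198870949899371404268061213618328120694715334771628966765583596002058462561945498489926318061437681472425992785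
def vxxx_num : ℕ := 528137279349150130085732995153979868144704031519699666084560089258297129347617440959056896730649048331596400760752611301935756136394327993091421966671239617972801023502241826716508538362544763959785104756289454298503320141436378980209150246959207515978439256069804775744563680825056749236645600687001613685476813757723256076340152475162578989514582956123795866388687336474118407488493993520336884257075276395060109505781647131419594341915873727387023208292672310322316359144784373241074468182557216688311238525429082340864970245576559776087656119455891507387417875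
def vyx_num : ℕ := 730261536727752985068543012938974745434418239217139945812709866683054976590247973414494677248537926602548718737135813857052495429616766636842769276480158376084054479357205555784716113974649423557195369869346635148332745025218327302215268857047840928850416734300905002430843225604097299151471532560479834673579215093425249816579209984341006998319664998711499560089048861201707152481279668501092589325328185361476588541722843370212105872895925679227076818075800431975643433399519106486998263290603933153486017888153348812771097144946694499762039655558364911536813729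
def vf1_num : ℕ := 354256149148874889432260789755151004193913534456904342492790043379384969574761198163848140947045816263838030606635298142111220817688078971569591121368396791969839721621801734446482258602959839392774374726049069727400997693346920305341014636331429930948333468662154594724735891998587798385977801927198761877105042648911342369234825275511025124833937973256671541868292752800202891469709699928765803667855331892826516436304075133766520743918545305976961699734205915608951828723957157810449478803630440292175331323933034063326787333939368698757149555045798953798899850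
def vsf1_num : ℕ := 343614736309261242450421105253945176976287339963954086599152359923821429017136433756203876077891094568084333165625499313412567368511522360751992964957669874347564351549356597473676682753848558677530616078955762000802772079839058713583134393297773203545624190039037240275183385820232252831881618264243748414429405892497251964154352828421488410475690640294136740918458029020387910953883278175654295653608413473377284247655640461915159677352777304165874170486056023859336259877503607739166674595881618967685395863979818619234271761470585083928301504829237155397903360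
def vf2_num : ℕ := 48861499530862212066540001772536583905840238497462165369296172585218890285126634752426742999350552711536435832840622780897106728669012232582906280737659997895604285297597439106607165736284694478557215760158795054175980209871404311191216446441014350518578704794786118204348561411558098796022883039638251060989727752250929561864732607430464539686119142707606690195574930623996753379617230622265289102760376454520750319063354924744915462185960659525555572278183055348649061189102850747052134414464064341905737248723248812517185758495342257224613245097418165621731554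
def vsf2_num : ℕ := 18166317183488716460329493097681241286139318037732813448550484112723580019730314157751519111816355547549522174253156231845205413130231366294330231494096284222308480220488484329770482320293810974917542304752183926223917319613685274537066140677119083888385595253081900936561806329638290688391263924388113112187812571301673795630717658062442841311553467849959926787737774760495389772816001580787193579129983549712718937333493499575106559030686585451033965447620729374143691765539060614428274934669223433045488186560580705723896831698350837069187174713059365245040859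
def vxy_num : ℕ := 730261536727752985068543012938974745434418239217139945812709866683054976590247973414494677248537926602548718737135813857052495429616766636842769276480158376084054479357205555784716113974649423557195369869346635148332745025218327302215268857047840928850416734300905002430843225604097299151471532560479834673579215093425249816579209984341006998319664998711499560089048861201707152481279668501092589325328185361476588541722843370212105872895925679227076818075800431975643433399519106486998263290603933153486017888153348812771097144946694499762039655558364911536813729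

lemma sta1_num : t2g rp_num 25 (dec_num va0_num) = dec_num va1_num :=
  step2_num _ vsa1_num _ (by decide +kernel)
lemma sta2_num : t2g rp_num 25 (dec_num va1_num) = dec_num va2_num :=
  step2_num _ vsa2_num _ (by decide +kernel)
lemma sta3_num : t2g rp_num 25 (dec_num va2_num) = dec_num va3_num :=
  step2_num _ vsa3_num _ (by decide +kernel)
lemma lix_num : (1 : ℕ) • dec_num va2_num + (1 : ℕ) • dec_num va0_num + (0 : ℕ) • dec_num va0_num + (0 : ℕ) • dec_num va0_num =
    dec_num vx_num := lin_num _ _ _ _ _ _ _ _ _ (by decide +kernel)
lemma liw_num : (1 : ℕ) • dec_num va3_num + (9 : ℕ) • dec_num va2_num + (27 : ℕ) • dec_num va1_num + (27 : ℕ) • dec_num va0_num =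
    dec_num vw_num := lin_num _ _ _ _ _ _ _ _ _ (by decide +kernel)
lemma stb1_num : t3g rp_num 25 (dec_num va0_num) = dec_num vb1_num :=
  step3_num _ vsb1_num _ (by decide +kernel)
lemma stb2_num : t2g rp_num 25 (dec_num vb1_num) = dec_num vb2_num :=
  step2_num _ vsb2_num _ (by decide +kernel)
lemma stc1_num : t2g rp_num 25 (dec_num vx_num) = dec_num vc1_num :=
  step2_num _ vsc1_num _ (by decide +kernel)
lemma stc2_num : t2g rp_num 25 (dec_num vc1_num) = dec_num vc2_num :=
  step2_num _ vsc2_num _ (by decide +kernel)
lemma lixx_num : (1 : ℕ) • dec_num vc2_num + (1 : ℕ) • dec_num vx_num + (0 : ℕ) • dec_num va0_num + (0 : ℕ) • dec_num va0_num =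
    dec_num vxx_num := lin_num _ _ _ _ _ _ _ _ _ (by decide +kernel)
lemma liy_num : (1 : ℕ) • dec_num vb2_num + (3 : ℕ) • dec_num va0_num + (4 : ℕ) • dec_num vx_num + (4 : ℕ) • dec_num vxx_num =
    dec_num vy_num := lin_num _ _ _ _ _ _ _ _ _ (by decide +kernel)
lemma std1_num : t3g rp_num 25 (dec_num vx_num) = dec_num vd1_num :=
  step3_num _ vsd1_num _ (by decide +kernel)
lemma std2_num : t2g rp_num 25 (dec_num vd1_num) = dec_num vd2_num :=
  step2_num _ vsd2_num _ (by decide +kernel)
lemma ste1_num : t2g rp_num 25 (dec_num vxx_num) = dec_num ve1_num :=
  step2_num _ vse1_num _ (by decide +kernel)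
lemma ste2_num : t2g rp_num 25 (dec_num ve1_num) = dec_num ve2_num :=
  step2_num _ vse2_num _ (by decide +kernel)
lemma lixxx_num : (1 : ℕ) • dec_num ve2_num + (1 : ℕ) • dec_num vxx_num + (0 : ℕ) • dec_num va0_num + (0 : ℕ) • dec_num va0_num =
    dec_num vxxx_num := lin_num _ _ _ _ _ _ _ _ _ (by decide +kernel)
lemma liyx_num : (1 : ℕ) • dec_num vd2_num + (3 : ℕ) • dec_num vx_num + (4 : ℕ) • dec_num vxx_num + (4 : ℕ) • dec_num vxxx_num =
    dec_num vyx_num := lin_num _ _ _ _ _ _ _ _ _ (by decide +kernel)
lemma stf1_num : t2g rp_num 25 (dec_num vy_num) = dec_num vf1_num :=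
  step2_num _ vsf1_num _ (by decide +kernel)
lemma stf2_num : t2g rp_num 25 (dec_num vf1_num) = dec_num vf2_num :=
  step2_num _ vsf2_num _ (by decide +kernel)
lemma lixy_num : (1 : ℕ) • dec_num vf2_num + (1 : ℕ) • dec_num vy_num + (0 : ℕ) • dec_num va0_num + (0 : ℕ) • dec_num va0_num =
    dec_num vxy_num := lin_num _ _ _ _ _ _ _ _ _ (by decide +kernel)

def mo_num (M u v : ℕ) : ℕ := ∑ x ∈ Finset.range 25, ∑ y ∈ Finset.range 25,
  gt_num M x y * (x.descFactorial u / u.factorial) * (y.descFactorial v / v.factorial)

lemma mom_num {μ : Nm 2} {M : ℕ} (h : cf_num μ = dec_num M) (u v : ℕ) :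
    mom μ u v = (mo_num M u v : F5) := by
  have h' : ∀ p, μ.coeff p = dec_num M p := congrFun h
  simp only [mom, h', dec_num, mo_num, ← Nat.choose_eq_descFactorial_div_factorial,
    Fintype.sum_prod_type]
  push_cast
  rw [Finset.sum_range]
  refine Finset.sum_congr rfl fun x _ => ?_
  rw [Finset.sum_range]
  rfl

lemma one_num : cf_num 1 = dec_num va0_num := by
  ext p
  change (AddMonoidAlgebra.single (0 : XX 2) (1 : F5)).coeff p = _
  rw [AddMonoidAlgebra.coeff_single, Finsupp.single_apply]
  exact (by decide +kernel : ∀ x y : ZMod 25,
    (if (0 : ZMod 25 × ZMod 25) = (x, y) then (1 : F5) else 0) =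
      (gt_num va0_num x.val y.val : F5)) p.1 p.2

attribute [local irreducible] t2g t3g

theorem p_NUM :
    S_NUM := by
  have hS := rel_Sg (rel_num eta5 (by decide)) (5 ^ 2)
  rw [show Sg rp_num (5 ^ 2) = Sg rp_num 25 from congrArg _ (by norm_num)] at hS
  obtain ⟨hx', hy', hw'⟩ := rel_xyw rel_num hS
  have hx : ∀ μ, cf_num (xo F5 2 μ) = xg rp_num 25 (cf_num μ) := by
    rw [xo]; exact mem_Rel.1 hx'
  have hy : ∀ μ, cf_num (yo F5 2 μ) = yg rp_num 25 (cf_num μ) := by
    rw [yo]; exact mem_Rel.1 hy'
  have hw : ∀ μ, cf_num (wo F5 2 μ) = wg rp_num 25 (cf_num μ) := by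
    rw [wo]; exact mem_Rel.1 hw'
  have five : ∀ φ : XX 2 → F5, 5 • φ = 0 := fun φ => by
    ext p; simp [show (5 : F5) = 0 by decide]
  have ex : xg rp_num 25 (dec_num va0_num) = dec_num vx_num := by
    rw [← lix_num]; simp [xg, sq, sta1_num, sta2_num]
  have exx : xg rp_num 25 (dec_num vx_num) = dec_num vxx_num := by
    rw [← lixx_num]; simp [xg, sq, stc1_num, stc2_num]
  have exxx : xg rp_num 25 (dec_num vxx_num) = dec_num vxxx_num := by
    rw [← lixxx_num]; simp [xg, sq, ste1_num, ste2_num]
  have exy : xg rp_num 25 (dec_num vy_num) = dec_num vxy_num := by
    rw [← lixy_num]; simp [xg, sq, stf1_num, stf2_num]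
  have ey : yg rp_num 25 (dec_num va0_num) = dec_num vy_num := by
    rw [← liy_num]
    simp only [yg, sq, LinearMap.sub_apply, Module.End.mul_apply, Module.End.ofNat_apply,
      stb1_num, stb2_num, ex, exx]
    linear_combination (exp := 1) -five (dec_num va0_num) - five (dec_num vx_num) -
      five (dec_num vxx_num)
  have eyx : yg rp_num 25 (dec_num vx_num) = dec_num vyx_num := by
    rw [← liyx_num]
    simp only [yg, sq, LinearMap.sub_apply, Module.End.mul_apply, Module.End.ofNat_apply,
      std1_num, std2_num, exx, exxx]
    linear_combination (exp := 1) -five (dec_num vx_num) - five (dec_num vxx_num) -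
      five (dec_num vxxx_num)
  have ew : wg rp_num 25 (dec_num va0_num) = dec_num vw_num := by
    rw [← liw_num]
    simp only [wg, pow_succ, pow_zero, one_mul, LinearMap.add_apply, Module.End.mul_apply,
      Module.End.ofNat_apply, map_add, map_nsmul, sta1_num, sta2_num, sta3_num]
    ring
  have cx : cf_num (xo F5 2 1) = dec_num vx_num := by rw [hx, one_num, ex]
  have cy : cf_num (yo F5 2 1) = dec_num vy_num := by rw [hy, one_num, ey]
  have cw : cf_num (wo F5 2 1) = dec_num vw_num := by rw [hw, one_num, ew]
  refine ⟨fun u v h => ?_, fun u v h => ?_, fun u v h => ?_, ?_⟩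
  · rw [mom_num cx]
    exact (by decide +kernel : ∀ u < 3, ∀ v < 3, u + v < 3 →
      (mo_num vx_num u v : F5) = if (u, v) = (1, 1) then 2 else 0) u (by omega) v (by omega) h
  · rw [mom_num cy]
    exact (by decide +kernel : ∀ u < 7, ∀ v < 7, u + v < 7 → (mo_num vy_num u v : F5) =
      if (u, v) = (3, 3) then 4 else if (u, v) = (1, 5) ∨ (u, v) = (5, 1) then 2 else 0)
      u (by omega) v (by omega) h
  · rw [mom_num cw]
    exact (by decide +kernel : ∀ u < 5, ∀ v < 5, u + v < 5 → (mo_num vw_num u v : F5) =
      if (u, v) = (1, 3) ∨ (u, v) = (3, 1) then 4 else 0) u (by omega) v (by omega) h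
  · have h1 : cf_num (yo F5 2 (xo F5 2 1)) = dec_num vyx_num := by
      rw [hy, cx, eyx]
    have h2 : cf_num (xo F5 2 (yo F5 2 1)) = dec_num vxy_num := by
      rw [hx, cy, exy]
    ext p
    rw [show vyx_num = vxy_num by decide +kernel] at h1
    exact congrFun (h1.trans h2.symm) p

end Pool.Agent.P.MP_e7a540_nt.B5

end
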