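import Pool.Agent.P.MP_e7a540_nt.B5.Iface

/-! Proofs of the steps FAREY, TRANS, EVL, TR, DE, DF, RN, FXA, FXB, FXC. -/

set_option autoImplicit false

section

/-! Step FAREY. -/

namespace Pool.Agent.P.MP_e7a540_nt.B5

open Pool.Agent.P.MP_8b7eba_nt.Mod Module Filter Topology Asymptotics CongruenceSubgroup

open Classical in
/-- The sum of `φ` along the path of Farey parents. -/
noncomputable def G_farey (φ : M2 → ℂ) (c : ℕ) (a : ℤ) : ℂ :=
  if h : ∃ p : ℤ × ℕ, a * p.2 - p.1 * c = 1 ∧ p.2 < c then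
    G_farey φ h.choose.2 h.choose.1 + φ ⟨a, h.choose.1, c, h.choose.2⟩ else 0
termination_by c
decreasing_by exact h.choose_spec.2

theorem zero_farey (φ : M2 → ℂ) (a : ℤ) : G_farey φ 0 a = 0 := by
  rw [G_farey, dif_neg]
  rintro ⟨p, -, h⟩
  omega

theorem step_farey (φ : M2 → ℂ) {a b : ℤ} {c d : ℕ} (h1 : a * d - b * c = 1) (h2 : d < c) :
    G_farey φ c a = G_farey φ d b + φ ⟨a, b, c, d⟩ := by
  have h : ∃ p : ℤ × ℕ, a * p.2 - p.1 * c = 1 ∧ p.2 < c := ⟨(b, d), h1, h2⟩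
  rw [G_farey, dif_pos h]
  obtain ⟨e1, e2⟩ := h.choose_spec
  generalize h.choose = p at e1 e2
  obtain ⟨b', d'⟩ := p
  dsimp only at e1 e2 ⊢
  have e3 : (c : ℤ) ∣ (d : ℤ) - d' := ⟨b * d' - b' * d, by linear_combination d' * h1 - d * e1⟩
  have e4 : (d : ℤ) - d' = 0 := Int.eq_zero_of_abs_lt_dvd e3 (abs_lt.2 ⟨by omega, by omega⟩)
  obtain rfl : d = d' := by omega
  obtain rfl : b = b' := mul_right_cancel₀ (b := (c : ℤ)) (by omega) (by linarith)
  rfl

section
variable {φ : M2 → ℂ} (h1 : ∀ g, g.det = 1 → φ (g * mS) = -φ g)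
  (h2 : ∀ g, g.det = 1 → φ g + φ (g * mt) + φ (g * mt * mt) = 0)
include h1

theorem rot_farey {a b c d : ℤ} (h : a * d - b * c = 1) : φ ⟨b, -a, d, -c⟩ = -φ ⟨a, b, c, d⟩ := by
  rw [← h1 ⟨a, b, c, d⟩ h]
  congr 1
  ext <;> simp [mS]

theorem rot'_farey {a b c d : ℤ} (h : a * d - b * c = 1) :
    φ ⟨-b, a, -d, c⟩ = -φ ⟨a, b, c, d⟩ := by
  have := rot_farey h1 (a := -b) (b := a) (c := -d) (d := c) (by linarith)
  rw [neg_neg, neg_neg] at this
  rw [this, neg_neg]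

include h2

theorem key_farey (c d : ℕ) : ∀ a b : ℤ, a * d - b * c = 1 →
    G_farey φ c a - G_farey φ d b = φ ⟨a, b, c, d⟩ := by
  induction d using Nat.strong_induction_on with
  | _ d ih =>
    intro a b h
    rcases lt_or_ge d c with l | l
    · rw [step_farey φ h l, add_sub_cancel_left]
    rcases Nat.eq_zero_or_pos c with rfl | c0
    · have d0 : 0 < d := Nat.pos_of_ne_zero (by rintro rfl; simp at h)
      rw [step_farey φ (a := b) (b := -a) (c := d) (d := 0) (by simpa using h) d0, zero_farey,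
        zero_farey]
      have := rot_farey h1 h
      simp only [Nat.cast_zero, neg_zero] at this ⊢
      rw [this]
      ring
    obtain ⟨e, rfl⟩ := Nat.exists_eq_add_of_le l
    push_cast at h
    have a1 := ih e (by omega) a (b - a) (by linarith)
    have a2 := step_farey φ (a := b) (b := b - a) (c := c + e) (d := e) (by push_cast; linarith)
      (by omega)
    have a3 := h2 ⟨a, b - a, c, e⟩ (by simp only [M2.det]; linarith)
    have a4 : (⟨a, b - a, c, e⟩ : M2) * mt = ⟨-(b - a), b, -e, c + e⟩ := by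
      ext <;> simp [mt]
    have a5 : (⟨-(b - a), b, -e, c + e⟩ : M2) * mt = ⟨-b, a, -(c + e), c⟩ := by
      ext <;> simp [mt]
    rw [a4, a5, rot'_farey h1 (by linarith), rot'_farey h1 h] at a3
    push_cast at a2 ⊢
    linear_combination a1 - a2 + a3

end

/-- The value at a cusp. -/
noncomputable def V_farey (φ : M2 → ℂ) (v : Vec) : ℂ :=
  if v.2 = 0 then 0 else G_farey φ ((v.1 : ℚ) / v.2).den ((v.1 : ℚ) / v.2).num

theorem smul_farey (φ : M2 → ℂ) {k : ℤ} (hk : k ≠ 0) (v : Vec) :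
    V_farey φ (k • v) = V_farey φ v := by
  have : (k : ℚ) ≠ 0 := by exact_mod_cast hk
  simp [V_farey, hk, mul_div_mul_left _ _ this]

theorem val_farey (φ : M2 → ℂ) {a : ℤ} {c : ℕ} (h : IsCoprime a c) :
    V_farey φ (a, c) = G_farey φ c a := by
  rcases Nat.eq_zero_or_pos c with rfl | c0
  · simp [V_farey, zero_farey]
  have c1 : (0 : ℤ) < c := by exact_mod_cast c0
  have h' := Int.isCoprime_iff_gcd_eq_one.1 h
  have e : ((a : ℚ) / ((c : ℤ) : ℚ)).den = c := by exact_mod_cast Rat.den_div_eq_of_coprime c1 h'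
  rw [V_farey, if_neg c1.ne', e, Rat.num_div_eq_of_coprime c1 h']

theorem p_FAREY :
    S_FAREY := by
  classical
  intro φ h1 h2
  refine ⟨fun v w => if v = 0 ∨ w = 0 then 0 else V_farey φ w - V_farey φ v,
    mem_Sym.2 ⟨fun v => by simp, fun k hk v w => by
      simp only [smul_farey φ hk, smul_eq_zero, hk, false_or, and_self],
      fun u v w hu hv hw => by simp [hu, hv, hw]⟩, fun g hg => ?_⟩
  have pos : ∀ a b c d : ℤ, a * d - b * c = 1 → 0 ≤ c → 0 ≤ d →
      V_farey φ (a, c) - V_farey φ (b, d) = φ ⟨a, b, c, d⟩ := by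
    intro a b c d h hc hd
    lift c to ℕ using hc
    lift d to ℕ using hd
    rw [val_farey φ ⟨d, -b, by linarith⟩, val_farey φ ⟨-c, a, by linarith⟩, key_farey h1 h2 c d a b h]
  have neg : ∀ a c : ℤ, V_farey φ (-a, -c) = V_farey φ (a, c) := fun a c => by
    simpa using smul_farey φ (k := -1) (by simp) (a, c)
  have back : ∀ a b c d : ℤ, a * d - b * c = 1 →
      V_farey φ (b, d) - V_farey φ (-a, -c) = φ ⟨b, -a, d, -c⟩ →
      V_farey φ (a, c) - V_farey φ (b, d) = φ ⟨a, b, c, d⟩ := fun a b c d h e => by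
    rw [neg, rot_farey h1 h] at e
    linear_combination -e
  obtain ⟨a, b, c, d⟩ := g
  have h : a * d - b * c = 1 := hg
  have n1 : ¬ (((b, d) : Vec) = 0 ∨ ((a, c) : Vec) = 0) := by
    rintro (e | e) <;> obtain ⟨rfl, rfl⟩ := Prod.mk_eq_zero.1 e <;> simp at h
  have e1 : ap ⟨a, b, c, d⟩ (0, 1) = (b, d) := by simp [ap]
  have e2 : ap ⟨a, b, c, d⟩ (1, 0) = (a, c) := by simp [ap]
  rw [pre_apply, e1, e2, if_neg n1]
  rcases le_total 0 c with hc | hc <;> rcases le_total 0 d with hd | hd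
  · exact pos _ _ _ _ h hc hd
  · exact back _ _ _ _ h (back _ _ _ _ (by linarith) (back _ _ _ _ (by linarith)
      (pos _ _ _ _ (by linarith) (by linarith) (by linarith))))
  · exact back _ _ _ _ h (pos _ _ _ _ (by linarith) hd (by linarith))
  · exact back _ _ _ _ h (back _ _ _ _ (by linarith)
      (pos _ _ _ _ (by linarith) (by linarith) (by linarith)))

end Pool.Agent.P.MP_e7a540_nt.B5

end

section

/-! Step TRANS. -/

namespace Pool.Agent.P.MP_e7a540_nt.B5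

open Pool.Agent.P.MP_8b7eba_nt.Mod Module Filter Topology Asymptotics CongruenceSubgroup

lemma back_trans {m : ℕ} {g : M2} (hg : g.det = 1) {J : CC m}
    (h : ∃ h : M2, h.det = 1 ∧ cj h (J0 m) = cj g J) : ∃ h : M2, h.det = 1 ∧ cj h (J0 m) = J := by
  obtain ⟨h, h1, h2⟩ := h
  refine ⟨h * g.adj, by simp [M2.det_mul, h1, hg], ?_⟩
  rw [cj_mul (by simp [h1]) (by simp [hg]), h2, ← cj_mul (by simp [hg]) (by simp [hg]),
    M2.mul_adj hg, cj_one]

lemma up_trans {m : ℕ} (k : ℤ) (J : CC m) : (cj (mT k) J).1 =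
    (J.1.1 - J.1.2.2 * k, 2 * J.1.1 * k + J.1.2.1 - J.1.2.2 * k ^ 2, J.1.2.2) := by
  rw [cj_val (by simp)]
  simp [cjT, mT, M2.det]

lemma low_trans {m : ℕ} (l : ℤ) (J : CC m) : (cj ⟨1, 0, l, 1⟩ J).1 =
    (J.1.1 + J.1.2.1 * l, J.1.2.1, -2 * J.1.1 * l - J.1.2.1 * l ^ 2 + J.1.2.2) := by
  rw [cj_val (by simp [M2.det])]
  simp [cjT, M2.det]

lemma solve_trans {m : ℕ} {c : ZP m} (hc : IsUnit c) (x : ZP m) : ∃ k : ℤ, c * k = x := by
  obtain ⟨y, hy⟩ := hc.exists_right_inv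
  obtain ⟨k, hk⟩ := ZMod.intCast_surjective (y * x)
  exact ⟨k, by rw [hk, ← mul_assoc, hy, one_mul]⟩

lemma loc_trans {m : ℕ} (x : ZP m) : IsUnit x ∨ ∃ t, x = 5 * t := by
  obtain ⟨n, rfl⟩ := ZMod.intCast_surjective x
  by_cases h : (5 : ℤ) ∣ n
  · obtain ⟨t, rfl⟩ := h
    exact .inr ⟨t, by push_cast; rfl⟩
  · exact .inl (isUnit_int m h)

lemma unit_trans {m : ℕ} (J : CC m) (hc : IsUnit J.1.2.2) :
    ∃ h : M2, h.det = 1 ∧ cj h (J0 m) = J := by
  obtain ⟨k, hk⟩ := solve_trans hc (J.1.1 - 1)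
  refine back_trans (det_mT k) ?_
  have e := up_trans k J
  generalize cj (mT k) J = K at e
  have a1 : K.1.1 = 1 := by rw [e]; linear_combination -hk
  have a2 : K.1.2.1 = 0 := by
    have a3 := K.2
    rw [a1, show K.1.2.2 = J.1.2.2 by rw [e]] at a3
    exact hc.mul_left_eq_zero.1 (by linear_combination a3)
  obtain ⟨l, hl⟩ := solve_trans (isUnit_int m (a := 2) (by decide)) K.1.2.2
  refine back_trans (g := ⟨1, 0, l, 1⟩) (by simp [M2.det]) ⟨1, rfl, Subtype.ext ?_⟩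
  rw [cj_one, low_trans, a1, a2]
  push_cast at hl
  simp only [J0, Prod.mk.injEq]
  exact ⟨by ring, trivial, by linear_combination hl⟩

theorem p_TRANS :
    S_TRANS := by
  intro m J
  have key : ∀ l : ℤ, IsUnit (-2 * J.1.1 * l - J.1.2.1 * l ^ 2 + J.1.2.2) →
      ∃ h : M2, h.det = 1 ∧ cj h (J0 m) = J := fun l hl =>
    back_trans (g := ⟨1, 0, l, 1⟩) (by simp [M2.det]) (unit_trans _ (by rw [low_trans]; exact hl))
  rcases loc_trans J.1.2.2 with h | ⟨t, ht⟩
  · exact unit_trans J h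
  rcases loc_trans (-2 * J.1.1 - J.1.2.1 + J.1.2.2) with h | ⟨s, hs⟩
  · exact key 1 (by simpa using h)
  rcases loc_trans (2 * J.1.1 - J.1.2.1 + J.1.2.2) with h | ⟨r, hr⟩
  · exact key (-1) (by simpa using h)
  refine unit_trans J ?_
  have e := J.2
  have a1 : 4 * J.1.1 = 5 * (r - s) := by linear_combination hr - hs
  have a2 : J.1.2.2 = 5 * (t - (5 * (r - s) ^ 2 + 16 * J.1.2.1 * t - 3)) + 1 := by
    linear_combination (1 - 16 * J.1.2.1) * ht + 16 * e - (4 * J.1.1 + 5 * (r - s)) * a1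
  rw [a2]
  exact isUnit_five_add m _ isUnit_one

end Pool.Agent.P.MP_e7a540_nt.B5

end

section

/-! Step EVL. -/

namespace Pool.Agent.P.MP_e7a540_nt.B5

open Pool.Agent.P.MP_8b7eba_nt.Mod Module Filter Topology Asymptotics CongruenceSubgroup

lemma sq_evl {g : M2} (h : g.det = 1) : g.det * g.det = 1 := by rw [h, mul_one]

lemma val_evl {m : ℕ} {φ : CC m → ℂ} (hφ : φ ∈ YY m) {ψ : Fn} (hψ : ψ ∈ Sym)
    (h : ∀ g : M2, g.det = 1 → pre g ψ (0, 1) (1, 0) = φ (cj g (J0 m))) {g : M2}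
    (hg : g.det = 1 ∨ g.det = -1) : pre g ψ (0, 1) (1, 0) = φ (cj g (J0 m)) := by
  rcases hg with hg | hg
  · exact h g hg
  · have h1 := h (g * md) (by rw [M2.det_mul, hg]; rfl)
    rw [cj_mul (by rw [hg]; rfl) (by decide), hφ.1] at h1
    rw [← h1, pre_apply, pre_apply, ← Sym_neg_right hψ]
    congr 1 <;> ext <;> simp [md]

lemma inv_evl (hMANIN : S_MANIN) {m : ℕ} {φ : CC m → ℂ} (hφ : φ ∈ YY m) {ψ : Fn} (hψ : ψ ∈ Sym)
    (h : ∀ g : M2, g.det = 1 → pre g ψ (0, 1) (1, 0) = φ (cj g (J0 m))) {δ : M2}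
    (hd : δ.det = 1 ∨ δ.det = -1) (hJ : cj δ (J0 m) = J0 m ∨ cj δ (J0 m) = RR (J0 m)) :
    pre δ ψ = ψ := by
  have d0 : δ.det ≠ 0 := by omega
  have d1 : δ.det * δ.det = 1 := by rcases hd with e | e <;> simp [e]
  refine sub_eq_zero.1 (hMANIN _ (Sym.sub_mem (Sym_pre hψ d0) hψ) fun g hg => ?_)
  have h1 := val_evl hφ hψ h (g := δ * g) (by rw [M2.det_mul, hg, mul_one]; exact hd)
  rw [map_sub, pre_pre, Pi.sub_apply, Pi.sub_apply, h1, h g hg, cj_mul d1 (sq_evl hg), sub_eq_zero]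
  rcases hJ with e | e
  · rw [e]
  · rw [e, cj_RR, hφ.2.2.1]

lemma lift_evl (hFAREY : S_FAREY) (hMANIN : S_MANIN) {m : ℕ} {φ : CC m → ℂ} (hφ : φ ∈ YY m) :
    ∃ ψ ∈ Dp (2 * m), ∀ g : M2, g.det = 1 →
      pre (Dm m * g) ψ (0, 1) (1, 0) = φ (cj g (J0 m)) := by
  obtain ⟨ψ, hψ, h⟩ := hFAREY (fun g => φ (cj g (J0 m)))
    (fun g hg => by simp only [cj_mul (sq_evl hg) (sq_evl det_mS), hφ.2.1])
    (fun g hg => by
      have ht : mt.det * mt.det = 1 := by decide
      simp only [cj_mul (det_sq_mul (sq_evl hg) ht) ht, cj_mul (sq_evl hg) ht]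
      exact hφ.2.2.2 _)
  have p0 : (5 : ℤ) ^ m ≠ 0 := pow_ne_zero _ (by norm_num)
  refine ⟨pre ⟨5 ^ m, 0, 0, 1⟩ ψ, mem_Dp.2 ⟨mem_SS.2 ⟨Sym_pre hψ (by simp [M2.det]),
    fun g hg => ?_⟩, ?_⟩, fun g hg => ?_⟩
  · obtain ⟨k, hk⟩ := hg.2
    have e : (⟨5 ^ m, 0, 0, 1⟩ : M2) * g =
        ⟨g.a, 5 ^ m * g.b, 5 ^ m * k, g.d⟩ * ⟨5 ^ m, 0, 0, 1⟩ := by
      ext <;> simp [hk] <;> ring
    have hd : (⟨g.a, 5 ^ m * g.b, 5 ^ m * k, g.d⟩ : M2).det = g.det := by
      simp only [M2.det, hk]; ring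
    rw [pre_pre, e, ← pre_pre, inv_evl hMANIN hφ hψ h (hd ▸ hg.1)
      (.inl (cj_J0 (hd ▸ hg.det_sq) (dvd_mul_right _ _) (dvd_mul_right _ _)))]
  · have e : (⟨5 ^ m, 0, 0, 1⟩ : M2) * mW (2 * m) = sca (5 ^ m) * (mS * ⟨5 ^ m, 0, 0, 1⟩) := by
      ext <;> simp [mW, sca, mS] <;> ring
    rw [WW, pre_pre, e, pre_sca_mul hψ p0, ← pre_pre,
      inv_evl hMANIN hφ hψ h (.inl det_mS) (.inr (cj_mS_J0 m))]
  · have e : (⟨5 ^ m, 0, 0, 1⟩ : M2) * (Dm m * g) = sca (5 ^ m) * g := by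
      ext <;> simp [Dm, sca]
    rw [pre_pre, e, pre_sca_mul hψ p0, h g hg]

theorem p_EVL (hFAREY : S_FAREY) (hMANIN : S_MANIN) (hTRANS : S_TRANS) (hFIN : S_FIN) :
    S_EVL := by
  intro m
  choose s hs hs' using hTRANS m
  have := hFIN.1 (2 * m)
  have : FiniteDimensional ℂ (Dp (2 * m)) :=
    Submodule.finiteDimensional_of_le fun _ h => (mem_Dp.1 h).1
  let L : Dp (2 * m) →ₗ[ℂ] (CC m → ℂ) :=
    LinearMap.pi fun J => ev ∘ₗ pre (Dm m * s J) ∘ₗ (Dp (2 * m)).subtype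
  refine (Submodule.finrank_mono (t := LinearMap.range L) fun φ hφ => ?_).trans
    (LinearMap.finrank_range_le L)
  obtain ⟨ψ, h1, h2⟩ := lift_evl hFAREY hMANIN hφ
  exact ⟨⟨ψ, h1⟩, funext fun J => (h2 _ (hs J)).trans (by rw [hs'])⟩

end Pool.Agent.P.MP_e7a540_nt.B5

end

section

/-! Step TR. -/

namespace Pool.Agent.P.MP_e7a540_nt.B5

open Pool.Agent.P.MP_8b7eba_nt.Mod Module Filter Topology Asymptotics CongruenceSubgroup

theorem p_TR :
    S_TR := by
  classical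
  intro X _ σ
  rw [LinearMap.trace_eq_matrix_trace ℂ (Pi.basisFun ℂ X), Matrix.trace, Fx,
    Nat.card_eq_fintype_card, Fintype.card_subtype, Finset.card_filter]
  push_cast
  refine Finset.sum_congr rfl fun x _ => ?_
  simp [Pi.single_apply]

end Pool.Agent.P.MP_e7a540_nt.B5

end

section

/-! Step DE. -/

namespace Pool.Agent.P.MP_e7a540_nt.B5

open Pool.Agent.P.MP_8b7eba_nt.Mod Module Filter Topology Asymptotics CongruenceSubgroup

lemma gen_de (hTR : S_TR) {X : Type} [Fintype X] (d s r R : X → X) (dd : ∀ x, d (d x) = x)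
    (ss : ∀ x, s (s x) = x) (RR' : ∀ x, R (R x) = x) (hr : ∀ x, r x = s (d x))
    (ds : ∀ x, d (s x) = s (d x)) (dR : ∀ x, d (R x) = R (d x)) (sR : ∀ x, s (R x) = R (s x))
    (Y : Submodule ℂ (X → ℂ))
    (hY : ∀ φ, φ ∈ Y ↔ (∀ J, φ (d J) = φ J) ∧ (∀ J, φ (s J) = -φ J) ∧ ∀ J, φ (R J) = φ J) :
    8 * finrank ℂ Y + Fx s + Fx r + Fx (R ∘ s) + Fx (R ∘ r) =
      Nat.card X + Fx d + Fx R + Fx (R ∘ d) := by
  let L : (X → X) → (X → ℂ) →ₗ[ℂ] X → ℂ := LinearMap.funLeft ℂ ℂ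
  have hp : LinearMap.IsProj Y ((1 / 8 : ℂ) • (L id + L d + L R + L (R ∘ d) - L s - L r -
      L (R ∘ s) - L (R ∘ r))) := by
    refine ⟨fun φ => (hY _).2 ⟨fun J => ?_, fun J => ?_, fun J => ?_⟩, fun φ hφ => funext fun J => ?_⟩
    · simp [L, LinearMap.funLeft_apply, hr, dd]; ring
    · simp [L, LinearMap.funLeft_apply, hr, ss, ds]; ring
    · simp [L, LinearMap.funLeft_apply, hr, RR', dR, sR]; ring
    · obtain ⟨h1, h2, h3⟩ := (hY φ).1 hφ
      simp [L, LinearMap.funLeft_apply, hr, h1, h2, h3]; ring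
  have h := hp.trace
  simp only [map_smul, map_add, map_sub, L, hTR X, smul_eq_mul] at h
  have hid : Fx (id : X → X) = Nat.card X :=
    Nat.card_congr (Equiv.subtypeUnivEquiv fun _ => rfl)
  rw [hid] at h
  have h2 : (8 * finrank ℂ Y + Fx s + Fx r + Fx (R ∘ s) + Fx (R ∘ r) : ℂ) =
      Nat.card X + Fx d + Fx R + Fx (R ∘ d) := by linear_combination -8 * h
  exact_mod_cast h2

theorem p_DE (hTR : S_TR) :
    S_DE := by
  intro m
  classical
  refine gen_de hTR _ _ _ _ (fun x => ?_) (fun x => ?_) RR_RR (fun x => ?_) (fun x => ?_)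
    (cj_RR _) (cj_RR _) (YE m) fun _ => mem_YE
  all_goals exact Subtype.ext (by simp [cj_md_val, cj_mS_val, cj_mr_val])

end Pool.Agent.P.MP_e7a540_nt.B5

end

section

/-! Step DF. -/

namespace Pool.Agent.P.MP_e7a540_nt.B5

open Pool.Agent.P.MP_8b7eba_nt.Mod Module Filter Topology Asymptotics CongruenceSubgroup

lemma comm_df {α : Type} (f g : α → α) : Fx (f ∘ g) = Fx (g ∘ f) :=
  Nat.card_congr ⟨fun x => ⟨g x, congrArg g x.2⟩, fun x => ⟨f x, congrArg f x.2⟩,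
    fun x => Subtype.ext x.2, fun x => Subtype.ext x.2⟩

lemma inv_df {α : Type} (f g : α → α) (h1 : ∀ x, f (g x) = x) (h2 : ∀ x, g (f x) = x) :
    Fx f = Fx g :=
  Nat.card_congr (Equiv.subtypeEquivRight fun x =>
    ⟨fun h => (congrArg g h).symm.trans (h2 x), fun h => (congrArg f h).symm.trans (h1 x)⟩)

lemma id_df {α : Type} : Fx (id : α → α) = Nat.card α :=
  Nat.card_congr (Equiv.subtypeUnivEquiv fun _ => rfl)

lemma main_df (hTR : S_TR) {X : Type} [Fintype X] (t r R : X → X) (Y : Submodule ℂ (X → ℂ))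
    (hY : ∀ φ, φ ∈ Y ↔ (∀ x, φ (t x) = φ x) ∧ (∀ x, φ (r x) = -φ x) ∧ ∀ x, φ (R x) = φ x)
    (ht : ∀ x, t (t (t x)) = x) (hr : ∀ x, r (r x) = x) (hR : ∀ x, R (R x) = x)
    (htr : ∀ x, t (r x) = r (t (t x))) (htR : ∀ x, t (R x) = R (t x))
    (hrR : ∀ x, r (R x) = R (r x)) :
    12 * finrank ℂ Y + 3 * Fx r + 3 * Fx (R ∘ r) =
      Nat.card X + 2 * Fx t + Fx R + 2 * Fx (R ∘ t) := by
  let F : (X → X) → (X → ℂ) →ₗ[ℂ] (X → ℂ) := fun σ => LinearMap.funLeft ℂ ℂ σ
  let p : (X → ℂ) →ₗ[ℂ] (X → ℂ) := (1 / 12 : ℂ) •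
    (F id + F t + F (t ∘ t) - F r - F (r ∘ t) - F (r ∘ t ∘ t) + F R + F (R ∘ t) + F (R ∘ t ∘ t)
      - F (R ∘ r) - F (R ∘ r ∘ t) - F (R ∘ r ∘ t ∘ t))
  have hp : ∀ φ x, p φ x = 1 / 12 * (φ x + φ (t x) + φ (t (t x)) - φ (r x) - φ (r (t x)) -
      φ (r (t (t x))) + φ (R x) + φ (R (t x)) + φ (R (t (t x))) - φ (R (r x)) - φ (R (r (t x))) -
      φ (R (r (t (t x))))) := fun φ x => rfl
  have hP : LinearMap.IsProj Y p := by
    constructor
    · intro φ
      refine (hY _).2 ⟨fun x => ?_, fun x => ?_, fun x => ?_⟩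
      · simp only [hp, ht]; ring
      · simp only [hp, htr, ht, hr]; ring
      · simp only [hp, htR, hrR, hR]; ring
    · intro φ hφ
      obtain ⟨a, b, c⟩ := (hY φ).1 hφ
      funext x
      simp only [hp, a, b, c]; ring
  have e := hP.trace
  have hF : ∀ σ, LinearMap.trace ℂ (X → ℂ) (F σ) = Fx σ := hTR X
  simp only [p, map_smul, map_add, map_sub, hF, smul_eq_mul] at e
  have e1 : Fx (t ∘ t) = Fx t := inv_df _ _ ht ht
  have e2 : Fx (r ∘ t) = Fx r := by
    rw [show r ∘ t = t ∘ (r ∘ t ∘ t) from funext fun x => by simp only [Function.comp, htr, ht],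
      comm_df]
    exact congrArg Fx (funext fun x => by simp only [Function.comp, ht])
  have e3 : Fx (r ∘ t ∘ t) = Fx r := by
    rw [show r ∘ t ∘ t = t ∘ r from funext fun x => by simp only [Function.comp, htr],
      comm_df, e2]
  have e4 : Fx (R ∘ t ∘ t) = Fx (R ∘ t) :=
    inv_df _ _ (fun x => by simp only [Function.comp, htR, hR, ht])
      (fun x => by simp only [Function.comp, htR, hR, ht])
  have e5 : Fx (R ∘ r ∘ t) = Fx (R ∘ r) := by
    rw [show R ∘ r ∘ t = t ∘ (R ∘ r ∘ t ∘ t) from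
      funext fun x => by simp only [Function.comp, htr, htR, ht], comm_df]
    exact congrArg Fx (funext fun x => by simp only [Function.comp, ht])
  have e6 : Fx (R ∘ r ∘ t ∘ t) = Fx (R ∘ r) := by
    rw [show R ∘ r ∘ t ∘ t = t ∘ (R ∘ r) from
      funext fun x => by simp only [Function.comp, htr, htR], comm_df, ← e5]
    rfl
  rw [id_df, e1, e2, e3, e4, e5, e6] at e
  have : (12 * finrank ℂ Y + 3 * Fx r + 3 * Fx (R ∘ r) : ℂ) =
      Nat.card X + 2 * Fx t + Fx R + 2 * Fx (R ∘ t) := by linear_combination (-12 : ℂ) * e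
  exact_mod_cast this

theorem p_DF (hTR : S_TR) :
    S_DF := by
  intro m
  have := Fintype.ofFinite (CC m)
  have dt : mt.det * mt.det = 1 := by decide
  have dr : mr.det * mr.det = 1 := by decide
  refine main_df hTR (cj mt) (cj mr) RR (YF m) (fun _ => mem_YF) (fun x => ?_) (fun x => ?_) RR_RR
    (fun x => ?_) (cj_RR mt) (cj_RR mr)
  · rw [← cj_mul dt dt, ← cj_mul dt (det_sq_mul dt dt), show mt * (mt * mt) = -1 by decide, cj_neg,
      cj_one]
  · rw [← cj_mul dr dr, show mr * mr = 1 by decide, cj_one]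
  · rw [← cj_mul dr dt, ← cj_mul dt dt, ← cj_mul (det_sq_mul dt dt) dr,
      show mt * mt * mr = -(mr * mt) by decide, cj_neg]

end Pool.Agent.P.MP_e7a540_nt.B5

end

section

/-! Step RN. -/

namespace Pool.Agent.P.MP_e7a540_nt.B5

open Pool.Agent.P.MP_8b7eba_nt.Mod Module Filter Topology Asymptotics CongruenceSubgroup

/-- The sum over the group of order three. -/
def L_rn (m : ℕ) : (CC m → ℂ) →ₗ[ℂ] (CC m → ℂ) where
  toFun φ := fun J => φ J + φ (cj mt J) + φ (cj mt (cj mt J))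
  map_add' φ ψ := by ext J; simp only [Pi.add_apply]; ring
  map_smul' c φ := by ext J; simp only [Pi.smul_apply, smul_eq_mul, RingHom.id_apply]; ring

lemma apply_rn {m : ℕ} (φ : CC m → ℂ) (J : CC m) :
    L_rn m φ J = φ J + φ (cj mt J) + φ (cj mt (cj mt J)) := rfl

lemma ttt_rn {m : ℕ} (J : CC m) : cj mt (cj mt (cj mt J)) = J := by
  rw [← cj_mul (by decide) (by decide), ← cj_mul (by decide) (by decide),
    show mt * (mt * mt) = -1 by decide, cj_neg, cj_one]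

lemma tr_rn {m : ℕ} (J : CC m) : cj mt (cj mr J) = cj mr (cj mt (cj mt J)) := by
  rw [← cj_mul (by decide) (by decide), ← cj_mul (by decide) (by decide),
    ← cj_mul (by decide) (by decide), show mr * mt = -(mt * (mt * mr)) by decide, cj_neg]

lemma mem_rn {m : ℕ} {φ : CC m → ℂ} (h : φ ∈ YE m) : L_rn m φ ∈ YF m := by
  have hr : ∀ J, φ (cj mr J) = -φ J := fun J => by
    rw [show mr = md * mS by decide, cj_mul (by decide) (by decide), h.2.1, h.1]
  refine ⟨fun J => ?_, fun J => ?_, fun J => ?_⟩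
  · rw [apply_rn, apply_rn, ttt_rn]; ring
  · rw [apply_rn, apply_rn, tr_rn, tr_rn, ttt_rn, hr, hr, hr]; ring
  · rw [apply_rn, apply_rn, cj_RR, cj_RR, h.2.2, h.2.2, h.2.2]

theorem p_RN :
    S_RN := by
  intro m
  have : NeZero (5 ^ m) := ⟨by positivity⟩
  have h := LinearMap.finrank_range_add_finrank_ker ((L_rn m).domRestrict (YE m))
  have h1 : finrank ℂ (LinearMap.range ((L_rn m).domRestrict (YE m))) ≤ finrank ℂ (YF m) :=
    Submodule.finrank_mono (by
      rintro _ ⟨φ, rfl⟩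
      exact mem_rn φ.2)
  have h2 : finrank ℂ (LinearMap.ker ((L_rn m).domRestrict (YE m))) ≤ finrank ℂ (YY m) := by
    rw [← Submodule.finrank_map_subtype_eq]
    refine Submodule.finrank_mono ?_
    rintro _ ⟨φ, hφ, rfl⟩
    exact ⟨φ.2.1, φ.2.2.1, φ.2.2.2, fun J => congrFun (LinearMap.mem_ker.1 hφ) J⟩
  omega

end Pool.Agent.P.MP_e7a540_nt.B5

end

section

/-! Step FXA. -/

namespace Pool.Agent.P.MP_e7a540_nt.B5

open Pool.Agent.P.MP_8b7eba_nt.Mod Module Filter Topology Asymptotics CongruenceSubgroup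

/-- A sign. -/
def sg_fxa (m : ℕ) (b : Bool) : ZP m := bif b then 1 else -1

lemma sq_fxa (m : ℕ) (b : Bool) : sg_fxa m b * sg_fxa m b = 1 := by
  cases b <;> simp [sg_fxa]

/-- The class of a small number. -/
def nc_fxa (k : ℕ) (j : Fin (5 ^ k)) : ZP (k + 1) := ((j : ℕ) : ZP (k + 1))

/-- The two families of points. -/
def em_fxa (k : ℕ) :
    (ZP (k + 1) × (ZP (k + 1))ˣ) ⊕ (Bool × ZP (k + 1) × Fin (5 ^ k)) → CC (k + 1)
  | .inl (a, u) => ⟨(a, (1 - a ^ 2) * ((u⁻¹ : (ZP (k + 1))ˣ) : ZP (k + 1)), u), by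
      rw [mul_assoc, Units.inv_mul, mul_one, add_sub_cancel]⟩
  | .inr (b, x, j) => ⟨(sg_fxa (k + 1) b * (1 + 2 * x * (5 * nc_fxa k j)),
      sg_fxa (k + 1) b * (2 * x),
      sg_fxa (k + 1) b * (-2 * (5 * nc_fxa k j) * (1 + x * (5 * nc_fxa k j)))), by
      linear_combination sq_fxa (k + 1) b⟩

/-- Reduction modulo five. -/
def rd_fxa (k : ℕ) : ZP (k + 1) →+* ZMod 5 :=
  ZMod.castHom (dvd_pow_self 5 k.succ_ne_zero) (ZMod 5)

lemma five_fxa (k : ℕ) : rd_fxa k 5 = 0 := by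
  rw [map_ofNat]; rfl

lemma nu_fxa (k : ℕ) (u : (ZP (k + 1))ˣ) (t : ZP (k + 1)) : (u : ZP (k + 1)) ≠ 5 * t := by
  intro e
  have h := u.isUnit.map (rd_fxa k)
  rw [e, map_mul, five_fxa, zero_mul] at h
  have : Fact (1 < 5) := ⟨by norm_num⟩
  exact not_isUnit_zero h

lemma sgn_fxa (k : ℕ) {b b' : Bool} {s t : ZP (k + 1)}
    (e : sg_fxa (k + 1) b * (1 + 5 * s) = sg_fxa (k + 1) b' * (1 + 5 * t)) : b = b' := by
  have h := congrArg (rd_fxa k) e
  simp only [map_mul, map_add, map_one, five_fxa, zero_mul, add_zero, mul_one] at h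
  cases b <;> cases b'
  · rfl
  · simp only [sg_fxa, cond_true, cond_false, map_neg, map_one] at h
    exact absurd h (by decide)
  · simp only [sg_fxa, cond_true, cond_false, map_neg, map_one] at h
    exact absurd h (by decide)
  · rfl

lemma fin_fxa (k : ℕ) {i j : Fin (5 ^ k)}
    (e : 5 * nc_fxa k i = 5 * nc_fxa k j) : i = j := by
  have h : ((5 * i : ℕ) : ZP (k + 1)) = ((5 * j : ℕ) : ZP (k + 1)) := by push_cast; exact e
  have hi := i.2
  have hj := j.2
  rw [ZMod.natCast_eq_natCast_iff', Nat.mod_eq_of_lt (by rw [pow_succ]; omega),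
    Nat.mod_eq_of_lt (by rw [pow_succ]; omega)] at h
  exact Fin.ext (by omega)

lemma inj_fxa (k : ℕ) : Function.Injective (em_fxa k) := by
  have two : IsUnit (2 : ZP (k + 1)) := by
    simpa using isUnit_int (k + 1) (a := 2) (by decide)
  rintro (⟨a, u⟩ | ⟨b, x, j⟩) (⟨a', u'⟩ | ⟨b', x', j'⟩) e <;>
    have h := congrArg Subtype.val e <;>
    simp only [em_fxa, Prod.mk.injEq] at h <;>
    obtain ⟨h1, h2, h3⟩ := h
  · rw [h1, Units.ext h3]
  · exact absurd (h3.trans (by ring)) (nu_fxa k u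
      (sg_fxa (k + 1) b' * (-2 * nc_fxa k j' * (1 + x' * (5 * nc_fxa k j')))))
  · exact absurd (h3.symm.trans (by ring)) (nu_fxa k u'
      (sg_fxa (k + 1) b * (-2 * nc_fxa k j * (1 + x * (5 * nc_fxa k j)))))
  · obtain rfl : b = b' := sgn_fxa k (s := 2 * x * nc_fxa k j) (t := 2 * x' * nc_fxa k j')
      (by linear_combination h1)
    have us : IsUnit (sg_fxa (k + 1) b) := IsUnit.of_mul_eq_one _ (sq_fxa (k + 1) b)
    obtain rfl : x = x' := two.mul_left_cancel (us.mul_left_cancel h2)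
    have h4 := us.mul_left_cancel h3
    have u5 := isUnit_five_add (k + 1) (x * (nc_fxa k j + nc_fxa k j')) isUnit_one
    obtain rfl : j = j' := fin_fxa k ((two.mul u5).mul_left_cancel (by linear_combination -h4))
    rfl

theorem p_FXA :
    S_FXA := by
  intro k
  refine le_trans (le_of_eq ?_) (Nat.card_le_card_of_injective _ (inj_fxa k))
  rw [Nat.card_sum, Nat.card_prod, Nat.card_prod, Nat.card_prod, Nat.card_zmod,
    Nat.card_eq_fintype_card (α := (ZP (k + 1))ˣ), ZMod.card_units_eq_totient,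
    Nat.totient_prime_pow_succ (by norm_num), Nat.card_eq_fintype_card (α := Bool),
    Fintype.card_bool, Nat.card_eq_fintype_card (α := Fin _), Fintype.card_fin]
  ring

end Pool.Agent.P.MP_e7a540_nt.B5

end

section

/-! Step FXB. -/

namespace Pool.Agent.P.MP_e7a540_nt.B5

open Pool.Agent.P.MP_8b7eba_nt.Mod Module Filter Topology Asymptotics CongruenceSubgroup

lemma root_fxb (m : ℕ) : ∃ i : ZP m, i ^ 2 = -1 := by
  have h := dvd_sub_pow_of_dvd_sub (R := ℤ) (p := 5) (a := 2 ^ 2) (b := -1) (by decide) m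
  rw [Odd.neg_one_pow (Odd.pow (by decide)), ← pow_mul, mul_comm, pow_mul] at h
  have h2 : (((2 ^ 5 ^ m) ^ 2 - -1 : ℤ) : ZP m) = 0 :=
    (ZMod.intCast_zmod_eq_zero_iff_dvd _ _).2
      (by exact_mod_cast (pow_dvd_pow (5 : ℤ) m.le_succ).trans (by exact_mod_cast h))
  push_cast at h2
  exact ⟨2 ^ 5 ^ m, by linear_combination h2⟩

lemma two_fxb {m : ℕ} {a b : ZP m} (h : 2 * a = 2 * b) : a = b := by
  have := isUnit_int m (a := 2) (by decide)
  push_cast at this
  exact this.mul_left_cancel h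

lemma fixS_fxb {m : ℕ} {J : CC m} (h : cj mS J = J) : J.1.1 = 0 ∧ J.1.2.2 = -J.1.2.1 := by
  have e := (cj_mS_val J).symm.trans (congrArg Subtype.val h)
  have e1 : -J.1.1 = J.1.1 := congrArg Prod.fst e
  have e2 : -J.1.2.1 = J.1.2.2 := congrArg (fun x => x.2.2) e
  exact ⟨two_fxb (by linear_combination -e1), e2.symm⟩

lemma fixR_fxb {m : ℕ} {J : CC m} (h : (RR ∘ cj mS) J = J) : J.1.2.2 = J.1.2.1 := by
  have e := congrArg (fun x : CC m => x.1.2.1) h
  simpa [cj_mS_val] using e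

theorem p_FXB :
    S_FXB := by
  intro m
  obtain ⟨i, hi⟩ := root_fxb m
  constructor
  · refine Nat.card_le_card_of_injective (fun J : {J : CC m // cj mS J = J} =>
      (⟨⟨(i * J.1.1.2.1, 0, 0), ?_⟩, Subtype.ext (by simp [cj_md_val])⟩ :
        {J : CC m // cj md J = J})) fun J K h => ?_
    · obtain ⟨h1, h2⟩ := fixS_fxb J.2
      have := J.1.2
      rw [h1, h2] at this
      show (i * J.1.1.2.1) ^ 2 + 0 * 0 = 1
      linear_combination this + J.1.1.2.1 ^ 2 * hi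
    · obtain ⟨h1, h2⟩ := fixS_fxb J.2
      obtain ⟨k1, k2⟩ := fixS_fxb K.2
      have e : i * J.1.1.2.1 = i * K.1.1.2.1 := congrArg (fun x => x.1.1.1) h
      have e' : J.1.1.2.1 = K.1.1.2.1 := by
        linear_combination (-i) * e + (J.1.1.2.1 - K.1.1.2.1) * hi
      exact Subtype.ext (Subtype.ext (Prod.ext (h1.trans k1.symm)
        (Prod.ext e' (by rw [h2, k2, e']))))
  · refine Nat.card_le_card_of_injective (fun J : {J : CC m // (RR ∘ cj mS) J = J} =>
      (⟨⟨(0, J.1.1.1 + i * J.1.1.2.1, J.1.1.1 - i * J.1.1.2.1), ?_⟩,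
        Subtype.ext (by simp [cj_md_val])⟩ :
        {J : CC m // (RR ∘ cj md) J = J})) fun J K h => ?_
    · have := J.1.2
      rw [fixR_fxb J.2] at this
      show 0 ^ 2 + (J.1.1.1 + i * J.1.1.2.1) * (J.1.1.1 - i * J.1.1.2.1) = 1
      linear_combination this - J.1.1.2.1 ^ 2 * hi
    · have e1 : J.1.1.1 + i * J.1.1.2.1 = K.1.1.1 + i * K.1.1.2.1 :=
        congrArg (fun x => x.1.1.2.1) h
      have e2 : J.1.1.1 - i * J.1.1.2.1 = K.1.1.1 - i * K.1.1.2.1 :=
        congrArg (fun x => x.1.1.2.2) h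
      have e3 : J.1.1.1 = K.1.1.1 := two_fxb (by linear_combination e1 + e2)
      have e' : J.1.1.2.1 = K.1.1.2.1 := by
        linear_combination (-i) * (e1 - e3) + (J.1.1.2.1 - K.1.1.2.1) * hi
      exact Subtype.ext (Subtype.ext (Prod.ext e3
        (Prod.ext e' (by rw [fixR_fxb J.2, fixR_fxb K.2, e']))))

end Pool.Agent.P.MP_e7a540_nt.B5

end

section

/-! Step FXC. -/

namespace Pool.Agent.P.MP_e7a540_nt.B5

open Pool.Agent.P.MP_8b7eba_nt.Mod Module Filter Topology Asymptotics CongruenceSubgroup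

lemma nsq_fxc (k : ℕ) (a : ZP (k + 1)) {c : ℤ} (hc : ∀ x : ZMod 5, (c : ZMod 5) * x ^ 2 ≠ 1) :
    (c : ZP (k + 1)) * a ^ 2 ≠ 1 := by
  intro h
  have := congrArg (ZMod.castHom (dvd_pow_self 5 k.succ_ne_zero) (ZMod 5)) h
  rw [map_mul, map_pow, map_one, map_intCast] at this
  exact hc _ this

theorem p_FXC :
    S_FXC := by
  intro k
  have h2 : IsUnit ((2 : ℤ) : ZP (k + 1)) := isUnit_int _ (by decide)
  obtain ⟨e, he⟩ := h2.exists_right_inv
  have he' : (2 : ZP (k + 1)) * e = 1 := by exact_mod_cast he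
  refine ⟨?_, ?_, ?_, ?_⟩
  · have hne : (1 : ZP (k + 1)) ≠ -1 := fun h => nsq_fxc k 0 (c := 0) (by decide) (by
      linear_combination -e * h + he')
    let f : Fin 2 → {J : CC (k + 1) // cj mr J = J} :=
      ![⟨⟨(0, 1, 1), by simp⟩, Subtype.ext (by rw [cj_mr_val]; simp)⟩,
        ⟨⟨(0, -1, -1), by simp⟩, Subtype.ext (by rw [cj_mr_val]; simp)⟩]
    have hf : Function.Injective f := by
      intro i j hij
      have := congrArg (fun J : {J : CC (k + 1) // cj mr J = J} => J.1.1.2.1) hij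
      fin_cases i <;> fin_cases j
      · rfl
      · exact absurd this hne
      · exact absurd this.symm hne
      · rfl
    simpa [Fx] using Nat.card_le_card_of_injective f hf
  · let f : (ZP (k + 1))ˣ → {J : CC (k + 1) // (RR ∘ cj mr) J = J} := fun t =>
      ⟨⟨(e * (t.val + t.inv), e * (t.val - t.inv), -(e * (t.val - t.inv))), by
        have := t.val_inv
        dsimp only
        linear_combination 4 * e ^ 2 * this + (2 * e + 1) * he'⟩,
        Subtype.ext (by rw [Function.comp_apply, RR_val, cj_mr_val]; simp)⟩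
    have hf : Function.Injective f := by
      intro s t hst
      have a1 : e * (s.val + s.inv) = e * (t.val + t.inv) :=
        congrArg (fun J : {J : CC (k + 1) // (RR ∘ cj mr) J = J} => J.1.1.1) hst
      have a2 : e * (s.val - s.inv) = e * (t.val - t.inv) :=
        congrArg (fun J : {J : CC (k + 1) // (RR ∘ cj mr) J = J} => J.1.1.2.1) hst
      exact Units.ext (by linear_combination a1 + a2 - (s.val - t.val) * he')
    have := Nat.card_le_card_of_injective f hf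
    rw [Nat.card_eq_fintype_card, ZMod.card_units_eq_totient,
      Nat.totient_prime_pow_succ (by norm_num)] at this
    rw [mul_comm]
    exact this
  · refine Nat.card_eq_zero.2 (.inl ⟨fun ⟨J, hJ⟩ => ?_⟩)
    have h := congrArg Subtype.val hJ
    rw [cj_mt_val] at h
    obtain ⟨⟨a, b, c⟩, hn⟩ := J
    simp only [Prod.mk.injEq] at h hn
    obtain ⟨h1, -, h3⟩ := h
    refine nsq_fxc k a (c := -3) (by decide) ?_
    push_cast
    linear_combination hn + b * h3 + (2 * a - b) * h1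
  · refine Nat.card_eq_zero.2 (.inl ⟨fun ⟨J, hJ⟩ => ?_⟩)
    have h := congrArg Subtype.val hJ
    rw [Function.comp_apply, RR_val, cj_mt_val] at h
    obtain ⟨⟨a, b, c⟩, hn⟩ := J
    simp only [Prod.neg_mk, Prod.mk.injEq] at h hn
    obtain ⟨h1, h2, h3⟩ := h
    have hb : b = 0 := by linear_combination h1
    have hc : c = 0 := by linear_combination hb - h3
    have ha : a = 0 := by linear_combination -e * h2 - a * he' + e * hc - 2 * e * hb
    refine nsq_fxc k a (c := 0) (by decide) ?_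
    rw [← hn, ha, hb]
    simp

end Pool.Agent.P.MP_e7a540_nt.B5

end
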