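import Pool.Agent.P.MP_e7a540_nt.B5.Iface

/-! Proofs of the steps DEC, PRIM, EICH, LIN, PSF, MAXP, INJ, LV, QX, FE. -/

set_option autoImplicit false

section

/-! Step DEC. -/

namespace Pool.Agent.P.MP_e7a540_nt.B5

open Pool.Agent.P.MP_8b7eba_nt.Mod Module Filter Topology Asymptotics CongruenceSubgroup
open scoped MatrixGroups ModularForm

lemma toSL_dec {g : M2} (hg : g.det = 1) : ∃ γ : SL(2, ℤ), ofSL γ = g :=
  ⟨⟨!![g.a, g.b; g.c, g.d], by rw [Matrix.det_fin_two_of]; exact hg⟩, rfl⟩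

lemma slash_dec (f : UpperHalfPlane → ℂ) (γ : SL(2, ℤ)) {z : ℂ} (hz : 0 < z.im) :
    sl (ft f) (ofSL γ) z = (f ∣[(2 : ℤ)] γ) ⟨z, hz⟩ := by
  rw [ModularForm.SL_slash_apply, sl, det_ofSL]
  have h1 : (ofSL γ).act z = ((γ • (⟨z, hz⟩ : UpperHalfPlane) : UpperHalfPlane) : ℂ) :=
    (coe_smul_ofSL γ ⟨z, hz⟩).symm
  have h2 : UpperHalfPlane.denom γ (⟨z, hz⟩ : UpperHalfPlane) = (ofSL γ).j z := by
    simp [UpperHalfPlane.denom, M2.j, ofSL]
  rw [h1, ft_coe, h2, zpow_neg, div_eq_mul_inv]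
  simp

lemma hol_dec {F : ℂ → ℂ} (hF : DifferentiableOn ℂ F UH) {g : M2} (hg : g.det = 1) :
    DifferentiableOn ℂ (sl F g) UH := by
  intro z hz
  have hz' : 0 < z.im := hz
  have h0 : g.det ≠ 0 := by omega
  have h1 : DifferentiableAt ℂ F (g.act z) :=
    hF.differentiableAt (UH_mem_nhds (M2.im_act_pos (by omega) hz'))
  have h2 : DifferentiableAt ℂ (fun z => F (g.act z)) z :=
    h1.comp z (M2.hasDerivAt_act h0 hz').differentiableAt
  have h3 : DifferentiableAt ℂ (fun z => (g.det : ℂ) * F (g.act z) / g.j z ^ 2) z :=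
    (h2.const_mul _).div ((M2.differentiable_j g z).pow 2) (pow_ne_zero _ (M2.j_ne h0 hz'))
  exact h3.differentiableWithinAt

lemma per_dec {N : ℤ} {F : ℂ → ℂ} (hF : Inv N F) {g : M2} (hg : g.det = 1) {z : ℂ}
    (hz : 0 < z.im) : sl F g (z + N) = sl F g z := by
  have h0 : 0 < g.det := by omega
  have hT : 0 < (mT N).det := by simp
  have h1 := sl_mul F h0 hT hz
  have hd : (g * mT N * g.adj).det = 1 := by simp [M2.det_mul, hg]
  have h2 := sl_mul F (g := g * mT N * g.adj) (by omega) h0 hz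
  rw [mul_assoc, M2.adj_mul_self hg, mul_one] at h2
  have h3 := hF _ hd ⟨-(g.c * g.c), by simp [mT]; ring⟩ _ (M2.im_act_pos h0 hz)
  have h4 : sl (sl F g) (mT N) z = sl F g (z + N) := by
    rw [sl, act_mT]; simp
  have h5 : sl (sl F (g * mT N * g.adj)) g z = sl F g z := by
    rw [sl, h3, sl]
  rw [← h4, ← h1, h2, h5]

theorem p_DEC :
    S_DEC := by
  intro N _ f
  have hol : DifferentiableOn ℂ (ft f) UH := UpperHalfPlane.mdifferentiable_iff.mp f.holo'
  have inv : Inv N (ft f) := by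
    intro g hg hc z hz
    obtain ⟨γ, rfl⟩ := toSL_dec hg
    have hγ : γ ∈ Gamma0 N :=
      Gamma0_mem.2 ((ZMod.intCast_zmod_eq_zero_iff_dvd _ N).2 hc)
    have h1 : (⇑f ∣[(2 : ℤ)] γ) = ⇑f := f.slash_action_eq' _ ⟨γ, hγ, rfl⟩
    rw [slash_dec _ _ hz, h1, ft_of_pos _ hz]
  refine ⟨hol, inv, fun g hg => ?_⟩
  have hN : (0 : ℝ) < N := by exact_mod_cast Nat.pos_of_ne_zero (NeZero.ne N)
  refine ⟨1 / N, by positivity, decay_zero hN (fun z hz => ?_) (hol_dec hol hg) ?_⟩
  · simpa using per_dec inv hg hz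
  · obtain ⟨γ, rfl⟩ := toSL_dec hg
    have h1 := (CuspFormClass.zero_at_infty_slash f γ).comp
      UpperHalfPlane.tendsto_comap_im_ofComplex
    refine Tendsto.congr' ?_ h1
    filter_upwards [ev_im 0] with z hz
    rw [slash_dec _ _ hz, Function.comp_apply, UpperHalfPlane.ofComplex_apply_of_im_pos hz]

end Pool.Agent.P.MP_e7a540_nt.B5

end

section

/-! Step PRIM. -/

namespace Pool.Agent.P.MP_e7a540_nt.B5

open Pool.Agent.P.MP_8b7eba_nt.Mod Module Filter Topology Asymptotics CongruenceSubgroup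

open Complex in
lemma ball_prim {w : ℂ} (hw : w ∈ Metric.ball (0 : ℂ) 1) :
    1 - w ≠ 0 ∧ 0 < (2 * I / (1 - w) - I).im := by
  rw [mem_ball_zero_iff] at hw
  have h1 : 1 - w ≠ 0 := fun e => by
    rw [← sub_eq_zero.1 e] at hw
    simp at hw
  have h2 : normSq w < 1 := by
    rw [normSq_eq_norm_sq]
    nlinarith [norm_nonneg w]
  have h3 := normSq_pos.2 h1
  refine ⟨h1, ?_⟩
  have e : (2 * I / (1 - w) - I).im = 2 * (1 - w.re) / normSq (1 - w) - 1 := by
    simp [div_im]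
  rw [e, sub_pos, lt_div_iff₀ h3]
  simp only [normSq_apply, sub_re, sub_im, one_re, one_im] at h2 ⊢
  nlinarith

open Complex in
lemma half_prim {z : ℂ} (hz : 0 < z.im) :
    z + I ≠ 0 ∧ 1 - 2 * I / (z + I) ∈ Metric.ball (0 : ℂ) 1 := by
  have h1 : z + I ≠ 0 := fun e => by
    have := congrArg im e
    simp at this
    linarith
  refine ⟨h1, ?_⟩
  rw [mem_ball_zero_iff, show 1 - 2 * I / (z + I) = (z - I) / (z + I) by field_simp; ring,
    norm_div, div_lt_one (norm_pos_iff.2 h1), ← sq_lt_sq₀ (norm_nonneg _) (norm_nonneg _),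
    ← normSq_eq_norm_sq, ← normSq_eq_norm_sq]
  simp only [normSq_apply, sub_re, sub_im, add_re, add_im, I_re, I_im]
  nlinarith

open Complex in
theorem p_PRIM :
    S_PRIM := by
  intro F hol
  have hG : DifferentiableOn ℂ (fun w => F (2 * I / (1 - w) - I) * (2 * I / (1 - w) ^ 2))
      (Metric.ball 0 1) := fun w hw => by
    have h := ball_prim hw
    have h1 := h.1
    have h2 := pow_ne_zero 2 h1
    refine (DifferentiableAt.mul ((hol.differentiableAt (UH_mem_nhds h.2)).comp w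
      (f := fun w => 2 * I / (1 - w) - I) ?_) ?_).differentiableWithinAt <;>
      fun_prop (disch := assumption)
  obtain ⟨H, hH⟩ := hG.isExactOn_ball
  refine ⟨fun z => H (1 - 2 * I / (z + I)), fun z hz => ?_⟩
  obtain ⟨h1, h2⟩ := half_prim hz
  have d : HasDerivAt (fun z => 1 - 2 * I / (z + I)) (2 * I / (z + I) ^ 2) z :=
    (((hasDerivAt_const z (2 * I)).div ((hasDerivAt_id z).add_const I) h1).const_sub 1).congr_deriv
      (by simp only [id]; ring)
  refine ((hH _ h2).comp z d).congr_deriv ?_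
  have e : 2 * I / (1 - (1 - 2 * I / (z + I))) - I = z := by
    rw [sub_sub_cancel]
    field_simp
    ring
  beta_reduce
  rw [e, sub_sub_cancel]
  field_simp

end Pool.Agent.P.MP_e7a540_nt.B5

end

section

/-! Step EICH. -/

namespace Pool.Agent.P.MP_e7a540_nt.B5

open Pool.Agent.P.MP_8b7eba_nt.Mod Module Filter Topology Asymptotics CongruenceSubgroup

lemma lim_eich {F E : ℂ → ℂ} (hE : ∀ z : ℂ, 0 < z.im → HasDerivAt E (F z) z)
    (hF : ∀ g : M2, g.det = 1 → ∃ t : ℝ, 0 < t ∧ sl F g =O[atI] ex t) {g : M2} (hg : 0 < g.det) :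
    ∃ L, Tendsto (fun z => E (g.act z)) atI (𝓝 L) := by
  obtain ⟨h, A, B, C, hh, hA, hC, -, -, rfl⟩ := exists_upper hg
  obtain ⟨t, ht, hO⟩ := hF h hh
  have h0 : 0 < h.det := by omega
  obtain ⟨L, hL⟩ := exists_lim (G := fun z => E (h.act z)) ht
    (fun z hz => (hasDerivAt_comp_act hE h0 hz).differentiableAt.differentiableWithinAt)
    (hO.congr' (by
      filter_upwards [ev_im 0] with z hz using (hasDerivAt_comp_act hE h0 hz).deriv.symm) .rfl)
  refine ⟨L, (hL.comp (tendsto_upper (B := B) hA hC)).congr' ?_⟩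
  filter_upwards [ev_im 0] with z hz
  rw [M2.act_mul h0.ne' (by simp [M2.det]; positivity) hz]
  rfl

lemma col_eich {F E : ℂ → ℂ} (hE : ∀ z : ℂ, 0 < z.im → HasDerivAt E (F z) z)
    (hF : ∀ g : M2, g.det = 1 → ∃ t : ℝ, 0 < t ∧ sl F g =O[atI] ex t) {g : M2} (hg : 0 < g.det) :
    Tendsto (fun z => E (g.act z)) atI
      (𝓝 (limUnder atI fun z => E ((M2.mk g.a (-g.c) g.c g.a).act z))) := by
  have hk : 0 < g.a * g.a + g.c * g.c := by
    rcases eq_or_ne g.a 0 with h | h
    · have : g.c ≠ 0 := fun e => by simp [M2.det, h, e] at hg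
      have := mul_self_pos.2 this
      nlinarith [mul_self_nonneg g.a]
    · have := mul_self_pos.2 h
      nlinarith [mul_self_nonneg g.c]
  have h0 : 0 < (M2.mk g.a (-g.c) g.c g.a).det := by simpa [M2.det] using hk
  obtain ⟨L, hL⟩ := lim_eich hE hF h0
  rw [hL.limUnder_eq]
  refine (hL.comp (tendsto_upper (B := g.a * g.b + g.c * g.d) hk hg)).congr' ?_
  filter_upwards [ev_im 0] with z hz
  have e : M2.mk g.a (-g.c) g.c g.a *
      M2.mk (g.a * g.a + g.c * g.c) (g.a * g.b + g.c * g.d) 0 g.det =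
      M2.mk ((g.a * g.a + g.c * g.c) * g.a) ((g.a * g.a + g.c * g.c) * g.b)
        ((g.a * g.a + g.c * g.c) * g.c) ((g.a * g.a + g.c * g.c) * g.d) := by
    ext <;> simp [M2.det] <;> ring
  have hk' : ((g.a * g.a + g.c * g.c : ℤ) : ℂ) ≠ 0 := by exact_mod_cast hk.ne'
  rw [Function.comp, ← M2.act_mul h0.ne' (by
    change 0 < _ * g.det - _ * 0
    rw [mul_zero, sub_zero]
    exact mul_pos hk hg) hz, e, M2.act_eq, M2.act_eq, ← mul_div_mul_left _ (g.j z) hk']
  simp only [M2.j]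
  push_cast
  congr 2 <;> ring

theorem p_EICH (hPRIM : S_PRIM) :
    S_EICH := by
  intro F hol hF
  obtain ⟨E, hE⟩ := hPRIM F hol
  let Ψ : Vec → ℂ := fun v => limUnder atI fun z => E ((M2.mk v.1 (-v.2) v.2 v.1).act z)
  exact ⟨fun z => E z - Ψ (1, 0), fun v => Ψ v - Ψ (1, 0), fun z hz => (hE z hz).sub_const _,
    fun g hg => (col_eich hE hF hg).sub_const _, sub_self _⟩

end Pool.Agent.P.MP_e7a540_nt.B5

end

section

/-! Step LIN. -/

namespace Pool.Agent.P.MP_e7a540_nt.B5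

open Pool.Agent.P.MP_8b7eba_nt.Mod Module Filter Topology Asymptotics CongruenceSubgroup

lemma det_pos_lin {v : Vec} (hv : v ≠ 0) : 0 < (⟨v.1, -v.2, v.2, v.1⟩ : M2).det := by
  have h : v.1 ≠ 0 ∨ v.2 ≠ 0 := by
    by_contra h
    push Not at h
    exact hv (Prod.ext h.1 h.2)
  simp only [M2.det]
  rcases h with h | h
  · have := mul_self_pos.2 h
    nlinarith [mul_self_nonneg v.2]
  · have := mul_self_pos.2 h
    nlinarith [mul_self_nonneg v.1]

lemma lim_lin {F E : ℂ → ℂ} {Φ : Vec → ℂ} (h : Eich F E Φ) {g : M2} (hg : 0 < g.det) {v : Vec}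
    (hv : v ≠ 0) :
    Tendsto (fun z => E (g.act ((⟨v.1, -v.2, v.2, v.1⟩ : M2).act z))) atI (𝓝 (Φ (ap g v))) := by
  have hd := det_pos_lin hv
  have := h.2.1 (g * ⟨v.1, -v.2, v.2, v.1⟩) (by rw [M2.det_mul]; exact mul_pos hg hd)
  refine Tendsto.congr' ?_ this
  filter_upwards [ev_im 0] with z hz
  rw [M2.act_mul hg.ne' hd hz]

lemma act_sca_lin {k : ℤ} (hk : k ≠ 0) (z : ℂ) : (sca k).act z = z := by
  have : (k : ℂ) ≠ 0 := by exact_mod_cast hk
  rw [M2.act_eq]
  simp only [sca, M2.j]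
  push_cast
  rw [zero_mul, zero_add, add_zero, mul_div_cancel_left₀ _ this]

lemma hom_lin {F E : ℂ → ℂ} {Φ : Vec → ℂ} (h : Eich F E Φ) {k : ℤ} (hk : k ≠ 0) {v : Vec}
    (hv : v ≠ 0) : Φ (k • v) = Φ v := by
  have h1 := lim_lin h (g := sca k) (by simpa [sca, M2.det] using mul_self_pos.2 hk) hv
  have h2 := lim_lin h (g := 1) (by simp) hv
  simp only [act_sca_lin hk, ap_sca] at h1
  simp only [M2.act_one, ap_one] at h2
  exact tendsto_nhds_unique h1 h2

theorem p_LIN :
    S_LIN := by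
  intro F E Φ h
  refine ⟨⟨fun v => by simp [ps0], fun k hk v w => ?_, fun u v w hu hv hw => ?_⟩, ?_⟩
  · by_cases hv : v = 0
    · subst hv; simp [ps0]
    by_cases hw : w = 0
    · subst hw; simp [ps0]
    have hv' : k • v ≠ 0 := smul_ne_zero hk hv
    have hw' : k • w ≠ 0 := smul_ne_zero hk hw
    simp only [ps0, hv, hw, hv', hw', or_self, if_false, hom_lin h hk hv, hom_lin h hk hw,
      and_self]
  · simp only [ps0, hu, hv, hw, or_self, if_false]
    ring
  intro ι _ g c hg hs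
  obtain ⟨C, hC⟩ := const_of_deriv (G := fun z => ∑ i, E ((g i).act z) - c * E z) fun z hz => by
    have a := HasDerivAt.fun_sum (u := Finset.univ)
      fun i _ => hasDerivAt_comp_act h.1 (hg i) hz
    have b := a.sub ((h.1 z hz).const_mul c)
    rw [hs z hz, sub_self] at b
    exact b
  have key : ∀ v : Vec, v ≠ 0 → ∑ i, Φ (ap (g i) v) - c * Φ v = C := fun v hv => by
    have h2 := lim_lin h (g := 1) (by simp) hv
    simp only [M2.act_one, ap_one] at h2
    have a := (tendsto_finsetSum Finset.univ fun i _ => lim_lin h (hg i) hv).sub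
      (h2.const_mul c)
    refine tendsto_nhds_unique a (tendsto_const_nhds.congr' ?_)
    filter_upwards [ev_im 0] with z hz
    exact (hC _ (M2.im_act_pos (det_pos_lin hv) hz)).symm
  funext v w
  simp only [Finset.sum_apply, pre_apply, Pi.smul_apply, smul_eq_mul]
  by_cases hv : v = 0
  · subst hv; simp [ps0]
  by_cases hw : w = 0
  · subst hw; simp [ps0]
  have hv' : ∀ i, ap (g i) v ≠ 0 := fun i => (ap_eq_zero (hg i).ne').not.2 hv
  have hw' : ∀ i, ap (g i) w ≠ 0 := fun i => (ap_eq_zero (hg i).ne').not.2 hw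
  simp only [ps0, hv, hw, hv', hw', or_self, if_false, Finset.sum_sub_distrib]
  linear_combination key w hw - key v hv

end Pool.Agent.P.MP_e7a540_nt.B5

end

section

/-! Step PSF. -/

namespace Pool.Agent.P.MP_e7a540_nt.B5

open Pool.Agent.P.MP_8b7eba_nt.Mod Module Filter Topology Asymptotics CongruenceSubgroup

lemma comm_psf {ψ : Fn} {γ g g' : M2} (hγ : pre γ ψ = ψ) (h : md * g = γ * g' * md) :
    pre g (pre md ψ) = pre md (pre g' ψ) := by
  rw [pre_pre, h, ← pre_pre, ← pre_pre, hγ]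

lemma shift_psf {ψ : Fn} (hT : pre (mT (-1)) ψ = ψ) (b b' l : ℤ) (h : b + b' = l) :
    pre ⟨1, b, 0, l⟩ (pre md ψ) = pre md (pre ⟨1, b', 0, l⟩ ψ) := by
  refine comm_psf hT ?_
  subst h
  ext <;> simp [md, mT]

lemma diag_psf (ψ : Fn) (a d : ℤ) :
    pre ⟨a, 0, 0, d⟩ (pre md ψ) = pre md (pre ⟨a, 0, 0, d⟩ ψ) := by
  refine comm_psf (pre_one ψ) ?_
  ext <;> simp [md]

lemma T2_psf {ψ : Fn} (hT : pre (mT (-1)) ψ = ψ) : Tl 2 (pre md ψ) = pre md (Tl 2 ψ) := by
  have e : ∀ φ : Fn, Tl 2 φ = pre ⟨1, 0, 0, 2⟩ φ + pre ⟨1, 1, 0, 2⟩ φ + pre ⟨2, 0, 0, 1⟩ φ := by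
    intro φ
    rw [Tl_apply, Fin.sum_univ_three]
    rfl
  rw [e, e, map_add, map_add, diag_psf, diag_psf, shift_psf hT 1 1 2 rfl]

lemma T3_psf {ψ : Fn} (hT : pre (mT (-1)) ψ = ψ) : Tl 3 (pre md ψ) = pre md (Tl 3 ψ) := by
  have e : ∀ φ : Fn, Tl 3 φ = pre ⟨1, 0, 0, 3⟩ φ + pre ⟨1, 1, 0, 3⟩ φ + pre ⟨1, 2, 0, 3⟩ φ +
      pre ⟨3, 0, 0, 1⟩ φ := by
    intro φ
    rw [Tl_apply, Fin.sum_univ_four]
    rfl
  rw [e, e, map_add, map_add, map_add, diag_psf, diag_psf, shift_psf hT 1 2 3 rfl,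
    shift_psf hT 2 1 3 rfl]
  abel

lemma UU_psf {ψ : Fn} (hT : pre (mT (-1)) ψ = ψ) : UU (pre md ψ) = pre md (UU ψ) := by
  have e : ∀ φ : Fn, UU φ = pre ⟨1, 0, 0, 5⟩ φ + pre ⟨1, 1, 0, 5⟩ φ + pre ⟨1, 2, 0, 5⟩ φ +
      pre ⟨1, 3, 0, 5⟩ φ + pre ⟨1, 4, 0, 5⟩ φ := by
    intro φ
    rw [UU_apply, Fin.sum_univ_five]
    rfl
  rw [e, e, map_add, map_add, map_add, map_add, diag_psf, shift_psf hT 1 4 5 rfl,
    shift_psf hT 2 3 5 rfl, shift_psf hT 3 2 5 rfl, shift_psf hT 4 1 5 rfl]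
  abel

lemma WW_psf {ψ : Fn} (hψ : ψ ∈ Sym) (n : ℕ) : WW n (pre md ψ) = pre md (WW n ψ) := by
  unfold WW
  rw [← pre_neg hψ (mW n)]
  have h : pre (mW n) (pre md ψ) = pre md (pre (-mW n) ψ) := by
    refine comm_psf (pre_one ψ) ?_
    ext <;> simp [md, mW]
  exact h

lemma det_md_psf : md.det = -1 := rfl

theorem p_PSF (hLIN : S_LIN) :
    S_PSF := by
  intro n F E Φ hE hI
  obtain ⟨hS, hL⟩ := hLIN F E Φ hE
  have hfix : ∀ g : M2, g.det = 1 → (5 : ℤ) ^ n ∣ g.c → pre g (ps0 Φ) = ps0 Φ := by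
    intro g hg hc
    have := hL Unit (fun _ => g) 1 (fun _ => by rw [hg]; exact one_pos)
      (fun z hz => by simpa using hI g hg hc z hz)
    simpa using this
  have hT : pre (mT (-1)) (ps0 Φ) = ps0 Φ := hfix _ (det_mT _) (by simp [mT])
  refine ⟨⟨Sym.add_mem hS (Sym_pre hS (by rw [det_md_psf]; decide)), ?_⟩, ?_, ?_, ?_, ?_⟩
  · intro g hg
    unfold psf
    rw [map_add]
    rcases hg.1 with h1 | h1
    · have h2 : pre (md * g * md) (ps0 Φ) = ps0 Φ :=
        hfix _ (by rw [M2.det_mul, M2.det_mul, h1, det_md_psf]; rfl) (by simpa [md] using hg.2)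
      rw [hfix g h1 hg.2, comm_psf (g' := 1) h2 (by ext <;> simp [md]), pre_one]
    · have h2 : pre (g * md) (ps0 Φ) = ps0 Φ :=
        hfix _ (by rw [M2.det_mul, h1, det_md_psf]; rfl) (by simpa [md] using hg.2)
      have h3 : pre (md * g) (ps0 Φ) = ps0 Φ :=
        hfix _ (by rw [M2.det_mul, h1, det_md_psf]; rfl) (by simpa [md] using hg.2)
      have h4 : pre g (ps0 Φ) = pre md (ps0 Φ) := by
        have h5 : g = g * md * md := by ext <;> simp [md]
        calc pre g (ps0 Φ) = pre (g * md * md) (ps0 Φ) := by rw [← h5]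
          _ = pre md (ps0 Φ) := by rw [← pre_pre, h2]
      rw [pre_pre, h3, h4, add_comm]
  · have h1 : ps0 Φ (0, 1) (1, 0) = -Φ (0, 1) := by
      simp [ps0, hE.2.2]
    have h2 : pre md (ps0 Φ) (0, 1) (1, 0) = ps0 Φ (0, 1) (1, 0) := by
      rw [pre_apply, ← Sym_neg_right hS (0, 1) (1, 0)]
      rfl
    unfold psf
    rw [ev_apply, Pi.add_apply, Pi.add_apply, h2, h1]
    ring
  · intro l c hl h
    have h1 : Tl l (ps0 Φ) = c • ps0 Φ := by
      rw [Tl_apply]
      refine hL _ (dl l) c (fun j => ?_) h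
      rw [det_dl]
      rcases hl with rfl | rfl <;> norm_num
    have h2 : Tl l (pre md (ps0 Φ)) = pre md (Tl l (ps0 Φ)) := by
      rcases hl with rfl | rfl
      · exact T2_psf hT
      · exact T3_psf hT
    unfold psf
    rw [map_add, h2, h1, map_smul, smul_add]
  · intro h
    have h1 : UU (ps0 Φ) = 0 := by
      rw [UU_apply]
      have := hL (Fin 5) (fun b => ⟨1, (b : ℕ), 0, 5⟩) 0 (fun j => by simp [M2.det])
        (fun z hz => by rw [zero_mul]; exact h z hz)
      rwa [zero_smul] at this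
    unfold psf
    rw [map_add, UU_psf hT, h1, map_zero, add_zero]
  · intro h
    have h1 : WW n (ps0 Φ) = -ps0 Φ := by
      have := hL Unit (fun _ => mW n) (-1) (fun _ => by simp [M2.det, mW])
        (fun z hz => by simpa using h z hz)
      simpa [WW] using this
    unfold psf
    rw [map_add, WW_psf hS, h1, map_neg, neg_add]

end Pool.Agent.P.MP_e7a540_nt.B5

end

section

/-! Step MAXP. -/

namespace Pool.Agent.P.MP_e7a540_nt.B5

open Pool.Agent.P.MP_8b7eba_nt.Mod Module Filter Topology Asymptotics CongruenceSubgroup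

theorem reps_maxp (N : ℤ) (hN : N ≠ 0) : ∃ R : Finset M2, (∀ r ∈ R, r.det = 1) ∧
    ∀ g : M2, g.det = 1 → ∃ r ∈ R, N ∣ (g * r.adj).c := by
  classical
  have : NeZero N.natAbs := ⟨Int.natAbs_ne_zero.mpr hN⟩
  have key : ∀ p : ZMod N.natAbs × ZMod N.natAbs, ∃ r : M2, r.det = 1 ∧
      ∀ g : M2, g.det = 1 → ((g.c : ZMod N.natAbs), (g.d : ZMod N.natAbs)) = p →
        ((r.c : ZMod N.natAbs), (r.d : ZMod N.natAbs)) = p := by
    intro p
    by_cases h : ∃ g : M2, g.det = 1 ∧ ((g.c : ZMod N.natAbs), (g.d : ZMod N.natAbs)) = p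
    · obtain ⟨g, hg, hp⟩ := h
      exact ⟨g, hg, fun _ _ _ => hp⟩
    · exact ⟨1, rfl, fun g hg hp => absurd ⟨g, hg, hp⟩ h⟩
  choose rep hdet hrep using key
  refine ⟨Finset.univ.image rep, ?_, ?_⟩
  · intro r hr
    obtain ⟨p, -, rfl⟩ := Finset.mem_image.mp hr
    exact hdet p
  · intro g hg
    refine ⟨rep ((g.c : ZMod N.natAbs), (g.d : ZMod N.natAbs)),
      Finset.mem_image_of_mem _ (Finset.mem_univ _), ?_⟩
    have h := hrep _ g hg rfl
    rw [Prod.mk.injEq] at h
    rw [← Int.natAbs_dvd, ← ZMod.intCast_zmod_eq_zero_iff_dvd]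
    simp only [M2.mul_c, M2.adj_a, M2.adj_c]
    push_cast
    rw [h.1, h.2]
    ring

theorem fd_maxp {z : ℂ} (hz : 0 < z.im) : ∃ (g : M2) (w : ℂ), g.det = 1 ∧ |w.re| ≤ 1 / 2 ∧
    1 / 2 ≤ w.im ∧ z = g.act w := by
  obtain ⟨γ, hγ⟩ := ModularGroup.exists_smul_mem_fd ⟨z, hz⟩
  have h3 := ModularGroup.three_le_four_mul_im_sq_of_mem_fd hγ
  have hp := (γ • (⟨z, hz⟩ : UpperHalfPlane)).im_pos
  have e := coe_smul_ofSL γ ⟨z, hz⟩
  refine ⟨(ofSL γ).adj, ((γ • (⟨z, hz⟩ : UpperHalfPlane) : UpperHalfPlane) : ℂ),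
    by rw [M2.det_adj, det_ofSL], hγ.2, ?_, ?_⟩
  · rw [UpperHalfPlane.coe_im]
    nlinarith
  · rw [e]
    have h1 : (ofSL γ).det = 1 := det_ofSL γ
    have := M2.act_mul (g := (ofSL γ).adj) (h := ofSL γ) (by rw [M2.det_adj, h1]; exact one_ne_zero)
      (by rw [h1]; exact one_pos) hz
    rw [M2.adj_mul_self h1, M2.act_one] at this
    exact this

theorem p_MAXP :
    S_MAXP := by
  intro N h hN hc hinv hlim z₀ hz₀ hpos
  obtain ⟨R, hR, hrep⟩ := reps_maxp N hN
  have hev : ∀ᶠ z in atI, ∀ r ∈ R, h (r.act z) < h z₀ :=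
    (eventually_all_finset R).mpr fun r hr => (hlim r (hR r hr)).eventually (gt_mem_nhds hpos)
  obtain ⟨s, hs, hs'⟩ := mem_comap.1 hev
  obtain ⟨Y, hY⟩ := mem_atTop_sets.1 hs
  set B : Set ℂ := Complex.reProdIm (Set.Icc (-(1 / 2)) (1 / 2)) (Set.Icc (1 / 2) Y) with hB
  have hBc : IsCompact B := isCompact_Icc.reProdIm isCompact_Icc
  have hBim : ∀ w ∈ B, 0 < w.im := by
    intro w hw
    have := (Complex.mem_reProdIm.mp hw).2.1
    linarith
  set K : Set ℂ := insert z₀ (⋃ r ∈ R, r.act '' B) with hK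
  have hKc : IsCompact K := by
    refine IsCompact.insert (R.isCompact_biUnion fun r hr => ?_) _
    refine hBc.image_of_continuousOn fun w hw => ?_
    exact (M2.hasDerivAt_act (by rw [hR r hr]; exact one_ne_zero)
      (hBim w hw)).continuousAt.continuousWithinAt
  have hKU : K ⊆ UH := by
    intro w hw
    rcases hw with rfl | hw
    · exact hz₀
    · obtain ⟨r, hr, u, hu, rfl⟩ := Set.mem_iUnion₂.mp hw
      exact M2.im_act_pos (by rw [hR r hr]; exact one_pos) (hBim u hu)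
  obtain ⟨z₁, hz₁, hmax⟩ := hKc.exists_isMaxOn ⟨z₀, Set.mem_insert _ _⟩ (hc.mono hKU)
  refine ⟨z₁, hKU hz₁, fun z hz => ?_⟩
  obtain ⟨g, w, hg, hre, him, rfl⟩ := fd_maxp hz
  obtain ⟨r, hr, hdvd⟩ := hrep g hg
  have hw : 0 < w.im := by linarith
  have hr1 := hR r hr
  have hd : (g * r.adj).det = 1 := by rw [M2.det_mul, M2.det_adj, hg, hr1, mul_one]
  have e : h (g.act w) = h (r.act w) := by
    rw [← hinv (g * r.adj) hd hdvd (r.act w) (M2.im_act_pos (by rw [hr1]; exact one_pos) hw),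
      ← M2.act_mul (by rw [hd]; exact one_ne_zero) (by rw [hr1]; exact one_pos) hw,
      mul_assoc, M2.adj_mul_self hr1, mul_one]
  rw [e]
  by_cases hYw : w.im ≤ Y
  · refine hmax (Set.mem_insert_of_mem _ (Set.mem_iUnion₂.mpr ⟨r, hr, w, ?_, rfl⟩))
    exact Complex.mem_reProdIm.mpr ⟨abs_le.mp hre, him, hYw⟩
  · have h1 : h (r.act w) < h z₀ := hs' (hY _ (not_le.mp hYw).le) r hr
    exact h1.le.trans (hmax (Set.mem_insert _ _))

end Pool.Agent.P.MP_e7a540_nt.B5

end

section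

/-! Step INJ. -/

namespace Pool.Agent.P.MP_e7a540_nt.B5

open Pool.Agent.P.MP_8b7eba_nt.Mod Module Filter Topology Asymptotics CongruenceSubgroup

/-- The reflection in the imaginary axis. -/
noncomputable def rf_inj (z : ℂ) : ℂ := -(starRingEnd ℂ) z

/-- The reflected matrix. -/
def cm_inj (g : M2) : M2 := ⟨g.a, -g.b, -g.c, g.d⟩

lemma im_rf_inj (z : ℂ) : (rf_inj z).im = z.im := by simp [rf_inj]

lemma det_cm_inj (g : M2) : (cm_inj g).det = g.det := by simp [cm_inj, M2.det]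

lemma rf_act_inj (g : M2) (z : ℂ) : rf_inj (g.act z) = (cm_inj g).act (rf_inj z) := by
  simp only [rf_inj, cm_inj, M2.act, mob, map_div₀, map_add, map_mul, map_intCast, Int.cast_neg,
    ← neg_div]
  congr 1 <;> ring

lemma tend_rf_inj : Tendsto rf_inj atI atI := by
  rw [tendsto_comap_iff]
  exact tendsto_im.congr fun z => (im_rf_inj z).symm

lemma cont_rf_inj : Continuous rf_inj := Complex.continuous_conj.neg

lemma path_inj {f : ℂ → ℂ} {a z : ℂ} (h : HasDerivAt f a z) (v : ℂ) :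
    HasDerivAt (fun t : ℝ => f (z + t * v)) (a * v) 0 := by
  have h1 : HasDerivAt (fun w : ℂ => z + w * v) v ((0 : ℝ) : ℂ) := by
    simpa using ((hasDerivAt_id ((0 : ℝ) : ℂ)).mul_const v).const_add z
  have h2 : HasDerivAt f a (z + ((0 : ℝ) : ℂ) * v) := by simpa using h
  exact (HasDerivAt.comp (h := fun w : ℂ => z + w * v) ((0 : ℝ) : ℂ) h2 h1).comp_ofReal

lemma both_inj {f : ℂ → ℂ} {a d z : ℂ} (h1 : HasDerivAt f a z)
    (h2 : HasDerivAt (fun w => star (f w)) d z) : a = 0 := by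
  have e : ∀ v, star (a * v) = d * v := fun v => (path_inj h1 v).star.unique (path_inj h2 v)
  have e1 := e 1
  have e2 := e Complex.I
  simp only [mul_one, star_mul', Complex.star_def, Complex.conj_I] at e1 e2
  have : (starRingEnd ℂ) a * (2 * Complex.I) = 0 := by linear_combination Complex.I * e1 - e2
  simpa using this

lemma diff_rf_inj {E : ℂ → ℂ} (hE : ∀ z : ℂ, 0 < z.im → DifferentiableAt ℂ E z) {z : ℂ}
    (hz : 0 < z.im) : DifferentiableAt ℂ (fun w => star (E (rf_inj w))) z := by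
  have h1 : DifferentiableAt ℂ (fun w => E (-w)) ((starRingEnd ℂ) z) :=
    (hE _ (by simpa using hz)).comp _ differentiableAt_id.neg
  have := h1.star_conj
  rw [Complex.conj_conj] at this
  exact this

lemma odd_inj (hLIN : S_LIN) {F E : ℂ → ℂ} {Φ : Vec → ℂ} (h : Eich F E Φ) (h0 : psf Φ = 0)
    {g : M2} (hg : g.det = 1) : Φ (g.a, g.c) + Φ (g.a, -g.c) = 0 := by
  have hS := (hLIN F E Φ h).1
  have hw : ((g.a, g.c) : Vec) ≠ 0 := fun e => by
    obtain ⟨e1, e2⟩ := Prod.mk_eq_zero.1 e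
    simp [M2.det, e1, e2] at hg
  have hw' : ((g.a, -g.c) : Vec) ≠ 0 := fun e => by
    obtain ⟨e1, e2⟩ := Prod.mk_eq_zero.1 e
    exact hw (by rw [e1, neg_eq_zero.1 e2]; rfl)
  have h1 := congrFun (congrFun h0 (1, 0)) (g.a, g.c)
  have a1 : ap md (1, 0) = -(1, 0) := by ext <;> simp [md]
  have a2 : ap md (g.a, g.c) = -(g.a, -g.c) := by ext <;> simp [md]
  rw [psf, Pi.add_apply, Pi.add_apply, pre_apply, a1, a2, Sym_neg_left hS, Sym_neg_right hS] at h1
  have h10 : ((1, 0) : Vec) ≠ 0 := by simp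
  simp only [ps0, hw, hw', h10, or_self, if_false, h.2.2, sub_zero] at h1
  exact h1

lemma shift_inj {N : ℤ} {F E : ℂ → ℂ} {Φ : Vec → ℂ} (h : Eich F E Φ) (hI : Inv N F) {g : M2}
    (hg : g.det = 1) (hc : N ∣ g.c) {z : ℂ} (hz : 0 < z.im) :
    E (g.act z) = E z + Φ (g.a, g.c) := by
  have hp : 0 < g.det := by omega
  obtain ⟨c, hc'⟩ := const_of_deriv (G := fun z => E (g.act z) - E z) fun w hw => by
    have := (hasDerivAt_comp_act h.1 hp hw).sub (h.1 w hw)
    rwa [hI g hg hc w hw, sub_self] at this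
  have h1 := h.2.1 1 (by simp)
  simp only [M2.act_one, M2.one_a, M2.one_c, h.2.2] at h1
  have h2 := (h.2.1 g hp).sub h1
  have h3 : Tendsto (fun z => E (g.act z) - E z) atI (𝓝 c) :=
    tendsto_const_nhds.congr' (by filter_upwards [ev_im 0] with w hw using (hc' w hw).symm)
  have h4 := tendsto_nhds_unique h2 h3
  have h5 := hc' z hz
  linear_combination h5 - h4

theorem p_INJ (hMAXP : S_MAXP) (hLIN : S_LIN) :
    S_INJ := by
  intro N F E Φ hN h hI h0
  have hd : ∀ z : ℂ, 0 < z.im → DifferentiableAt ℂ E z := fun z hz => (h.1 z hz).differentiableAt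
  have hr : ∀ z : ℂ, 0 < z.im → 0 < (rf_inj z).im := fun z hz => by rwa [im_rf_inj]
  obtain ⟨A, hA⟩ : ∃ A : ℂ → ℂ, A = fun z => E z + E (rf_inj z) := ⟨_, rfl⟩
  have cA : ContinuousOn A UH := fun z hz => by
    rw [hA]
    exact ((hd z hz).continuousAt.add
      ((hd _ (hr z hz)).continuousAt.comp cont_rf_inj.continuousAt)).continuousWithinAt
  have iA : ∀ g : M2, g.det = 1 → N ∣ g.c → ∀ z : ℂ, 0 < z.im → A (g.act z) = A z := by
    intro g hg hc z hz
    have e1 := shift_inj h hI hg hc hz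
    have e2 := shift_inj h hI ((det_cm_inj g).trans hg) (hc.neg_right) (hr z hz)
    have e3 := odd_inj hLIN h h0 hg
    simp only [hA, rf_act_inj]
    simp only [cm_inj] at e2 ⊢
    linear_combination e1 + e2 + e3
  have lA : ∀ g : M2, g.det = 1 → Tendsto (fun z => A (g.act z)) atI (𝓝 0) := by
    intro g hg
    have e1 := h.2.1 g (by omega)
    have e2 := (h.2.1 (cm_inj g) (by rw [det_cm_inj]; omega)).comp tend_rf_inj
    have := e1.add e2
    rw [show Φ ((cm_inj g).a, (cm_inj g).c) = Φ (g.a, -g.c) from rfl, odd_inj hLIN h h0 hg] at this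
    simpa only [hA, rf_act_inj, Function.comp_def] using this
  have key : ∀ (c z : ℂ), 0 < z.im → (c * A z).re ≤ 0 := by
    intro c z₀ hz₀
    by_contra hpos
    have lim : ∀ g : M2, g.det = 1 → Tendsto (fun z => (c * A (g.act z)).re) atI (𝓝 0) :=
      fun g hg => by
        have := (Complex.continuous_re.tendsto _).comp ((lA g hg).const_mul c)
        rwa [mul_zero, Complex.zero_re] at this
    obtain ⟨z₁, hz₁, hmax⟩ := hMAXP N (fun z => (c * A z).re) hN
      (Complex.continuous_re.comp_continuousOn (continuousOn_const.mul cA))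
      (fun g hg hc z hz => by simp only [iA g hg hc z hz]) lim z₀ hz₀ (not_le.1 hpos)
    obtain ⟨B, hB⟩ : ∃ B : ℂ → ℂ, B = fun z => Complex.exp (c * E z + star c * star (E (rf_inj z))) :=
      ⟨_, rfl⟩
    have nB : ∀ z, ‖B z‖ = Real.exp (c * A z).re := fun z => by
      rw [hB, hA, Complex.norm_exp]
      congr 1
      simp [mul_add]
    have dB : DifferentiableOn ℂ B UH := fun z hz => by
      rw [hB]
      exact (((hd z hz).const_mul c).add
        ((diff_rf_inj hd hz).const_mul _)).cexp.differentiableWithinAt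
    have := Complex.norm_eqOn_of_isPreconnected_of_isMaxOn
      (convex_halfSpace_im_gt 0).isPreconnected isOpen_UH dB hz₁ fun z hz => by
        simp only [Set.mem_ofPred_eq, Function.comp_apply, nB]
        exact Real.exp_le_exp.2 (hmax z hz)
    have e : ∀ z : ℂ, 0 < z.im → (c * A z).re = (c * A z₁).re := fun z hz => by
      have := this hz
      simp only [Function.comp_apply, Function.const_apply, nB] at this
      exact Real.exp_injective this
    have l1 := lim 1 rfl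
    simp only [M2.act_one] at l1
    have l2 : Tendsto (fun z => (c * A z).re) atI (𝓝 (c * A z₁).re) :=
      tendsto_const_nhds.congr' (by filter_upwards [ev_im 0] with w hw using (e w hw).symm)
    have := tendsto_nhds_unique l1 l2
    exact hpos ((e z₀ hz₀).trans this.symm).le
  have zA : ∀ z : ℂ, 0 < z.im → A z = 0 := fun z hz => by
    have := key ((starRingEnd ℂ) (A z)) z hz
    rw [← Complex.normSq_eq_conj_mul_self, Complex.ofReal_re] at this
    exact Complex.normSq_eq_zero.1 (le_antisymm this (Complex.normSq_nonneg _))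
  intro z hz
  refine both_inj (h.1 z hz) (d := _) (((diff_rf_inj hd hz).hasDerivAt.neg).congr_of_eventuallyEq ?_)
  filter_upwards [UH_mem_nhds hz] with w hw
  have := zA w hw
  rw [hA] at this
  rw [eq_neg_of_add_eq_zero_left this, star_neg]
  rfl

end Pool.Agent.P.MP_e7a540_nt.B5

end

section

/-! Step LV. -/

namespace Pool.Agent.P.MP_e7a540_nt.B5

open Pool.Agent.P.MP_8b7eba_nt.Mod Module Filter Topology Asymptotics CongruenceSubgroup

open Complex in
theorem ray_lv : Tendsto (fun t : ℝ => I * (t : ℂ)) atTop atI := by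
  rw [tendsto_comap_iff]
  exact tendsto_id.congr fun t => by simp

open Complex MeasureTheory Set in
theorem p_LV :
    S_LV := by
  intro N _ f E Φ hE hL
  obtain ⟨hd, hlim, h0⟩ := hE
  set F : ℝ → ℂ := fun t => f (UpperHalfPlane.ofComplex (I * t)) with hF
  have hΛ : ModularForm.Λ two_pos f = mellin F := CuspForm.Λ_eq_mellin two_pos f
  have mc : ∀ s, MellinConvergent F s := fun s =>
    ((CuspForm.isStrongFEPair two_pos f).hasMellin s).1
  have hi : IntegrableOn F (Ioi 0) := by simpa [MellinConvergent] using mc 1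
  have L1 : ModularForm.L two_pos f 1 = 2 * Real.pi * ∫ t in Ioi 0, F t := by
    have p0 : (Real.pi : ℂ) ≠ 0 := ofReal_ne_zero.2 Real.pi_ne_zero
    rw [ModularForm.L, hΛ, Gammaℂ_one]
    simp only [mellin, sub_self, cpow_zero, one_smul]
    field_simp
  have hz : ∫ t in Ioi 0, F t = 0 := by
    rw [L1] at hL
    exact (mul_eq_zero.1 hL).resolve_left (by simp)
  have h1 : IntegrableOn (fun t : ℝ => I * F t) (Ioi 0) := Integrable.const_mul hi _
  have e : ∀ t ∈ Ioi (0 : ℝ), Function.update (fun t : ℝ => E (I * t)) 0 (Φ (0, 1)) =ᶠ[𝓝 t]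
      fun t : ℝ => E (I * t) := fun t ht => by
    filter_upwards [Ioi_mem_nhds ht] with u hu using Function.update_of_ne (ne_of_gt hu) _ _
  have top : Tendsto (fun t : ℝ => E (I * t)) atTop (𝓝 0) := by
    have := (hlim 1 (by simp)).comp ray_lv
    simp only [M2.one_a, M2.one_c, h0] at this
    exact this.congr fun t => by simp
  have bot : Tendsto (fun t : ℝ => E (I * t)) (𝓝[>] 0) (𝓝 (Φ (0, 1))) := by
    have := ((hlim mS (by simp [mS, M2.det])).comp ray_lv).comp tendsto_inv_nhdsGT_zero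
    refine this.congr' ?_
    filter_upwards [self_mem_nhdsWithin] with t ht
    have n2 : (t : ℂ) ≠ 0 := ofReal_ne_zero.2 (ne_of_gt ht)
    simp only [Function.comp, M2.act_eq, M2.j, mS]
    congr 1
    push_cast
    field_simp
    linear_combination (-t : ℂ) * I_mul_I
  have := integral_Ioi_of_hasDerivAt_of_tendsto
    (f := Function.update (fun t : ℝ => E (I * t)) 0 (Φ (0, 1))) (m := 0)
    (by rw [← continuousWithinAt_Ioi_iff_Ici, continuousWithinAt_update_same,
          Set.sdiff_singleton_eq_self (by simp)]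
        exact bot)
    (fun t ht => by
      have h2 : HasDerivAt (fun w : ℂ => I * w) I t := by
        simpa using (hasDerivAt_id (t : ℂ)).const_mul I
      have h3 := ((hd (I * t) (by simpa using ht)).comp (t : ℂ) h2).comp_ofReal
      refine (h3.congr_deriv ?_).congr_of_eventuallyEq (e t ht)
      simp only [hF, ft]
      ring) h1
    (top.congr' (by
      filter_upwards [eventually_gt_atTop 0] with t ht
      rw [Function.update_of_ne ht.ne']))
  rw [integral_const_mul, Function.update_self, hz] at this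
  simpa using this.symm

end Pool.Agent.P.MP_e7a540_nt.B5

end

section

/-! Step QX. -/

namespace Pool.Agent.P.MP_e7a540_nt.B5

open Pool.Agent.P.MP_8b7eba_nt.Mod Module Filter Topology Asymptotics CongruenceSubgroup
open Finset Complex
open scoped Real

/-- The parameter `exp (2 π i z)`. -/
noncomputable def q_qx (z : ℂ) : ℂ := cexp (2 * π * I * z)

lemma mul_qx (n : ℕ) (z : ℂ) : q_qx (n * z) = q_qx z ^ n := by
  simp only [q_qx, ← Complex.exp_nat_mul]; congr 1; ring

lemma add_qx (z w : ℂ) : q_qx (z + w) = q_qx z * q_qx w := by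
  simp only [q_qx, mul_add, Complex.exp_add]

lemma sum_qx {p : ℕ} (hp : 0 < p) (n : ℕ) :
    ∑ j ∈ range p, q_qx ((j : ℂ) / p) ^ n = if p ∣ n then (p : ℂ) else 0 := by
  have hp0 : (p : ℂ) ≠ 0 := by exact_mod_cast hp.ne'
  have hζ := Complex.isPrimitiveRoot_exp p hp.ne'
  have e : ∀ j : ℕ, q_qx ((j : ℂ) / p) ^ n = (cexp (2 * π * I / p) ^ n) ^ j := fun j => by
    simp only [q_qx, ← Complex.exp_nat_mul]; congr 1; ring
  simp only [e]
  split_ifs with h
  · simp [(hζ.pow_eq_one_iff_dvd n).2 h]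
  · rw [geom_sum_eq fun h' => h ((hζ.pow_eq_one_iff_dvd n).1 h'), pow_right_comm, hζ.pow_eq_one]
    simp

lemma U_qx {p : ℕ} (hp : 0 < p) {c : ℕ → ℂ} {G : ℂ → ℂ}
    (hG : ∀ z, 0 < z.im → HasSum (fun n => c n * q_qx z ^ n) (G z)) {z : ℂ} (hz : 0 < z.im) :
    HasSum (fun n => c (p * n) * q_qx z ^ n) (∑ j ∈ range p, sl G ⟨1, j, 0, p⟩ z) := by
  have hp0 : (p : ℂ) ≠ 0 := by exact_mod_cast hp.ne'
  have h1 := hasSum_sum (s := range p) fun j _ => (hG ((z + j) / p) (by
    simp only [div_natCast_im, add_im, natCast_im, add_zero]; positivity)).div_const p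
  have h2 : ∀ n, ∑ j ∈ range p, c n * q_qx ((z + j) / p) ^ n / p =
      (c n * q_qx (z / p) ^ n * if p ∣ n then (p : ℂ) else 0) / p := fun n => by
    simp only [← sum_qx hp, mul_sum, sum_div, add_div, add_qx, mul_pow, mul_assoc]
  have h3 : ∀ j : ℕ, sl G ⟨1, j, 0, p⟩ z = G ((z + j) / p) / p := fun j => by
    simp [sl, M2.det, M2.act, mob, M2.j]
    field_simp
  simp only [h2] at h1
  simp only [h3]
  rw [← (mul_right_injective₀ hp.ne').hasSum_iff fun n hn => by
    rw [if_neg fun ⟨k, hk⟩ => hn ⟨k, hk.symm⟩, mul_zero, zero_div]] at h1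
  refine h1.congr_fun fun n => ?_
  simp only [Function.comp, dvd_mul_right, if_true, pow_mul, ← mul_qx p, mul_div_cancel₀ _ hp0,
    mul_div_cancel_right₀ _ hp0]

lemma V_qx {p : ℕ} (hp : 0 < p) {c : ℕ → ℂ} {G : ℂ → ℂ}
    (hG : ∀ z, 0 < z.im → HasSum (fun n => c n * q_qx z ^ n) (G z)) {z : ℂ} (hz : 0 < z.im) :
    HasSum (fun n => (if p ∣ n then p * c (n / p) else 0) * q_qx z ^ n) (sl G ⟨p, 0, 0, 1⟩ z) := by
  rw [← (mul_right_injective₀ hp.ne').hasSum_iff fun n hn => by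
    rw [if_neg fun ⟨k, hk⟩ => hn ⟨k, hk.symm⟩, zero_mul],
    show sl G ⟨p, 0, 0, 1⟩ z = p * G (p * z) by simp [sl, M2.det, M2.act, mob, M2.j]]
  refine ((hG (p * z) (by simpa using mul_pos (Nat.cast_pos.2 hp) hz)).mul_left
    (p : ℂ)).congr_fun fun n => ?_
  simp [mul_qx, pow_mul, Nat.mul_div_cancel_left _ hp, mul_assoc]

theorem p_QX :
    S_QX := by
  intro N _ f
  have hf : ∀ z, 0 < z.im → HasSum (fun n => co f n * q_qx z ^ n) (ft f z) := fun z hz => by
    have := ModularForm.hasSum_qExpansion f one_pos (by simp) ⟨z, hz⟩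
    rw [ft_of_pos f hz]
    simpa [co, q_qx, Function.Periodic.qParam] using this
  refine ⟨fun l c hl h z hz => ?_, fun h z hz => ?_⟩
  · have h1 := (U_qx hl hf hz).add (V_qx hl hf hz)
    simp only [← add_mul, h, mul_assoc] at h1
    rw [← h1.unique ((hf z hz).mul_left c), Fin.sum_univ_castSucc,
      ← Fin.sum_univ_eq_sum_range (fun j => sl (ft f) ⟨1, j, 0, l⟩ z) l]
    congr 1
    · exact sum_congr rfl fun j _ => by rw [dl, Fin.val_castSucc, if_neg j.2.ne]
    · rw [dl, if_pos (Fin.val_last l)]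
  · have h1 := U_qx (by norm_num : 0 < 5) hf hz
    simp only [h, zero_mul] at h1
    rw [← h1.unique hasSum_zero,
      ← Fin.sum_univ_eq_sum_range (fun j => sl (ft f) ⟨1, j, 0, (5 : ℕ)⟩ z) 5]
    rfl

end Pool.Agent.P.MP_e7a540_nt.B5

end

section

/-! Step FE. -/

namespace Pool.Agent.P.MP_e7a540_nt.B5

open Pool.Agent.P.MP_8b7eba_nt.Mod Module Filter Topology Asymptotics CongruenceSubgroup

lemma axis_fe {a : ℝ → ℂ} {n : ℝ} (hn : 0 < n) (hc : ContinuousOn a (Set.Ioi 0))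
    (hm : ∀ s, MellinConvergent a s)
    (h : ∀ s : ℂ, (n : ℂ) ^ (s / 2) * mellin a s = (n : ℂ) ^ ((2 - s) / 2) * mellin a (2 - s))
    {t : ℝ} (ht : 0 < t) : a t = (n : ℂ)⁻¹ * ((t : ℂ) ^ (-2 : ℂ) * a (n * t)⁻¹) := by
  have hn' : (n : ℂ) ≠ 0 := Complex.ofReal_ne_zero.2 hn.ne'
  set b : ℝ → ℂ := fun t => (n : ℂ)⁻¹ • ((t : ℂ) ^ (-2 : ℂ) • (fun u : ℝ => a u⁻¹) (n * t)) with hb
  have hbm : ∀ s, MellinConvergent b s := fun s => by
    refine MellinConvergent.const_smul ?_ _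
    rw [MellinConvergent.cpow_smul, MellinConvergent.comp_mul_left (f := fun u : ℝ => a u⁻¹) hn]
    simp_rw [← Real.rpow_neg_one]
    rw [MellinConvergent.comp_rpow (by norm_num)]
    exact hm _
  have hbe : ∀ s, mellin b s = mellin a s := fun s => by
    rw [hb, mellin_const_smul, mellin_cpow_smul,
      mellin_comp_mul_left (fun u : ℝ => a u⁻¹) _ hn, mellin_comp_inv,
      show -(s + -2) = 2 - s by ring, smul_eq_mul, smul_eq_mul]
    have h1 : (n : ℂ) ^ (s / 2) ≠ 0 := Complex.cpow_ne_zero_iff.2 (.inl hn')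
    refine mul_left_cancel₀ h1 ?_
    rw [h s, ← mul_assoc, ← mul_assoc, ← Complex.cpow_neg_one, ← Complex.cpow_add _ _ hn',
      ← Complex.cpow_add _ _ hn']
    congr 2
    ring
  have h0 : mellin (fun t => a t - b t) = 0 := funext fun s => by
    rw [(hasMellin_sub (hm s) (hbm s)).2, hbe, sub_self, Pi.zero_apply]
  have hca : ∀ u : ℝ, 0 < u → ContinuousAt a u := fun u hu => hc.continuousAt (Ioi_mem_nhds hu)
  have hcb : ContinuousAt b t := by
    have hp : 0 < n * t := mul_pos hn ht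
    have e1 : ContinuousAt (fun u : ℝ => (n * u)⁻¹) t :=
      (continuousAt_const.mul continuousAt_id).inv₀ hp.ne'
    have e2 : ContinuousAt (fun u : ℝ => a (n * u)⁻¹) t :=
      ContinuousAt.comp (f := fun u : ℝ => (n * u)⁻¹) (hca _ (inv_pos.2 hp)) e1
    exact ((Complex.continuousAt_ofReal_cpow_const _ _ (.inr ht.ne')).smul e2).const_smul (n : ℂ)⁻¹
  have key := mellinInv_mellin_eq 0 (fun t => a t - b t) ht (hasMellin_sub (hm _) (hbm _)).1
    (by rw [h0]; exact MeasureTheory.integrable_zero _ _ _) ((hca t ht).sub hcb)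
  rw [h0] at key
  simp only [mellinInv, Pi.zero_apply, smul_zero, MeasureTheory.integral_zero] at key
  exact sub_eq_zero.1 key.symm

theorem p_FE :
    S_FE := by
  intro N _ f h z hz
  have hN : (0 : ℝ) < N := Nat.cast_pos.2 (NeZero.pos N)
  have hdet : 0 < (⟨0, -1, N, 0⟩ : M2).det := by
    simpa [M2.det] using NeZero.pos N
  have hol : DifferentiableOn ℂ (ft f) UH :=
    UpperHalfPlane.mdifferentiable_iff.1 (CuspFormClass.holo f)
  have hd : ∀ w : ℂ, 0 < w.im → DifferentiableAt ℂ (ft f) w := fun w hw =>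
    hol.differentiableAt (UH_mem_nhds hw)
  have ax : ∀ t : ℝ, 0 < t → ft f (Complex.I * t) =
      ((N : ℝ) : ℂ)⁻¹ * ((t : ℂ) ^ (-2 : ℂ) * ft f (Complex.I * (((N : ℝ) * t)⁻¹ : ℝ))) := by
    intro t ht
    refine axis_fe (a := fun t : ℝ => ft f (Complex.I * t)) hN (fun u hu => ?_) (fun s => ?_)
      (fun s => ?_) ht
    · have hu' : 0 < (Complex.I * u).im := by simpa using hu
      exact (ContinuousAt.comp (f := fun u : ℝ => Complex.I * u) (hd _ hu').continuousAt
        (by fun_prop)).continuousWithinAt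
    · exact ((CuspForm.isStrongFEPair two_pos f).hasMellin s).1
    · have := h s
      rw [CuspForm.Λ_eq_mellin] at this
      simpa [ft] using this
  have hG : DifferentiableOn ℂ (fun w => sl (ft f) ⟨0, -1, N, 0⟩ w + ft f w) UH := fun w hw => by
    have hw' : 0 < w.im := hw
    have e1 := (hd _ (M2.im_act_pos hdet hw')).comp w
      (M2.hasDerivAt_act hdet.ne' hw').differentiableAt
    have e2 : DifferentiableAt ℂ (fun w => (⟨0, -1, N, 0⟩ : M2).j w ^ 2) w := by
      unfold M2.j; fun_prop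
    exact (((e1.const_mul _).div e2 (pow_ne_zero _ (M2.j_ne hdet.ne' hw'))).add
      (hd w hw')).differentiableWithinAt
  have hz0 : ∀ t : ℝ, 0 < t →
      sl (ft f) ⟨0, -1, N, 0⟩ (Complex.I * t) + ft f (Complex.I * t) = 0 := fun t ht => by
    have ht' : (t : ℂ) ≠ 0 := Complex.ofReal_ne_zero.2 ht.ne'
    have hN' : (N : ℂ) ≠ 0 := Nat.cast_ne_zero.2 (NeZero.ne N)
    have e1 : (⟨0, -1, N, 0⟩ : M2).act (Complex.I * t) =
        Complex.I * (((N : ℝ) * t)⁻¹ : ℝ) := by
      rw [M2.act_eq, div_eq_iff (M2.j_ne hdet.ne' (by simpa using ht))]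
      simp only [M2.j]
      push_cast
      field_simp
      linear_combination (-(t * N) : ℂ) * Complex.I_sq
    rw [ax t ht, sl, e1, Complex.cpow_neg, Complex.cpow_ofNat]
    have e2 : (⟨0, -1, N, 0⟩ : M2).j (Complex.I * t) ^ 2 = -(N * t) ^ 2 := by
      simp only [M2.j]
      push_cast
      linear_combination ((N : ℂ) * t) ^ 2 * Complex.I_sq
    rw [e2]
    simp only [M2.det]
    push_cast
    field_simp
    ring
  have hfr : ∃ᶠ w in 𝓝[≠] Complex.I, sl (ft f) ⟨0, -1, N, 0⟩ w + ft f w = 0 := by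
    have ht : Tendsto (fun t : ℝ => Complex.I * t) (𝓝[>] 1) (𝓝[≠] Complex.I) := by
      refine tendsto_nhdsWithin_iff.2 ⟨?_, ?_⟩
      · have : ContinuousAt (fun t : ℝ => Complex.I * t) 1 := by fun_prop
        simpa using this.tendsto.mono_left nhdsWithin_le_nhds
      · filter_upwards [self_mem_nhdsWithin] with t ht e
        have := congrArg Complex.im e
        simp at this
        exact (ne_of_gt ht) this
    refine ht.frequently (Eventually.frequently ?_)
    filter_upwards [self_mem_nhdsWithin] with t ht using hz0 t (lt_trans one_pos ht)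
  have := (hG.analyticOnNhd isOpen_UH).eqOn_zero_of_preconnected_of_frequently_eq_zero
    (convex_halfSpace_im_gt 0).isPreconnected (show Complex.I ∈ UH by simp [UH]) hfr hz
  exact eq_neg_of_add_eq_zero_left this

end Pool.Agent.P.MP_e7a540_nt.B5

end
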