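import Pool.Agent.P.MP_e7a540_nt.B5.BaseF
import Pool.Agent.P.MP_e7a540_nt.B5.BaseC
import Pool.Agent.P.MP_e7a540_nt.B5.BaseA

/-! The steps of the proof, as propositions. -/

set_option autoImplicit false

namespace Pool.Agent.P.MP_e7a540_nt.B5

open Pool.Agent.P.MP_8b7eba_nt.Mod Module Filter Topology Asymptotics CongruenceSubgroup

/-! ### Symbols -/

-- deps:
def S_MANIN : Prop :=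
  ∀ ψ ∈ Sym, (∀ g : M2, g.det = 1 → pre g ψ (0, 1) (1, 0) = 0) → ψ = 0

-- deps:
def S_HK : Prop :=
  ∀ l n : ℕ, l.Prime → l ≠ 5 → ∀ ψ ∈ SS n, ∀ κ : Fin (l + 1) → M2,
    (∀ j, (κ j).det = l ∨ (κ j).det = -l) → (∀ j, (5 : ℤ) ^ n ∣ (κ j).c) →
    (∀ i j, i ≠ j → ¬ Dv l (κ i * (κ j).adj)) → ∑ j, pre (κ j) ψ = Tl l ψ

-- deps: HK
def S_TW : Prop :=
  ∀ l n : ℕ, l = 2 ∨ l = 3 → ∀ ψ ∈ SS n, Tl l ψ ∈ SS n ∧ WW n (Tl l ψ) = Tl l (WW n ψ)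

-- deps:
def S_WU : Prop :=
  (∀ n, ∀ ψ ∈ SS n, WW n ψ ∈ SS n ∧ WW n (WW n ψ) = ψ ∧ ev (WW n ψ) = -ev ψ ∧
    UU (VV ψ) = (5 : ℂ) • ψ) ∧
  (∀ n ψ, WW (n + 1) ψ = VV (WW n ψ)) ∧ ∀ n, ∀ ψ ∈ SS (n + 2), UU ψ ∈ SS (n + 1)

-- deps: TW WU
def S_KW : Prop :=
  ∀ n, (∀ ψ ∈ SS n, ψ ∈ KK → WW n ψ ∈ KK) ∧ ∀ ψ ∈ Dp n, ψ ∈ KK

-- deps: PINJ PW
def S_FIN : Prop :=
  (∀ n, FiniteDimensional ℂ (SS n)) ∧ ∀ ψ ∈ SS 1, ev ψ = 0 → ψ = 0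

-- deps: WU KW FIN
def S_STEP : Prop :=
  ∀ n, finrank ℂ (Vn (n + 3)) + finrank ℂ (Am (n + 2)) + finrank ℂ (Dp (n + 2)) ≤
    finrank ℂ (Am (n + 3)) + finrank ℂ (Dp (n + 1))

/-! ### Odd level -/

-- deps:
def S_PT : Prop :=
  ∀ m, ∀ ψ ∈ SS (2 * m + 1), ∀ g, GG 5 g →
    pre (Dm m * g) ψ = pre (Dm m * sec m (ra m g 0)) ψ ∧
    ∀ v w p, Ps m (ap g v) (ap g w) ψ p = Ps m v w ψ (ra m g p)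

-- deps: HK
def S_PH : Prop :=
  ∀ m l : ℕ, l.Prime → l ≠ 5 → ∀ ψ ∈ SS (2 * m + 1), ∀ δ : Fin (l + 1) → M2,
    (∀ j, (δ j).det = l) → (∀ j, (5 : ℤ) ∣ (δ j).c) →
    (∀ i j, i ≠ j → ¬ Dv l (δ i * (δ j).adj)) → ∀ v w p,
    Ps m v w (Tl l ψ) p = ∑ j, Ps m (ap (δ j) v) (ap (δ j) w) ψ (ra m (δ j).adj p)

-- deps: PT
def S_PW : Prop :=
  ∀ m, ∀ ψ ∈ SS (2 * m + 1), (∀ p, ph0 m ψ (-p) = ph0 m ψ p) ∧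
    (∀ p, ph0 m (WW (2 * m + 1) ψ) p = -ph0 m ψ p.swap) ∧ ph0 m ψ 0 = ev ψ

-- deps:
def S_ETA : Prop := ∀ m (p : XX m), ra m (eta5 ^ 5 ^ m) p = p

-- deps: PT ETA
def S_PHI : Prop :=
  ∀ m, ∀ ψ ∈ SS (2 * m + 1), ∀ p,
    Ps m (0, 1) (1, 1) ψ p = ph0 m ψ p - ph0 m ψ (ra m mu p) ∧
    2 * Ps m (0, 1) (1, 2) ψ p = ∑ k ∈ Finset.range (5 ^ m),
      (-1) ^ k * (ph0 m ψ (ra m (eta5 ^ k) p) - ph0 m ψ (ra m mu (ra m (eta5 ^ k) p)))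

-- deps: MANIN PT PHI
def S_PINJ : Prop := ∀ m, ∀ ψ ∈ SS (2 * m + 1), ph0 m ψ = 0 → ψ = 0

-- deps: PT PH PW PHI
def S_TAU : Prop :=
  ∀ m, ∀ ψ ∈ SS (2 * m + 1), ∀ ν : Me ℤ m,
    pair (ph0 m ψ) (tau2 ℤ m ν) = 4 * pair (ph0 m (Tl 2 ψ)) ν ∧
    pair (ph0 m ψ) (tau3 ℤ m ν) = 4 * pair (ph0 m (Tl 3 ψ)) ν

-- deps: TAU TW PW
def S_KILL : Prop :=
  ∀ m, ∀ ψ ∈ SS (2 * m + 1), ψ ∈ KK → ∀ Z ∈ HR ℤ m, pair (ph0 m ψ) (Z 1) = 0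

-- deps:
def S_DSYM : Prop := ∀ m, 4 * finrank ℂ (SymF m) ≤ (5 ^ m + 1) ^ 2

-- deps:
def S_INDZ : Prop :=
  ∀ (ι X : Type) [Fintype ι] [Fintype X] (ν : ι → X → ℤ),
    LinearIndependent F5 (fun i x => (ν i x : F5)) → LinearIndependent ℂ (fun i x => (ν i x : ℂ))

-- deps: KILL PW PINJ DSYM INDZ
def S_UB : Prop :=
  ∀ m (ι : Type) [Fintype ι] (Z : ι → Module.End ℤ (Me ℤ m)), (∀ i, Z i ∈ HR ℤ m) →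
    LinearIndependent F5 (fun i => red m (symm ℤ m (Z i 1))) →
    4 * (finrank ℂ (Am (2 * m + 1)) + Fintype.card ι) ≤ (5 ^ m + 1) ^ 2

/-! ### The filtration modulo `5` -/

-- deps:
def S_IND : Prop :=
  ∀ m k (q : PP), piq m q ∈ Fil m k → ∀ d : Fin 2 →₀ ℕ, d 0 < 5 ^ m → d 1 < 5 ^ m →
    d 0 + d 1 < k → q.coeff d = 0

-- deps:
def S_SC : Prop :=
  ∀ (m r : ℕ) (s s' : ZP m),
    push F5 m (fun p => ((1 + 5 ^ r * s) * p.1, (1 + 5 ^ r * s') * p.2)) - 1 ∈ Rs m (5 ^ r - 1)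

-- deps: SC
def S_HEF : Prop :=
  ∀ m, HH m ∈ Rs m 4 ∧ HH m 1 = 0 ∧ HH m (ee m * ff m) - piq m qh ∈ Fil m 7

-- deps: SC
def S_JC : Prop :=
  ∀ (m t : ℕ) (c : ZP m),
    push F5 m (fun p => (p.1, p.2 * (1 + 5 * (5 ^ t * c) * p.2)⁻¹)) - 1 ∈ Rs m (t + 2)

-- deps:
def S_SG : Prop :=
  ∀ m, (∀ k, ∀ μ ∈ Fil m k, rho F5 m md μ - (-1) ^ k * μ ∈ Fil m (k + 1)) ∧ sw F5 m ∈ Rs m 0 ∧
    ∀ q, sw F5 m (piq m q) = piq m (MvPolynomial.rename (Equiv.swap 0 1) q)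

-- deps: JC SG
def S_IO : Prop := ∀ m, EE m - mul m (ee m) ∈ Rs m 2 ∧ FF m - mul m (ff m) ∈ Rs m 2

-- deps: IO
def S_OP : Prop :=
  ∀ m j, ∀ q ∈ Ord j, Op m q ∈ Rs m j ∧ Op m q - mul m (piq m q) ∈ Rs m (j + 1)

-- deps: SC HEF OP
def S_PBW : Prop := ∀ m g, Iw g → (5 : ℤ) ∣ g.a - g.d → rho F5 m g ∈ PB m

-- deps: PBW
def S_PBP : Prop := ∀ m, ∀ Z ∈ Ev m, ∃ Y ∈ PB m, ∀ μ ∈ Np m, Z μ = Y μ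

-- deps:
def S_EV : Prop :=
  ∀ m, xo F5 m ∈ Ev m ∧ yo F5 m ∈ Ev m ∧ (1 : Nm m) ∈ Np m ∧
    ∀ Z ∈ HR F5 m, ∀ μ ∈ Np m, Z μ ∈ Np m

-- deps:
def S_MOM : Prop :=
  ∀ m k (μ : Nm m) (q : PP), (∀ u v, u + v < k → mom μ u v = q.coeff (ex2 u v)) →
    μ - piq m q ∈ Fil m k

-- deps:
def S_NUM : Prop :=
  (∀ u v, u + v < 3 → mom (xo F5 2 1) u v = if (u, v) = (1, 1) then 2 else 0) ∧
  (∀ u v, u + v < 7 → mom (yo F5 2 1) u v =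
    if (u, v) = (3, 3) then 4 else if (u, v) = (1, 5) ∨ (u, v) = (5, 1) then 2 else 0) ∧
  (∀ u v, u + v < 5 → mom (wo F5 2 1) u v = if (u, v) = (1, 3) ∨ (u, v) = (3, 1) then 4 else 0) ∧
  yo F5 2 (xo F5 2 1) = xo F5 2 (yo F5 2 1)

-- deps: ETA
def S_PROJ : Prop :=
  ∀ m (h : 2 ≤ m), (∀ q, pr h (piq m q) = piq 2 q) ∧
    ∀ μ, pr h (xo F5 m μ) = xo F5 2 (pr h μ) ∧ pr h (yo F5 m μ) = yo F5 2 (pr h μ) ∧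
      pr h (wo F5 m μ) = wo F5 2 (pr h μ)

-- deps: MOM NUM PROJ IND
def S_LIFT : Prop :=
  ∀ m, 2 ≤ m → xo F5 m 1 - piq m qx ∈ Fil m 3 ∧ yo F5 m 1 - piq m qy ∈ Fil m 7 ∧
    wo F5 m 1 - piq m qw ∈ Fil m 5 ∧ yo F5 m (xo F5 m 1) - xo F5 m (yo F5 m 1) ∈ Fil m 9

-- deps: OP IND HEF
def S_SYM : Prop :=
  ∀ m k, 2 ≤ m → k < 8 → ∀ (q0 q1 q : PP) (Z : En m),
    Z - (Op m q0 + Op m q1 * HH m) ∈ Rs m 8 → q ∈ Ord k → Z 1 - piq m q ∈ Fil m (k + 1) →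
    q0 - q ∈ Ord (k + 1)

-- deps: SYM PBP EV LIFT OP HEF
def S_SYX : Prop :=
  ∀ m, 2 ≤ m → ∀ k, ∀ μ ∈ Fil m k, μ ∈ Np m → xo F5 m μ - piq m qx * μ ∈ Fil m (k + 3)

-- deps: SYM SYX PBP EV LIFT OP HEF IND
def S_SYY : Prop :=
  ∀ m, 2 ≤ m → ∀ k, ∀ μ ∈ Fil m k, μ ∈ Np m → yo F5 m μ - piq m qy * μ ∈ Fil m (k + 7)

-- deps:
def S_POL : Prop :=
  (∀ t, (famq t).IsHomogeneous (famd t)) ∧
  (∀ t, ∀ d ∈ (famq t).support, ∀ i, d i ≤ t.2.1 + 5 * t.2.2 + if t.1 then 3 else 0) ∧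
  LinearIndependent F5 famq

-- deps: SYX SYY LIFT EV SG POL
def S_FAM : Prop :=
  ∀ m, 2 ≤ m → ∀ t, symm F5 m (fam F5 m t 1) - piq m ((4 : F5) • famq t) ∈ Fil m (famd t + 1)

-- deps: IND
def S_FIND : Prop :=
  ∀ m (ι : Type) (ν : ι → Nm m) (q : ι → PP) (D : ι → ℕ), (∀ i, (q i).IsHomogeneous (D i)) →
    (∀ i, ∀ d ∈ (q i).support, d 0 < 5 ^ m ∧ d 1 < 5 ^ m) →
    (∀ i, ν i - piq m (q i) ∈ Fil m (D i + 1)) → LinearIndependent F5 q → LinearIndependent F5 ν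

-- deps:
def S_CNT : Prop := ∀ Q, (Idx (5 * Q)).card = 5 * Q ^ 2 + 2 * Q

-- deps:
def S_RED : Prop := ∀ m t, red m (symm ℤ m (fam ℤ m t 1)) = symm F5 m (fam F5 m t 1)

-- deps: FAM FIND POL RED
def S_RANK : Prop :=
  ∀ m, 2 ≤ m → LinearIndependent F5 (fun t : Idx (5 ^ m) => red m (symm ℤ m (fam ℤ m t 1)))

/-! ### Even level -/

-- deps:
def S_FAREY : Prop :=
  ∀ φ : M2 → ℂ, (∀ g, g.det = 1 → φ (g * mS) = -φ g) →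
    (∀ g, g.det = 1 → φ g + φ (g * mt) + φ (g * mt * mt) = 0) →
    ∃ ψ ∈ Sym, ∀ g : M2, g.det = 1 → pre g ψ (0, 1) (1, 0) = φ g

-- deps:
def S_TRANS : Prop := ∀ m (J : CC m), ∃ g : M2, g.det = 1 ∧ cj g (J0 m) = J

-- deps: FAREY MANIN TRANS FIN
def S_EVL : Prop := ∀ m, finrank ℂ (YY m) ≤ finrank ℂ (Dp (2 * m))

-- deps:
def S_TR : Prop :=
  ∀ (X : Type) [Fintype X] (σ : X → X),
    LinearMap.trace ℂ (X → ℂ) (LinearMap.funLeft ℂ ℂ σ) = Fx σ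

-- deps: TR
def S_DE : Prop :=
  ∀ m, 8 * finrank ℂ (YE m) + Fx (cj (m := m) mS) + Fx (cj (m := m) mr) +
      Fx (RR ∘ cj (m := m) mS) + Fx (RR ∘ cj (m := m) mr) =
    Nat.card (CC m) + Fx (cj (m := m) md) + Fx (RR (m := m)) + Fx (RR ∘ cj (m := m) md)

-- deps: TR
def S_DF : Prop :=
  ∀ m, 12 * finrank ℂ (YF m) + 3 * Fx (cj (m := m) mr) + 3 * Fx (RR ∘ cj (m := m) mr) =
    Nat.card (CC m) + 2 * Fx (cj (m := m) mt) + Fx (RR (m := m)) + 2 * Fx (RR ∘ cj (m := m) mt)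

-- deps:
def S_RN : Prop := ∀ m, finrank ℂ (YE m) ≤ finrank ℂ (YY m) + finrank ℂ (YF m)

-- deps:
def S_FXA : Prop := ∀ k, 30 * (5 ^ k) ^ 2 ≤ Nat.card (CC (k + 1))

-- deps:
def S_FXB : Prop :=
  ∀ m, Fx (cj (m := m) mS) ≤ Fx (cj (m := m) md) ∧
    Fx (RR ∘ cj (m := m) mS) ≤ Fx (RR ∘ cj (m := m) md)

-- deps:
def S_FXC : Prop :=
  ∀ k, 2 ≤ Fx (cj (m := k + 1) mr) ∧ 4 * 5 ^ k ≤ Fx (RR ∘ cj (m := k + 1) mr) ∧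
    Fx (cj (m := k + 1) mt) = 0 ∧ Fx (RR ∘ cj (m := k + 1) mt) = 0

/-! ### Analysis -/

-- deps:
def S_DEC : Prop :=
  ∀ (N : ℕ) [NeZero N] (f : CuspForm (Gamma0 N) 2), DifferentiableOn ℂ (ft f) UH ∧ Inv N (ft f) ∧
    ∀ g : M2, g.det = 1 → ∃ t : ℝ, 0 < t ∧ sl (ft f) g =O[atI] ex t

-- deps:
def S_PRIM : Prop :=
  ∀ F : ℂ → ℂ, DifferentiableOn ℂ F UH → ∃ E : ℂ → ℂ, ∀ z : ℂ, 0 < z.im → HasDerivAt E (F z) z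

-- deps: PRIM
def S_EICH : Prop :=
  ∀ F : ℂ → ℂ, DifferentiableOn ℂ F UH →
    (∀ g : M2, g.det = 1 → ∃ t : ℝ, 0 < t ∧ sl F g =O[atI] ex t) → ∃ E Φ, Eich F E Φ

-- deps:
def S_LIN : Prop :=
  ∀ F E Φ, Eich F E Φ → ps0 Φ ∈ Sym ∧
    ∀ (ι : Type) [Fintype ι] (g : ι → M2) (c : ℂ), (∀ i, 0 < (g i).det) →
      (∀ z : ℂ, 0 < z.im → ∑ i, sl F (g i) z = c * F z) → ∑ i, pre (g i) (ps0 Φ) = c • ps0 Φ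

-- deps: LIN
def S_PSF : Prop :=
  ∀ (n : ℕ) F E Φ, Eich F E Φ → Inv (5 ^ n) F → psf Φ ∈ SS n ∧ ev (psf Φ) = -2 * Φ (0, 1) ∧
    (∀ (l : ℕ) (c : ℂ), l = 2 ∨ l = 3 →
      (∀ z : ℂ, 0 < z.im → ∑ j, sl F (dl l j) z = c * F z) → Tl l (psf Φ) = c • psf Φ) ∧
    ((∀ z : ℂ, 0 < z.im → ∑ b : Fin 5, sl F ⟨1, (b : ℕ), 0, 5⟩ z = 0) → UU (psf Φ) = 0) ∧
    ((∀ z : ℂ, 0 < z.im → sl F (mW n) z = -F z) → WW n (psf Φ) = -psf Φ)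

-- deps:
def S_MAXP : Prop :=
  ∀ (N : ℤ) (h : ℂ → ℝ), N ≠ 0 → ContinuousOn h UH →
    (∀ g : M2, g.det = 1 → N ∣ g.c → ∀ z : ℂ, 0 < z.im → h (g.act z) = h z) →
    (∀ g : M2, g.det = 1 → Tendsto (fun z => h (g.act z)) atI (𝓝 0)) →
    ∀ z₀ : ℂ, 0 < z₀.im → 0 < h z₀ → ∃ z₁ : ℂ, 0 < z₁.im ∧ ∀ z : ℂ, 0 < z.im → h z ≤ h z₁

-- deps: MAXP LIN
def S_INJ : Prop :=
  ∀ (N : ℤ) F E Φ, N ≠ 0 → Eich F E Φ → Inv N F → psf Φ = 0 → ∀ z : ℂ, 0 < z.im → F z = 0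

-- deps:
def S_LV : Prop :=
  ∀ (N : ℕ) [NeZero N] (f : CuspForm (Gamma0 N) 2) E Φ, Eich (ft f) E Φ →
    ModularForm.L two_pos f 1 = 0 → Φ (0, 1) = 0

-- deps:
def S_QX : Prop :=
  ∀ (N : ℕ) [NeZero N] (f : CuspForm (Gamma0 N) 2),
    (∀ (l : ℕ) (c : ℂ), 0 < l →
      (∀ k, co f (l * k) + (if l ∣ k then l * co f (k / l) else 0) = c * co f k) →
      ∀ z : ℂ, 0 < z.im → ∑ j, sl (ft f) (dl l j) z = c * ft f z) ∧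
    ((∀ k, co f (5 * k) = 0) →
      ∀ z : ℂ, 0 < z.im → ∑ b : Fin 5, sl (ft f) ⟨1, (b : ℕ), 0, 5⟩ z = 0)

-- deps:
def S_FE : Prop :=
  ∀ (N : ℕ) [NeZero N] (f : CuspForm (Gamma0 N) 2),
    (∀ s : ℂ, (N : ℂ) ^ (s / 2) * ModularForm.Λ two_pos f s =
      (N : ℂ) ^ ((2 - s) / 2) * ModularForm.Λ two_pos f (2 - s)) →
    ∀ z : ℂ, 0 < z.im → sl (ft f) ⟨0, -1, N, 0⟩ z = -ft f z

end Pool.Agent.P.MP_e7a540_nt.B5
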