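import Pool.Agent.P.MP_e7a540_nt.B5.Asm
import Pool.Agent.P.MP_e7a540_nt.B5.G1
import Pool.Agent.P.MP_e7a540_nt.B5.G2
import Pool.Agent.P.MP_e7a540_nt.B5.G3
import Pool.Agent.P.MP_e7a540_nt.B5.G4
import Pool.Agent.P.MP_e7a540_nt.B5.G5
import Pool.Agent.P.MP_e7a540_nt.B5.G6

/-! All steps put together. -/

set_option autoImplicit false

namespace Pool.Agent.P.MP_e7a540_nt.B5

open CongruenceSubgroup

theorem q_MANIN : S_MANIN := p_MANIN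
theorem q_HK : S_HK := p_HK
theorem q_TW : S_TW := p_TW q_HK
theorem q_WU : S_WU := p_WU
theorem q_KW : S_KW := p_KW q_TW q_WU
theorem q_PT : S_PT := p_PT
theorem q_ETA : S_ETA := p_ETA
theorem q_PHI : S_PHI := p_PHI q_PT q_ETA
theorem q_PINJ : S_PINJ := p_PINJ q_MANIN q_PT q_PHI
theorem q_PW : S_PW := p_PW q_PT
theorem q_FIN : S_FIN := p_FIN q_PINJ q_PW
theorem q_STEP : S_STEP := p_STEP q_WU q_KW q_FIN
theorem q_PH : S_PH := p_PH q_HK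
theorem q_TAU : S_TAU := p_TAU q_PT q_PH q_PW q_PHI
theorem q_KILL : S_KILL := p_KILL q_TAU q_TW q_PW
theorem q_DSYM : S_DSYM := p_DSYM
theorem q_INDZ : S_INDZ := p_INDZ
theorem q_UB : S_UB := p_UB q_KILL q_PW q_PINJ q_DSYM q_INDZ
theorem q_IND : S_IND := p_IND
theorem q_SC : S_SC := p_SC
theorem q_HEF : S_HEF := p_HEF q_SC
theorem q_JC : S_JC := p_JC q_SC
theorem q_SG : S_SG := p_SG
theorem q_IO : S_IO := p_IO q_JC q_SG
theorem q_OP : S_OP := p_OP q_IO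
theorem q_PBW : S_PBW := p_PBW q_SC q_HEF q_OP
theorem q_PBP : S_PBP := p_PBP q_PBW
theorem q_EV : S_EV := p_EV
theorem q_MOM : S_MOM := p_MOM
theorem q_NUM : S_NUM := p_NUM
theorem q_PROJ : S_PROJ := p_PROJ q_ETA
theorem q_LIFT : S_LIFT := p_LIFT q_MOM q_NUM q_PROJ q_IND
theorem q_SYM : S_SYM := p_SYM q_OP q_IND q_HEF
theorem q_SYX : S_SYX := p_SYX q_SYM q_PBP q_EV q_LIFT q_OP q_HEF
theorem q_SYY : S_SYY := p_SYY q_SYM q_SYX q_PBP q_EV q_LIFT q_OP q_HEF q_IND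
theorem q_POL : S_POL := p_POL
theorem q_FAM : S_FAM := p_FAM q_SYX q_SYY q_LIFT q_EV q_SG q_POL
theorem q_FIND : S_FIND := p_FIND q_IND
theorem q_CNT : S_CNT := p_CNT
theorem q_RED : S_RED := p_RED
theorem q_RANK : S_RANK := p_RANK q_FAM q_FIND q_POL q_RED
theorem q_FAREY : S_FAREY := p_FAREY
theorem q_TRANS : S_TRANS := p_TRANS
theorem q_EVL : S_EVL := p_EVL q_FAREY q_MANIN q_TRANS q_FIN
theorem q_TR : S_TR := p_TR
theorem q_DE : S_DE := p_DE q_TR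
theorem q_DF : S_DF := p_DF q_TR
theorem q_RN : S_RN := p_RN
theorem q_FXA : S_FXA := p_FXA
theorem q_FXB : S_FXB := p_FXB
theorem q_FXC : S_FXC := p_FXC
theorem q_DEC : S_DEC := p_DEC
theorem q_PRIM : S_PRIM := p_PRIM
theorem q_EICH : S_EICH := p_EICH q_PRIM
theorem q_LIN : S_LIN := p_LIN
theorem q_PSF : S_PSF := p_PSF q_LIN
theorem q_MAXP : S_MAXP := p_MAXP
theorem q_INJ : S_INJ := p_INJ q_MAXP q_LIN
theorem q_LV : S_LV := p_LV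
theorem q_QX : S_QX := p_QX
theorem q_FE : S_FE := p_FE

theorem main (n : ℕ) (f : CuspForm (Gamma0 (5 ^ n)) 2) (hf : f ≠ 0)
    (hT : ∀ l : ℕ, l = 2 ∨ l = 3 → ∃ c : ℂ, ∀ k,
      co f (l * k) + (if l ∣ k then l * co f (k / l) else 0) = c * co f k)
    (hU : 2 ≤ n → ∀ k, co f (5 * k) = 0)
    (hW : ∀ s : ℂ, (5 ^ n : ℂ) ^ (s / 2) * ModularForm.Λ two_pos f s =
      (5 ^ n : ℂ) ^ ((2 - s) / 2) * ModularForm.Λ two_pos f (2 - s)) :
    ModularForm.L two_pos f 1 ≠ 0 :=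
  main_of q_FIN (Vn_bot q_WU q_FIN q_STEP q_EVL q_DE q_DF q_RN q_FXA q_FXB q_FXC q_UB q_RANK q_CNT)
    q_DEC q_EICH q_PSF q_INJ q_LV q_QX q_FE n f hf hT hU hW

end Pool.Agent.P.MP_e7a540_nt.B5
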